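import Pool.Agent.H500.MWB
import Pool.Graph.R_seed8.Y800.Ext
import Pool.Graph.R_seed8.Y800.Frob2

set_option autoImplicit false
set_option linter.unusedSectionVars false

/-!
# Local data: residual representations with constituents of small projective image
-/

namespace Pool.Agent.H500.MW

open NumberField IsDedekindDomain Filter Topology Polynomial
open Pool.Agent.H500.Tr (om om_open om_frob om_inert)
open Pool.Agent.Y800 (GQ ZBar QBar Unramified IsGeomFrob)

variable {E : Type} [Field E] [NumberField E]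

/-- There are representations `ρ j` of positive dimension of the absolute Galois group of `ℚ` over a
field which contains the residue field of `v`, with open kernel, such that a subgroup of index at
most `C` acts by scalars on each of them, unramified at the primes `p ∉ S` with `p ∉ v`, and such that
for these primes the product of the characteristic polynomials of a geometric Frobenius element
at `p` is `P p` modulo `v`. -/
def SmallProj (P : ℕ → (𝓞 E)[X]) (S : Finset ℕ) (C : ℕ) (v : HeightOneSpectrum (𝓞 E)) : Prop :=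
  ∃ (k : Type) (_ : Field k) (φ : 𝓞 E →+* k) (J : Type) (_ : Fintype J) (m : J → ℕ)
    (ρ : ∀ j, GQ →* GL (Fin (m j)) k),
    RingHom.ker φ = v.asIdeal ∧ (∀ j, 0 < m j) ∧ (∀ j, IsOpen ((ρ j).ker : Set GQ)) ∧
    (∀ j, ∃ U : Subgroup GQ, U.index ≠ 0 ∧ U.index ≤ C ∧
      ∀ u ∈ U, ∃ c : k, (ρ j u : Matrix (Fin (m j)) (Fin (m j)) k) = c • 1) ∧
    ∀ p : ℕ, p.Prime → p ∉ S → (p : 𝓞 E) ∉ v.asIdeal → (∀ j, Unramified (ρ j) p) ∧
      ∀ Q : Ideal ZBar, Q.IsMaximal → (p : ZBar) ∈ Q → ∀ σ : GQ, IsGeomFrob p Q σ →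
        ∏ j, (ρ j σ : Matrix (Fin (m j)) (Fin (m j)) k).charpoly = (P p).map φ

/-- iterating the Frobenius map of a finite field -/
theorem pow_iter {k : Type} [Monoid k] {x : k} {Q : ℕ} (h : x ^ Q = x) (t : ℕ) : x ^ (Q ^ t) = x := by
  induction t with
  | zero => rw [pow_zero, pow_one]
  | succ t ih => rw [pow_succ, pow_mul, ih, h]

/-- the roots of a polynomial of degree `n` over the residue field -/
theorem root_fin (v : HeightOneSpectrum (𝓞 E)) {k : Type} [Field k] (φ : 𝓞 E →+* k)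
    (hφ : RingHom.ker φ = v.asIdeal) {n : ℕ} (f : (𝓞 E)[X]) (hf : f.Monic) (hfn : f.natDegree = n)
    {x : k} (hx : (f.map φ).IsRoot x) : x ^ (Ideal.absNorm v.asIdeal ^ n.factorial) = x := by
  classical
  have hmax := v.isMaximal
  let _ : Field (𝓞 E ⧸ v.asIdeal) := Ideal.Quotient.field v.asIdeal
  have hfinκ : Finite (𝓞 E ⧸ v.asIdeal) := Ideal.finiteQuotientOfFreeOfNeBot _ v.ne_bot
  have hz : ∀ a ∈ v.asIdeal, φ a = 0 := fun a ha => by
    rw [← hφ, RingHom.mem_ker] at ha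
    exact ha
  set φ' : 𝓞 E ⧸ v.asIdeal →+* k := Ideal.Quotient.lift v.asIdeal φ hz with hφ'
  have hcomp : φ'.comp (Ideal.Quotient.mk v.asIdeal) = φ := by
    exact RingHom.ext fun a => Ideal.Quotient.lift_mk v.asIdeal φ hz
  let _ : Algebra (𝓞 E ⧸ v.asIdeal) k := φ'.toAlgebra
  set g : (𝓞 E ⧸ v.asIdeal)[X] := f.map (Ideal.Quotient.mk v.asIdeal) with hg
  have hgm : g.Monic := hf.map _
  have hgn : g.natDegree = n := by
    rw [hg, hf.natDegree_map, hfn]
  have hgx : aeval x g = 0 := by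
    rw [aeval_def, hg, eval₂_map]
    have e : (algebraMap (𝓞 E ⧸ v.asIdeal) k).comp (Ideal.Quotient.mk v.asIdeal) = φ := hcomp
    rw [e, ← eval_map]
    exact hx
  have hint : IsIntegral (𝓞 E ⧸ v.asIdeal) x := ⟨g, hgm, by rw [← aeval_def]; exact hgx⟩
  set L := IntermediateField.adjoin (𝓞 E ⧸ v.asIdeal) ({x} : Set k) with hL
  have hfd : FiniteDimensional (𝓞 E ⧸ v.asIdeal) L := IntermediateField.adjoin.finiteDimensional hint
  have hd : Module.finrank (𝓞 E ⧸ v.asIdeal) L = (minpoly (𝓞 E ⧸ v.asIdeal) x).natDegree :=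
    IntermediateField.adjoin.finrank hint
  have hdn : (minpoly (𝓞 E ⧸ v.asIdeal) x).natDegree ≤ n := by
    rw [← hgn]
    exact natDegree_le_of_dvd (minpoly.dvd _ _ hgx) hgm.ne_zero
  have hd0 : 0 < (minpoly (𝓞 E ⧸ v.asIdeal) x).natDegree := minpoly.natDegree_pos hint
  have hfinL : Finite L := Module.finite_of_finite (𝓞 E ⧸ v.asIdeal)
  let _ : Fintype L := Fintype.ofFinite L
  have hcard : Fintype.card L = Ideal.absNorm v.asIdeal ^ (minpoly (𝓞 E ⧸ v.asIdeal) x).natDegree := by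
    rw [← Nat.card_eq_fintype_card, Module.natCard_eq_pow_finrank (K := 𝓞 E ⧸ v.asIdeal), hd,
      Ideal.absNorm_apply, Submodule.cardQuot_apply]
  have h1 := FiniteField.pow_card (⟨x, IntermediateField.mem_adjoin_simple_self _ x⟩ : L)
  have h2 : x ^ Fintype.card L = x := congrArg (fun y : L => (y : k)) h1
  rw [hcard] at h2
  obtain ⟨t, ht⟩ := Nat.dvd_factorial hd0 hdn
  rw [ht, pow_mul]
  exact pow_iter h2 t

/-- The processed local data. -/
structure Loc (j0 : E →+* QBar) {n : ℕ} (α : ℕ → Fin n → ZBar) (S : Finset ℕ) (C M : ℕ)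
    (v : HeightOneSpectrum (𝓞 E)) where
  k : Type
  [fk : Field k]
  [ac : IsAlgClosed k]
  l : ℕ
  [hl : Fact l.Prime]
  [ch : CharP k l]
  ψ : ZBar →+* k
  J : Type
  [fJ : Fintype J]
  m : J → ℕ
  ρ : ∀ j, GQ →* GL (Fin (m j)) k
  hm : ∀ j, 0 < m j
  hker : RingHom.ker (ψ.comp (RingOfIntegers.mapRingHom j0)) = v.asIdeal
  hopen : ∀ j, IsOpen ((ρ j).ker : Set GQ)
  hU : ∀ j, ∃ U : Subgroup GQ, U.index ≠ 0 ∧ U.index ≤ C ∧
      ∀ u ∈ U, ∃ c : k, (ρ j u : Matrix (Fin (m j)) (Fin (m j)) k) = c • 1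
  hur : ∀ j, ∀ p : ℕ, p.Prime → p ∉ S → p ≠ l → Unramified (ρ j) p
  hfrob : ∀ p : ℕ, p.Prime → p ∉ S → p ≠ l → 
      ∀ Q : Ideal ZBar, Q.IsMaximal → (p : ZBar) ∈ Q → ∀ σ : GQ, IsGeomFrob p Q σ →
        ∏ j, (ρ j σ : Matrix (Fin (m j)) (Fin (m j)) k).charpoly = ∏ i, (X - Polynomial.C (ψ (α p i)))
  e : J → ℕ
  he : ∀ j g, ∀ x : k, (ρ j g : Matrix (Fin (m j)) (Fin (m j)) k).charpoly.IsRoot x →
      x ^ M = ((Units.map (ZMod.castHom (dvd_refl l) k : ZMod l →* k) (om l g)⁻¹ : kˣ) : k) ^ e j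

attribute [instance] Loc.fk Loc.ac Loc.hl Loc.ch Loc.fJ

theorem exists_good_prime (S : Finset ℕ) : ∃ p : ℕ, p.Prime ∧ p ∉ S := by
  obtain ⟨p, hp, hpr⟩ := Nat.exists_infinite_primes (S.sup id + 1)
  refine ⟨p, hpr, fun h => ?_⟩
  have h1 : p ≤ S.sup id := Finset.le_sup (f := id) h
  omega

theorem charpoly_conj' {k : Type} [Field k] {m : ℕ} (a b : GL (Fin m) k) :
    ((a * b * a⁻¹ : GL (Fin m) k) : Matrix (Fin m) (Fin m) k).charpoly =
      (b : Matrix (Fin m) (Fin m) k).charpoly := by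
  rw [Units.val_mul, Units.val_mul]
  exact Pool.Agent.Y800.charpoly_conj a _

/-- **Existence of the local data.** -/
theorem exists_loc (j0 : E →+* QBar) {n : ℕ} (P : ℕ → (𝓞 E)[X]) (S : Finset ℕ)
    (hPm : ∀ p : ℕ, p.Prime → p ∉ S → (P p).Monic) (α : ℕ → Fin n → ZBar)
    (hα : ∀ p : ℕ, p.Prime → p ∉ S → (P p).map (RingOfIntegers.mapRingHom j0) =
      ∏ i, (X - Polynomial.C (α p i))) {C r0 κ : ℕ} (hr0 : ∀ s ∈ S, s ≤ r0)
    {v : HeightOneSpectrum (𝓞 E)}
    (hv : ∀ r : ℕ, r.Prime → r ≤ r0 → ¬ r ^ (κ + 1) ∣ Ideal.absNorm v.asIdeal ^ n.factorial - 1)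
    (h : SmallProj P S C v) :
    Nonempty (Loc j0 α S C (C.factorial * n.factorial * r0.factorial ^ κ) v) := by
  classical
  obtain ⟨k, _, φ, J, _, m, ρ, hker, hm, hopen, hU, hfr⟩ := h
  obtain ⟨l, hl, hlv⟩ := Pool.Agent.Y800.HM.exists_prime_mem E v.asIdeal v.isMaximal
  have hlf : Fact l.Prime := ⟨hl⟩
  have hz : ∀ a : 𝓞 E, a ∈ v.asIdeal ↔ φ a = 0 := fun a => by
    rw [← hker, RingHom.mem_ker]
  have hl0 : (l : k) = 0 := by
    have h1 := (hz _).1 hlv
    rwa [map_natCast] at h1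
  have hch : CharP k l := (CharP.charP_iff_prime_eq_zero hl).2 hl0
  set K := AlgebraicClosure k with hK
  set ι : k →+* K := algebraMap k K with hι
  have hchK : CharP K l := (CharP.charP_iff_prime_eq_zero hl).2 (by
    rw [← map_natCast ι, hl0, map_zero])
  obtain ⟨ψ, hψ⟩ := Pool.Agent.Y800.extend j0 (ι.comp φ)
  have hψc : ψ.comp (RingOfIntegers.mapRingHom j0) = ι.comp φ := RingHom.ext hψ
  set ρ1 : ∀ j, GQ →* GL (Fin (m j)) K := fun j => (Matrix.GeneralLinearGroup.map ι).comp (ρ j)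
    with hρ1
  have hco : ∀ j g, (ρ1 j g : Matrix (Fin (m j)) (Fin (m j)) K) =
      (ρ j g : Matrix (Fin (m j)) (Fin (m j)) k).map ι := fun j g => rfl
  have hcp : ∀ j g, (ρ1 j g : Matrix (Fin (m j)) (Fin (m j)) K).charpoly =
      (ρ j g : Matrix (Fin (m j)) (Fin (m j)) k).charpoly.map ι := fun j g => by
    rw [hco, Matrix.charpoly_map]
  have hpl : ∀ p : ℕ, p.Prime → p ≠ l → (p : 𝓞 E) ∉ v.asIdeal := by
    intro p hp hpl h1
    rw [hz, map_natCast] at h1
    have h2 := (CharP.cast_eq_zero_iff k l p).1 h1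
    exact hpl ((Nat.prime_dvd_prime_iff_eq hl hp).1 h2).symm
  have hopen1 : ∀ j, IsOpen ((ρ1 j).ker : Set GQ) := by
    intro j
    have h1 : (ρ1 j).ker = (ρ j).ker := Pool.Agent.Y800.ker_map ι (ρ j)
    rw [h1]
    exact hopen j
  have hU1 : ∀ j, ∃ U : Subgroup GQ, U.index ≠ 0 ∧ U.index ≤ C ∧
      ∀ u ∈ U, ∃ c : K, (ρ1 j u : Matrix (Fin (m j)) (Fin (m j)) K) = c • 1 := by
    intro j
    obtain ⟨U, h1, h2, h3⟩ := hU j
    refine ⟨U, h1, h2, fun u hu => ?_⟩
    obtain ⟨c, hc⟩ := h3 u hu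
    refine ⟨ι c, ?_⟩
    rw [hco, hc]
    ext a b
    rw [Matrix.map_apply, Matrix.smul_apply, Matrix.smul_apply, smul_eq_mul, smul_eq_mul, map_mul]
    congr 1
    by_cases hab : a = b
    · subst hab
      rw [Matrix.one_apply_eq, Matrix.one_apply_eq, map_one]
    · rw [Matrix.one_apply_ne hab, Matrix.one_apply_ne hab, map_zero]
  have hur1 : ∀ j, ∀ p : ℕ, p.Prime → p ∉ S → p ≠ l → Unramified (ρ1 j) p := by
    intro j p hp hpS hpl' Q hQ hpQ τ hτ
    show Matrix.GeneralLinearGroup.map ι (ρ j τ) = 1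
    rw [(hfr p hp hpS (hpl p hp hpl')).1 j Q hQ hpQ τ hτ, map_one]
  have hfrob0 : ∀ p : ℕ, p.Prime → p ∉ S → p ≠ l →
      ∀ Q : Ideal ZBar, Q.IsMaximal → (p : ZBar) ∈ Q → ∀ σ : GQ, IsGeomFrob p Q σ →
        ∏ j, (ρ1 j σ : Matrix (Fin (m j)) (Fin (m j)) K).charpoly = (P p).map (ι.comp φ) := by
    intro p hp hpS hpl' Q hQ hpQ σ hσ
    have h1 := (hfr p hp hpS (hpl p hp hpl')).2 Q hQ hpQ σ hσ
    rw [← Polynomial.map_map, ← h1, Polynomial.map_prod]
    exact Finset.prod_congr rfl fun j _ => hcp j σ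
  have hfrob1 : ∀ p : ℕ, p.Prime → p ∉ S → p ≠ l →
      ∀ Q : Ideal ZBar, Q.IsMaximal → (p : ZBar) ∈ Q → ∀ σ : GQ, IsGeomFrob p Q σ →
        ∏ j, (ρ1 j σ : Matrix (Fin (m j)) (Fin (m j)) K).charpoly =
          ∏ i, (X - Polynomial.C (ψ (α p i))) := by
    intro p hp hpS hpl' Q hQ hpQ σ hσ
    rw [hfrob0 p hp hpS hpl' Q hQ hpQ σ hσ, ← hψc, ← Polynomial.map_map, hα p hp hpS,
      Polynomial.map_prod]
    refine Finset.prod_congr rfl fun i _ => ?_
    rw [Polynomial.map_sub, Polynomial.map_X, Polynomial.map_C]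
  have hdeg : ∀ p : ℕ, p.Prime → p ∉ S → (P p).natDegree = n := by
    intro p hp hpS
    have h1 := congrArg natDegree (hα p hp hpS)
    rw [(hPm p hp hpS).natDegree_map, natDegree_prod_of_monic _ _ (fun i _ => monic_X_sub_C _)] at h1
    simpa using h1
  have hmn : ∀ j, m j ≤ n := by
    intro j
    obtain ⟨p, hp, hpS⟩ := exists_good_prime (insert l S)
    rw [Finset.mem_insert, not_or] at hpS
    obtain ⟨Q, σ, hQ, hpQ, hσ⟩ := Pool.Agent.Y800.exists_geom hp
    have h1 := congrArg natDegree (hfrob1 p hp hpS.2 hpS.1 Q hQ hpQ σ hσ)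
    rw [natDegree_prod_of_monic _ _ (fun j _ => Matrix.charpoly_monic _),
      natDegree_prod_of_monic _ _ (fun i _ => monic_X_sub_C _)] at h1
    simp only [Matrix.charpoly_natDegree_eq_dim, Fintype.card_fin, natDegree_X_sub_C,
      Finset.sum_const, Finset.card_univ, smul_eq_mul, mul_one] at h1
    calc m j ≤ ∑ j, m j := Finset.single_le_sum (fun _ _ => Nat.zero_le _) (Finset.mem_univ j)
      _ = n := h1
  set q := Ideal.absNorm v.asIdeal with hq
  set Q0 := q ^ n.factorial - 1 with hQ0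
  have hlq : l ∣ q := by
    have h1 : ((q : ℕ) : 𝓞 E) ∈ v.asIdeal := Ideal.absNorm_mem _
    rw [hz, map_natCast] at h1
    exact (CharP.cast_eq_zero_iff k l q).1 h1
  have hq0 : q ≠ 0 := by
    rw [hq, Ne, Ideal.absNorm_eq_zero_iff]
    exact v.ne_bot
  have hq1 : 1 < q := lt_of_lt_of_le hl.one_lt (Nat.le_of_dvd (Nat.pos_of_ne_zero hq0) hlq)
  have hQ1 : 1 < q ^ n.factorial := Nat.one_lt_pow (Nat.factorial_ne_zero n) hq1
  have hQl : ¬ l ∣ Q0 := by
    intro h1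
    have h2 : l ∣ q ^ n.factorial := dvd_pow hlq (Nat.factorial_ne_zero n)
    have h3 : l ∣ q ^ n.factorial - Q0 := Nat.dvd_sub h2 h1
    have h4 : q ^ n.factorial - Q0 = 1 := by omega
    rw [h4] at h3
    exact hl.one_lt.ne' (Nat.dvd_one.1 h3)
  have hroot : ∀ j g, ∀ x : K, (ρ1 j g : Matrix (Fin (m j)) (Fin (m j)) K).charpoly.IsRoot x →
      x ^ Q0 = 1 := by
    intro j g x hx
    set U : Subgroup GQ := ⨅ j, (ρ1 j).ker with hUdef
    have hUn : U.Normal := Subgroup.normal_iInf_normal fun j => inferInstance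
    have hUo : IsOpen (U : Set GQ) := by
      rw [hUdef, Subgroup.coe_iInf]
      exact isOpen_iInter_of_finite hopen1
    obtain ⟨p, hp, hpS, Pp, hPp, hpP, σ, hσ, τ, hτ⟩ :=
      Pool.Agent.Y800.exists_frob U hUo (insert l S) g
    rw [Finset.mem_insert, not_or] at hpS
    have h1 : ρ1 j (τ * σ * τ⁻¹) = ρ1 j g := by
      have h2 : (τ * σ * τ⁻¹ * g⁻¹) ∈ (ρ1 j).ker := (Subgroup.mem_iInf.1 hτ) j
      rw [MonoidHom.mem_ker, map_mul, map_inv, mul_inv_eq_one] at h2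
      exact h2
    rw [← h1, map_mul, map_mul, map_inv, charpoly_conj'] at hx
    have h3 : ((P p).map (ι.comp φ)).IsRoot x := by
      rw [← hfrob0 p hp hpS.2 hpS.1 Pp hPp hpP σ hσ, IsRoot, eval_prod]
      exact Finset.prod_eq_zero (Finset.mem_univ j) hx
    have h4 := root_fin v (ι.comp φ) (by
      rw [← hker]
      ext a
      rw [RingHom.mem_ker, RingHom.mem_ker, RingHom.comp_apply, map_eq_zero]) (P p)
      (hPm p hp hpS.2) (hdeg p hp hpS.2) h3
    have hx0 : x ≠ 0 := by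
      rintro rfl
      obtain ⟨w, hw, hw1⟩ := exists_eigen _ hx
      rw [zero_smul] at hw1
      apply hw
      have h5 : ((ρ1 j σ)⁻¹ : GL (Fin (m j)) K).1.mulVec ((ρ1 j σ).1.mulVec w) = w := by
        rw [Matrix.mulVec_mulVec, ← Units.val_mul, inv_mul_cancel, Units.val_one,
          Matrix.one_mulVec]
      rw [← h5]
      show ((ρ1 j σ)⁻¹ : GL (Fin (m j)) K).1.mulVec
        ((ρ1 j σ : Matrix (Fin (m j)) (Fin (m j)) K).mulVec w) = 0
      rw [hw1, Matrix.mulVec_zero]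
    have h6 : x ^ Q0 * x = 1 * x := by
      rw [← pow_succ, one_mul]
      have h7 : Q0 + 1 = q ^ n.factorial := by omega
      rw [h7]
      exact h4
    exact mul_right_cancel₀ hx0 h6
  have hR : ∀ r : ℕ, r.Prime → r ≤ r0 → ∀ κ' : ℕ, r ^ κ' ∣ Q0 → r ^ κ' ∣ r0.factorial ^ κ := by
    intro r hr hrr κ' h1
    have h2 : κ' ≤ κ := by
      by_contra hlt
      push Not at hlt
      exact hv r hr hrr ((pow_dvd_pow r hlt).trans h1)
    exact (pow_dvd_pow r h2).trans (pow_dvd_pow_of_dvd (Nat.dvd_factorial hr.pos hrr) κ)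
  have hexp : ∀ j, ∃ e : ℕ, ∀ g, ∀ x : K,
      (ρ1 j g : Matrix (Fin (m j)) (Fin (m j)) K).charpoly.IsRoot x →
      x ^ (C.factorial * n.factorial * r0.factorial ^ κ) =
        ((Units.map (ZMod.castHom (dvd_refl l) K : ZMod l →* K) (om l g)⁻¹ : Kˣ) : K) ^ e := by
    intro j
    obtain ⟨U, h1, h2, h3⟩ := hU1 j
    obtain ⟨e, he⟩ := local_exp (ρ1 j) (hopen1 j) U h1 h2 h3 S
      (fun q hq hqS hql => hur1 j q hq hqS hql) hQl (by omega) (hroot j) hr0 hR
    obtain ⟨t, ht⟩ := Nat.dvd_factorial (hm j) (hmn j)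
    refine ⟨e * t, fun g x hx => ?_⟩
    have h4 : C.factorial * n.factorial * r0.factorial ^ κ =
        (C.factorial * m j * r0.factorial ^ κ) * t := by
      rw [ht]
      ring
    rw [h4, pow_mul, he g x hx, ← pow_mul]
  choose e he using hexp
  exact ⟨{ k := K, l := l, ψ := ψ, J := J, m := m, ρ := ρ1, hm := hm,
           hker := by
            rw [hψc, ← hker]
            ext a
            rw [RingHom.mem_ker, RingHom.mem_ker, RingHom.comp_apply, map_eq_zero]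
           hopen := hopen1, hU := hU1, hur := hur1, hfrob := hfrob1, e := e, he := he }⟩

end Pool.Agent.H500.MW
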