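import Pool.Agent.H500.KumGal

set_option autoImplicit false
set_option linter.unusedSectionVars false

/-!
# The cyclotomic characters of the absolute Galois group are surjective away from the discriminant
-/

namespace Pool.Agent.H500.Kum

open NumberField IsDedekindDomain Pool.Agent.W569.FM Aff IntermediateField

section

variable {E L' : Type} [Field E] [NumberField E] [Field L'] [NumberField L']
  [Algebra E L'] {M : ℕ} [hM0 : NeZero M] [IsCyclotomicExtension {M} E L']

instance (priority := low) tower : IsScalarTower ℚ E L' :=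
  IsScalarTower.of_algebraMap_eq' (Subsingleton.elim _ _)

/-- the image of `E` -/
noncomputable def F1 (L L' : Type) [Field L] [NumberField L] [Field L'] [NumberField L']
    [Algebra L L'] : IntermediateField ℚ L' := (IsScalarTower.toAlgHom ℚ L L').fieldRange

noncomputable def e1 (L L' : Type) [Field L] [NumberField L] [Field L'] [NumberField L']
    [Algebra L L'] : L ≃ₐ[ℚ] F1 L L' := AlgEquiv.ofInjectiveField _

theorem sup_eq_top {ζ : L'} (hζ : IsPrimitiveRoot ζ M) : ℚ⟮ζ⟯ ⊔ F1 E L' = ⊤ := by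
  rw [eq_top_iff]
  intro x _
  have h1 : x ∈ Algebra.adjoin E ({ζ} : Set L') := by
    rw [IsCyclotomicExtension.adjoin_primitive_root_eq_top hζ]; trivial
  refine Algebra.adjoin_induction (p := fun x _ => x ∈ ℚ⟮ζ⟯ ⊔ F1 E L') ?_ ?_ ?_ ?_ h1
  · intro y hy
    rw [Set.mem_singleton_iff.1 hy]
    exact (le_sup_left : ℚ⟮ζ⟯ ≤ ℚ⟮ζ⟯ ⊔ F1 E L') (mem_adjoin_simple_self ℚ ζ)
  · intro y
    exact (le_sup_right : F1 E L' ≤ ℚ⟮ζ⟯ ⊔ F1 E L') ⟨y, rfl⟩
  · intro a b _ _ ha hb
    exact add_mem ha hb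
  · intro a b _ _ ha hb
    exact mul_mem ha hb

theorem finrank_eq (hcopr : IsCoprime (M : ℤ) (discr E)) :
    Module.finrank E L' = M.totient := by
  have hζ := IsCyclotomicExtension.zeta_spec M E L'
  set ζ := IsCyclotomicExtension.zeta M E L'
  have h2 : IsCyclotomicExtension {M} ℚ ℚ⟮ζ⟯ := hζ.intermediateField_adjoin_isCyclotomicExtension ℚ
  have h1 : IsGalois ℚ ℚ⟮ζ⟯ := IsCyclotomicExtension.isGalois {M} ℚ _
  have hcop : IsCoprime (discr ℚ⟮ζ⟯) (discr (F1 E L')) := by
    rw [← discr_eq_discr_of_algEquiv E (e1 E L')]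
    have h3 : (discr ℚ⟮ζ⟯) ∣ (M : ℤ) ^ M.totient := by
      rw [← Int.natAbs_dvd_natAbs, IsCyclotomicExtension.Rat.natAbs_discr M ℚ⟮ζ⟯, Int.natAbs_pow,
        Int.natAbs_natCast]
      exact Nat.div_dvd_of_dvd (Nat.prod_primeFactors_pow_totient_ediv_dvd (NeZero.pos _))
    exact IsCoprime.of_isCoprime_of_dvd_left (hcopr.pow_left) h3
  have hld := linearDisjoint_of_isGalois_isCoprime_discr L' ℚ⟮ζ⟯ (F1 E L') hcop
  have h4 := hld.finrank_sup
  rw [sup_eq_top hζ, IntermediateField.finrank_top', ← (e1 E L').toLinearEquiv.finrank_eq,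
    IsCyclotomicExtension.Rat.finrank M ℚ⟮ζ⟯, ← Module.finrank_mul_finrank ℚ E L', mul_comm] at h4
  exact Nat.eq_of_mul_eq_mul_right Module.finrank_pos h4

theorem exists_aut (hcopr : IsCoprime (M : ℤ) (discr E)) {ζ : L'} (hζ : IsPrimitiveRoot ζ M)
    (t : (ZMod M)ˣ) : ∃ τ : Gal(L'/E), τ ζ = ζ ^ (t : ZMod M).val := by
  have : IsGalois E L' := IsCyclotomicExtension.isGalois {M} E L'
  have : FiniteDimensional E L' := Module.finite_of_finrank_pos (by
    rw [finrank_eq (E := E) (L' := L') hcopr]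
    exact Nat.totient_pos.2 (NeZero.pos M))
  have hinj : Function.Injective (hζ.autToPow E) := hζ.autToPow_injective E
  have hbij := hinj.bijective_of_nat_card_le (by
    rw [IsGalois.card_aut_eq_finrank, finrank_eq (E := E) (L' := L') hcopr,
      Nat.card_eq_fintype_card, ZMod.card_units_eq_totient])
  obtain ⟨τ, hτ⟩ := hbij.2 t
  exact ⟨τ, by rw [← hζ.autToPow_spec E τ, hτ]⟩

end

theorem cyc_surj {E : Type} [Field E] [NumberField E] {M : ℕ} (hM : 0 < M)
    (hcopr : IsCoprime (M : ℤ) (discr E)) {a : ℕ} (ha : a.Coprime M) :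
    ∃ g : GF E, ∀ z : AlgebraicClosure E, z ^ M = 1 → g z = z ^ a := by
  have : NeZero M := ⟨hM.ne'⟩
  have hNE : NeZero ((M : ℕ) : E) := ⟨Nat.cast_ne_zero.2 hM.ne'⟩
  let L' := CyclotomicField M E
  have : NumberField L' := IsCyclotomicExtension.numberField {M} E L'
  have hζ := IsCyclotomicExtension.zeta_spec M E L'
  set ζ := IsCyclotomicExtension.zeta M E L'
  obtain ⟨τ, hτ⟩ := exists_aut hcopr hζ (ZMod.unitOfCoprime a ha)
  have halg : Algebra.IsAlgebraic E L' := inferInstance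
  let f : L' →ₐ[E] AlgebraicClosure E := IsAlgClosed.lift
  let _ : Algebra L' (AlgebraicClosure E) := f.toRingHom.toAlgebra
  have : IsScalarTower E L' (AlgebraicClosure E) :=
    IsScalarTower.of_algebraMap_eq fun x => (f.commutes x).symm
  refine ⟨τ.liftNormal (AlgebraicClosure E), fun z hz => ?_⟩
  have hζ' : IsPrimitiveRoot (algebraMap L' (AlgebraicClosure E) ζ) M :=
    hζ.map_of_injective (algebraMap L' (AlgebraicClosure E)).injective
  obtain ⟨i, -, hi⟩ := hζ'.eq_pow_of_pow_eq_one hz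
  have h1 : τ.liftNormal (AlgebraicClosure E) (algebraMap L' (AlgebraicClosure E) ζ) =
      (algebraMap L' (AlgebraicClosure E) ζ) ^ a := by
    rw [AlgEquiv.liftNormal_commutes, hτ, ZMod.coe_unitOfCoprime, ZMod.val_natCast, map_pow]
    exact (pow_eq_pow_mod _ hζ'.pow_eq_one).symm
  rw [← hi, map_pow, h1, ← pow_mul, ← pow_mul, mul_comm]

section

variable {E : Type} [Field E] [NumberField E] {ι : Type} [Fintype ι] (r : ι → ℕ)
  [hr : ∀ i, Fact (r i).Prime]

theorem chi_surj (hinj : Function.Injective r) (hdis : ∀ i, ¬ (r i : ℤ) ∣ discr E)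
    (D : ∀ i, KD E (r i)) (t : (i : ι) → (ZMod (r i))ˣ) :
    ∃ g : GF E, ∀ i, ((D i).Phi g).a = t i := by
  classical
  choose e he1 he2 using exists_idem r hinj
  set a : ℕ := ∑ i, e i * (t i : ZMod (r i)).val with ha
  have hai : ∀ i, (a : ZMod (r i)) = t i := by
    intro i
    rw [ha]
    push_cast
    rw [Finset.sum_eq_single i]
    · rw [he1, one_mul, ZMod.natCast_zmod_val]
    · intro j _ hj
      rw [he2 j i hj.symm, zero_mul]
    · intro h
      exact absurd (Finset.mem_univ i) h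
  set M : ℕ := ∏ i, r i with hM
  have hM0 : 0 < M := Finset.prod_pos fun i _ => (hr i).out.pos
  have hcop : IsCoprime (M : ℤ) (discr E) := by
    rw [hM]
    push_cast
    apply IsCoprime.prod_left
    intro i _
    exact (Prime.coprime_iff_not_dvd (Nat.prime_iff_prime_int.1 (hr i).out)).2 (hdis i)
  have haM : a.Coprime M := by
    rw [hM]
    apply Nat.Coprime.prod_right
    intro i _
    rw [Nat.coprime_comm, (hr i).out.coprime_iff_not_dvd, ← ZMod.natCast_eq_zero_iff, hai]
    exact (t i).ne_zero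
  obtain ⟨g, hg⟩ := cyc_surj hM0 hcop haM
  refine ⟨g, fun i => ?_⟩
  apply Units.ext
  show (D i).chi g = t i
  apply (D i).chi_unique
  apply RingOfIntegers.ext
  have hzM : ((D i).z : AlgebraicClosure E) ^ M = 1 := by
    obtain ⟨k, hk⟩ : r i ∣ M := Finset.dvd_prod_of_mem _ (Finset.mem_univ i)
    rw [hk, pow_mul]
    have h1 : ((D i).z : AlgebraicClosure E) ^ r i = 1 := by
      have := congrArg (fun w : OO E => (w : AlgebraicClosure E)) (D i).z_pow
      simpa using this
    rw [h1, one_pow]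
  have h2 := hg _ hzM
  have h3 : ((D i).z) ^ (t i : ZMod (r i)).val = (D i).z ^ a := by
    rw [← hai i, ZMod.val_natCast]
    exact (pow_eq_pow_mod _ (D i).z_pow).symm
  rw [h3]
  rw [Pool.Agent.W401.Frob.coe_smul]
  rw [h2]
  simp

end

end Pool.Agent.H500.Kum
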