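import Pool.Agent.H500.KumGood
import Pool.Agent.H500.KumCyc
import Pool.Graph.R_seed8.W528.Ord.Dens
import Pool.Graph.R_seed8.Y115.Chi

set_option autoImplicit false
set_option linter.unusedSectionVars false

/-!
# The density theorem
-/

namespace Pool.Agent.H500.Kum

open NumberField IsDedekindDomain Pool.Agent.W569.FM Aff Filter Topology
open Pool.Agent.W401.Cheb (GK IsFrob dens)

theorem exists_R (m : ℕ) {ε : ℝ} (hε : 0 < ε) : ∃ R : Finset ℕ, (∀ r ∈ R, r.Prime ∧ m < r) ∧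
    ∏ r ∈ R, (1 - 1 / (3 * (r : ℝ))) < ε := by
  classical
  by_contra hcon
  push Not at hcon
  have hb : ∀ R : Finset ℕ, (∀ r ∈ R, r.Prime ∧ m < r) → ∑ r ∈ R, 1 / (r : ℝ) ≤
      3 * (-Real.log ε) := by
    intro R hR
    have h1 := hcon R hR
    have h2 : ∏ r ∈ R, (1 - 1 / (3 * (r : ℝ))) ≤ Real.exp (-∑ r ∈ R, 1 / (3 * (r : ℝ))) := by
      rw [← Finset.sum_neg_distrib, Real.exp_sum]
      apply Finset.prod_le_prod
      · intro r hr
        have h3 : (1 : ℝ) ≤ r := by exact_mod_cast (hR r hr).1.one_le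
        have h4 : 1 / (3 * (r : ℝ)) ≤ 1 := by
          rw [div_le_one (by linarith)]
          linarith
        linarith
      · intro r _
        have := Real.add_one_le_exp (-(1 / (3 * (r : ℝ))))
        linarith
    have h3 := Real.log_le_log hε (h1.trans h2)
    rw [Real.log_exp] at h3
    have h4 : ∑ r ∈ R, 1 / (r : ℝ) = 3 * ∑ r ∈ R, 1 / (3 * (r : ℝ)) := by
      rw [Finset.mul_sum]
      refine Finset.sum_congr rfl fun r _ => ?_
      rw [one_div, one_div, mul_inv, ← mul_assoc, mul_inv_cancel₀ (by norm_num : (3 : ℝ) ≠ 0),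
        one_mul]
    rw [h4]
    linarith
  apply Nat.Primes.not_summable_one_div
  have hns : Summable (fun p : Nat.Primes => 1 / ((p : ℕ) : ℝ)) := by
    refine summable_of_sum_le (c := 3 * (-Real.log ε) + ∑ r ∈ Finset.range (m + 1), 1 / (r : ℝ))
      (fun p => by positivity) ?_
    intro u
    have e : ∑ p ∈ u, 1 / ((p : ℕ) : ℝ) = ∑ n ∈ u.image (fun p : Nat.Primes => (p : ℕ)),
        1 / (n : ℝ) := by
      rw [Finset.sum_image]
      intro a _ b _ hab
      exact Subtype.ext hab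
    rw [e, ← Finset.sum_filter_add_sum_filter_not _ (fun n => m < n)]
    apply add_le_add
    · apply hb
      intro r hr
      rw [Finset.mem_filter, Finset.mem_image] at hr
      obtain ⟨⟨p, -, rfl⟩, h⟩ := hr
      exact ⟨p.2, h⟩
    · apply Finset.sum_le_sum_of_subset_of_nonneg
      · intro n hn
        rw [Finset.mem_filter] at hn
        rw [Finset.mem_range]
        omega
      · intro i _ _
        positivity
  exact hns

section

variable {E : Type} [Field E] [NumberField E]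

theorem dens_fin (P : HeightOneSpectrum (𝓞 E) → Prop) (hP : {v | P v}.Finite) :
    Tendsto (dens P) atTop (𝓝 0) := by
  refine squeeze_zero (fun N => Pool.Agent.W528.Ord.dens_nonneg P N) (fun N => ?_)
    (Pool.Agent.W352.ChAbs.const_div_pi (({v | P v}.ncard : ℕ) : ℝ))
  unfold dens
  apply div_le_div_of_nonneg_right _ (Nat.cast_nonneg _)
  have h1 : {v : HeightOneSpectrum (𝓞 E) | Ideal.absNorm v.asIdeal ≤ N ∧ P v}.ncard ≤
      {v | P v}.ncard := Set.ncard_le_ncard (fun v hv => hv.2) hP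
  exact_mod_cast h1

theorem fin_mem {x : 𝓞 E} (hx : x ≠ 0) :
    {v : HeightOneSpectrum (𝓞 E) | x ∈ v.asIdeal}.Finite := by
  have h1 : Ideal.span {x} ≠ ⊥ := by rwa [Ne, Ideal.span_singleton_eq_bot]
  have h2 := Ideal.finite_factors h1
  refine h2.subset fun v hv => ?_
  show v.asIdeal ∣ Ideal.span {x}
  rw [Ideal.dvd_span_singleton]
  exact hv

/-- the analysis at one prime -/
theorem not_good {r : ℕ} [hr : Fact r.Prime] (D : KD E r) {v : HeightOneSpectrum (𝓞 E)}
    {σ : GF E} (hσ : IsFrob v σ) (hrv : (r : 𝓞 E) ∉ v.asIdeal) (hc : ∀ i, D.c i ∉ v.asIdeal)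
    {u a : ℕ} (hu : ¬ r ∣ u) (h0 : D.c 0 ^ u - D.c 2 ^ a ∈ v.asIdeal)
    (h1 : D.c 1 ^ u - D.c 3 ^ a ∈ v.asIdeal) : ¬ Good (D.Phi σ) := by
  rintro ⟨hg1, hg2⟩
  obtain ⟨P, hPm, hPv, hP⟩ := hσ
  have hPp := hPm.isPrime
  have hmem : ∀ x : 𝓞 E, algebraMap (𝓞 E) (OO E) x ∈ P ↔ x ∈ v.asIdeal := by
    intro x
    rw [← hPv, Ideal.mem_comap]
  have hrP : (r : OO E) ∉ P := by
    rw [← map_natCast (algebraMap (𝓞 E) (OO E)), hmem]
    exact hrv
  have hchi : D.chi σ = 1 := congrArg Units.val hg1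
  have hkap : D.kap σ 0 * D.kap σ 3 - D.kap σ 1 * D.kap σ 2 ≠ 0 := hg2
  set q := Ideal.absNorm v.asIdeal with hq
  have hq1 : 1 ≤ q := by
    rw [Nat.one_le_iff_ne_zero, hq, Ne, Ideal.absNorm_eq_zero_iff]
    exact v.ne_bot
  -- roots of unity are determined modulo `P`
  have hroot : ∀ s t : ℕ, D.z ^ s - D.z ^ t ∈ P → (s : ZMod r) = t := by
    intro s t hst
    have e : D.z ^ s = D.z ^ t := by
      refine Pool.Agent.Y115.Chi.root_eq (P := P) (l := r) hrP ?_ ?_ hst hr.out.ne_zero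
      · rw [← pow_mul, mul_comm, pow_mul, D.z_pow, one_pow]
      · rw [← pow_mul, mul_comm, pow_mul, D.z_pow, one_pow]
    rw [ZMod.natCast_eq_natCast_iff]
    have e1 : D.z ^ (s : ZMod r).val * 1 = D.z ^ (t : ZMod r).val * 1 := by
      rw [mul_one, mul_one, ZMod.val_natCast, ZMod.val_natCast, ← pow_eq_pow_mod _ D.z_pow,
        ← pow_eq_pow_mod _ D.z_pow]
      exact e
    have e2 := pow_unique D.hz one_ne_zero e1
    rwa [ZMod.natCast_eq_natCast_iff] at e2
  have hzP : D.z ∉ P := by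
    intro h
    apply hPp.ne_top
    rw [Ideal.eq_top_iff_one, ← D.z_pow]
    exact Ideal.pow_mem_of_mem P h r hr.out.pos
  -- `r ∣ q - 1`
  obtain ⟨m, hm⟩ : r ∣ q - 1 := by
    have e := hP D.z
    rw [D.smul_z, hchi, ZMod.val_one, pow_one] at e
    have e1 : D.z ^ 0 - D.z ^ (q - 1) ∈ P := by
      have e2 : D.z - D.z ^ q = D.z * (D.z ^ 0 - D.z ^ (q - 1)) := by
        rw [mul_sub, pow_zero, mul_one, ← pow_succ', Nat.sub_add_cancel hq1]
      rw [e2] at e
      exact (hPp.mem_or_mem e).resolve_left hzP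
    have e3 := hroot 0 (q - 1) e1
    rw [Nat.cast_zero] at e3
    exact (ZMod.natCast_eq_zero_iff _ _).1 e3.symm
  have hy : ∀ i, D.z ^ (D.kap σ i).val - algebraMap (𝓞 E) (OO E) (D.c i) ^ m ∈ P := by
    intro i
    have e := hP (D.y i)
    have hyP : D.y i ∉ P := by
      intro h
      apply hc i
      rw [← hmem, ← D.hy]
      exact Ideal.pow_mem_of_mem P h r hr.out.pos
    rw [D.smul_y] at e
    have e1 : D.z ^ (D.kap σ i).val * D.y i - D.y i ^ q =
        D.y i * (D.z ^ (D.kap σ i).val - algebraMap (𝓞 E) (OO E) (D.c i) ^ m) := by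
      rw [← D.hy, ← pow_mul, ← hm, mul_sub, ← pow_succ', Nat.sub_add_cancel hq1, mul_comm]
    rw [e1] at e
    exact (hPp.mem_or_mem e).resolve_left hyP
  -- the two relations
  have hrel : ∀ i j : Fin 4, D.c i ^ u - D.c j ^ a ∈ v.asIdeal →
      (u : ZMod r) * D.kap σ i = a * D.kap σ j := by
    intro i j hij
    have e1 : D.z ^ ((D.kap σ i).val * u) - (algebraMap (𝓞 E) (OO E) (D.c i) ^ m) ^ u ∈ P := by
      rw [pow_mul]
      exact P.mem_of_dvd (sub_dvd_pow_sub_pow _ _ u) (hy i)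
    have e2 : D.z ^ ((D.kap σ j).val * a) - (algebraMap (𝓞 E) (OO E) (D.c j) ^ m) ^ a ∈ P := by
      rw [pow_mul]
      exact P.mem_of_dvd (sub_dvd_pow_sub_pow _ _ a) (hy j)
    have e3 : (algebraMap (𝓞 E) (OO E) (D.c i) ^ m) ^ u -
        (algebraMap (𝓞 E) (OO E) (D.c j) ^ m) ^ a ∈ P := by
      have e0 : (algebraMap (𝓞 E) (OO E) (D.c i) ^ m) ^ u -
          (algebraMap (𝓞 E) (OO E) (D.c j) ^ m) ^ a =
          algebraMap (𝓞 E) (OO E) (D.c i ^ u) ^ m - algebraMap (𝓞 E) (OO E) (D.c j ^ a) ^ m := by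
        rw [map_pow, map_pow]
        ring
      rw [e0]
      refine P.mem_of_dvd (sub_dvd_pow_sub_pow _ _ m) ?_
      rw [← map_sub, hmem]
      exact hij
    have e4 : D.z ^ ((D.kap σ i).val * u) - D.z ^ ((D.kap σ j).val * a) ∈ P := by
      have := P.sub_mem (P.add_mem e1 e3) e2
      have e5 : D.z ^ ((D.kap σ i).val * u) - (algebraMap (𝓞 E) (OO E) (D.c i) ^ m) ^ u +
        ((algebraMap (𝓞 E) (OO E) (D.c i) ^ m) ^ u - (algebraMap (𝓞 E) (OO E) (D.c j) ^ m) ^ a) -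
        (D.z ^ ((D.kap σ j).val * a) - (algebraMap (𝓞 E) (OO E) (D.c j) ^ m) ^ a) =
        D.z ^ ((D.kap σ i).val * u) - D.z ^ ((D.kap σ j).val * a) := by ring
      rwa [e5] at this
    have e6 := hroot _ _ e4
    push_cast at e6
    rw [ZMod.natCast_zmod_val, ZMod.natCast_zmod_val] at e6
    rw [mul_comm (u : ZMod r), mul_comm (a : ZMod r)]
    exact e6
  have hr0 := hrel 0 2 h0
  have hr1 := hrel 1 3 h1
  have hu0 : (u : ZMod r) ≠ 0 := by
    rw [Ne, ZMod.natCast_eq_zero_iff]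
    exact hu
  apply hkap
  apply mul_left_cancel₀ hu0
  linear_combination D.kap σ 3 * hr0 - D.kap σ 2 * hr1

/-- **The density theorem.** -/
theorem density {p q : ℕ} (hp : p.Prime) (hq : q.Prime) (hpq : p ≠ q) {A B : 𝓞 E}
    (hA : A ≠ 0) (hB : B ≠ 0)
    (hrel : ∀ N a : ℕ, 0 < N → ¬ (A ^ N = (p : 𝓞 E) ^ a ∧ B ^ N = (q : 𝓞 E) ^ a))
    (P : HeightOneSpectrum (𝓞 E) → Prop) (r0 : ℕ)
    (hP : ∀ v, P v → ∀ r : ℕ, r.Prime → r0 < r → (r : 𝓞 E) ∉ v.asIdeal → ∃ u a : ℕ, ¬ r ∣ u ∧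
      A ^ u - (p : 𝓞 E) ^ a ∈ v.asIdeal ∧ B ^ u - (q : 𝓞 E) ^ a ∈ v.asIdeal) :
    Tendsto (dens P) atTop (𝓝 0) := by
  classical
  rw [Metric.tendsto_atTop]
  intro ε hε
  obtain ⟨b1, hb1⟩ := (rel_of_inf hp hq hA hB hrel).bddAbove
  set m := r0 + b1 + Module.finrank ℚ E + (discr E).natAbs + 2 with hm
  obtain ⟨R, hR, hRε⟩ := exists_R m (half_pos hε)
  set r : R → ℕ := fun i => i.1 with hrdef
  have hrp : ∀ i, Fact (r i).Prime := fun i => ⟨(hR i.1 i.2).1⟩
  have hrm : ∀ i, m < r i := fun i => (hR i.1 i.2).2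
  have hinj : Function.Injective r := Subtype.coe_injective
  set c : Fin 4 → 𝓞 E := ![A, B, (p : 𝓞 E), (q : 𝓞 E)] with hc
  have hc0 : ∀ i, c i ≠ 0 := by
    intro i
    fin_cases i
    · exact hA
    · exact hB
    · exact Nat.cast_ne_zero.2 hp.ne_zero
    · exact Nat.cast_ne_zero.2 hq.ne_zero
  have hD : ∀ i, ∃ D : KD E (r i), D.c = c := fun i => exists_KD c hc0
  choose D hDc using hD
  have hdis : ∀ i, ¬ (r i : ℤ) ∣ discr E := by
    intro i h
    have h1 := Int.natAbs_dvd_natAbs.2 h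
    rw [Int.natAbs_natCast] at h1
    have h2 : 0 < (discr E).natAbs := Int.natAbs_pos.2 (discr_ne_zero E)
    have h3 := Nat.le_of_dvd h2 h1
    have := hrm i
    omega
  have hχ := fun t => chi_surj r hinj hdis D t
  have hgood : ∀ i, ∃ g, Good ((D i).Phi g) := by
    intro i
    have hrmi := hrm i
    refine exists_good (D i) ?_ (by omega) hp hq hpq (A := A) (B := B) (by rw [hDc]; rfl)
      (by rw [hDc]; rfl) (by rw [hDc]; rfl) (by rw [hDc]; rfl) ?_
    · have h2 : (2 : ZMod (r i)) ≠ 0 := by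
        intro h
        have h5 : ((2 : ℕ) : ZMod (r i)) = 0 := by exact_mod_cast h
        rw [ZMod.natCast_eq_zero_iff] at h5
        have := Nat.le_of_dvd (by norm_num) h5
        omega
      obtain ⟨g, hg⟩ := hχ fun j => if h : j = i then Units.mk0 2 (by rw [h]; exact h2) else 1
      refine ⟨g, fun h1 => ?_⟩
      have h3 := hg i
      rw [dif_pos rfl] at h3
      have h4 := congrArg Units.val h3
      rw [(D i).Phi_a, h1, Units.val_mk0] at h4
      have h5 : (1 : ZMod (r i)) = 0 := by linear_combination -h4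
      exact one_ne_zero h5
    · rintro ⟨b, h1, h2⟩
      have := hb1 (show r i ∈ _ from ⟨(hrp i).out.pos, b, h1, h2⟩)
      omega
  set Φ : ∀ i, GF E →* Aff (r i) := fun i => (D i).Phi with hΦ
  set U := (Psi r Φ).ker with hU
  have hUopen : IsOpen (U : Set (GF E)) := by
    have h1 : (U : Set (GF E)) = ⋂ i, ((Φ i).ker : Set (GF E)) := by
      ext g
      rw [Set.mem_iInter]
      constructor
      · intro h i
        exact congrFun h i
      · intro h
        funext i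
        exact h i
    rw [h1]
    exact isOpen_iInter_of_finite fun i => (D i).isOpen_ker
  have hlim := Pool.Agent.W528.Ord.chebK E U hUopen (Cset r Φ) (by
    intro σ hσ τ i
    have h1 := hσ i
    intro hg
    apply h1
    rw [map_mul, map_mul, map_inv] at hg
    obtain ⟨h2, h3⟩ := hg
    have h4 : (Φ i σ).a = 1 := by
      rw [mul_a, mul_a, inv_a, mul_comm (Φ i τ).a, mul_inv_cancel_right] at h2
      exact h2
    refine ⟨h4, ?_⟩
    have h5 : (Φ i τ * Φ i σ * (Φ i τ)⁻¹).x = ((Φ i τ).a : ZMod (r i)) • (Φ i σ).x := by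
      rw [mul_x, mul_x, mul_a, inv_x, h4, mul_one, smul_neg, smul_smul, Units.mul_inv, one_smul]
      abel
    rw [h5, Q_smul] at h3
    exact right_ne_zero_of_mul h3) (by
    intro σ hσ u hu i
    rw [map_mul]
    have h1 : Φ i u = 1 := congrFun hu i
    rw [h1, mul_one]
    exact hσ i)
  have hle := ratio_le r Φ hinj (fun i => by have := hrm i; omega) hχ hgood
  have hprod : ∏ i, (1 - 1 / (3 * (r i : ℝ))) = ∏ x ∈ R, (1 - 1 / (3 * (x : ℝ))) := by
    rw [hrdef]
    exact Finset.prod_coe_sort R (fun x => 1 - 1 / (3 * (x : ℝ)))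
  rw [hprod] at hle
  -- the exceptional primes
  set X : HeightOneSpectrum (𝓞 E) → Prop := fun v => (∃ i : R, ((r i : ℕ) : 𝓞 E) ∈ v.asIdeal) ∨
    ∃ i, c i ∈ v.asIdeal with hX
  have hXfin : {v | X v}.Finite := by
    have h1 : {v | X v} = (⋃ i : R, {v : HeightOneSpectrum (𝓞 E) | ((r i : ℕ) : 𝓞 E) ∈ v.asIdeal}) ∪
        ⋃ i, {v : HeightOneSpectrum (𝓞 E) | c i ∈ v.asIdeal} := by
      ext v
      simp only [hX, Set.mem_union, Set.mem_iUnion, Set.mem_ofPred_eq]
    rw [h1]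
    exact (Set.finite_iUnion fun i => fin_mem (Nat.cast_ne_zero.2 (hrp i).out.ne_zero)).union
      (Set.finite_iUnion fun i => fin_mem (hc0 i))
  have hXd := dens_fin X hXfin
  have hsub : ∀ v, P v → (∃ σ ∈ Cset r Φ, IsFrob v σ) ∨ X v := by
    intro v hv
    by_cases hXv : X v
    · exact Or.inr hXv
    · left
      rw [hX] at hXv
      push Not at hXv
      obtain ⟨hX1, hX2⟩ := hXv
      obtain ⟨σ, hσ⟩ := Pool.Agent.W401.Frob.exists_frob v
      refine ⟨σ, fun i => ?_, hσ⟩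
      obtain ⟨u, a, hu, h1, h2⟩ := hP v hv (r i) (hrp i).out (by have := hrm i; omega) (hX1 i)
      refine not_good (D i) hσ (hX1 i) (fun j => by rw [hDc]; exact hX2 j) (a := a) hu ?_ ?_
      · rw [hDc]
        exact h1
      · rw [hDc]
        exact h2
  have hsum := hlim.add hXd
  rw [add_zero] at hsum
  have hlt : (((QuotientGroup.mk : GK E → GK E ⧸ U) '' (Cset r Φ)).ncard : ℝ) /
      (Nat.card (GK E ⧸ U) : ℝ) < ε := by
    calc _ ≤ ∏ x ∈ R, (1 - 1 / (3 * (x : ℝ))) := hle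
      _ < ε / 2 := hRε
      _ < ε := by linarith
  have hev := hsum.eventually (gt_mem_nhds hlt)
  rw [eventually_atTop] at hev
  obtain ⟨N0, hN0⟩ := hev
  refine ⟨N0, fun N hN => ?_⟩
  rw [Real.dist_eq, sub_zero, abs_of_nonneg (Pool.Agent.W528.Ord.dens_nonneg _ _)]
  calc dens P N ≤ dens (fun v => (∃ σ ∈ Cset r Φ, IsFrob v σ) ∨ X v) N :=
        Pool.Agent.W528.Ord.dens_mono hsub N
    _ ≤ _ := Pool.Agent.W528.Ord.dens_or _ _ N
    _ < ε := hN0 N hN

end

end Pool.Agent.H500.Kum
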