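import Mathlib

set_option autoImplicit false
set_option linter.unusedSectionVars false

/-!
# Characteristic polynomials on stable subspaces
-/

namespace Pool.Agent.H500.SR

open Polynomial Module

section

variable {K V : Type*} [Field K] [AddCommGroup V] [Module K V] [FiniteDimensional K V]

open Module.Basis in
theorem charpoly_eq_mul (W : Submodule K V) (e : V →ₗ[K] V) (he : W ≤ W.comap e) :
    e.charpoly = (e.restrict he).charpoly * (W.mapQ W e he).charpoly := by
  let m := Module.Free.ChooseBasisIndex K W
  let bW : Basis m K W := Module.Free.chooseBasis K W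
  let n := Module.Free.ChooseBasisIndex K (V ⧸ W)
  let bQ : Basis n K (V ⧸ W) := Module.Free.chooseBasis K (V ⧸ W)
  let b := sumQuot bW bQ
  let A : Matrix m m K := LinearMap.toMatrix bW bW (e.restrict he)
  let B : Matrix m n K := Matrix.of fun i l ↦
    ((sumQuot bW bQ).repr (e ((sumQuot bW bQ) (Sum.inr l)))) (Sum.inl i)
  let D : Matrix n n K := LinearMap.toMatrix bQ bQ (W.mapQ W e he)
  suffices LinearMap.toMatrix b b e = Matrix.fromBlocks A B 0 D by
    rw [← LinearMap.charpoly_toMatrix e b, this, ← LinearMap.charpoly_toMatrix _ bW,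
      ← LinearMap.charpoly_toMatrix _ bQ, Matrix.charpoly_fromBlocks_zero₂₁]
  ext u v
  cases u with
  | inl i =>
    cases v with
    | inl k =>
      simp only [b, sumQuot_inl, Matrix.fromBlocks_apply₁₁, A, LinearMap.toMatrix_apply]
      apply sumQuot_repr_inl_of_mem
    | inr l => simp [b, LinearMap.toMatrix_apply, Matrix.fromBlocks_apply₁₂, B]
  | inr j =>
    cases v with
    | inl k =>
      suffices W.mkQ (e (bW k)) = 0 by simp [LinearMap.toMatrix_apply, b, this]
      rw [← LinearMap.mem_ker, Submodule.ker_mkQ]
      exact he (Submodule.coe_mem (bW k))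
    | inr l =>
      simp only [LinearMap.toMatrix_apply, sumQuot_repr_inr, b, Matrix.fromBlocks_apply₂₂, D]
      rw [← sumQuot_inr bW bQ l, W.mapQ_apply]
      simp

end

theorem exists_sub {ι k : Type*} [DecidableEq ι] [DecidableEq k] (β : ι → k) (A : Finset ι) :
    ∀ s : Multiset k, s ≤ A.val.map β → ∃ I ⊆ A, I.val.map β = s := by
  induction A using Finset.induction_on with
  | empty =>
    intro s hs
    rw [Finset.empty_val, Multiset.map_zero, Multiset.le_zero] at hs
    exact ⟨∅, subset_rfl, by rw [hs]; rfl⟩
  | insert a A ha ih =>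
    intro s hs
    rw [Finset.insert_val_of_notMem ha, Multiset.map_cons] at hs
    by_cases hmem : β a ∈ s
    · obtain ⟨s', rfl⟩ := Multiset.exists_cons_of_mem hmem
      rw [Multiset.cons_le_cons_iff] at hs
      obtain ⟨I, hI, rfl⟩ := ih s' hs
      have haI : a ∉ I := fun h => ha (hI h)
      refine ⟨insert a I, Finset.insert_subset_insert a hI, ?_⟩
      rw [Finset.insert_val_of_notMem haI, Multiset.map_cons]
    · rw [Multiset.le_cons_of_notMem hmem] at hs
      obtain ⟨I, hI, h⟩ := ih s hs
      exact ⟨I, hI.trans (Finset.subset_insert a A), h⟩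

section

variable {k k' V : Type*} [Field k] [Field k'] [AddCommGroup V] [Module k V] [FiniteDimensional k V]

/-- the determinant on a stable subspace is a product of roots -/
theorem det_restrict {n : ℕ} (ι : k →+* k') (β : Fin n → k') (e : V →ₗ[k] V)
    (hc : e.charpoly.map ι = ∏ i, (X - C (β i))) (W : Submodule k V) (he : W ≤ W.comap e) :
    ∃ I : Finset (Fin n), I.card = finrank k W ∧
      ι (LinearMap.det (e.restrict he)) = ∏ i ∈ I, β i := by
  classical
  set P := ((e.restrict he).charpoly).map ι with hP
  have hmul := congrArg (Polynomial.map ι) (charpoly_eq_mul W e he)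
  rw [hc, Polynomial.map_mul] at hmul
  have hne : (∏ i : Fin n, (X - C (β i)) : k'[X]) ≠ 0 :=
    Finset.prod_ne_zero_iff.2 fun i _ => X_sub_C_ne_zero _
  have hdvd : P ∣ ∏ i : Fin n, (X - C (β i)) := ⟨_, hmul⟩
  have hsplit : (∏ i : Fin n, (X - C (β i)) : k'[X]).Splits :=
    Splits.prod fun i _ => Splits.X_sub_C _
  have hPs : P.Splits := hsplit.of_dvd hne hdvd
  have hroots : P.roots ≤ (Finset.univ : Finset (Fin n)).val.map β := by
    have h1 := Polynomial.roots.le_of_dvd hne hdvd
    have h2 : (∏ i : Fin n, (X - C (β i)) : k'[X]).roots =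
        (Finset.univ : Finset (Fin n)).val.map β := by
      have h3 : (∏ i : Fin n, (X - C (β i)) : k'[X]) =
          (((Finset.univ : Finset (Fin n)).val.map β).map fun a => X - C a).prod := by
        rw [Multiset.map_map]
        rfl
      rw [h3, Polynomial.roots_multiset_prod_X_sub_C]
    rwa [h2] at h1
  obtain ⟨I, -, hI⟩ := exists_sub β Finset.univ P.roots hroots
  refine ⟨I, ?_, ?_⟩
  · have h1 : Multiset.card (I.val.map β) = I.card := by rw [Multiset.card_map]; rfl
    rw [← h1, hI, ← hPs.natDegree_eq_card_roots, hP, Polynomial.natDegree_map,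
      LinearMap.charpoly_natDegree]
  · have h1 : ι (LinearMap.det (e.restrict he)) = P.roots.prod := by
      set M := LinearMap.toMatrix (Module.finBasis k W) (Module.finBasis k W) (e.restrict he) with hM
      have h2 : (M.map ι).charpoly = P := by
        rw [Matrix.charpoly_map, hM, LinearMap.charpoly_toMatrix]
      have h3 : (M.map ι).det = ι (LinearMap.det (e.restrict he)) := by
        have h4 : (M.map ι).det = ι M.det := (RingHom.map_det ι M).symm
        rw [h4, hM, LinearMap.det_toMatrix]
      rw [← h3, Matrix.det_eq_prod_roots_charpoly_of_splits (by rw [h2]; exact hPs), h2]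
    rw [h1, ← hI]
    rfl

end

end Pool.Agent.H500.SR
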