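import Pool.Agent.H500.TrB

set_option autoImplicit false
set_option linter.unusedSectionVars false

/-!
# Multiplicative relations between the Frobenius values of a character in positive characteristic
-/

namespace Pool.Agent.H500.Tr

open NumberField IsDedekindDomain Pool.Agent.W569.FM Pool.Agent.W571.FM Pool.Agent.Y115.T
open Pool.Agent.H500.Kum
open Pool.Agent.W401.Cheb (IsFrob IsInert)

section

variable {K : Type} [Field K] [NumberField K]

theorem isInt : Algebra.IsIntegral (𝓞 K) (OO K) := by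
  refine ⟨fun x => ?_⟩
  have h1 : IsIntegral ℤ x := by
    have : Algebra.IsIntegral ℤ (OO K) := inferInstance
    exact Algebra.IsIntegral.isIntegral x
  exact h1.tower_top

theorem max_of {Q : Ideal (OO K)} (hQ : Q.IsPrime) {v : HeightOneSpectrum (𝓞 K)}
    (h : cm Q = v.asIdeal) : Q.IsMaximal := by
  have := isInt (K := K)
  exact Ideal.isMaximal_of_isIntegral_of_isMaximal_comap Q (by
    have h1 : (cm Q).IsMaximal := by rw [h]; exact v.isMaximal
    exact h1)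

theorem place_of {Q : Ideal (OO K)} (hQ : Q.IsPrime) {l : ℕ} (hl : l.Prime)
    (hlQ : (l : OO K) ∈ Q) : ∃ v : HeightOneSpectrum (𝓞 K), cm Q = v.asIdeal := by
  have h1 : (cm Q).IsPrime := Ideal.comap_isPrime _ _
  have h2 : (l : 𝓞 K) ∈ cm Q := natCast_mem_cm.2 hlQ
  refine ⟨⟨cm Q, h1, ?_⟩, rfl⟩
  intro h3
  rw [h3, Ideal.mem_bot] at h2
  exact hl.ne_zero (by exact_mod_cast h2)

theorem open_transfer {A : Type} [CommGroup A] (χ : GF K →* A)
    (hχ : IsOpen (χ.ker : Set (GF K))) :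
    IsOpen ((MonoidHom.transfer (χ.comp (cc K))).ker : Set (GF ℚ)) := by
  let _ : TopologicalSpace A := ⊥
  have : DiscreteTopology A := ⟨rfl⟩
  have hχc : Continuous χ := by
    apply continuous_of_continuousAt_one
    rw [ContinuousAt, map_one, nhds_discrete A, Filter.tendsto_pure]
    exact hχ.mem_nhds χ.ker.one_mem
  have h1 := continuous_transfer (isOpen_core K) (χ.comp (cc K)) (hχc.comp (continuous_cc K))
  exact (isOpen_discrete {(1 : A)}).preimage h1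

/-- **Relations between the Frobenius values of a character in positive characteristic.** -/
theorem char_rel {p q : ℕ} (hp : p.Prime) (hq : q.Prime) (hup : Unram K p) (huq : Unram K q)
    (Sp Sq T : Finset (HeightOneSpectrum (𝓞 K))) (hSp : ∀ v, v ∈ Sp ↔ (p : 𝓞 K) ∈ v.asIdeal)
    (hSq : ∀ v, v ∈ Sq ↔ (q : 𝓞 K) ∈ v.asIdeal) (hTp : ∀ v ∈ T, (p : 𝓞 K) ∉ v.asIdeal)
    (hTq : ∀ v ∈ T, (q : 𝓞 K) ∉ v.asIdeal) :
    ∃ r0 : ℕ, ∀ (l : ℕ) [Fact l.Prime] (k : Type) [Field k] [CharP k l], l ≠ p → l ≠ q →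
      ∀ χ : GF K →* kˣ, IsOpen (χ.ker : Set (GF K)) →
      (∀ v ∉ T, (l : 𝓞 K) ∉ v.asIdeal → ∀ τ, IsInert v τ → χ τ = 1) →
      ∀ a : HeightOneSpectrum (𝓞 K) → kˣ,
      (∀ v, (p : 𝓞 K) ∈ v.asIdeal ∨ (q : 𝓞 K) ∈ v.asIdeal → ∀ σ, IsFrob v σ → χ σ = a v) →
      ∀ r : ℕ, r.Prime → r0 < r → r ≠ l → ∃ u b : ℕ, ¬ r ∣ u ∧
        (∏ v ∈ Sp, (a v : k)) ^ u = (p : k) ^ b ∧ (∏ v ∈ Sq, (a v : k)) ^ u = (q : k) ^ b := by
  classical
  obtain ⟨D, hD, hDx⟩ := unram_almost ((HH K).normalCore) (isOpen_core K)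
  obtain ⟨Mp, hMp, hMpx⟩ := transfer_frob' hp hup Sp hSp
  obtain ⟨Mq, hMq, hMqx⟩ := transfer_frob' hq huq Sq hSq
  set N := D * ∏ v ∈ T, Ideal.absNorm v.asIdeal with hN
  have hN0 : 0 < N := by
    refine Nat.mul_pos hD (Finset.prod_pos fun v _ => ?_)
    exact Nat.pos_of_ne_zero (by
      rw [Ne, Ideal.absNorm_eq_zero_iff]
      exact v.ne_bot)
  refine ⟨N + Mp + Mq, ?_⟩
  intro l hl k _ _ hlp hlq χ hχ hun a ha r hr hr0 hrl
  set θ : GF ℚ →* kˣ := MonoidHom.transfer (χ.comp (cc K)) with hθ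
  have hθo : IsOpen (θ.ker : Set (GF ℚ)) := open_transfer χ hχ
  obtain ⟨c, e, hrc, hce⟩ := rpart (l := l) hr hrl θ hθo (by
    intro ℓ hℓ hℓl
    by_cases hdvd : ℓ ∣ N
    · right
      have h1 := Nat.le_of_dvd hN0 hdvd
      refine ⟨by omega, fun h2 => ?_⟩
      have h3 := Nat.le_of_dvd (by have := hℓ.two_le; omega) h2
      omega
    · left
      intro P hP hℓP τ hτ
      have hℓD : ¬ ℓ ∣ D := fun h => hdvd (h.mul_right _)
      have hcore := hDx ℓ hℓ hℓD P hP.ne_top hℓP τ hτ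
      refine transfer_inertia χ hP.isPrime hτ hcore ?_
      intro Q hQ hPQ τ' hτ'
      have hℓQ := hPQ ℓ hℓP
      obtain ⟨v, hv⟩ := place_of hQ hℓ hℓQ
      have hQm := max_of hQ hv
      have hℓv : (ℓ : 𝓞 K) ∈ v.asIdeal := by
        rw [← hv]
        exact natCast_mem_cm.2 hℓQ
      refine hun v ?_ ?_ τ' ⟨Q, hQm, hv, hτ'⟩
      · intro hvT
        apply hdvd
        apply Dvd.dvd.mul_left
        refine Dvd.dvd.trans ?_ (Finset.dvd_prod_of_mem _ hvT)
        -- `ℓ` divides the norm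
        by_contra hnd
        have hcop : Nat.Coprime ℓ (Ideal.absNorm v.asIdeal) := (hℓ.coprime_iff_not_dvd).2 hnd
        have h1 : ((Ideal.absNorm v.asIdeal : ℕ) : 𝓞 K) ∈ v.asIdeal := Ideal.absNorm_mem _
        refine not_both hQ.ne_top hcop hℓQ ?_
        rw [← hv] at h1 hcop
        exact natCast_mem_cm.1 (by rw [hv] at h1 ⊢; exact h1)
      · intro hlv
        have hlQ : (l : OO K) ∈ Q := natCast_mem_cm.1 (by rw [hv]; exact hlv)
        exact not_both hQ.ne_top ((Nat.coprime_primes hℓ hl.out).2 hℓl) hℓQ hlQ)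
  -- Frobenius elements
  have key : ∀ (p : ℕ), p.Prime → l ≠ p → (∀ v ∈ T, (p : 𝓞 K) ∉ v.asIdeal) →
      (∀ v, (p : 𝓞 K) ∈ v.asIdeal → ∀ σ, IsFrob v σ → χ σ = a v) →
      ∀ (S : Finset (HeightOneSpectrum (𝓞 K))) (M : ℕ),
      (∀ {P : Ideal (OO ℚ)} (_ : P.IsMaximal) (_ : (p : OO ℚ) ∈ P) {σ : GF ℚ}
        (_ : FrobAt p P σ) (d : HeightOneSpectrum (𝓞 K) → kˣ)
        (_ : ∀ v : HeightOneSpectrum (𝓞 K), (p : 𝓞 K) ∈ v.asIdeal → ∀ Q : Ideal (OO K),
          Q.IsPrime → cm Q = v.asIdeal → (∀ τ, InInertia Q τ → χ τ = 1) ∧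
          ∀ φ, FrobAt (Ideal.absNorm v.asIdeal) Q φ → χ φ = d v),
        MonoidHom.transfer (χ.comp (cc K)) σ ^ M = (∏ v ∈ S, d v) ^ M) →
      ((∏ v ∈ S, (a v : k)) ^ M) ^ c = (p : k) ^ (M * e) := by
    intro p hp hlp hTp hap S M hM
    obtain ⟨⟨P, hP, hpP, σ, hσ⟩, -⟩ := sFROB p hp
    have h1 := hM hP hpP hσ a (by
      intro v hpv Q hQ hQv
      have hQm := max_of hQ hQv
      refine ⟨fun τ hτ => ?_, fun φ hφ => hap v hpv φ ⟨Q, hQm, hQv, hφ⟩⟩
      refine hun v (fun hvT => hTp v hvT hpv) ?_ τ ⟨Q, hQm, hQv, hτ⟩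
      intro hlv
      have hlQ : (l : OO K) ∈ Q := natCast_mem_cm.1 (by rw [hQv]; exact hlv)
      have hpQ : (p : OO K) ∈ Q := natCast_mem_cm.1 (by rw [hQv]; exact hpv)
      exact not_both hQ.ne_top ((Nat.coprime_primes hl.out hp).2 hlp) hlQ hpQ)
    have hlP : (l : OO ℚ) ∉ P := fun h =>
      not_both hP.ne_top ((Nat.coprime_primes hl.out hp).2 hlp) h hpP
    have h2 := hce σ
    have h3 : ((Units.map (ZMod.castHom (dvd_refl l) k : ZMod l →* k) (om l σ) : kˣ) : k) =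
        (p : k) := by
      show (ZMod.castHom (dvd_refl l) k) (om l σ : ZMod l) = (p : k)
      rw [om_frob hlP hσ, map_natCast]
    have h4 : ((∏ v ∈ S, a v) ^ M) ^ c = (Units.map (ZMod.castHom (dvd_refl l) k : ZMod l →* k)
        (om l σ)) ^ (M * e) := by
      rw [← h1, ← pow_mul, mul_comm M c, pow_mul]
      show (θ σ ^ c) ^ M = _
      rw [h2, ← pow_mul, mul_comm e M]
    have h5 := congrArg (fun x : kˣ => (x : k)) h4
    simp only [Units.val_pow_eq_pow_val, Units.coe_prod] at h5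
    rw [h3] at h5
    exact h5
  have kp := key p hp hlp hTp (fun v hv => ha v (Or.inl hv)) Sp Mp
    (fun hP hpP σ hσ d hd => hMpx χ hP hpP hσ d hd)
  have kq := key q hq hlq hTq (fun v hv => ha v (Or.inr hv)) Sq Mq
    (fun hP hpP σ hσ d hd => hMqx χ hP hpP hσ d hd)
  refine ⟨c * (Mp * Mq), e * (Mp * Mq), ?_, ?_, ?_⟩
  · intro h
    rcases (hr.dvd_mul).1 h with h | h
    · exact hrc h
    · rcases (hr.dvd_mul).1 h with h | h
      · have := Nat.le_of_dvd hMp h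
        omega
      · have := Nat.le_of_dvd hMq h
        omega
  · calc (∏ v ∈ Sp, (a v : k)) ^ (c * (Mp * Mq)) = (((∏ v ∈ Sp, (a v : k)) ^ Mp) ^ c) ^ Mq := by
          rw [← pow_mul, ← pow_mul]
          congr 1
          ring
      _ = ((p : k) ^ (Mp * e)) ^ Mq := by rw [kp]
      _ = _ := by
          rw [← pow_mul]
          congr 1
          ring
  · calc (∏ v ∈ Sq, (a v : k)) ^ (c * (Mp * Mq)) = (((∏ v ∈ Sq, (a v : k)) ^ Mq) ^ c) ^ Mp := by
          rw [← pow_mul, ← pow_mul]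
          congr 1
          ring
      _ = ((q : k) ^ (Mq * e)) ^ Mp := by rw [kq]
      _ = _ := by
          rw [← pow_mul]
          congr 1
          ring

end

end Pool.Agent.H500.Tr
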