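import Pool.Agent.H500.KumDens
import Pool.Agent.H500.TrC
import Pool.Agent.H500.SubRep
import Pool.Graph.R_seed8.Y115.Rep

set_option autoImplicit false
set_option linter.unusedSectionVars false

/-!
# From a stable subspace to multiplicative relations between Frobenius eigenvalues
-/

namespace Pool.Agent.H500.Core

open NumberField IsDedekindDomain Filter Topology Polynomial
open Pool.Agent.W401.Cheb (GK IsFrob IsInert dens)

section

variable {K F : Type} [Field K] [NumberField K] [Field F] [NumberField F]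

/-- the product of the chosen roots over the places in `T` -/
noncomputable def Pr {n : ℕ} (S0 : Finset (HeightOneSpectrum (𝓞 K)))
    (T : Finset (HeightOneSpectrum (𝓞 K))) (α : HeightOneSpectrum (𝓞 K) → Fin n → 𝓞 F)
    (J : S0 → Finset (Fin n)) : 𝓞 F :=
  open scoped Classical in
  ∏ v ∈ T, ∏ i ∈ (if h : v ∈ S0 then J ⟨v, h⟩ else ∅), α v i

/-- admissible choices -/
def Adm {n : ℕ} {S0 : Finset (HeightOneSpectrum (𝓞 K))} (J : S0 → Finset (Fin n)) : Prop :=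
  ∃ m, 0 < m ∧ m < n ∧ ∀ v, (J v).card = m

theorem not_both' {R : Type} [CommRing R] {P : Ideal R} (hP : P ≠ ⊤) {a b : ℕ}
    (hab : Nat.Coprime a b) (ha : (a : R) ∈ P) (hb : (b : R) ∈ P) : False := by
  apply hP
  rw [Ideal.eq_top_iff_one]
  have h3 := Nat.gcd_eq_gcd_ab a b
  rw [hab.gcd_eq_one] at h3
  have h4 : (1 : R) = (a : R) * (a.gcdA b : R) + (b : R) * (a.gcdB b : R) := by
    exact_mod_cast congrArg (Int.cast : ℤ → R) h3
  rw [h4]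
  exact P.add_mem (P.mul_mem_right _ ha) (P.mul_mem_right _ hb)

/-- **The core lemma.** -/
theorem core (n : ℕ) (p q : ℕ) (hp : p.Prime) (hq : q.Prime)
    (hup : ∀ v : HeightOneSpectrum (𝓞 K), (p : 𝓞 K) ∈ v.asIdeal → (p : 𝓞 K) ∉ v.asIdeal ^ 2)
    (huq : ∀ v : HeightOneSpectrum (𝓞 K), (q : 𝓞 K) ∈ v.asIdeal → (q : 𝓞 K) ∉ v.asIdeal ^ 2)
    (Sp Sq S S0 : Finset (HeightOneSpectrum (𝓞 K)))
    (hSp : ∀ v, v ∈ Sp ↔ (p : 𝓞 K) ∈ v.asIdeal) (hSq : ∀ v, v ∈ Sq ↔ (q : 𝓞 K) ∈ v.asIdeal)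
    (hS : ∀ v ∈ S, v ∉ Sp ∧ v ∉ Sq) (hS0 : ∀ v, v ∈ S0 ↔ v ∈ Sp ∨ v ∈ Sq)
    (α : HeightOneSpectrum (𝓞 K) → Fin n → 𝓞 F) :
    ∃ r0 : ℕ, ∀ (l : ℕ) [Fact l.Prime] (k k' : Type) [Field k] [CharP k l] [Field k']
      (ι : k →+* k') (φ : 𝓞 F →+* k') (ρ : GK K →* GL (Fin n) k), l ≠ p → l ≠ q →
      IsOpen (ρ.ker : Set (GK K)) →
      (∀ v ∉ S, (l : 𝓞 K) ∉ v.asIdeal → ∀ τ, IsInert v τ → ρ τ = 1) →
      (∀ v : HeightOneSpectrum (𝓞 K), (p : 𝓞 K) ∈ v.asIdeal ∨ (q : 𝓞 K) ∈ v.asIdeal →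
        ∀ σ, IsFrob v σ → ((ρ σ : Matrix (Fin n) (Fin n) k).charpoly).map ι =
          ∏ i, (X - C (φ (α v i)))) →
      ∀ W : Submodule k (Fin n → k), W ≠ ⊥ → W ≠ ⊤ →
      (∀ g, ∀ w ∈ W, Matrix.mulVec (ρ g : Matrix (Fin n) (Fin n) k) w ∈ W) →
      ∃ J : S0 → Finset (Fin n), Adm J ∧ ∃ A0 B0 : k, A0 ≠ 0 ∧ B0 ≠ 0 ∧
        ι A0 = φ (Pr S0 Sp α J) ∧ ι B0 = φ (Pr S0 Sq α J) ∧
        ∀ r : ℕ, r.Prime → r0 < r → r ≠ l → ∃ u b : ℕ, ¬ r ∣ u ∧
          A0 ^ u = (p : k) ^ b ∧ B0 ^ u = (q : k) ^ b := by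
  classical
  obtain ⟨r0, hr0⟩ := Pool.Agent.H500.Tr.char_rel hp hq hup huq Sp Sq S hSp hSq
    (fun v hv h => (hS v hv).1 ((hSp v).2 h)) (fun v hv h => (hS v hv).2 ((hSq v).2 h))
  refine ⟨r0, ?_⟩
  intro l hlfact k k' _ _ _ ι φ ρ hlp hlq hopen hunr hfr W hW0 hW1 hWs
  have hlprime := hlfact.out
  -- the determinant character
  have hWc : ∀ g, W ≤ W.comap (Pool.Agent.Y115.R.act ρ g) := fun g w hw => hWs g w hw
  set χ : GK K →* kˣ := Pool.Agent.Y115.R.dt ρ W hWc with hχ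
  have hχ1 : ∀ g, ρ g = 1 → χ g = 1 := fun g hg => Pool.Agent.Y115.R.dt_eq_one ρ W hWc hg
  have hχo : IsOpen (χ.ker : Set (GK K)) :=
    Subgroup.isOpen_mono (H₁ := ρ.ker) (fun g hg => hχ1 g hg) hopen
  -- the values at Frobenius elements
  have hfrob : ∀ (v : HeightOneSpectrum (𝓞 K)) (_ : v ∈ S0) (σ : GK K), IsFrob v σ →
      ∃ I : Finset (Fin n), I.card = Module.finrank k W ∧
        ι (χ σ : k) = φ (∏ i ∈ I, α v i) := by
    intro v hv σ hσ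
    have h1 := hfr v (by
      rcases (hS0 v).1 hv with h | h
      · exact Or.inl ((hSp v).1 h)
      · exact Or.inr ((hSq v).1 h)) σ hσ
    have h2 : ((Pool.Agent.Y115.R.act ρ σ).charpoly).map ι = ∏ i, (X - C (φ (α v i))) := by
      rw [← h1]
      congr 1
      unfold Pool.Agent.Y115.R.act
      rw [← LinearMap.charpoly_toMatrix _ (Pi.basisFun k (Fin n)), LinearMap.toMatrix_eq_toMatrix',
        ← Matrix.toLin'_apply', LinearMap.toMatrix'_toLin']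
    obtain ⟨I, hI1, hI2⟩ := Pool.Agent.H500.SR.det_restrict ι (fun i => φ (α v i))
      (Pool.Agent.Y115.R.act ρ σ) h2 W (hWc σ)
    refine ⟨I, hI1, ?_⟩
    rw [hχ, Pool.Agent.Y115.R.coe_dt, map_prod]
    exact hI2
  -- inertia acts trivially at the places above `p` and `q`
  have hinert : ∀ v ∉ S, (l : 𝓞 K) ∉ v.asIdeal → ∀ τ, IsInert v τ → χ τ = 1 :=
    fun v hv hlv τ hτ => hχ1 τ (hunr v hv hlv τ hτ)
  have hvl : ∀ v ∈ S0, (l : 𝓞 K) ∉ v.asIdeal := by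
    intro v hv hlv
    have hne : v.asIdeal ≠ ⊤ := v.isPrime.ne_top
    rcases (hS0 v).1 hv with h | h
    · exact not_both' hne ((Nat.coprime_primes hlprime hp).2 hlp) hlv ((hSp v).1 h)
    · exact not_both' hne ((Nat.coprime_primes hlprime hq).2 hlq) hlv ((hSq v).1 h)
  -- choose a Frobenius element and the subset at every place
  have hex : ∀ v : HeightOneSpectrum (𝓞 K), ∃ σ : GK K, IsFrob v σ :=
    fun v => Pool.Agent.W401.Frob.exists_frob v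
  choose σ0 hσ0 using hex
  have hI : ∀ v : S0, ∃ I : Finset (Fin n), I.card = Module.finrank k W ∧
      ι (χ (σ0 v.1) : k) = φ (∏ i ∈ I, α v.1 i) := fun v => hfrob v.1 v.2 _ (hσ0 v.1)
  choose J hJ1 hJ2 using hI
  -- all Frobenius elements have the same value
  have hall : ∀ v : HeightOneSpectrum (𝓞 K), (p : 𝓞 K) ∈ v.asIdeal ∨ (q : 𝓞 K) ∈ v.asIdeal →
      ∀ σ, IsFrob v σ → χ σ = χ (σ0 v) := by
    intro v hv σ hσ
    have hvS0 : v ∈ S0 := by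
      rcases hv with h | h
      · exact (hS0 v).2 (Or.inl ((hSp v).2 h))
      · exact (hS0 v).2 (Or.inr ((hSq v).2 h))
    have hvS : v ∉ S := by
      intro h
      rcases hv with h' | h'
      · exact (hS v h).1 ((hSp v).2 h')
      · exact (hS v h).2 ((hSq v).2 h')
    obtain ⟨x, ι', hι, hx⟩ := Pool.Agent.W401.Frob.conj_frob v (σ0 v) σ (hσ0 v) hσ
    rw [hx, map_mul, map_mul, map_mul, map_inv, hinert v hvS (hvl v hvS0) ι' hι, mul_one,
      mul_comm (χ x), mul_inv_cancel_right]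
  have hrel := hr0 l k hlp hlq χ hχo hinert (fun v => χ (σ0 v)) hall
  have hAval : ι (∏ v ∈ Sp, ((χ (σ0 v) : kˣ) : k)) = φ (Pr S0 Sp α J) := by
    unfold Pr
    rw [map_prod, map_prod]
    refine Finset.prod_congr rfl fun v hv => ?_
    have h : v ∈ S0 := (hS0 v).2 (Or.inl hv)
    rw [dif_pos h, ← hJ2 ⟨v, h⟩]
  have hBval : ι (∏ v ∈ Sq, ((χ (σ0 v) : kˣ) : k)) = φ (Pr S0 Sq α J) := by
    unfold Pr
    rw [map_prod, map_prod]
    refine Finset.prod_congr rfl fun v hv => ?_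
    have h : v ∈ S0 := (hS0 v).2 (Or.inr hv)
    rw [dif_pos h, ← hJ2 ⟨v, h⟩]
  refine ⟨J, ⟨Module.finrank k W, ?_, ?_, hJ1⟩, _, _, ?_, ?_, hAval, hBval, hrel⟩
  · exact Nat.pos_of_ne_zero fun h => hW0 (Submodule.finrank_eq_zero.1 h)
  · have h1 := Submodule.finrank_lt hW1
    rwa [Module.finrank_fin_fun] at h1
  · exact Finset.prod_ne_zero_iff.2 fun v _ => Units.ne_zero _
  · exact Finset.prod_ne_zero_iff.2 fun v _ => Units.ne_zero _

/-- a relation for an admissible choice -/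
theorem no_rel {n p q : ℕ} (Sp Sq S0 : Finset (HeightOneSpectrum (𝓞 K)))
    (hS0 : ∀ v, v ∈ S0 ↔ v ∈ Sp ∨ v ∈ Sq) (α : HeightOneSpectrum (𝓞 K) → Fin n → 𝓞 F)
    (hα : ∀ (m : ℕ) (I : HeightOneSpectrum (𝓞 K) → Finset (Fin n)) (N a : ℕ), 0 < m → m < n →
      (∀ v, (I v).card = m) → 0 < N →
      ¬ ((∏ v ∈ Sp, ∏ i ∈ I v, α v i) ^ N = (p : 𝓞 F) ^ a ∧
        (∏ v ∈ Sq, ∏ i ∈ I v, α v i) ^ N = (q : 𝓞 F) ^ a))
    (J : S0 → Finset (Fin n)) (hJ : Adm J) (N a : ℕ) (hN : 0 < N) :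
    ¬ (Pr S0 Sp α J ^ N = (p : 𝓞 F) ^ a ∧ Pr S0 Sq α J ^ N = (q : 𝓞 F) ^ a) := by
  classical
  obtain ⟨m, hm0, hmn, hJm⟩ := hJ
  obtain ⟨I0, hI0⟩ : ∃ I0 : Finset (Fin n), I0.card = m := by
    obtain ⟨I0, -, h⟩ := Finset.exists_subset_card_eq (s := (Finset.univ : Finset (Fin n)))
      (n := m) (by rw [Finset.card_univ, Fintype.card_fin]; omega)
    exact ⟨I0, h⟩
  have h1 := hα m (fun v => if h : v ∈ S0 then J ⟨v, h⟩ else I0) N a hm0 hmn (by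
    intro v
    by_cases h : v ∈ S0
    · simp only [dif_pos h]
      exact hJm _
    · simp only [dif_neg h]
      exact hI0) hN
  have e1 : ∏ v ∈ Sp, ∏ i ∈ (if h : v ∈ S0 then J ⟨v, h⟩ else I0), α v i = Pr S0 Sp α J := by
    refine Finset.prod_congr rfl fun v hv => ?_
    have h : v ∈ S0 := (hS0 v).2 (Or.inl hv)
    rw [dif_pos h, dif_pos h]
  have e2 : ∏ v ∈ Sq, ∏ i ∈ (if h : v ∈ S0 then J ⟨v, h⟩ else I0), α v i = Pr S0 Sq α J := by
    refine Finset.prod_congr rfl fun v hv => ?_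
    have h : v ∈ S0 := (hS0 v).2 (Or.inr hv)
    rw [dif_pos h, dif_pos h]
  rw [e1, e2] at h1
  exact h1

/-- a finite union of sets of density zero -/
theorem dens_union {Ch : Type} [Fintype Ch] (P : HeightOneSpectrum (𝓞 F) → Prop)
    (Ex : HeightOneSpectrum (𝓞 F) → Prop) (Bad : Ch → HeightOneSpectrum (𝓞 F) → Prop)
    (h : ∀ v, P v → Ex v ∨ ∃ J, Bad J v) (hEx : Tendsto (dens Ex) atTop (𝓝 0))
    (hBad : ∀ J, Tendsto (dens (Bad J)) atTop (𝓝 0)) : Tendsto (dens P) atTop (𝓝 0) := by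
  classical
  have hsum : Tendsto (fun N => dens Ex N + ∑ J : Ch, dens (Bad J) N) atTop (𝓝 0) := by
    have h1 : Tendsto (fun N => ∑ J : Ch, dens (Bad J) N) atTop (𝓝 (∑ _J : Ch, (0 : ℝ))) :=
      tendsto_finsetSum _ fun J _ => hBad J
    rw [Finset.sum_const_zero] at h1
    have h2 := hEx.add h1
    rwa [add_zero] at h2
  refine squeeze_zero (fun N => Pool.Agent.W528.Ord.dens_nonneg _ N) (fun N => ?_) hsum
  have hunion : ∀ T : Finset Ch, dens (fun ℓ => ∃ J ∈ T, Bad J ℓ) N ≤ ∑ J ∈ T, dens (Bad J) N := by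
    intro T
    induction T using Finset.induction_on with
    | empty =>
      rw [Finset.sum_empty]
      have h1 : dens (fun ℓ : HeightOneSpectrum (𝓞 F) => ∃ J ∈ (∅ : Finset Ch), Bad J ℓ) N = 0 := by
        unfold dens
        have : IsEmpty {v : HeightOneSpectrum (𝓞 F) // Ideal.absNorm v.asIdeal ≤ N ∧
            ∃ J ∈ (∅ : Finset Ch), Bad J v} := by
          refine ⟨fun v => ?_⟩
          obtain ⟨v, -, J, hJ, -⟩ := v
          exact absurd hJ (Finset.notMem_empty _)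
        rw [Nat.card_of_isEmpty, Nat.cast_zero, zero_div]
      exact h1.le
    | insert J T hJ ih =>
      rw [Finset.sum_insert hJ]
      refine le_trans (Pool.Agent.W528.Ord.dens_mono (Q := fun ℓ => Bad J ℓ ∨ ∃ J ∈ T, Bad J ℓ)
        ?_ N) ((Pool.Agent.W528.Ord.dens_or _ _ N).trans (add_le_add le_rfl ih))
      rintro ℓ ⟨J', hJ', h⟩
      rcases Finset.mem_insert.1 hJ' with rfl | h'
      · exact Or.inl h
      · exact Or.inr ⟨J', h', h⟩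
  refine le_trans (Pool.Agent.W528.Ord.dens_mono (Q := fun ℓ => Ex ℓ ∨ ∃ J ∈ (Finset.univ :
    Finset Ch), Bad J ℓ) ?_ N) ((Pool.Agent.W528.Ord.dens_or _ _ N).trans
      (add_le_add le_rfl (hunion _)))
  intro ℓ hℓ
  rcases h ℓ hℓ with h | ⟨J, h⟩
  · exact Or.inl h
  · exact Or.inr ⟨J, Finset.mem_univ _, h⟩

/-- the residue characteristic -/
theorem res_char (ℓ : HeightOneSpectrum (𝓞 F)) {k : Type} [Field k] (φ : 𝓞 F →+* k)
    (hker : RingHom.ker φ = ℓ.asIdeal) : ∃ l : ℕ, l.Prime ∧ CharP k l ∧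
      (∀ r : ℕ, (r : 𝓞 F) ∈ ℓ.asIdeal ↔ l ∣ r) ∧
      ∀ v : HeightOneSpectrum (𝓞 K), (l : 𝓞 K) ∉ v.asIdeal →
        ((Ideal.absNorm ℓ.asIdeal : ℕ) : 𝓞 K) ∉ v.asIdeal := by
  have hmem : ∀ x : 𝓞 F, φ x = 0 ↔ x ∈ ℓ.asIdeal := by
    intro x
    rw [← hker, RingHom.mem_ker]
  obtain ⟨l, hlc⟩ := CharP.exists k
  have hlprime : l.Prime := by
    rcases CharP.char_is_prime_or_zero k l with h | h
    · exact h
    · exfalso
      have h1 : ((Ideal.absNorm ℓ.asIdeal : ℕ) : k) = 0 := by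
        rw [← map_natCast φ, hmem]
        exact Ideal.absNorm_mem _
      rw [CharP.cast_eq_zero_iff k l, h, zero_dvd_iff, Ideal.absNorm_eq_zero_iff] at h1
      exact ℓ.ne_bot h1
  have hlfact : Fact l.Prime := ⟨hlprime⟩
  have hcast : ∀ r : ℕ, (r : 𝓞 F) ∈ ℓ.asIdeal ↔ l ∣ r := by
    intro r
    rw [← hmem, map_natCast, CharP.cast_eq_zero_iff k l]
  refine ⟨l, hlprime, hlc, hcast, ?_⟩
  intro v hlv hmv
  obtain ⟨f, hf⟩ : ∃ f, Ideal.absNorm ℓ.asIdeal = l ^ f := by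
    have hmax := ℓ.isMaximal
    let _ : Field (𝓞 F ⧸ ℓ.asIdeal) := Ideal.Quotient.field ℓ.asIdeal
    have hfin : Finite (𝓞 F ⧸ ℓ.asIdeal) := Ideal.finiteQuotientOfFreeOfNeBot ℓ.asIdeal ℓ.ne_bot
    let _ : Fintype (𝓞 F ⧸ ℓ.asIdeal) := Fintype.ofFinite _
    have hch : CharP (𝓞 F ⧸ ℓ.asIdeal) l := by
      refine ⟨fun r => ?_⟩
      rw [← map_natCast (Ideal.Quotient.mk ℓ.asIdeal), Ideal.Quotient.eq_zero_iff_mem, hcast]
    obtain ⟨f, -, hf⟩ := FiniteField.card (𝓞 F ⧸ ℓ.asIdeal) l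
    refine ⟨f, ?_⟩
    rw [← hf, Ideal.absNorm_apply, Submodule.cardQuot_apply, Nat.card_eq_fintype_card]
  rw [hf, Nat.cast_pow] at hmv
  exact hlv (v.isPrime.mem_of_pow_mem f hmv)

end

end Pool.Agent.H500.Core
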