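import Pool.Agent.H500.KumDens

set_option autoImplicit false
set_option linter.unusedSectionVars false

/-!
# Density zero over a subfield
-/

namespace Pool.Agent.H500.Desc

open NumberField IsDedekindDomain Filter Topology
open Pool.Agent.W401.Cheb (dens)

section

variable {E F : Type} [Field E] [NumberField E] [Field F] [NumberField F] [Algebra E F]

/-- clearing denominators -/
theorem exists_den (A B : 𝓞 F) (x : F)
    (hx : x ∈ Algebra.adjoin E ({(A : F), (B : F)} : Set F)) :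
    ∃ D : ℕ, 0 < D ∧ ∃ y ∈ Algebra.adjoin (𝓞 E) ({A, B} : Set (𝓞 F)), (y : F) = (D : F) * x := by
  refine Algebra.adjoin_induction (p := fun x _ => ∃ D : ℕ, 0 < D ∧
    ∃ y ∈ Algebra.adjoin (𝓞 E) ({A, B} : Set (𝓞 F)), (y : F) = (D : F) * x) ?_ ?_ ?_ ?_ hx
  · intro x hx
    refine ⟨1, one_pos, ?_⟩
    rcases hx with rfl | hx
    · exact ⟨A, Algebra.subset_adjoin (by simp), by simp⟩
    · rw [Set.mem_singleton_iff] at hx
      subst hx
      exact ⟨B, Algebra.subset_adjoin (by simp), by simp⟩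
  · intro e
    have halg : IsAlgebraic ℤ e := by
      have h1 : Algebra.IsAlgebraic ℚ E := inferInstance
      exact (IsFractionRing.isAlgebraic_iff ℤ ℚ E).2 (h1.isAlgebraic e)
    obtain ⟨c, hc, hci⟩ := halg.exists_integral_multiple
    refine ⟨c.natAbs, Int.natAbs_pos.2 hc, ?_⟩
    have hci' : IsIntegral ℤ ((c.natAbs : E) * e) := by
      have h1 : IsIntegral ℤ ((c : E) * e) := by
        rw [← zsmul_eq_mul]
        exact hci
      rcases Int.natAbs_eq c with h | h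
      · have h2 : (c : E) = (c.natAbs : E) := by
          conv_lhs => rw [h]
          exact Int.cast_natCast _
        rwa [h2] at h1
      · have h2 : (c : E) = -(c.natAbs : E) := by
          conv_lhs => rw [h]
          rw [Int.cast_neg, Int.cast_natCast]
        rw [h2, neg_mul] at h1
        simpa using h1.neg
    refine ⟨algebraMap (𝓞 E) (𝓞 F) ⟨_, hci'⟩, Subalgebra.algebraMap_mem _ _, ?_⟩
    show algebraMap E F ((c.natAbs : E) * e) = _
    rw [map_mul, map_natCast]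
  · rintro a b - - ⟨D1, h1, y1, hy1, e1⟩ ⟨D2, h2, y2, hy2, e2⟩
    refine ⟨D1 * D2, Nat.mul_pos h1 h2, (D2 : 𝓞 F) * y1 + (D1 : 𝓞 F) * y2, ?_, ?_⟩
    · refine Subalgebra.add_mem _ (Subalgebra.mul_mem _ (Subalgebra.natCast_mem _ _) hy1)
        (Subalgebra.mul_mem _ (Subalgebra.natCast_mem _ _) hy2)
    · have h3 : (((D2 : 𝓞 F) * y1 + (D1 : 𝓞 F) * y2 : 𝓞 F) : F) =
          (D2 : F) * (y1 : F) + (D1 : F) * (y2 : F) := by simp
      rw [h3, e1, e2]
      push_cast
      ring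
  · rintro a b - - ⟨D1, h1, y1, hy1, e1⟩ ⟨D2, h2, y2, hy2, e2⟩
    refine ⟨D1 * D2, Nat.mul_pos h1 h2, y1 * y2, Subalgebra.mul_mem _ hy1 hy2, ?_⟩
    have h3 : ((y1 * y2 : 𝓞 F) : F) = (y1 : F) * (y2 : F) := by simp
    rw [h3, e1, e2]
    push_cast
    ring

/-- a common denominator for all integers of a subfield -/
theorem exists_common (A B : 𝓞 F) (F' : IntermediateField E F)
    (hF' : ∀ x ∈ F', x ∈ Algebra.adjoin E ({(A : F), (B : F)} : Set F)) :
    ∃ D : ℕ, 0 < D ∧ ∀ x : 𝓞 F', ∃ y ∈ Algebra.adjoin (𝓞 E) ({A, B} : Set (𝓞 F)),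
      (y : F) = (D : F) * ((x : F') : F) := by
  classical
  have : NumberField F' := inferInstance
  let b := RingOfIntegers.basis F'
  choose D hD y hy e using fun i => exists_den A B (((b i : 𝓞 F') : F') : F) (hF' _ (Subtype.coe_prop _))
  refine ⟨∏ i, D i, Finset.prod_pos fun i _ => hD i, fun x => ?_⟩
  have hk : ∀ i, ∃ k : ℕ, ∏ j, D j = D i * k := fun i => Finset.dvd_prod_of_mem D (Finset.mem_univ i)
  choose k hk using hk
  refine ⟨∑ i, ((b.repr x i : ℤ) : 𝓞 F) * ((k i : 𝓞 F) * y i), ?_, ?_⟩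
  · refine Subalgebra.sum_mem _ fun i _ => ?_
    exact Subalgebra.mul_mem _ (Subalgebra.intCast_mem _ _)
      (Subalgebra.mul_mem _ (Subalgebra.natCast_mem _ _) (hy i))
  · have hx : (x : F') = ∑ i, ((b.repr x i : ℤ) : F') * ((b i : 𝓞 F') : F') := by
      have h1 := b.sum_repr x
      have h2 : algebraMap (𝓞 F') F' (∑ i, b.repr x i • b i) = algebraMap (𝓞 F') F' x :=
        congrArg _ h1
      rw [map_sum] at h2
      refine h2.symm.trans (Finset.sum_congr rfl fun i _ => ?_)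
      rw [zsmul_eq_mul, map_mul, map_intCast]
    have hx2 : ((x : F') : F) = ∑ i, ((b.repr x i : ℤ) : F) * (((b i : 𝓞 F') : F') : F) := by
      have h3 := congrArg (algebraMap F' F) hx
      rw [map_sum] at h3
      refine h3.trans (Finset.sum_congr rfl fun i _ => ?_)
      rw [map_mul, map_intCast]
      rfl
    rw [hx2, Finset.mul_sum]
    have h4 : ((∑ i, ((b.repr x i : ℤ) : 𝓞 F) * ((k i : 𝓞 F) * y i) : 𝓞 F) : F) =
        ∑ i, ((b.repr x i : ℤ) : F) * ((k i : F) * (y i : F)) := by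
      simp
    rw [h4]
    refine Finset.sum_congr rfl fun i _ => ?_
    rw [e i, hk i]
    push_cast
    ring

/-- the norm of the kernel of a homomorphism to a field -/
theorem norm_ker {R : Type} [Field R] [NumberField R] {k : Type} [Field k] (ψ : 𝓞 R →+* k)
    (μ : HeightOneSpectrum (𝓞 R)) (h : RingHom.ker ψ = μ.asIdeal) :
    Ideal.absNorm μ.asIdeal = Nat.card ψ.range := by
  rw [Ideal.absNorm_apply, Submodule.cardQuot_apply, ← h]
  exact Nat.card_congr (RingHom.quotientKerEquivRange ψ).toEquiv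

/-- **Density zero over a subfield.** -/
theorem descend {p q : ℕ} (hp : p.Prime) (hq : q.Prime) (hpq : p ≠ q) {A B : 𝓞 F}
    (hA : A ≠ 0) (hB : B ≠ 0)
    (hrel : ∀ N a : ℕ, 0 < N → ¬ (A ^ N = (p : 𝓞 F) ^ a ∧ B ^ N = (q : 𝓞 F) ^ a))
    (P : HeightOneSpectrum (𝓞 E) → Prop) (r0 : ℕ)
    (hP : ∀ v, P v → ∃ (k' : Type) (_ : Field k') (φ : 𝓞 F →+* k'),
      RingHom.ker (φ.comp (algebraMap (𝓞 E) (𝓞 F))) = v.asIdeal ∧
      (∃ a : 𝓞 E, φ A = φ (algebraMap (𝓞 E) (𝓞 F) a)) ∧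
      (∃ a : 𝓞 E, φ B = φ (algebraMap (𝓞 E) (𝓞 F) a)) ∧
      ∀ r : ℕ, r.Prime → r0 < r → (r : k') ≠ 0 → ∃ u a : ℕ, ¬ r ∣ u ∧
        φ A ^ u = (p : k') ^ a ∧ φ B ^ u = (q : k') ^ a) :
    Tendsto (dens P) atTop (𝓝 0) := by
  classical
  set F' : IntermediateField E F := IntermediateField.adjoin E ({(A : F), (B : F)} : Set F) with hF'
  have hF'alg : ∀ x ∈ F', x ∈ Algebra.adjoin E ({(A : F), (B : F)} : Set F) := by
    intro x hx
    have h1 : F'.toSubalgebra = Algebra.adjoin E ({(A : F), (B : F)} : Set F) :=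
      IntermediateField.adjoin_toSubalgebra_of_isAlgebraic
        fun x _ => Algebra.IsAlgebraic.isAlgebraic x
    rw [← h1]
    exact hx
  obtain ⟨D, hD, hDx⟩ := exists_common A B F' hF'alg
  have hmk : ∀ C : 𝓞 F, (C : F) ∈ F' → ∃ C' : 𝓞 F', algebraMap (𝓞 F') (𝓞 F) C' = C := by
    intro C hC
    have hint : IsIntegral ℤ (⟨(C : F), hC⟩ : F') :=
      (isIntegral_algebraMap_iff (algebraMap F' F).injective).1 C.2
    exact ⟨⟨⟨(C : F), hC⟩, hint⟩, RingOfIntegers.ext rfl⟩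
  obtain ⟨A', hA'⟩ := hmk A (IntermediateField.subset_adjoin _ _ (by simp))
  obtain ⟨B', hB'⟩ := hmk B (IntermediateField.subset_adjoin _ _ (by simp))
  set P' : HeightOneSpectrum (𝓞 F') → Prop := fun μ => ∀ r : ℕ, r.Prime → r0 < r →
    (r : 𝓞 F') ∉ μ.asIdeal → ∃ u a : ℕ, ¬ r ∣ u ∧
      A' ^ u - (p : 𝓞 F') ^ a ∈ μ.asIdeal ∧ B' ^ u - (q : 𝓞 F') ^ a ∈ μ.asIdeal with hP'
  have hd1 : Tendsto (dens P') atTop (𝓝 0) := by
    refine Pool.Agent.H500.Kum.density hp hq hpq (A := A') (B := B') ?_ ?_ ?_ P' r0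
      (fun μ hμ => hμ)
    · rintro rfl
      exact hA (by rw [← hA', map_zero])
    · rintro rfl
      exact hB (by rw [← hB', map_zero])
    · rintro N a hN ⟨h1, h2⟩
      apply hrel N a hN
      have e1 := congrArg (algebraMap (𝓞 F') (𝓞 F)) h1
      have e2 := congrArg (algebraMap (𝓞 F') (𝓞 F)) h2
      rw [map_pow, map_pow, hA', map_natCast] at e1
      rw [map_pow, map_pow, hB', map_natCast] at e2
      exact ⟨e1, e2⟩
  have hd2 := Pool.Agent.H500.Kum.dens_fin (fun v : HeightOneSpectrum (𝓞 E) =>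
    (D : 𝓞 E) ∈ v.asIdeal) (Pool.Agent.H500.Kum.fin_mem (Nat.cast_ne_zero.2 hD.ne'))
  -- the map
  have key : ∀ v : HeightOneSpectrum (𝓞 E), P v ∧ (D : 𝓞 E) ∉ v.asIdeal →
      ∃ μ : HeightOneSpectrum (𝓞 F'), P' μ ∧ Ideal.absNorm μ.asIdeal = Ideal.absNorm v.asIdeal ∧
        μ.asIdeal.comap (algebraMap (𝓞 E) (𝓞 F')) = v.asIdeal := by
    rintro v ⟨hv, hDv⟩
    obtain ⟨k', _, φ, hker, ⟨a, ha⟩, ⟨b, hb⟩, hrels⟩ := hP v hv
    set ψ : 𝓞 F' →+* k' := φ.comp (algebraMap (𝓞 F') (𝓞 F)) with hψ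
    have hcomp : ψ.comp (algebraMap (𝓞 E) (𝓞 F')) = φ.comp (algebraMap (𝓞 E) (𝓞 F)) := by
      rw [hψ, RingHom.comp_assoc]
      congr 1
    have hcm : (RingHom.ker ψ).comap (algebraMap (𝓞 E) (𝓞 F')) = v.asIdeal := by
      rw [← hker, ← hcomp]
      rfl
    have hne : RingHom.ker ψ ≠ ⊥ := by
      intro h0
      rw [h0] at hcm
      apply v.ne_bot
      rw [← hcm, eq_bot_iff]
      intro x hx
      rw [Ideal.mem_comap, Ideal.mem_bot] at hx
      rw [Ideal.mem_bot]
      have hinj : Function.Injective (algebraMap (𝓞 E) (𝓞 F')) :=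
        FaithfulSMul.algebraMap_injective _ _
      exact hinj (hx.trans (map_zero _).symm)
    have hprime : (RingHom.ker ψ).IsPrime := RingHom.ker_isPrime ψ
    set μ : HeightOneSpectrum (𝓞 F') := ⟨RingHom.ker ψ, hprime, hne⟩ with hμ
    have hmem : ∀ x : 𝓞 F', x ∈ μ.asIdeal ↔ ψ x = 0 := fun x => RingHom.mem_ker
    have hrange : ψ.range = (φ.comp (algebraMap (𝓞 E) (𝓞 F))).range := by
      apply le_antisymm
      · rintro _ ⟨x, rfl⟩
        obtain ⟨y, hy, hyx⟩ := hDx x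
        -- an inverse of `D`
        obtain ⟨e, he⟩ : ∃ e : 𝓞 E, (D : 𝓞 E) * e - 1 ∈ v.asIdeal := by
          have hmax := v.isMaximal
          obtain ⟨e, m, hm, hem⟩ := hmax.exists_inv hDv
          refine ⟨e, ?_⟩
          have : (D : 𝓞 E) * e - 1 = -m := by
            rw [← hem]
            ring
          rw [this]
          exact v.asIdeal.neg_mem hm
        have hy1 : φ y ∈ (φ.comp (algebraMap (𝓞 E) (𝓞 F))).range := by
          refine Algebra.adjoin_induction (p := fun y _ => φ y ∈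
            (φ.comp (algebraMap (𝓞 E) (𝓞 F))).range) ?_ ?_ ?_ ?_ hy
          · intro z hz
            rcases hz with rfl | hz
            · exact ⟨a, ha.symm⟩
            · rw [Set.mem_singleton_iff] at hz
              subst hz
              exact ⟨b, hb.symm⟩
          · intro z
            exact ⟨z, rfl⟩
          · intro z w _ _ hz hw
            rw [map_add]
            exact Subring.add_mem _ hz hw
          · intro z w _ _ hz hw
            rw [map_mul]
            exact Subring.mul_mem _ hz hw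
        have hyx' : y = (D : 𝓞 F) * algebraMap (𝓞 F') (𝓞 F) x := by
          apply RingOfIntegers.ext
          rw [hyx]
          show _ = algebraMap (𝓞 F) F ((D : 𝓞 F) * algebraMap (𝓞 F') (𝓞 F) x)
          rw [map_mul, map_natCast]
          rfl
        have he1 : φ (algebraMap (𝓞 E) (𝓞 F) e) * (D : k') = 1 := by
          have h1 : (D : 𝓞 E) * e - 1 ∈ RingHom.ker (φ.comp (algebraMap (𝓞 E) (𝓞 F))) := by
            rw [hker]
            exact he
          rw [RingHom.mem_ker, map_sub, map_mul, map_natCast, map_one, sub_eq_zero] at h1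
          rw [mul_comm]
          exact h1
        have hfin : ψ x = φ (algebraMap (𝓞 E) (𝓞 F) e) * φ y := by
          rw [hyx', map_mul, map_natCast, ← mul_assoc, he1, one_mul]
          rfl
        rw [hfin]
        exact Subring.mul_mem _ ⟨e, rfl⟩ hy1
      · rintro _ ⟨x, rfl⟩
        exact ⟨algebraMap (𝓞 E) (𝓞 F') x, RingHom.congr_fun hcomp x⟩
    refine ⟨μ, ?_, ?_, hcm⟩
    · intro r hr hr0 hrμ
      have hrk : (r : k') ≠ 0 := by
        intro h
        apply hrμ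
        rw [hmem, map_natCast]
        exact h
      obtain ⟨u, c, hu, h1, h2⟩ := hrels r hr hr0 hrk
      refine ⟨u, c, hu, ?_, ?_⟩
      · rw [hmem, map_sub, map_pow, map_pow, map_natCast, hψ, RingHom.comp_apply, hA', h1, sub_self]
      · rw [hmem, map_sub, map_pow, map_pow, map_natCast, hψ, RingHom.comp_apply, hB', h2, sub_self]
    · rw [norm_ker ψ μ rfl, norm_ker (φ.comp (algebraMap (𝓞 E) (𝓞 F))) v hker, hrange]
  choose f hf1 hf2 hf3 using key
  have hd3 : ∀ N, dens (fun v => P v ∧ (D : 𝓞 E) ∉ v.asIdeal) N ≤ dens P' N := by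
    intro N
    unfold dens
    apply div_le_div_of_nonneg_right _ (Nat.cast_nonneg _)
    have hfin : Finite {μ : HeightOneSpectrum (𝓞 F') // Ideal.absNorm μ.asIdeal ≤ N ∧ P' μ} :=
      ((Pool.Agent.W352.ChAbs.finite_le (K := F') N).subset (fun v hv => hv.1) :
        {μ : HeightOneSpectrum (𝓞 F') | Ideal.absNorm μ.asIdeal ≤ N ∧ P' μ}.Finite)
    have h1 := Nat.card_le_card_of_injective
      (fun v : {v : HeightOneSpectrum (𝓞 E) // Ideal.absNorm v.asIdeal ≤ N ∧ P v ∧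
        (D : 𝓞 E) ∉ v.asIdeal} => (⟨f v.1 v.2.2, by rw [hf2]; exact v.2.1, hf1 _ _⟩ :
          {μ : HeightOneSpectrum (𝓞 F') // Ideal.absNorm μ.asIdeal ≤ N ∧ P' μ})) (by
      intro v w hvw
      have h2 : f v.1 v.2.2 = f w.1 w.2.2 := congrArg Subtype.val hvw
      apply Subtype.ext
      apply HeightOneSpectrum.ext
      rw [← hf3 v.1 v.2.2, ← hf3 w.1 w.2.2, h2])
    exact_mod_cast h1
  have hsum := hd2.add hd1
  rw [add_zero] at hsum
  refine squeeze_zero (fun N => Pool.Agent.W528.Ord.dens_nonneg _ N) (fun N => ?_) hsum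
  refine le_trans (Pool.Agent.W528.Ord.dens_mono (Q := fun v => (D : 𝓞 E) ∈ v.asIdeal ∨
    (P v ∧ (D : 𝓞 E) ∉ v.asIdeal)) ?_ N) ((Pool.Agent.W528.Ord.dens_or _ _ N).trans
      (add_le_add le_rfl (hd3 N)))
  intro v hv
  by_cases h : (D : 𝓞 E) ∈ v.asIdeal
  · exact Or.inl h
  · exact Or.inr ⟨hv, h⟩

end

end Pool.Agent.H500.Desc
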