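import Pool.Agent.H500.Quad

set_option autoImplicit false
set_option linter.unusedSectionVars false

/-!
# Dihedral residual representations are rare
-/

namespace Pool.Agent.H500.Dih

open NumberField IsDedekindDomain Pool.Agent.W569.FM Filter Topology
open Pool.Agent.H500.Kum Pool.Agent.H500.KumI Pool.Agent.H500.Tr Pool.Agent.H500.Quad
open Pool.Agent.W401.Cheb (GK IsFrob dens)

/-- the sign character of a subgroup of index two -/
theorem exists_delta {G : Type} [Group G] (U : Subgroup G) (hU : U.index = 2) :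
    ∃ δ : G →* ℤˣ, ∀ g, δ g = 1 ↔ g ∈ U := by
  classical
  refine ⟨{ toFun := fun g => if g ∈ U then 1 else -1, map_one' := if_pos U.one_mem,
            map_mul' := ?_ }, ?_⟩
  · intro a b
    have h := Subgroup.mul_mem_iff_of_index_two hU (a := a) (b := b)
    by_cases ha : a ∈ U <;> by_cases hb : b ∈ U
    · rw [if_pos ha, if_pos hb, if_pos (h.2 (by tauto)), one_mul]
    · rw [if_pos ha, if_neg hb, if_neg (fun h' => hb ((h.1 h').1 ha)), one_mul]
    · rw [if_neg ha, if_pos hb, if_neg (fun h' => ha ((h.1 h').2 hb)), mul_one]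
    · rw [if_neg ha, if_neg hb, if_pos (h.2 (by tauto)), neg_mul_neg, one_mul]
  · intro g
    show (if g ∈ U then (1 : ℤˣ) else -1) = 1 ↔ g ∈ U
    by_cases hg : g ∈ U
    · simp [hg]
    · simp [hg]

theorem norm_mem {K : Type} [Field K] [NumberField K] {P : Ideal (𝓞 (AlgebraicClosure K))}
    {v : HeightOneSpectrum (𝓞 K)}
    (hPv : P.comap (algebraMap (𝓞 K) (𝓞 (AlgebraicClosure K))) = v.asIdeal) :
    ((Ideal.absNorm v.asIdeal : ℕ) : 𝓞 (AlgebraicClosure K)) ∈ P := by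
  have h5 : ((Ideal.absNorm v.asIdeal : ℕ) : 𝓞 K) ∈
      P.comap (algebraMap (𝓞 K) (𝓞 (AlgebraicClosure K))) := by
    rw [hPv]
    exact Ideal.absNorm_mem _
  rw [Ideal.mem_comap, map_natCast] at h5
  exact h5

/-- Frobenius elements in an open normal subgroup -/
theorem cheb_inf (U : Subgroup (GF ℚ)) (hU : IsOpen (U : Set (GF ℚ))) (hn : U.Normal) (B : ℕ) :
    ∃ p : ℕ, p.Prime ∧ B < p ∧ ∃ P : Ideal (OO ℚ), P.IsMaximal ∧ (p : OO ℚ) ∈ P ∧
      ∃ σ ∈ U, FrobAt p P σ := by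
  classical
  by_contra hcon
  push Not at hcon
  have hlim := Pool.Agent.W528.Ord.chebK ℚ U hU (U : Set (GF ℚ)) (fun σ hσ τ =>
    hn.conj_mem σ hσ τ) (fun σ hσ u hu => U.mul_mem hσ hu)
  have hfinq : Finite (GF ℚ ⧸ U) := Subgroup.quotient_finite_of_isOpen _ hU
  have hpos : 0 < (((QuotientGroup.mk : GK ℚ → GK ℚ ⧸ U) '' (U : Set (GF ℚ))).ncard : ℝ) /
      (Nat.card (GK ℚ ⧸ U) : ℝ) := by
    apply div_pos
    · rw [Nat.cast_pos, Set.ncard_pos]
      exact ⟨_, 1, U.one_mem, rfl⟩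
    · rw [Nat.cast_pos]
      exact Nat.card_pos
  have h1 := Pool.Agent.W528.Ord.dens_not_prime (K := ℚ)
  have h2 := dens_fin (E := ℚ) (fun v => Ideal.absNorm v.asIdeal ≤ B)
    (Pool.Agent.W352.ChAbs.finite_le B)
  have h3 := h1.add h2
  rw [add_zero] at h3
  have h4 : Tendsto (dens fun v : HeightOneSpectrum (𝓞 ℚ) => ∃ σ ∈ (U : Set (GF ℚ)), IsFrob v σ)
      atTop (𝓝 0) := by
    refine squeeze_zero (fun N => Pool.Agent.W528.Ord.dens_nonneg _ N) (fun N => ?_) h3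
    refine (Pool.Agent.W528.Ord.dens_mono (Q := fun v => ¬ (Ideal.absNorm v.asIdeal).Prime ∨
      Ideal.absNorm v.asIdeal ≤ B) ?_ N).trans (Pool.Agent.W528.Ord.dens_or _ _ N)
    rintro v ⟨σ, hσ, P, hPm, hPv, hP⟩
    by_contra hv
    push Not at hv
    obtain ⟨hv1, hv2⟩ := hv
    refine hcon _ hv1 hv2 P hPm ?_ σ hσ hP
    exact norm_mem hPv
  have h5 := tendsto_nhds_unique hlim h4
  rw [h5] at hpos
  exact lt_irrefl _ hpos

/-- **Dihedral residual representations are rare.** -/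
theorem dihedral {E : Type} [Field E] [NumberField E] (S : Finset ℕ) (a : ℕ → 𝓞 E)
    (hcm : ∀ U : Subgroup (GF ℚ), IsOpen (U : Set (GF ℚ)) → U.index = 2 →
      (∀ p : ℕ, p.Prime → p ∉ S → ∀ P : Ideal (OO ℚ), P.IsMaximal → (p : OO ℚ) ∈ P →
        ∀ τ, InInertia P τ → τ ∈ U) →
      ∃ p : ℕ, p.Prime ∧ p ∉ S ∧ a p ≠ 0 ∧ ∃ P : Ideal (OO ℚ), P.IsMaximal ∧ (p : OO ℚ) ∈ P ∧
        ∃ σ, FrobAt p P σ ∧ σ ∉ U)
    (hinf : {p : ℕ | p.Prime ∧ p ∉ S ∧ a p ≠ 0}.Infinite)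
    (Q : HeightOneSpectrum (𝓞 E) → Prop)
    (hQ : ∀ v, Q v → ∃ U : Subgroup (GF ℚ), IsOpen (U : Set (GF ℚ)) ∧ U.index = 2 ∧
      (∀ p : ℕ, p.Prime → p ∉ S → (p : 𝓞 E) ∉ v.asIdeal → ∀ P : Ideal (OO ℚ), P.IsMaximal →
        (p : OO ℚ) ∈ P → ∀ τ, InInertia P τ → τ ∈ U) ∧
      ∀ p : ℕ, p.Prime → p ∉ S → (p : 𝓞 E) ∉ v.asIdeal → a p ∉ v.asIdeal → ∀ P : Ideal (OO ℚ),
        P.IsMaximal → (p : OO ℚ) ∈ P → ∀ σ, FrobAt p P σ → σ ∈ U) :
    Tendsto (dens Q) atTop (𝓝 0) := by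
  classical
  -- the finitely many quadratic fields
  set 𝓗 : Set (Subgroup (GF ℚ)) := {H | H.Normal ∧ IsOpen (H : Set (GF ℚ)) ∧ H.index ≤ 2 ∧
      ∀ p : ℕ, p.Prime → p ∉ S.filter Nat.Prime → ∀ P : Ideal (OO ℚ), P.IsMaximal →
        (p : OO ℚ) ∈ P → ∀ τ : GF ℚ, Pool.Agent.Y800.InInertia P τ → τ ∈ H} with h𝓗
  have h𝓗f : 𝓗.Finite := Pool.Agent.Y800.HM.finite_subgroups (S.filter Nat.Prime)
    (fun p hp => (Finset.mem_filter.1 hp).2) 2
  have _ : Fintype 𝓗 := h𝓗f.fintype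
  have hmemS : ∀ p : ℕ, p.Prime → (p ∉ S.filter Nat.Prime ↔ p ∉ S) := by
    intro p hp
    rw [Finset.mem_filter, not_and_or]
    exact ⟨fun h => h.resolve_right (fun h' => h' hp), Or.inl⟩
  -- the primes of the non-CM condition
  have hpH : ∀ H : 𝓗, ∃ p : ℕ, H.1.index = 2 → p.Prime ∧ p ∉ S ∧ a p ≠ 0 ∧ ∃ P : Ideal (OO ℚ),
      P.IsMaximal ∧ (p : OO ℚ) ∈ P ∧ ∃ σ, FrobAt p P σ ∧ σ ∉ H.1 := by
    intro H
    by_cases h2 : H.1.index = 2
    · obtain ⟨p, hp⟩ := hcm H.1 H.2.2.1 h2 (fun p hp hpS => H.2.2.2.2 p hp ((hmemS p hp).2 hpS))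
      exact ⟨p, fun _ => hp⟩
    · exact ⟨0, fun h => absurd h h2⟩
  choose pH hpH using hpH
  rw [Metric.tendsto_atTop]
  intro ε hε
  -- the number of auxiliary primes
  obtain ⟨t, ht⟩ : ∃ t : ℕ, (Fintype.card 𝓗 : ℝ) * (1 / 2) ^ t < ε / 2 := by
    have h1 : Tendsto (fun t : ℕ => (Fintype.card 𝓗 : ℝ) * (1 / 2 : ℝ) ^ t) atTop
        (𝓝 ((Fintype.card 𝓗 : ℝ) * 0)) :=
      (tendsto_pow_atTop_nhds_zero_of_lt_one (by norm_num) (by norm_num)).const_mul _
    rw [mul_zero] at h1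
    exact (h1.eventually (gt_mem_nhds (half_pos hε))).exists
  have hinf' : ({p : ℕ | p.Prime ∧ p ∉ S ∧ a p ≠ 0} \ {p : ℕ | (p : ℤ) ∣ discr E}).Infinite := by
    refine hinf.sdiff ((Set.finite_Iic (discr E).natAbs).subset ?_)
    intro p hp
    have h1 := Int.natAbs_dvd_natAbs.2 (show (p : ℤ) ∣ discr E from hp)
    rw [Int.natAbs_natCast] at h1
    exact Nat.le_of_dvd (Int.natAbs_pos.2 (discr_ne_zero E)) h1
  obtain ⟨T, hTs, hTc⟩ := hinf'.exists_subset_card_eq t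
  have hT : ∀ p ∈ T, p.Prime ∧ p ∉ S ∧ a p ≠ 0 ∧ ¬ (p : ℤ) ∣ discr E := fun p hp =>
    ⟨(hTs hp).1.1, (hTs hp).1.2.1, (hTs hp).1.2.2, (hTs hp).2⟩
  -- Frobenius elements
  have hfr : ∀ p : ℕ, ∃ P : Ideal (OO ℚ), ∃ σ : GF ℚ, p.Prime → P.IsMaximal ∧ (p : OO ℚ) ∈ P ∧
      FrobAt p P σ := by
    intro p
    by_cases hp : p.Prime
    · obtain ⟨⟨P, hP, hpP, σ, hσ⟩, -⟩ := sFROB p hp
      exact ⟨P, σ, fun _ => ⟨hP, hpP, hσ⟩⟩
    · exact ⟨⊤, 1, fun h => absurd h hp⟩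
  choose PP σσ hPσ using hfr
  -- the patterns
  set s : Subgroup (GF ℚ) → ℕ → ZMod 2 := fun H p => if σσ p ∈ H then 0 else 1 with hs
  set w : Subgroup (GF ℚ) → ℕ → 𝓞 E := fun H p => if σσ p ∈ H then 1 else -1 with hw
  set Pat : 𝓗 → HeightOneSpectrum (𝓞 E) → Prop := fun H v => ∃ m, 2 * m + 1 = Ideal.absNorm v.asIdeal ∧
      ∀ p ∈ T, (p : 𝓞 E) ^ m - w H.1 p ∈ v.asIdeal with hPat
  have h2f : Fact (Nat.Prime 2) := ⟨Nat.prime_two⟩
  have hpat : ∀ H : 𝓗, ∀ᶠ N in atTop, dens (Pat H) N < 1 / (2 : ℝ) ^ t +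
      ε / (4 * (Fintype.card 𝓗 + 1)) := by
    intro H
    have h1 := pattern (E := E) (r := 2) T (fun p hp => (hT p hp).1)
      (fun p hp v hv => unram_of (hT p hp).1 (hT p hp).2.2.2 v hv) (s H.1) (Or.inl rfl) (w H.1)
      (by
        intro z hz i
        have hz1 : z = -1 := hz.eq_neg_one_of_two_right
        by_cases h : σσ i ∈ H.1
        · simp only [hs, hw, if_pos h, map_one, ZMod.val_zero, pow_zero]
        · simp only [hs, hw, if_neg h, map_neg, map_one, hz1]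
          rw [show (1 : ZMod 2).val = 1 from rfl, pow_one]) (Pat H) (fun v hv => hv) (ε := ε / (4 * (Fintype.card 𝓗 + 1))) (by positivity)
    rw [hTc, Nat.cast_ofNat] at h1
    exact h1
  -- the exceptional primes
  set X : HeightOneSpectrum (𝓞 E) → Prop := fun v => ¬ (Ideal.absNorm v.asIdeal).Prime ∨
    ((2 : ℕ) : 𝓞 E) ∈ v.asIdeal ∨ (∃ p : T, (((p : ℕ)) : 𝓞 E) ∈ v.asIdeal ∨ a p ∈ v.asIdeal) ∨
    (∃ p : {p : S // (p : ℕ).Prime}, (((p : S) : ℕ) : 𝓞 E) ∈ v.asIdeal) ∨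
    ∃ H : {H : 𝓗 // H.1.index = 2}, ((pH H.1 : ℕ) : 𝓞 E) ∈ v.asIdeal ∨ a (pH H.1) ∈ v.asIdeal with hX
  have hXd : Tendsto (dens X) atTop (𝓝 0) := by
    have h1 := Pool.Agent.W528.Ord.dens_not_prime (K := E)
    have h2 := dens_fin (E := E) (fun v => ((2 : ℕ) : 𝓞 E) ∈ v.asIdeal ∨
      (∃ p : T, (((p : ℕ)) : 𝓞 E) ∈ v.asIdeal ∨ a p ∈ v.asIdeal) ∨
      (∃ p : {p : S // (p : ℕ).Prime}, (((p : S) : ℕ) : 𝓞 E) ∈ v.asIdeal) ∨
      ∃ H : {H : 𝓗 // H.1.index = 2}, ((pH H.1 : ℕ) : 𝓞 E) ∈ v.asIdeal ∨ a (pH H.1) ∈ v.asIdeal) (by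
      simp only [Set.ofPred_or, Set.ofPred_exists]
      refine (fin_mem (Nat.cast_ne_zero.2 two_ne_zero)).union ((Set.finite_iUnion fun p => ?_).union
        ((Set.finite_iUnion fun p => ?_).union (Set.finite_iUnion fun H => ?_)))
      · exact (fin_mem (Nat.cast_ne_zero.2 (hT p.1 p.2).1.ne_zero)).union
          (fin_mem (hT p.1 p.2).2.2.1)
      · exact fin_mem (Nat.cast_ne_zero.2 p.2.ne_zero)
      · obtain ⟨h3, -, h4, -⟩ := hpH H.1 H.2
        exact (fin_mem (Nat.cast_ne_zero.2 h3.ne_zero)).union (fin_mem h4))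
    have h3 := h1.add h2
    rw [add_zero] at h3
    refine squeeze_zero (fun N => Pool.Agent.W528.Ord.dens_nonneg _ N) (fun N => ?_) h3
    exact Pool.Agent.W528.Ord.dens_or _ _ N
  have hsub : ∀ v, Q v → X v ∨ ∃ H, Pat H v := by
    intro v hv
    by_cases hXv : X v
    · exact Or.inl hXv
    right
    rw [hX] at hXv
    push Not at hXv
    obtain ⟨hx1, hx2, hx3, hx4, hx5⟩ := hXv
    obtain ⟨U, hUo, hUi, hUin, hUfr⟩ := hQ v hv
    set l := Ideal.absNorm v.asIdeal with hl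
    have hlf : Fact l.Prime := ⟨hx1⟩
    have hlv : ((l : ℕ) : 𝓞 E) ∈ v.asIdeal := Ideal.absNorm_mem _
    have hother : ∀ p : ℕ, p.Prime → p ≠ l → (p : 𝓞 E) ∉ v.asIdeal := by
      intro p hp hpl h1
      have hcop : IsCoprime ((p : ℕ) : ℤ) ((l : ℕ) : ℤ) := by
        rw [Nat.isCoprime_iff_coprime, Nat.coprime_primes hp hx1]
        exact hpl
      obtain ⟨x, y, hxy⟩ := hcop
      apply v.isPrime.ne_top
      rw [Ideal.eq_top_iff_one]
      have h2 : (1 : 𝓞 E) = (x : 𝓞 E) * (p : 𝓞 E) + (y : 𝓞 E) * (l : 𝓞 E) := by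
        have := congrArg (fun n : ℤ => (n : 𝓞 E)) hxy
        push_cast at this
        exact this.symm
      rw [h2]
      exact v.asIdeal.add_mem (Ideal.mul_mem_left _ _ h1) (Ideal.mul_mem_left _ _ hlv)
    have hl2 : l ≠ 2 := by
      intro h
      rw [h] at hlv
      exact hx2 hlv
    have hlS : l ∉ S := by
      intro h
      exact hx4 ⟨⟨l, h⟩, hx1⟩ hlv
    obtain ⟨δ, hδ⟩ := exists_delta U hUi
    have hδker : δ.ker = U := by
      ext g
      exact hδ g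
    have hδo : IsOpen (δ.ker : Set (GF ℚ)) := by rw [hδker]; exact hUo
    rcases at_l hl2 δ hδo with hA | hB
    · -- `U` is unramified at `l`
      exfalso
      have hUH : U ∈ 𝓗 := by
        refine ⟨Subgroup.normal_of_index_eq_two hUi, hUo, hUi.le, ?_⟩
        intro p hp hpS P hP hpP τ hτ
        by_cases hpl : p = l
        · subst hpl
          exact (hδ τ).1 (hA P hP hpP τ hτ)
        · exact hUin p hp ((hmemS p hp).1 hpS) (hother p hp hpl) P hP hpP τ hτ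
      obtain ⟨h1, h2, -, P, hP, hpP, σ, hσ, hσU⟩ := hpH ⟨U, hUH⟩ hUi
      obtain ⟨h3, h4⟩ := hx5 ⟨⟨U, hUH⟩, hUi⟩
      exact hσU (hUfr _ h1 h2 h3 h4 P hP hpP σ hσ)
    · -- `U` is ramified at `l`
      set ψ : GF ℚ →* ℤˣ := δ * eps l with hψ
      have hψo : IsOpen (ψ.ker : Set (GF ℚ)) := by
        have h1 : (δ.ker : Set (GF ℚ)) ∩ (eps l).ker ⊆ (ψ.ker : Set (GF ℚ)) := by
          rintro g ⟨h2, h3⟩
          have h2' : δ g = 1 := h2
          have h3' : eps l g = 1 := h3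
          show δ g * eps l g = 1
          rw [h2', h3', one_mul]
        exact Subgroup.isOpen_of_mem_nhds _ (g := 1) (Filter.mem_of_superset
          ((hδo.inter (eps_open l)).mem_nhds ⟨δ.ker.one_mem, (eps l).ker.one_mem⟩) h1)
      have hψH : ψ.ker ∈ 𝓗 := by
        refine ⟨inferInstance, hψo, ?_, ?_⟩
        · rw [Subgroup.index_ker]
          refine (Nat.card_le_card_of_injective (Subtype.val : ψ.range → ℤˣ)
            Subtype.coe_injective).trans ?_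
          rw [Nat.card_eq_fintype_card]
          decide
        · intro p hp hpS P hP hpP τ hτ
          have hlP : p ≠ l → (l : OO ℚ) ∉ P := fun hne h =>
            not_both hP.ne_top ((Nat.coprime_primes hp hx1).2 hne) hpP h
          show δ τ * eps l τ = 1
          by_cases hpl : p = l
          · subst hpl
            rw [hB P hP hpP τ hτ]
            exact Int.units_mul_self _
          · rw [(hδ τ).2 (hUin p hp ((hmemS p hp).1 hpS) (hother p hp hpl) P hP hpP τ hτ),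
              eps_inert (hlP hpl) hτ, one_mul]
      refine ⟨⟨ψ.ker, hψH⟩, l / 2, ?_, ?_⟩
      · have := hx1.eq_two_or_odd'.resolve_left hl2
        obtain ⟨m, hm⟩ := this
        omega
      · intro p hp
        obtain ⟨h1, h2, h3, -⟩ := hT p hp
        obtain ⟨h4, h5⟩ := hx3 ⟨p, hp⟩
        obtain ⟨hP, hpP, hσ⟩ := hPσ p h1
        have hpl : p ≠ l := by
          intro h
          subst h
          exact h4 hlv
        have hlP : (l : OO ℚ) ∉ PP p := fun h =>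
          not_both hP.ne_top ((Nat.coprime_primes h1 hx1).2 hpl) hpP h
        have e1 : δ (σσ p) = 1 := (hδ _).2 (hUfr p h1 h2 h4 h5 _ hP hpP _ hσ)
        have e2 := eps_frob hl2 hlP hσ
        have e3 : σσ p ∈ ψ.ker ↔ eps l (σσ p) = 1 := by
          show δ (σσ p) * eps l (σσ p) = 1 ↔ _
          rw [e1, one_mul]
        -- transfer to `𝓞 E ⧸ v`
        have e4 : w ψ.ker p = (((eps l (σσ p) : ℤˣ) : ℤ) : 𝓞 E) := by
          rcases Int.units_eq_one_or (eps l (σσ p)) with h | h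
          · simp only [hw, if_pos (e3.2 h), h]
            simp
          · have h6 : ¬ σσ p ∈ ψ.ker := by
              rw [e3, h]
              decide
            simp only [hw, if_neg h6, h]
            simp
        show (p : 𝓞 E) ^ (l / 2) - w ψ.ker p ∈ v.asIdeal
        rw [e4]
        have e5 : ((((p : ℤ) ^ (l / 2) - ((eps l (σσ p) : ℤˣ) : ℤ)) : ℤ) : ZMod l) = 0 := by
          push_cast
          rw [e2, sub_self]
        rw [ZMod.intCast_zmod_eq_zero_iff_dvd] at e5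
        obtain ⟨c, hc⟩ := e5
        have e6 := congrArg (fun n : ℤ => (n : 𝓞 E)) hc
        push_cast at e6
        rw [e6]
        exact Ideal.mul_mem_right _ _ hlv
  -- conclusion
  have hev : ∀ᶠ N in atTop, dens Q N < ε := by
    have h1 : ∀ᶠ N in atTop, ∀ H : 𝓗, dens (Pat H) N < 1 / (2 : ℝ) ^ t +
        ε / (4 * (Fintype.card 𝓗 + 1)) := eventually_all.2 hpat
    have h2 := hXd.eventually (gt_mem_nhds (show (0 : ℝ) < ε / 4 by positivity))
    filter_upwards [h1, h2] with N h3 h4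
    have hunion : ∀ T : Finset 𝓗, dens (fun ℓ => ∃ J ∈ T, Pat J ℓ) N ≤ ∑ J ∈ T, dens (Pat J) N := by
      intro T
      induction T using Finset.induction_on with
      | empty =>
        rw [Finset.sum_empty]
        refine le_of_eq ?_
        unfold dens
        simp
      | insert J T hJ ih =>
        rw [Finset.sum_insert hJ]
        refine (Pool.Agent.W528.Ord.dens_mono (Q := fun ℓ => Pat J ℓ ∨ ∃ J ∈ T, Pat J ℓ) ?_ N).trans
          ((Pool.Agent.W528.Ord.dens_or _ _ N).trans (add_le_add_right ih _))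
        rintro ℓ ⟨J', hJ', h⟩
        rcases Finset.mem_insert.1 hJ' with rfl | h5
        · exact Or.inl h
        · exact Or.inr ⟨J', h5, h⟩
    calc dens Q N ≤ dens (fun v => X v ∨ ∃ H ∈ (Finset.univ : Finset 𝓗), Pat H v) N :=
          Pool.Agent.W528.Ord.dens_mono (fun v hv => (hsub v hv).imp_right
            (fun ⟨H, hH⟩ => ⟨H, Finset.mem_univ _, hH⟩)) N
      _ ≤ dens X N + ∑ H : 𝓗, dens (Pat H) N :=
          (Pool.Agent.W528.Ord.dens_or _ _ N).trans (add_le_add_right (hunion _) _)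
      _ ≤ ε / 4 + ∑ _H : 𝓗, (1 / (2 : ℝ) ^ t + ε / (4 * (Fintype.card 𝓗 + 1))) :=
          add_le_add h4.le (Finset.sum_le_sum fun H _ => (h3 H).le)
      _ < ε := by
          rw [Finset.sum_const, Finset.card_univ, nsmul_eq_mul]
          have h5 : (Fintype.card 𝓗 : ℝ) * (1 / 2 ^ t) < ε / 2 := by
            rw [one_div_pow] at ht
            exact ht
          have h6 : (Fintype.card 𝓗 : ℝ) * (ε / (4 * (Fintype.card 𝓗 + 1))) < ε / 4 := by
            have h7 : (0 : ℝ) < Fintype.card 𝓗 + 1 := by positivity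
            rw [mul_div_assoc', div_lt_div_iff₀ (by positivity) (by norm_num)]
            nlinarith
          rw [mul_add]
          linarith
  rw [eventually_atTop] at hev
  obtain ⟨N0, hN0⟩ := hev
  refine ⟨N0, fun N hN => ?_⟩
  rw [Real.dist_eq, sub_zero, abs_of_nonneg (Pool.Agent.W528.Ord.dens_nonneg _ _)]
  exact hN0 N hN

end Pool.Agent.H500.Dih
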