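import Pool.Agent.H500.MWE

set_option autoImplicit false
set_option linter.unusedSectionVars false

/-!
# A uniform exponent
-/

namespace Pool.Agent.H500.MW

open NumberField IsDedekindDomain Filter Topology Polynomial
open Pool.Agent.Y800 (GQ ZBar QBar)

section

variable {E : Type} [Field E] [NumberField E]

/-- the roots over the number field -/
theorem root_eval {j0 : E →+* QBar} {n : ℕ} {f : (𝓞 E)[X]} {α : Fin n → ZBar}
    (h : f.map (RingOfIntegers.mapRingHom j0) = ∏ i, (X - Polynomial.C (α i))) (i : Fin n) :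
    (f.map (j0.comp (algebraMap (𝓞 E) E))).eval (α i : QBar) = 0 := by
  have h1 : (f.map (RingOfIntegers.mapRingHom j0)).eval (α i) = 0 := by
    rw [h, eval_prod]
    exact Finset.prod_eq_zero (Finset.mem_univ i) (by simp)
  have h2 := congrArg (algebraMap ZBar QBar) h1
  rw [map_zero] at h2
  have h3 := Polynomial.eval_map_apply (algebraMap ZBar QBar) (p := f.map (RingOfIntegers.mapRingHom j0)) (α i)
  rw [h2, Polynomial.map_map] at h3
  exact h3

theorem deg_le {j0 : E →+* QBar} {n : ℕ} {f : (𝓞 E)[X]} (hf : f.Monic) (hfn : f.natDegree = n)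
    {α : Fin n → ZBar}
    (h : f.map (RingOfIntegers.mapRingHom j0) = ∏ i, (X - Polynomial.C (α i))) (i : Fin n)
    (N p a : ℕ) :
    (minpoly ℚ ((α i : QBar) ^ N / (p : QBar) ^ a)).natDegree ≤ n * Module.finrank ℚ E := by
  classical
  let _ : Algebra E QBar := j0.toAlgebra
  have hint : IsIntegral E (α i : QBar) := by
    have h1 : IsIntegral ℤ (α i : QBar) := (α i).2
    exact h1.tower_top
  set F : IntermediateField E QBar := IntermediateField.adjoin E ({(α i : QBar)} : Set QBar)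
    with hF
  have hfd : FiniteDimensional E F := IntermediateField.adjoin.finiteDimensional hint
  have hnf : NumberField F := NumberField.of_module_finite E F
  have hαF : (α i : QBar) ∈ F := IntermediateField.mem_adjoin_simple_self _ _
  have hzF : (α i : QBar) ^ N / (p : QBar) ^ a ∈ F :=
    F.div_mem (pow_mem hαF N) (pow_mem (F.natCast_mem p) a)
  have h1 : minpoly ℚ ((α i : QBar) ^ N / (p : QBar) ^ a) =
      minpoly ℚ (⟨_, hzF⟩ : F) :=
    minpoly.algebraMap_eq (A := ℚ) (B := F) (B' := QBar) (algebraMap F QBar).injective ⟨_, hzF⟩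
  rw [h1]
  refine (minpoly.natDegree_le _).trans ?_
  have h2 : Module.finrank ℚ E * Module.finrank E F = Module.finrank ℚ F :=
    Module.finrank_mul_finrank ℚ E F
  rw [← h2, mul_comm]
  refine Nat.mul_le_mul_right _ ?_
  have h3 : Module.finrank E F = (minpoly E (α i : QBar)).natDegree :=
    IntermediateField.adjoin.finrank hint
  rw [h3]
  have hinj : Function.Injective (algebraMap (𝓞 E) E) := RingOfIntegers.coe_injective
  have h4 : aeval (α i : QBar) (f.map (algebraMap (𝓞 E) E)) = 0 := by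
    rw [aeval_def, eval₂_eq_eval_map, Polynomial.map_map]
    exact root_eval h i
  have h5 : (f.map (algebraMap (𝓞 E) E)).natDegree = n := by
    rw [hf.natDegree_map, hfn]
  rw [← h5]
  exact natDegree_le_of_dvd (minpoly.dvd _ _ h4) (hf.map _).ne_zero

/-- **A uniform exponent.** -/
theorem uniform (j0 : E →+* QBar) {n : ℕ} (P : ℕ → (𝓞 E)[X]) (S : Finset ℕ)
    (hPm : ∀ p : ℕ, p.Prime → p ∉ S → (P p).Monic)
    (hPn : ∀ p : ℕ, p.Prime → p ∉ S → (P p).natDegree = n) (α : ℕ → Fin n → ZBar)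
    (hα : ∀ p : ℕ, p.Prime → p ∉ S → (P p).map (RingOfIntegers.mapRingHom j0) =
      ∏ i, (X - Polynomial.C (α p i)))
    (hsl : ∀ p q : ℕ, p.Prime → p ∉ S → q.Prime → q ∉ S → p ≠ q →
      ∃ π : Fin n ≃ Fin n, ∀ i, ∃ c : ℚ, Sl p (α p i) c ∧ Sl q (α q (π i)) c) :
    ∃ (N : ℕ) (a : ℕ → Fin n → ℕ), 0 < N ∧
      (∀ p : ℕ, p.Prime → p ∉ S → ∀ i, α p i ^ N = (p : ZBar) ^ a p i) ∧
      ∀ p q : ℕ, p.Prime → p ∉ S → q.Prime → q ∉ S → ∃ π : Fin n ≃ Fin n, ∀ i, a p i = a q (π i) := by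
  classical
  have hex : ∀ p : ℕ, ∃ c : Fin n → ℚ, p.Prime → p ∉ S → ∀ i, Sl p (α p i) (c i) := by
    intro p
    by_cases hp : p.Prime ∧ p ∉ S
    · obtain ⟨q, hq, hqS⟩ := exists_good_prime (insert p S)
      rw [Finset.mem_insert, not_or] at hqS
      obtain ⟨π, hπ⟩ := hsl p q hp.1 hp.2 hq hqS.2 (Ne.symm hqS.1)
      choose c hc using hπ
      exact ⟨c, fun _ _ i => (hc i).1⟩
    · refine ⟨0, fun h1 h2 => absurd ⟨h1, h2⟩ hp⟩
  choose c hc using hex
  have hperm : ∀ p q : ℕ, p.Prime → p ∉ S → q.Prime → q ∉ S →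
      ∃ π : Fin n ≃ Fin n, ∀ i, c p i = c q (π i) := by
    intro p q hp hpS hq hqS
    by_cases hpq : p = q
    · subst hpq
      exact ⟨Equiv.refl _, fun i => rfl⟩
    · obtain ⟨π, hπ⟩ := hsl p q hp hpS hq hqS hpq
      refine ⟨π, fun i => ?_⟩
      obtain ⟨x, hx1, hx2⟩ := hπ i
      rw [(hc p hp hpS i).unique hp.one_lt hx1, (hc q hq hqS (π i)).unique hq.one_lt hx2]
  obtain ⟨p0, hp0, hp0S⟩ := exists_good_prime S
  have hnn : ∀ p : ℕ, p.Prime → p ∉ S → ∀ i, 0 ≤ c p i := by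
    intro p hp hpS i
    obtain ⟨N, a, hN, -, h2⟩ := hc p hp hpS i
    have hN0 : (0 : ℚ) < N := by exact_mod_cast hN
    by_contra hlt
    push Not at hlt
    have h3 : (a : ℚ) < 0 := by
      rw [h2]
      exact mul_neg_of_neg_of_pos hlt hN0
    exact absurd (Nat.cast_nonneg a) (not_le.2 h3)
  set N1 : ℕ := ∏ i, (c p0 i).den with hN1
  have hN1pos : 0 < N1 := Finset.prod_pos fun i _ => (c p0 i).den_pos
  have hnat : ∀ p : ℕ, p.Prime → p ∉ S → ∀ i, ((⌊(N1 : ℚ) * c p i⌋₊ : ℕ) : ℚ) = N1 * c p i := by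
    intro p hp hpS i
    obtain ⟨π, hπ⟩ := hperm p p0 hp hpS hp0 hp0S
    obtain ⟨t, ht⟩ : (c p0 (π i)).den ∣ N1 :=
      Finset.dvd_prod_of_mem (fun i => (c p0 i).den) (Finset.mem_univ (π i))
    have h1 : (N1 : ℚ) * c p i = ((t * (c p0 (π i)).num.toNat : ℕ) : ℚ) := by
      rw [hπ i, ht]
      push_cast
      have h2 : ((c p0 (π i)).num.toNat : ℚ) = ((c p0 (π i)).num : ℚ) := by
        have h3 : 0 ≤ (c p0 (π i)).num := Rat.num_nonneg.2 (hnn p0 hp0 hp0S _)
        exact_mod_cast congrArg (fun z : ℤ => (z : ℚ)) (Int.toNat_of_nonneg h3)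
      rw [h2]
      have h4 := Rat.den_mul_eq_num (c p0 (π i))
      calc ((c p0 (π i)).den : ℚ) * t * c p0 (π i) = t * ((c p0 (π i)).den * c p0 (π i)) := by ring
        _ = _ := by rw [h4]
    rw [h1, Nat.floor_natCast]
  set D : ℕ := (2 * (n * Module.finrank ℚ E)).factorial with hD
  refine ⟨N1 * D, fun p i => ⌊(N1 : ℚ) * c p i⌋₊ * D, Nat.mul_pos hN1pos (Nat.factorial_pos _),
    ?_, ?_⟩
  · intro p hp hpS i
    obtain ⟨N, a, hN, h1, h2⟩ := hc p hp hpS i
    set a1 := ⌊(N1 : ℚ) * c p i⌋₊ with ha1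
    have h3 : (a1 : ℚ) = N1 * c p i := hnat p hp hpS i
    have h4 : a * N1 = a1 * N := by
      have : (a : ℚ) * N1 = a1 * N := by
        rw [h2, h3]
        ring
      exact_mod_cast this
    have hp0' : (p : QBar) ≠ 0 := Nat.cast_ne_zero.2 hp.ne_zero
    have h5 : ((α p i : QBar) ^ N1 / (p : QBar) ^ a1) ^ N = 1 := by
      have h6 : (α p i : QBar) ^ N = (p : QBar) ^ a := by
        have := congrArg (algebraMap ZBar QBar) h1
        rw [map_pow, map_pow, map_natCast] at this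
        exact this
      rw [div_pow, ← pow_mul, mul_comm N1 N, pow_mul, h6, ← pow_mul, ← pow_mul, h4,
        div_self (pow_ne_zero _ hp0')]
    have h6 := order_dvd (deg_le (hPm p hp hpS) (hPn p hp hpS) (hα p hp hpS) i N1 p a1) hN h5
    rw [div_pow, div_eq_one_iff_eq (pow_ne_zero _ (pow_ne_zero _ hp0')), ← pow_mul, ← pow_mul] at h6
    apply RingOfIntegers.ext
    have e1 : ((α p i ^ (N1 * D) : ZBar) : QBar) = (α p i : QBar) ^ (N1 * D) :=
      map_pow (algebraMap ZBar QBar) _ _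
    have e2 : (((p : ZBar) ^ (a1 * D) : ZBar) : QBar) = (p : QBar) ^ (a1 * D) := by
      have := map_pow (algebraMap ZBar QBar) (p : ZBar) (a1 * D)
      rw [map_natCast] at this
      exact this
    rw [e1, e2]
    exact h6
  · intro p q hp hpS hq hqS
    obtain ⟨π, hπ⟩ := hperm p q hp hpS hq hqS
    refine ⟨π, fun i => ?_⟩
    show ⌊(N1 : ℚ) * c p i⌋₊ * D = ⌊(N1 : ℚ) * c q (π i)⌋₊ * D
    rw [hπ i]

end

end Pool.Agent.H500.MW
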