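import Pool.Agent.H500.KumGood
import Pool.Agent.H500.KumDens

set_option autoImplicit false
set_option linter.unusedSectionVars false

/-!
# Simultaneous power residues
-/

namespace Pool.Agent.H500.KumI

open NumberField IsDedekindDomain Pool.Agent.W569.FM Pool.Agent.H500.Kum Filter Topology
open Pool.Agent.W401.Cheb (GK IsFrob dens)

/-- affine transformations `v ↦ x + a v` of `𝔽_r ^ ι` -/
@[ext]
structure AffI (ι : Type) (r : ℕ) where
  a : (ZMod r)ˣ
  x : ι → ZMod r

namespace AffI

variable {ι : Type} {r : ℕ}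

instance : Mul (AffI ι r) := ⟨fun g h => ⟨g.a * h.a, g.x + (g.a : ZMod r) • h.x⟩⟩
instance : One (AffI ι r) := ⟨⟨1, 0⟩⟩
instance : Inv (AffI ι r) := ⟨fun g => ⟨g.a⁻¹, -(((g.a⁻¹ : (ZMod r)ˣ) : ZMod r) • g.x)⟩⟩

theorem mul_a (g h : AffI ι r) : (g * h).a = g.a * h.a := rfl
theorem mul_x (g h : AffI ι r) : (g * h).x = g.x + (g.a : ZMod r) • h.x := rfl
theorem one_a : (1 : AffI ι r).a = 1 := rfl
theorem one_x : (1 : AffI ι r).x = 0 := rfl
theorem inv_a (g : AffI ι r) : (g⁻¹).a = g.a⁻¹ := rfl
theorem inv_x (g : AffI ι r) : (g⁻¹).x = -(((g.a⁻¹ : (ZMod r)ˣ) : ZMod r) • g.x) := rfl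

instance : Group (AffI ι r) := Group.ofLeftAxioms
  (fun g h k => by
    apply AffI.ext
    · simp only [mul_a, mul_assoc]
    · simp only [mul_x, mul_a, smul_add, Units.val_mul, mul_smul, add_assoc])
  (fun g => by
    apply AffI.ext
    · simp only [mul_a, one_a, one_mul]
    · simp only [mul_x, one_x, one_a, Units.val_one, one_smul, zero_add])
  (fun g => by
    apply AffI.ext
    · simp only [mul_a, inv_a, one_a, inv_mul_cancel]
    · simp only [mul_x, inv_x, inv_a, one_x, neg_add_cancel])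

instance [NeZero r] [Finite ι] : Finite (AffI ι r) := by
  have h : Function.Injective fun g : AffI ι r => (g.a, g.x) := by
    intro g h hgh
    exact AffI.ext (congrArg Prod.fst hgh) (congrArg Prod.snd hgh)
  exact Finite.of_injective _ h

end AffI

open AffI

section

variable {E : Type} [Field E] [NumberField E] {r : ℕ} [hr : Fact r.Prime] {ι : Type} [Fintype ι]

/-- roots -/
structure KJ (ι E : Type) [Field E] [NumberField E] (r : ℕ) where
  z : OO E
  hz : IsPrimitiveRoot z r
  c : ι → 𝓞 E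
  y : ι → OO E
  hy : ∀ i, y i ^ r = algebraMap (𝓞 E) (OO E) (c i)
  hc : ∀ i, c i ≠ 0

theorem exists_KJ (c : ι → 𝓞 E) (hc : ∀ i, c i ≠ 0) : ∃ D : KJ ι E r, D.c = c := by
  have : NeZero r := ⟨hr.out.ne_zero⟩
  obtain ⟨z, hz⟩ := exists_prim (E := E) r
  choose y hy using fun i => exists_root hr.out.pos (algebraMap (𝓞 E) (OO E) (c i))
  exact ⟨⟨z, hz, c, y, hy, hc⟩, rfl⟩

namespace KJ

variable (D : KJ ι E r)

theorem y_ne (i : ι) : D.y i ≠ 0 := by
  intro h
  have h1 := D.hy i
  rw [h, zero_pow hr.out.ne_zero] at h1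
  exact algMap_ne (D.hc i) h1.symm

theorem z_pow : D.z ^ r = 1 := D.hz.pow_eq_one

theorem ex_chi (g : GF E) : ∃ t : ZMod r, g • D.z = D.z ^ t.val := by
  obtain ⟨t, ht⟩ := exists_pow D.hz (x := g • D.z) (y := 1) one_ne_zero (by
    rw [← smul_pow', D.z_pow, smul_one, one_pow])
  exact ⟨t, by rw [ht, mul_one]⟩

theorem ex_kap (g : GF E) (i : ι) : ∃ t : ZMod r, g • D.y i = D.z ^ t.val * D.y i :=
  exists_pow D.hz (D.y_ne i) (by rw [← smul_pow', D.hy, smul_alg])

/-- the cyclotomic character -/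
noncomputable def chi (g : GF E) : ZMod r := (D.ex_chi g).choose

/-- the Kummer cocycle -/
noncomputable def kap (g : GF E) (i : ι) : ZMod r := (D.ex_kap g i).choose

theorem smul_z (g : GF E) : g • D.z = D.z ^ (D.chi g).val := (D.ex_chi g).choose_spec

theorem smul_y (g : GF E) (i : ι) : g • D.y i = D.z ^ (D.kap g i).val * D.y i :=
  (D.ex_kap g i).choose_spec

theorem chi_unique {g : GF E} {t : ZMod r} (h : g • D.z = D.z ^ t.val) : D.chi g = t := by
  apply pow_unique D.hz (y := 1) one_ne_zero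
  rw [mul_one, mul_one, ← D.smul_z, h]

theorem kap_unique {g : GF E} {i : ι} {t : ZMod r} (h : g • D.y i = D.z ^ t.val * D.y i) :
    D.kap g i = t := by
  apply pow_unique D.hz (D.y_ne i)
  rw [← D.smul_y, h]

theorem smul_zpow (g : GF E) (t : ZMod r) : g • D.z ^ t.val = D.z ^ (D.chi g * t).val := by
  rw [smul_pow', D.smul_z, val_mul D.z_pow]

theorem chi_mul (g h : GF E) : D.chi (g * h) = D.chi g * D.chi h := by
  apply D.chi_unique
  rw [mul_smul, D.smul_z h, D.smul_zpow]

theorem chi_one : D.chi 1 = 1 := by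
  apply D.chi_unique
  rw [one_smul, ZMod.val_one, pow_one]

theorem kap_mul (g h : GF E) (i : ι) : D.kap (g * h) i = D.kap g i + D.chi g * D.kap h i := by
  apply D.kap_unique
  rw [mul_smul, D.smul_y h, smul_mul', D.smul_zpow, D.smul_y g, val_add D.z_pow]
  ring

/-- the homomorphism to the affine group -/
noncomputable def Phi : GF E →* AffI ι r where
  toFun g := ⟨⟨D.chi g, D.chi g⁻¹, by rw [← D.chi_mul, mul_inv_cancel, D.chi_one],
    by rw [← D.chi_mul, inv_mul_cancel, D.chi_one]⟩, D.kap g⟩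
  map_one' := by
    apply AffI.ext
    · apply Units.ext
      exact D.chi_one
    · funext i
      apply D.kap_unique
      rw [one_smul, AffI.one_x, Pi.zero_apply, ZMod.val_zero, pow_zero, one_mul]
  map_mul' g h := by
    apply AffI.ext
    · apply Units.ext
      exact D.chi_mul g h
    · funext i
      exact D.kap_mul g h i

theorem isOpen_ker : IsOpen (D.Phi.ker : Set (GF E)) := by
  have hst : ∀ w : OO E, IsOpen (MulAction.stabilizer (GF E) (w : AlgebraicClosure E) :
      Set (GF E)) := fun w => stabilizer_isOpen_of_isIntegral (K := E) (w : AlgebraicClosure E)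
  have hopen : IsOpen ((MulAction.stabilizer (GF E) (D.z : AlgebraicClosure E) : Set (GF E)) ∩
      ⋂ i, (MulAction.stabilizer (GF E) (D.y i : AlgebraicClosure E) : Set (GF E))) :=
    (hst D.z).inter (isOpen_iInter_of_finite fun i => hst (D.y i))
  refine Subgroup.isOpen_of_mem_nhds D.Phi.ker (g := 1) (Filter.mem_of_superset
    (hopen.mem_nhds ?_) ?_)
  · refine ⟨one_smul _ _, Set.mem_iInter.2 fun i => one_smul _ _⟩
  · rintro g ⟨h1, h2⟩
    rw [Set.mem_iInter] at h2
    show D.Phi g = 1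
    apply AffI.ext
    · apply Units.ext
      show D.chi g = 1
      apply D.chi_unique
      rw [ZMod.val_one, pow_one]
      exact RingOfIntegers.ext h1
    · funext i
      show D.kap g i = 0
      apply D.kap_unique
      rw [ZMod.val_zero, pow_zero, one_mul]
      exact RingOfIntegers.ext (h2 i)

end KJ

/-- **Descent**, general form. -/
theorem descent' (D : KJ ι E r) {δ : OO E} (hδ : δ ≠ 0) (c : GF E → ZMod r)
    (hc : ∀ g, g • δ = D.z ^ (c g).val * δ) (hc1 : ∀ g, D.chi g = 1 → c g = 0) :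
    ∃ ε : 𝓞 E, algebraMap (𝓞 E) (OO E) (ε ^ r) = δ ^ r := by
  by_cases hs : ∃ s, D.chi s ≠ 1
  · have hmul : ∀ g h, c (g * h) = c g + D.chi g * c h := by
      intro g h
      apply pow_unique D.hz hδ
      rw [← hc, mul_smul, hc h, smul_mul', D.smul_zpow, hc g, val_add D.z_pow]
      ring
    obtain ⟨s, hs⟩ := hs
    have hcomm : ∀ g h, c (g * h) = c (h * g) := by
      intro g h
      have h1 : g * h = (g * h * g⁻¹ * h⁻¹) * (h * g) := by group
      have hx : D.chi (g * h * g⁻¹ * h⁻¹) = 1 := by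
        have e1 : D.chi g * D.chi g⁻¹ = 1 := by rw [← D.chi_mul, mul_inv_cancel, D.chi_one]
        have e2 : D.chi h * D.chi h⁻¹ = 1 := by rw [← D.chi_mul, mul_inv_cancel, D.chi_one]
        rw [D.chi_mul, D.chi_mul, D.chi_mul]
        linear_combination (D.chi h * D.chi h⁻¹) * e1 + e2
      rw [h1, hmul, hx, hc1 _ hx, zero_add, one_mul]
    set t := D.chi s with ht
    have ht1 : t - 1 ≠ 0 := sub_ne_zero.2 hs
    set c0 : ZMod r := c s / (t - 1) with hc0
    have hcg : ∀ g, c g = c0 * (D.chi g - 1) := by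
      intro g
      have h1 := hcomm g s
      rw [hmul, hmul, ← ht] at h1
      rw [hc0, div_mul_eq_mul_div, eq_div_iff ht1]
      linear_combination -h1
    obtain ⟨ε, hε⟩ := fixed (x := D.z ^ (-c0).val * δ) (fun g => by
      rw [smul_mul', D.smul_zpow, hc g, ← mul_assoc, ← val_add D.z_pow, hcg g]
      congr 2
      ring_nf)
    refine ⟨ε, ?_⟩
    rw [map_pow, hε, mul_pow, ← pow_mul, mul_comm _ r, pow_mul, D.z_pow, one_pow, one_mul]
  · push Not at hs
    obtain ⟨ε, hε⟩ := fixed (x := δ) (fun g => by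
      rw [hc g, hc1 g (hs g), ZMod.val_zero, pow_zero, one_mul])
    exact ⟨ε, by rw [map_pow, hε]⟩

/-- the image is large -/
theorem card_ge (D : KJ ι E r)
    (hind : ∀ x : ι → ZMod r, (∃ ε : 𝓞 E, ε ^ r = ∏ i, D.c i ^ (x i).val) → x = 0) :
    r ^ Fintype.card ι ≤ Nat.card (GF E ⧸ D.Phi.ker) := by
  classical
  have : NeZero r := ⟨hr.out.ne_zero⟩
  -- the subspace of values
  have hpow : ∀ g, D.chi g = 1 → ∀ n : ℕ, D.chi (g ^ n) = 1 ∧ D.kap (g ^ n) = (n : ZMod r) • D.kap g := by
    intro g hg n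
    induction n with
    | zero =>
      refine ⟨by rw [pow_zero, D.chi_one], ?_⟩
      funext i
      rw [pow_zero, Nat.cast_zero, zero_smul]
      apply D.kap_unique
      rw [one_smul, Pi.zero_apply, ZMod.val_zero, pow_zero, one_mul]
    | succ n ih =>
      refine ⟨by rw [pow_succ, D.chi_mul, ih.1, hg, one_mul], ?_⟩
      funext i
      rw [pow_succ, D.kap_mul, ih.1, ih.2, one_mul, Nat.cast_succ, add_smul, one_smul]
      rfl
  let V : Submodule (ZMod r) (ι → ZMod r) :=
    { carrier := {x | ∃ g, D.chi g = 1 ∧ D.kap g = x}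
      zero_mem' := ⟨1, D.chi_one, by
        funext i
        apply D.kap_unique
        rw [one_smul, Pi.zero_apply, ZMod.val_zero, pow_zero, one_mul]⟩
      add_mem' := by
        rintro _ _ ⟨g, hg, rfl⟩ ⟨h, hh, rfl⟩
        refine ⟨g * h, by rw [D.chi_mul, hg, hh, one_mul], ?_⟩
        funext i
        rw [D.kap_mul, hg, one_mul]
        rfl
      smul_mem' := by
        rintro c _ ⟨g, hg, rfl⟩
        obtain ⟨h1, h2⟩ := hpow g hg c.val
        refine ⟨g ^ c.val, h1, ?_⟩
        rw [h2, ZMod.natCast_zmod_val] }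
  have hV : V = ⊤ := by
    by_contra hne
    obtain ⟨f, hf0, hf⟩ := Submodule.exists_le_ker_of_lt_top V (lt_top_iff_ne_top.2 hne)
    set x : ι → ZMod r := fun i => f (Pi.single i 1) with hx
    have hfx : ∀ w : ι → ZMod r, f w = ∑ i, x i * w i := by
      intro w
      conv_lhs => rw [← Finset.univ_sum_single w]
      rw [map_sum]
      refine Finset.sum_congr rfl fun i _ => ?_
      have h1 : (Pi.single i (w i) : ι → ZMod r) = (w i) • (Pi.single i 1 : ι → ZMod r) := by
        rw [← Pi.single_smul, smul_eq_mul, mul_one]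
      rw [h1, map_smul, smul_eq_mul, mul_comm]
    have hδ : ∏ i, D.y i ^ (x i).val ≠ 0 :=
      Finset.prod_ne_zero_iff.2 fun i _ => pow_ne_zero _ (D.y_ne i)
    have hact : ∀ g, g • ∏ i, D.y i ^ (x i).val =
        D.z ^ (f (D.kap g)).val * ∏ i, D.y i ^ (x i).val := by
      intro g
      rw [hfx]
      have h1 : ∀ s : Finset ι, g • ∏ i ∈ s, D.y i ^ (x i).val =
          D.z ^ (∑ i ∈ s, x i * D.kap g i).val * ∏ i ∈ s, D.y i ^ (x i).val := by
        intro s
        induction s using Finset.induction_on with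
        | empty => simp
        | insert i s hi ih =>
          rw [Finset.prod_insert hi, Finset.sum_insert hi, smul_mul', ih, smul_pow', D.smul_y,
            mul_pow, val_add D.z_pow, mul_comm (x i), val_mul D.z_pow]
          ring
      exact h1 Finset.univ
    obtain ⟨ε, hε⟩ := descent' D hδ (fun g => f (D.kap g)) hact (by
      intro g hg
      exact hf ⟨g, hg, rfl⟩)
    have h2 := hind x ⟨ε, by
      apply algMap_inj
      rw [hε, ← Finset.prod_pow, map_prod]
      refine Finset.prod_congr rfl fun i _ => ?_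
      rw [← pow_mul, mul_comm, pow_mul, D.hy, map_pow]⟩
    apply hf0
    apply LinearMap.ext
    intro w
    rw [hfx, h2]
    simp
  -- count
  have h1 : Nat.card (GF E ⧸ D.Phi.ker) = Nat.card D.Phi.range := by
    rw [← Subgroup.index_ker]
    rfl
  rw [h1]
  have h2 : r ^ Fintype.card ι = Nat.card (ι → ZMod r) := by
    rw [Nat.card_eq_fintype_card, Fintype.card_fun, ZMod.card]
  rw [h2]
  have hex : ∀ x : ι → ZMod r, ∃ g, D.chi g = 1 ∧ D.kap g = x := by
    intro x
    have : x ∈ V := by rw [hV]; trivial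
    exact this
  choose g hg1 hg2 using hex
  refine Nat.card_le_card_of_injective (fun x => (⟨D.Phi (g x), g x, rfl⟩ : D.Phi.range)) ?_
  intro x y hxy
  have h3 : (D.Phi (g x)).x = (D.Phi (g y)).x := congrArg (fun w => (w : D.Phi.range).1.x) hxy
  rw [← hg2 x, ← hg2 y]
  exact h3

end

end Pool.Agent.H500.KumI
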