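import Mathlib

set_option autoImplicit false
set_option linter.unusedSectionVars false

/-!
# Numbers which are powers for infinitely many exponents
-/

namespace Pool.Agent.H500.Kum

open NumberField

section

variable {E : Type} [Field E] [NumberField E]

theorem ru {x : E} (hx : x ≠ 0) {c : ℕ} (hc : 0 < c) (hcx : IsIntegral ℤ ((c : E) * x))
    (T : Set ℕ) (hT : T.Infinite) (h : ∀ r ∈ T, 0 < r ∧ ∃ δ : E, δ ^ r = x) :
    ∃ N : ℕ, 0 < N ∧ x ^ N = 1 := by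
  classical
  have hch : ∀ r : ℕ, ∃ δ : E, r ∈ T → δ ^ r = x := by
    intro r
    by_cases hr : r ∈ T
    · obtain ⟨-, δ, hδ⟩ := h r hr
      exact ⟨δ, fun _ => hδ⟩
    · exact ⟨0, fun hr' => absurd hr' hr⟩
  choose δ hδ using hch
  set B : ℝ := (c : ℝ) * (1 + ∑ φ : E →+* ℂ, ‖φ x‖) with hB
  have hfin := NumberField.Embeddings.finite_of_norm_le E ℂ B
  have hmaps : Set.MapsTo (fun r => (c : E) * δ r) T
      {x : E | IsIntegral ℤ x ∧ ∀ φ : E →+* ℂ, ‖φ x‖ ≤ B} := by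
    intro r hr
    obtain ⟨hr0, -⟩ := h r hr
    constructor
    · apply IsIntegral.of_pow hr0
      have e : ((c : E) * δ r) ^ r = (c : E) ^ (r - 1) * ((c : E) * x) := by
        rw [mul_pow, hδ r hr, ← mul_assoc, ← pow_succ, Nat.sub_add_cancel hr0]
      rw [e]
      have hci : IsIntegral ℤ (c : E) := by
        have := isIntegral_algebraMap (R := ℤ) (A := E) (x := (c : ℤ))
        simpa using this
      exact (hci.pow _).mul hcx
    · intro φ
      rw [map_mul, norm_mul, map_natCast, Complex.norm_natCast, hB]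
      apply mul_le_mul_of_nonneg_left _ (Nat.cast_nonneg c)
      have h1 : ‖φ (δ r)‖ ^ r = ‖φ x‖ := by rw [← norm_pow, ← map_pow, hδ r hr]
      have h2 : ‖φ x‖ ≤ ∑ φ : E →+* ℂ, ‖φ x‖ :=
        Finset.single_le_sum (f := fun φ : E →+* ℂ => ‖φ x‖) (fun _ _ => norm_nonneg _)
          (Finset.mem_univ φ)
      rcases le_or_gt ‖φ (δ r)‖ 1 with h3 | h3
      · have : 0 ≤ ‖φ x‖ := norm_nonneg _
        linarith
      · have h4 : ‖φ (δ r)‖ ≤ ‖φ (δ r)‖ ^ r := le_self_pow₀ h3.le hr0.ne'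
        linarith
  obtain ⟨r, hr, s, hs, hne, heq⟩ := hT.exists_ne_map_eq_of_mapsTo hmaps hfin
  have hc0 : (c : E) ≠ 0 := Nat.cast_ne_zero.2 hc.ne'
  have heq' : δ r = δ s := mul_left_cancel₀ hc0 heq
  have hrx := hδ r hr
  have hsx := hδ s hs
  rw [heq'] at hrx
  have hδ0 : δ s ≠ 0 := by
    intro h0
    rw [h0, zero_pow (h s hs).1.ne'] at hsx
    exact hx hsx.symm
  have key : ∀ a b : ℕ, a < b → δ s ^ a = x → δ s ^ b = x → ∃ N : ℕ, 0 < N ∧ x ^ N = 1 := by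
    intro a b hab ha hb
    refine ⟨b - a, by omega, ?_⟩
    have h1 : δ s ^ (b - a) = 1 := by
      have h2 : δ s ^ (b - a) * δ s ^ a = δ s ^ a := by
        rw [← pow_add, Nat.sub_add_cancel hab.le, hb, ha]
      exact mul_right_cancel₀ (pow_ne_zero _ hδ0) (by rw [h2, one_mul])
    rw [← ha, ← pow_mul, mul_comm, pow_mul, h1, one_pow]
  rcases Nat.lt_or_gt_of_ne hne with hlt | hlt
  · exact key r s hlt hrx hsx
  · exact key s r hlt hsx hrx

theorem norm_fact {p : ℕ} (hp : p.Prime) {A ε : 𝓞 E} (hA : A ≠ 0) {r b : ℕ}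
    (h : ε ^ r = A * (p : 𝓞 E) ^ b) : ∃ k, (Algebra.norm ℤ A).natAbs.factorization p +
      Module.finrank ℚ E * b = r * k := by
  have hd : Module.finrank ℤ (𝓞 E) = Module.finrank ℚ E := RingOfIntegers.rank E
  have h1 := congrArg (Algebra.norm ℤ) h
  have hpn : Algebra.norm ℤ ((p : 𝓞 E)) = (p : ℤ) ^ Module.finrank ℚ E := by
    have h2 := Algebra.norm_algebraMap (R := ℤ) (S := 𝓞 E) (p : ℤ)
    rw [hd] at h2
    simpa using h2
  rw [map_pow, map_mul, map_pow, hpn] at h1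
  have h2 := congrArg Int.natAbs h1
  rw [Int.natAbs_pow, Int.natAbs_mul, Int.natAbs_pow, Int.natAbs_pow, Int.natAbs_natCast] at h2
  have hA0 : (Algebra.norm ℤ A).natAbs ≠ 0 := by
    rw [Int.natAbs_ne_zero]
    exact Algebra.norm_ne_zero_iff.2 hA
  have h3 := congrArg (fun n => Nat.factorization n p) h2
  beta_reduce at h3
  rw [Nat.factorization_mul hA0 (pow_ne_zero _ (pow_ne_zero _ hp.ne_zero)), ← pow_mul,
    hp.factorization_pow, Nat.factorization_pow] at h3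
  simp only [Finsupp.smul_apply, Finsupp.add_apply, Finsupp.single_eq_same, smul_eq_mul] at h3
  exact ⟨_, h3.symm⟩

/-- a relation from infinitely many exponents -/
theorem rel_of_inf {p q : ℕ} (hp : p.Prime) (hq : q.Prime) {A B : 𝓞 E}
    (hA : A ≠ 0) (hB : B ≠ 0)
    (hrel : ∀ N a : ℕ, 0 < N → ¬ (A ^ N = (p : 𝓞 E) ^ a ∧ B ^ N = (q : 𝓞 E) ^ a)) :
    {r : ℕ | 0 < r ∧ ∃ b : ℕ, (∃ ε : 𝓞 E, ε ^ r = A * (p : 𝓞 E) ^ b) ∧
      ∃ ε : 𝓞 E, ε ^ r = B * (q : 𝓞 E) ^ b}.Finite := by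
  classical
  by_contra hinf
  set T : Set ℕ := {r : ℕ | 0 < r ∧ ∃ b : ℕ, (∃ ε : 𝓞 E, ε ^ r = A * (p : 𝓞 E) ^ b) ∧
      ∃ ε : 𝓞 E, ε ^ r = B * (q : 𝓞 E) ^ b} with hT
  have hinf' : T.Infinite := hinf
  set d := Module.finrank ℚ E with hd
  have hd0 : 0 < d := Module.finrank_pos
  set m := (Algebra.norm ℤ A).natAbs.factorization p with hm
  set m' := (Algebra.norm ℤ B).natAbs.factorization q with hm'
  have hmm : m = m' := by
    obtain ⟨r, hr, hrm⟩ := hinf'.exists_gt (m + m')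
    obtain ⟨hr0, b, ⟨ε, hε⟩, ε', hε'⟩ := hr
    obtain ⟨k, hk⟩ := norm_fact hp hA hε
    obtain ⟨k', hk'⟩ := norm_fact hq hB hε'
    rw [← hm, ← hd] at hk
    rw [← hm', ← hd] at hk'
    have h1 : (r : ℤ) ∣ (m : ℤ) - m' := by
      refine ⟨k - k', ?_⟩
      have e1 : (m : ℤ) + d * b = r * k := by exact_mod_cast hk
      have e2 : (m' : ℤ) + d * b = r * k' := by exact_mod_cast hk'
      linear_combination e1 - e2
    have h2 := Int.eq_zero_of_abs_lt_dvd h1 (by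
      rw [abs_lt]
      constructor <;> omega)
    omega
  have main : ∀ (p : ℕ) (_ : p.Prime) (A : 𝓞 E) (_ : A ≠ 0)
      (_ : (Algebra.norm ℤ A).natAbs.factorization p = m)
      (_ : ∀ r ∈ T, ∃ b : ℕ, ∃ ε : 𝓞 E, ε ^ r = A * (p : 𝓞 E) ^ b),
      ∃ N : ℕ, 0 < N ∧ A ^ (d * N) = (p : 𝓞 E) ^ (m * N) := by
    intro p hp A hA hmA hTA
    have hpE : (p : E) ≠ 0 := Nat.cast_ne_zero.2 hp.ne_zero
    have hAE : (A : E) ≠ 0 := fun h0 => hA (RingOfIntegers.ext (h0.trans rfl))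
    have hx0 : (A : E) ^ d / (p : E) ^ m ≠ 0 := div_ne_zero (pow_ne_zero _ hAE) (pow_ne_zero _ hpE)
    obtain ⟨N, hN, hN1⟩ := ru hx0 (c := p ^ m) (pow_pos hp.pos m) (by
      have e : ((p ^ m : ℕ) : E) * ((A : E) ^ d / (p : E) ^ m) = (A : E) ^ d := by
        push_cast
        exact mul_div_cancel₀ _ (pow_ne_zero _ hpE)
      rw [e]
      exact A.2.pow d) T hinf' (by
      intro r hr
      refine ⟨hr.1, ?_⟩
      obtain ⟨b, ε, hε⟩ := hTA r hr
      obtain ⟨k, hk⟩ := norm_fact hp hA hε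
      rw [hmA, ← hd] at hk
      refine ⟨(ε : E) ^ d / (p : E) ^ k, ?_⟩
      have hεE : (ε : E) ^ r = (A : E) * (p : E) ^ b := by
        have := congrArg (fun w : 𝓞 E => (w : E)) hε
        simpa using this
      rw [div_pow, ← pow_mul, mul_comm d r, pow_mul, hεE, mul_pow, ← pow_mul, ← pow_mul,
        mul_comm k r, ← hk, mul_comm d b, pow_add, mul_div_mul_right _ _ (pow_ne_zero _ hpE)])
    refine ⟨N, hN, ?_⟩
    rw [div_pow, div_eq_one_iff_eq (pow_ne_zero _ (pow_ne_zero _ hpE)), ← pow_mul, ← pow_mul] at hN1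
    apply RingOfIntegers.ext
    simpa using hN1
  obtain ⟨N1, hN1, h1⟩ := main p hp A hA rfl (fun r hr => by
    obtain ⟨-, b, h, -⟩ := hr
    exact ⟨b, h⟩)
  obtain ⟨N2, hN2, h2⟩ := main q hq B hB hmm.symm (fun r hr => by
    obtain ⟨-, b, -, h⟩ := hr
    exact ⟨b, h⟩)
  refine hrel (d * (N1 * N2)) (m * (N1 * N2)) (by positivity) ⟨?_, ?_⟩
  · rw [← mul_assoc, pow_mul, h1, ← pow_mul, mul_assoc]
  · rw [mul_comm N1 N2, ← mul_assoc, pow_mul, h2, ← pow_mul, mul_assoc]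

end

end Pool.Agent.H500.Kum
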