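import Pool.Agent.H500.KumGrp

set_option autoImplicit false
set_option linter.unusedSectionVars false

/-!
# Counting the good elements
-/

namespace Pool.Agent.H500.Kum

open Aff

theorem card_quad {r : ℕ} [Fact r.Prime] (c0 c1 c2 : ZMod r) (h : c2 ≠ 0) :
    (Finset.univ.filter fun t : ZMod r => c0 + t * c1 + t ^ 2 * c2 = 0).card ≤ 2 := by
  classical
  set P : Polynomial (ZMod r) := Polynomial.C c2 * Polynomial.X ^ 2 + Polynomial.C c1 * Polynomial.X
    + Polynomial.C c0 with hP
  have hdeg : P.natDegree = 2 := Polynomial.natDegree_quadratic h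
  have hP0 : P ≠ 0 := by
    intro h0
    rw [h0, Polynomial.natDegree_zero] at hdeg
    omega
  have hsub : (Finset.univ.filter fun t : ZMod r => c0 + t * c1 + t ^ 2 * c2 = 0) ⊆
      P.roots.toFinset := by
    intro t ht
    rw [Multiset.mem_toFinset, Polynomial.mem_roots hP0, Polynomial.IsRoot.def, hP]
    simp only [Polynomial.eval_add, Polynomial.eval_mul, Polynomial.eval_C, Polynomial.eval_pow,
      Polynomial.eval_X]
    rw [← (Finset.mem_filter.1 ht).2]
    ring
  calc _ ≤ P.roots.toFinset.card := Finset.card_le_card hsub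
    _ ≤ P.roots.card := P.roots.toFinset_card_le
    _ ≤ P.natDegree := P.card_roots'
    _ = 2 := hdeg

theorem count {r : ℕ} [hr : Fact r.Prime] (h3 : 3 ≤ r) (H : Subgroup (Aff r)) (h : Aff r)
    (hH : h ∈ H) (hg : Good h) :
    Nat.card H ≤ 3 * (r - 1) * Nat.card {g : Aff r // g ∈ H ∧ Good g} := by
  classical
  have hfin : Finite (Aff r) := inferInstance
  let _ : Fintype (Aff r) := Fintype.ofFinite _
  set V : Finset (Aff r) := Finset.univ.filter fun g => g ∈ H ∧ g.a = 1 with hV
  set Z : Finset (Aff r) := V.filter fun g => Q g.x = 0 with hZ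
  have hmV : ∀ g : Aff r, g ∈ V ↔ g ∈ H ∧ g.a = 1 := fun g => by
    rw [hV, Finset.mem_filter]
    exact ⟨fun h => h.2, fun h => ⟨Finset.mem_univ _, h⟩⟩
  -- step 1
  have h1 : Nat.card H ≤ (r - 1) * V.card := by
    set f : H →* (ZMod r)ˣ := (lin r).comp H.subtype with hf
    have e1 := Subgroup.card_mul_index f.ker
    have e2 : f.ker.index ≤ r - 1 := by
      rw [Subgroup.index_ker]
      calc Nat.card f.range ≤ Nat.card (ZMod r)ˣ :=
            Nat.card_le_card_of_injective _ (Subtype.coe_injective)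
        _ = r - 1 := by rw [Nat.card_eq_fintype_card, ZMod.card_units]
    have e3 : Nat.card f.ker ≤ V.card := by
      rw [← Nat.subtype_card V (p := fun g => g ∈ V) (fun _ => Iff.rfl)]
      refine Nat.card_le_card_of_injective
        (fun g : f.ker => (⟨g.1.1, (hmV _).2 ⟨g.1.2, g.2⟩⟩ : {x // x ∈ V})) ?_
      intro a b hab
      have := congrArg Subtype.val hab
      exact Subtype.ext (Subtype.ext this)
    rw [← e1, mul_comm]
    exact Nat.mul_le_mul e2 e3
  -- step 2
  have h2 : r * Z.card ≤ 2 * V.card := by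
    have hxt : ∀ (v : Aff r), v.a = 1 → ∀ t : ZMod r, (v * h ^ t.val).x = v.x + t • h.x := by
      intro v hv t
      rw [mul_x, hv, Units.val_one, one_smul, (pow_of_a hg.1 _).2, ZMod.natCast_zmod_val]
    have hb : ∀ t : ZMod r, (V.filter fun v => Q (v.x + t • h.x) = 0).card = Z.card := by
      intro t
      refine Finset.card_bij (fun v _ => v * h ^ t.val) ?_ ?_ ?_
      · intro v hv
        rw [Finset.mem_filter, hmV] at hv
        rw [hZ, Finset.mem_filter, hmV, hxt v hv.1.2]
        refine ⟨⟨H.mul_mem hv.1.1 (H.pow_mem hH _), ?_⟩, hv.2⟩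
        rw [mul_a, hv.1.2, (pow_of_a hg.1 _).1, one_mul]
      · intro a _ b _ hab
        exact mul_right_cancel hab
      · intro b hb
        rw [hZ, Finset.mem_filter, hmV] at hb
        refine ⟨b * (h ^ t.val)⁻¹, ?_, by rw [inv_mul_cancel_right]⟩
        have ha : (b * (h ^ t.val)⁻¹).a = 1 := by
          rw [mul_a, inv_a, hb.1.2, (pow_of_a hg.1 _).1, inv_one, one_mul]
        rw [Finset.mem_filter, hmV, ← hxt _ ha, inv_mul_cancel_right]
        exact ⟨⟨H.mul_mem hb.1.1 (H.inv_mem (H.pow_mem hH _)), ha⟩, hb.2⟩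
    have hsum : ∑ t : ZMod r, (V.filter fun v => Q (v.x + t • h.x) = 0).card =
        ∑ v ∈ V, (Finset.univ.filter fun t : ZMod r => Q (v.x + t • h.x) = 0).card := by
      simp only [Finset.card_filter]
      exact Finset.sum_comm
    have hle : ∀ v ∈ V, (Finset.univ.filter fun t : ZMod r => Q (v.x + t • h.x) = 0).card ≤ 2 := by
      intro v _
      have e : ∀ t : ZMod r, Q (v.x + t • h.x) = Q v.x + t * (v.x 0 * h.x 3 + h.x 0 * v.x 3 -
          v.x 1 * h.x 2 - h.x 1 * v.x 2) + t ^ 2 * Q h.x := by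
        intro t
        simp only [Q, Pi.add_apply, Pi.smul_apply, smul_eq_mul]
        ring
      simp only [e]
      exact card_quad _ _ _ hg.2
    calc r * Z.card = ∑ _t : ZMod r, Z.card := by
          rw [Finset.sum_const, Finset.card_univ, ZMod.card, smul_eq_mul]
      _ = ∑ t : ZMod r, (V.filter fun v => Q (v.x + t • h.x) = 0).card :=
          Finset.sum_congr rfl fun t _ => (hb t).symm
      _ = _ := hsum
      _ ≤ ∑ v ∈ V, 2 := Finset.sum_le_sum hle
      _ = 2 * V.card := by rw [Finset.sum_const, smul_eq_mul, mul_comm]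
  -- step 3
  have h4 : Nat.card {g : Aff r // g ∈ H ∧ Good g} = (V \ Z).card := by
    apply Nat.subtype_card
    intro g
    rw [Finset.mem_sdiff, hmV, hZ, Finset.mem_filter, hmV]
    unfold Good
    tauto
  have h5 : (V \ Z).card = V.card - Z.card :=
    Finset.card_sdiff_of_subset (Finset.filter_subset _ _)
  rw [h4, h5]
  have h6 : 3 * Z.card ≤ 2 * V.card := le_trans (Nat.mul_le_mul_right _ h3) h2
  have h7 : V.card ≤ 3 * (V.card - Z.card) := by omega
  calc Nat.card H ≤ (r - 1) * V.card := h1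
    _ ≤ (r - 1) * (3 * (V.card - Z.card)) := Nat.mul_le_mul_left _ h7
    _ = _ := by ring


section ratio

variable {ι : Type} [Fintype ι] (r : ι → ℕ) [hr : ∀ i, Fact (r i).Prime]
  {G : Type} [Group G] (Φ : ∀ i, G →* Aff (r i))

/-- all the homomorphisms together -/
def Psi : G →* ((i : ι) → Aff (r i)) := MonoidHom.pi Φ

theorem Psi_apply (g : G) (i : ι) : Psi r Φ g i = Φ i g := rfl

/-- no component is good -/
def Cset : Set G := {g | ∀ i, ¬ Good (Φ i g)}

theorem ratio_le (hinj : Function.Injective r) (h3 : ∀ i, 3 ≤ r i)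
    (hχ : ∀ t : (i : ι) → (ZMod (r i))ˣ, ∃ g : G, ∀ i, (Φ i g).a = t i)
    (hgood : ∀ i, ∃ g, Good (Φ i g)) :
    (((QuotientGroup.mk : G → G ⧸ (Psi r Φ).ker) '' (Cset r Φ)).ncard : ℝ) /
      (Nat.card (G ⧸ (Psi r Φ).ker) : ℝ) ≤ ∏ i, (1 - 1 / (3 * (r i : ℝ))) := by
  classical
  have hfin : ∀ i, Finite (Aff (r i)) := fun i => inferInstance
  set Ψ := Psi r Φ with hΨ
  have hindep := indep r hinj h3 Φ hχ
  -- the range
  have hrange : ∀ f : (i : ι) → Aff (r i), f ∈ Set.range Ψ ↔ ∀ i, f i ∈ (Φ i).range := by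
    intro f
    constructor
    · rintro ⟨g, rfl⟩ i
      exact ⟨g, rfl⟩
    · intro h
      choose g hg using h
      obtain ⟨g', hg'⟩ := hindep g
      refine ⟨g', ?_⟩
      funext i
      rw [hΨ, Psi_apply, hg', hg]
  have hinjk : Function.Injective (QuotientGroup.kerLift Ψ) := QuotientGroup.kerLift_injective Ψ
  have e1 : Nat.card (G ⧸ Ψ.ker) = ∏ i, Nat.card (Φ i).range := by
    have h1 : Nat.card (G ⧸ Ψ.ker) = Nat.card (Set.range (QuotientGroup.kerLift Ψ)) :=
      (Nat.card_range_of_injective hinjk).symm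
    have h2 : Set.range (QuotientGroup.kerLift Ψ) = {f | ∀ i, f i ∈ (Φ i).range} := by
      ext f
      rw [Set.mem_ofPred_eq, ← hrange]
      constructor
      · rintro ⟨x, rfl⟩
        obtain ⟨g, rfl⟩ := QuotientGroup.mk_surjective x
        exact ⟨g, rfl⟩
      · rintro ⟨g, rfl⟩
        exact ⟨(g : G ⧸ Ψ.ker), rfl⟩
    rw [h1, h2]
    have h3 : Nat.card {f : (i : ι) → Aff (r i) | ∀ i, f i ∈ (Φ i).range} =
        Nat.card ((i : ι) → (Φ i).range) :=
      Nat.card_congr (Equiv.subtypePiEquivPi (p := fun i (x : Aff (r i)) => x ∈ (Φ i).range))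
    rw [h3, Nat.card_pi]
  have e2 : ((QuotientGroup.mk : G → G ⧸ Ψ.ker) '' (Cset r Φ)).ncard =
      ∏ i, Nat.card {x : Aff (r i) // x ∈ (Φ i).range ∧ ¬ Good x} := by
    rw [← Set.ncard_image_of_injective _ hinjk]
    have h2 : (QuotientGroup.kerLift Ψ) '' ((QuotientGroup.mk : G → G ⧸ Ψ.ker) '' (Cset r Φ)) =
        {f | ∀ i, f i ∈ (Φ i).range ∧ ¬ Good (f i)} := by
      ext f
      rw [Set.mem_ofPred_eq, Set.image_image]
      constructor
      · rintro ⟨g, hg, rfl⟩ i
        exact ⟨⟨g, rfl⟩, hg i⟩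
      · intro h
        obtain ⟨g, hg⟩ := (hrange f).2 fun i => (h i).1
        refine ⟨g, ?_, hg⟩
        intro i
        have := (h i).2
        rw [← hg] at this
        exact this
    rw [h2, ← Nat.card_coe_set_eq]
    have h3 : Nat.card {f : (i : ι) → Aff (r i) | ∀ i, f i ∈ (Φ i).range ∧ ¬ Good (f i)} =
        Nat.card ((i : ι) → {x : Aff (r i) // x ∈ (Φ i).range ∧ ¬ Good x}) :=
      Nat.card_congr (Equiv.subtypePiEquivPi
        (p := fun i (x : Aff (r i)) => x ∈ (Φ i).range ∧ ¬ Good x))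
    rw [h3, Nat.card_pi]
  rw [e1, e2]
  push_cast
  rw [← Finset.prod_div_distrib]
  refine Finset.prod_le_prod (fun i _ => by positivity) fun i _ => ?_
  obtain ⟨g, hg⟩ := hgood i
  have h1 := count (h3 i) (Φ i).range (Φ i g) ⟨g, rfl⟩ hg
  have h2 : Nat.card (Φ i).range = Nat.card {x : Aff (r i) // x ∈ (Φ i).range ∧ Good x} +
      Nat.card {x : Aff (r i) // x ∈ (Φ i).range ∧ ¬ Good x} := by
    have h4 := Nat.card_congr (Equiv.sumCompl fun x : (Φ i).range => Good x.1).symm
    rw [Nat.card_sum] at h4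
    rw [h4]
    congr 1
    · exact Nat.card_congr (Equiv.subtypeSubtypeEquivSubtypeInter (fun x => x ∈ (Φ i).range)
        (fun x => Good x))
    · exact Nat.card_congr (Equiv.subtypeSubtypeEquivSubtypeInter (fun x => x ∈ (Φ i).range)
        (fun x => ¬ Good x))
  have hpos : 0 < Nat.card (Φ i).range := Nat.card_pos
  set a := Nat.card (Φ i).range with ha
  set b := Nat.card {x : Aff (r i) // x ∈ (Φ i).range ∧ Good x} with hb
  set c := Nat.card {x : Aff (r i) // x ∈ (Φ i).range ∧ ¬ Good x} with hc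
  have h3i := h3 i
  have h5 : a ≤ 3 * r i * b := le_trans h1 (Nat.mul_le_mul_right _ (by omega))
  have h6 : (a : ℝ) ≤ 3 * r i * b := by exact_mod_cast h5
  have h7 : (a : ℝ) = b + c := by exact_mod_cast h2
  have h8 : (0 : ℝ) < a := by exact_mod_cast hpos
  have h9 : (0 : ℝ) < r i := by
    have : 0 < r i := by omega
    exact_mod_cast this
  rw [div_le_iff₀ h8]
  have h10 : 1 / (3 * (r i : ℝ)) * a ≤ b := by
    rw [div_mul_eq_mul_div, one_mul, div_le_iff₀ (by positivity)]
    linarith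
  nlinarith

end ratio

end Pool.Agent.H500.Kum
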