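import Pool.Agent.H500.KumCnt
import Pool.Graph.R_seed8.W571.FM.Frob

set_option autoImplicit false
set_option linter.unusedSectionVars false

/-!
# The Kummer cocycles of the absolute Galois group
-/

namespace Pool.Agent.H500.Kum

open NumberField IsDedekindDomain Pool.Agent.W569.FM Aff

section

variable {E : Type} [Field E] [NumberField E] {r : ℕ} [hr : Fact r.Prime]

theorem val_add {R : Type} [Monoid R] {z : R} (hz : z ^ r = 1) (u v : ZMod r) :
    z ^ (u + v).val = z ^ u.val * z ^ v.val := by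
  rw [← pow_add, ZMod.val_add]
  exact (pow_eq_pow_mod _ hz).symm

theorem val_mul {R : Type} [Monoid R] {z : R} (hz : z ^ r = 1) (u v : ZMod r) :
    z ^ (u * v).val = (z ^ u.val) ^ v.val := by
  rw [← pow_mul, ZMod.val_mul]
  exact (pow_eq_pow_mod _ hz).symm

theorem exists_pow {z : OO E} (hz : IsPrimitiveRoot z r) {x y : OO E} (hy : y ≠ 0)
    (h : x ^ r = y ^ r) : ∃ t : ZMod r, x = z ^ t.val * y := by
  have hzK : IsPrimitiveRoot (z : AlgebraicClosure E) r :=
    hz.map_of_injective (f := algebraMap (OO E) (AlgebraicClosure E)) RingOfIntegers.coe_injective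
  have hyK : (y : AlgebraicClosure E) ≠ 0 := fun h0 => hy (RingOfIntegers.ext (h0.trans rfl))
  have h1 : ((x : AlgebraicClosure E) / y) ^ r = 1 := by
    rw [div_pow, div_eq_one_iff_eq (pow_ne_zero _ hyK)]
    have := congrArg (fun w : OO E => (w : AlgebraicClosure E)) h
    simpa using this
  obtain ⟨i, hi, h2⟩ := hzK.eq_pow_of_pow_eq_one h1
  refine ⟨(i : ZMod r), ?_⟩
  rw [ZMod.val_natCast, Nat.mod_eq_of_lt hi]
  apply RingOfIntegers.ext
  rw [eq_div_iff hyK] at h2
  rw [← h2]
  simp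

theorem pow_unique {z : OO E} (hz : IsPrimitiveRoot z r) {y : OO E} (hy : y ≠ 0) {s t : ZMod r}
    (h : z ^ s.val * y = z ^ t.val * y) : s = t := by
  have h1 := mul_right_cancel₀ hy h
  exact ZMod.val_injective r (hz.pow_inj (ZMod.val_lt s) (ZMod.val_lt t) h1)

/-- roots -/
structure KD (E : Type) [Field E] [NumberField E] (r : ℕ) where
  z : OO E
  hz : IsPrimitiveRoot z r
  c : Fin 4 → 𝓞 E
  y : Fin 4 → OO E
  hy : ∀ i, y i ^ r = algebraMap (𝓞 E) (OO E) (c i)
  hc : ∀ i, c i ≠ 0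

theorem exists_root {n : ℕ} (hn : 0 < n) (c : OO E) : ∃ y : OO E, y ^ n = c := by
  obtain ⟨y, hy⟩ := IsAlgClosed.exists_pow_nat_eq (c : AlgebraicClosure E) hn
  have hint : IsIntegral ℤ y := IsIntegral.of_pow hn (by rw [hy]; exact c.2)
  exact ⟨⟨y, hint⟩, RingOfIntegers.ext hy⟩

theorem exists_prim (n : ℕ) [NeZero n] : ∃ z : OO E, IsPrimitiveRoot z n := by
  have : CharZero (AlgebraicClosure E) := charZero_of_injective_algebraMap
    (algebraMap E (AlgebraicClosure E)).injective
  obtain ⟨z, hz⟩ := HasEnoughRootsOfUnity.exists_primitiveRoot (AlgebraicClosure E) n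
  have hint : IsIntegral ℤ z :=
    IsIntegral.of_pow (NeZero.pos n) (by rw [hz.pow_eq_one]; exact isIntegral_one)
  refine ⟨⟨z, hint⟩, ?_⟩
  exact IsPrimitiveRoot.of_map_of_injective (f := algebraMap (OO E) (AlgebraicClosure E))
    (by exact hz) RingOfIntegers.coe_injective

theorem exists_KD (c : Fin 4 → 𝓞 E) (hc : ∀ i, c i ≠ 0) : ∃ D : KD E r, D.c = c := by
  have : NeZero r := ⟨hr.out.ne_zero⟩
  obtain ⟨z, hz⟩ := exists_prim (E := E) r
  choose y hy using fun i => exists_root hr.out.pos (algebraMap (𝓞 E) (OO E) (c i))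
  exact ⟨⟨z, hz, c, y, hy, hc⟩, rfl⟩

theorem algMap_ne {x : 𝓞 E} (hx : x ≠ 0) : algebraMap (𝓞 E) (OO E) x ≠ 0 := by
  intro h
  apply hx
  have h1 := congrArg (fun w : OO E => (w : AlgebraicClosure E)) h
  apply RingOfIntegers.ext
  apply (algebraMap E (AlgebraicClosure E)).injective
  exact h1.trans (map_zero (algebraMap E (AlgebraicClosure E))).symm

theorem smul_alg (g : GF E) (x : 𝓞 E) :
    g • algebraMap (𝓞 E) (OO E) x = algebraMap (𝓞 E) (OO E) x := by
  apply RingOfIntegers.ext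
  exact g.commutes (x : E)

namespace KD

variable (D : KD E r)

theorem y_ne (i : Fin 4) : D.y i ≠ 0 := by
  intro h
  have h1 := D.hy i
  rw [h, zero_pow hr.out.ne_zero] at h1
  exact algMap_ne (D.hc i) h1.symm

theorem z_pow : D.z ^ r = 1 := D.hz.pow_eq_one

theorem z_ne : D.z ≠ 0 := D.hz.ne_zero hr.out.ne_zero

theorem ex_chi (g : GF E) : ∃ t : ZMod r, g • D.z = D.z ^ t.val := by
  obtain ⟨t, ht⟩ := exists_pow D.hz (x := g • D.z) (y := 1) one_ne_zero (by
    rw [← smul_pow', D.z_pow, smul_one, one_pow])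
  exact ⟨t, by rw [ht, mul_one]⟩

theorem ex_kap (g : GF E) (i : Fin 4) : ∃ t : ZMod r, g • D.y i = D.z ^ t.val * D.y i :=
  exists_pow D.hz (D.y_ne i) (by rw [← smul_pow', D.hy, smul_alg])

/-- the cyclotomic character -/
noncomputable def chi (g : GF E) : ZMod r := (D.ex_chi g).choose

/-- the Kummer cocycle -/
noncomputable def kap (g : GF E) (i : Fin 4) : ZMod r := (D.ex_kap g i).choose

theorem smul_z (g : GF E) : g • D.z = D.z ^ (D.chi g).val := (D.ex_chi g).choose_spec

theorem smul_y (g : GF E) (i : Fin 4) : g • D.y i = D.z ^ (D.kap g i).val * D.y i :=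
  (D.ex_kap g i).choose_spec

theorem chi_unique {g : GF E} {t : ZMod r} (h : g • D.z = D.z ^ t.val) : D.chi g = t := by
  apply pow_unique D.hz (y := 1) one_ne_zero
  rw [mul_one, mul_one, ← D.smul_z, h]

theorem kap_unique {g : GF E} {i : Fin 4} {t : ZMod r} (h : g • D.y i = D.z ^ t.val * D.y i) :
    D.kap g i = t := by
  apply pow_unique D.hz (D.y_ne i)
  rw [← D.smul_y, h]

theorem smul_zpow (g : GF E) (t : ZMod r) : g • D.z ^ t.val = D.z ^ (D.chi g * t).val := by
  rw [smul_pow', D.smul_z, val_mul D.z_pow]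

theorem chi_mul (g h : GF E) : D.chi (g * h) = D.chi g * D.chi h := by
  apply D.chi_unique
  rw [mul_smul, D.smul_z h, D.smul_zpow]

theorem chi_one : D.chi 1 = 1 := by
  apply D.chi_unique
  rw [one_smul, ZMod.val_one, pow_one]

theorem kap_mul (g h : GF E) (i : Fin 4) : D.kap (g * h) i = D.kap g i + D.chi g * D.kap h i := by
  apply D.kap_unique
  rw [mul_smul, D.smul_y h, smul_mul', D.smul_zpow, D.smul_y g, val_add D.z_pow]
  ring

/-- the homomorphism to the affine group -/
noncomputable def Phi : GF E →* Aff r where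
  toFun g := ⟨⟨D.chi g, D.chi g⁻¹, by rw [← D.chi_mul, mul_inv_cancel, D.chi_one],
    by rw [← D.chi_mul, inv_mul_cancel, D.chi_one]⟩, D.kap g⟩
  map_one' := by
    apply Aff.ext
    · apply Units.ext
      exact D.chi_one
    · funext i
      apply D.kap_unique
      rw [one_smul, Aff.one_x, Pi.zero_apply, ZMod.val_zero, pow_zero, one_mul]
  map_mul' g h := by
    apply Aff.ext
    · apply Units.ext
      exact D.chi_mul g h
    · funext i
      exact D.kap_mul g h i

theorem Phi_a (g : GF E) : ((D.Phi g).a : ZMod r) = D.chi g := rfl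

theorem Phi_x (g : GF E) (i : Fin 4) : (D.Phi g).x i = D.kap g i := rfl

theorem isOpen_ker : IsOpen (D.Phi.ker : Set (GF E)) := by
  have hst : ∀ w : OO E, IsOpen (MulAction.stabilizer (GF E) (w : AlgebraicClosure E) :
      Set (GF E)) := fun w => stabilizer_isOpen_of_isIntegral (K := E) (w : AlgebraicClosure E)
  have hopen : IsOpen ((MulAction.stabilizer (GF E) (D.z : AlgebraicClosure E) : Set (GF E)) ∩
      ⋂ i, (MulAction.stabilizer (GF E) (D.y i : AlgebraicClosure E) : Set (GF E))) :=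
    (hst D.z).inter (isOpen_iInter_of_finite fun i => hst (D.y i))
  refine Subgroup.isOpen_of_mem_nhds D.Phi.ker (g := 1) (Filter.mem_of_superset
    (hopen.mem_nhds ?_) ?_)
  · refine ⟨one_smul _ _, Set.mem_iInter.2 fun i => one_smul _ _⟩
  · rintro g ⟨h1, h2⟩
    rw [Set.mem_iInter] at h2
    show D.Phi g = 1
    apply Aff.ext
    · apply Units.ext
      show D.chi g = 1
      apply D.chi_unique
      rw [ZMod.val_one, pow_one]
      exact RingOfIntegers.ext h1
    · funext i
      show D.kap g i = 0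
      apply D.kap_unique
      rw [ZMod.val_zero, pow_zero, one_mul]
      exact RingOfIntegers.ext (h2 i)

end KD

/-- an element fixed by the Galois group -/
theorem fixed {x : OO E} (h : ∀ g : GF E, g • x = x) :
    ∃ a : 𝓞 E, algebraMap (𝓞 E) (OO E) a = x :=
  (Pool.Agent.W401.Frob.isInv (K := E)).isInvariant x h

/-- **Descent.** -/
theorem descent (D : KD E r) (hs : ∃ s, D.chi s ≠ 1) {δ : OO E} (hδ : δ ≠ 0)
    (c : GF E → ZMod r)
    (hc : ∀ g, g • δ = D.z ^ (c g).val * δ) (hc1 : ∀ g, D.chi g = 1 → c g = 0) :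
    ∃ ε : 𝓞 E, algebraMap (𝓞 E) (OO E) (ε ^ r) = δ ^ r := by
  have hmul : ∀ g h, c (g * h) = c g + D.chi g * c h := by
    intro g h
    apply pow_unique D.hz hδ
    rw [← hc, mul_smul, hc h, smul_mul', D.smul_zpow, hc g, val_add D.z_pow]
    ring
  obtain ⟨s, hs⟩ := hs
  have hcomm : ∀ g h, c (g * h) = c (h * g) := by
    intro g h
    have h1 : g * h = (g * h * g⁻¹ * h⁻¹) * (h * g) := by group
    have hx : D.chi (g * h * g⁻¹ * h⁻¹) = 1 := by
      have e1 : D.chi g * D.chi g⁻¹ = 1 := by rw [← D.chi_mul, mul_inv_cancel, D.chi_one]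
      have e2 : D.chi h * D.chi h⁻¹ = 1 := by rw [← D.chi_mul, mul_inv_cancel, D.chi_one]
      rw [D.chi_mul, D.chi_mul, D.chi_mul]
      linear_combination (D.chi h * D.chi h⁻¹) * e1 + e2
    rw [h1, hmul, hx, hc1 _ hx, zero_add, one_mul]
  set t := D.chi s with ht
  have ht1 : t - 1 ≠ 0 := sub_ne_zero.2 hs
  set c0 : ZMod r := c s / (t - 1) with hc0
  have hcg : ∀ g, c g = c0 * (D.chi g - 1) := by
    intro g
    have h1 := hcomm g s
    rw [hmul, hmul, ← ht] at h1
    rw [hc0, div_mul_eq_mul_div, eq_div_iff ht1]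
    linear_combination -h1
  -- the corrected root
  obtain ⟨ε, hε⟩ := fixed (x := D.z ^ (-c0).val * δ) (fun g => by
    rw [smul_mul', D.smul_zpow, hc g, ← mul_assoc, ← val_add D.z_pow, hcg g]
    congr 2
    ring_nf)
  refine ⟨ε, ?_⟩
  rw [map_pow, hε, mul_pow, ← pow_mul, mul_comm _ r, pow_mul, D.z_pow, one_pow, one_mul]

end

end Pool.Agent.H500.Kum
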