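import Pool.Agent.H500.KumGal
import Pool.Agent.H500.KumAr

set_option autoImplicit false
set_option linter.unusedSectionVars false

/-!
# Existence of good elements
-/

namespace Pool.Agent.H500.Kum

open NumberField IsDedekindDomain Pool.Agent.W569.FM Aff

section

variable {E : Type} [Field E] [NumberField E] {r : ℕ} [hr : Fact r.Prime]

theorem algMap_inj {x y : 𝓞 E} (h : algebraMap (𝓞 E) (OO E) x = algebraMap (𝓞 E) (OO E) y) :
    x = y := by
  rw [← sub_eq_zero]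
  by_contra hne
  exact algMap_ne hne (by rw [map_sub, h, sub_self])

theorem comb (D : KD E r) (hs : ∃ s, D.chi s ≠ 1) (i j : Fin 4) (b : ZMod r)
    (h : ∀ g, D.chi g = 1 → D.kap g i + b * D.kap g j = 0) :
    ∃ ε : 𝓞 E, ε ^ r = D.c i * (D.c j) ^ b.val := by
  have hδ : D.y i * D.y j ^ b.val ≠ 0 := mul_ne_zero (D.y_ne i) (pow_ne_zero _ (D.y_ne j))
  obtain ⟨ε, hε⟩ := descent D hs hδ (fun g => D.kap g i + b * D.kap g j) (by
    intro g
    rw [smul_mul', smul_pow', D.smul_y, D.smul_y, mul_pow, ← val_mul D.z_pow,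
      val_add D.z_pow, mul_comm b]
    ring) h
  refine ⟨ε, algMap_inj ?_⟩
  rw [hε, mul_pow, ← pow_mul, mul_comm _ r, pow_mul, D.hy, D.hy, map_mul, map_pow]

theorem one_fact {p : ℕ} (hp : p.Prime) {ε : 𝓞 E} {w : 𝓞 E} (hw : w ≠ 0)
    (hwp : (Algebra.norm ℤ w).natAbs.factorization p = 0) (hd : Module.finrank ℚ E < r)
    (h : ε ^ r = w * (p : 𝓞 E)) : False := by
  obtain ⟨k, hk⟩ := norm_fact hp (A := w) (b := 1) hw (by rw [h, pow_one])
  rw [hwp, mul_one, zero_add] at hk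
  have hd0 : 0 < Module.finrank ℚ E := Module.finrank_pos
  have := Nat.le_of_dvd hd0 ⟨k, hk⟩
  omega

theorem exists_good (D : KD E r) (hs : ∃ s, D.chi s ≠ 1) (hd : Module.finrank ℚ E < r)
    {p q : ℕ} (hp : p.Prime) (hq : q.Prime) (hpq : p ≠ q) {A B : 𝓞 E}
    (h0 : D.c 0 = A) (h1 : D.c 1 = B) (h2 : D.c 2 = (p : 𝓞 E)) (h3 : D.c 3 = (q : 𝓞 E))
    (hbad : ¬ ∃ b : ℕ, (∃ ε : 𝓞 E, ε ^ r = A * (p : 𝓞 E) ^ b) ∧
      ∃ ε : 𝓞 E, ε ^ r = B * (q : 𝓞 E) ^ b) : ∃ g, Good (D.Phi g) := by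
  by_contra hcon
  push Not at hcon
  have hQ : ∀ g, D.chi g = 1 → D.kap g 0 * D.kap g 3 - D.kap g 1 * D.kap g 2 = 0 := by
    intro g hg
    by_contra hne
    exact hcon g ⟨Units.ext hg, hne⟩
  have hmul : ∀ g h, D.chi g = 1 → ∀ i, D.kap (g * h) i = D.kap g i + D.kap h i := by
    intro g h hg i
    rw [D.kap_mul, hg, one_mul]
  have hpow : ∀ g, D.chi g = 1 → ∀ n : ℕ, D.chi (g ^ n) = 1 ∧ ∀ i, D.kap (g ^ n) i =
      n * D.kap g i := by
    intro g hg n
    have e : (D.Phi g).a = 1 := Units.ext hg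
    obtain ⟨e1, e2⟩ := pow_of_a e n
    rw [← map_pow] at e1 e2
    refine ⟨congrArg Units.val e1, fun i => ?_⟩
    have := congrFun e2 i
    exact this
  -- an element with nonzero last component
  obtain ⟨g', hg', hg3⟩ : ∃ g', D.chi g' = 1 ∧ D.kap g' 3 ≠ 0 := by
    by_contra hn
    push Not at hn
    obtain ⟨ε, hε⟩ := comb D hs 3 3 0 (fun g hg => by rw [hn g hg]; ring)
    rw [h3, ZMod.val_zero, pow_zero, mul_one] at hε
    exact one_fact (w := 1) hq one_ne_zero (by simp) hd (by rw [hε, one_mul])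
  obtain ⟨h, hh, hh3, hh2⟩ : ∃ h, D.chi h = 1 ∧ D.kap h 3 = 0 ∧ D.kap h 2 ≠ 0 := by
    by_contra hn
    push Not at hn
    set c := D.kap g' 2 / D.kap g' 3 with hc
    obtain ⟨ε, hε⟩ := comb D hs 2 3 (-c) (fun g hg => by
      set n := (-(D.kap g 3) / D.kap g' 3).val with hn'
      obtain ⟨e1, e2⟩ := hpow g' hg' n
      have hnc : (n : ZMod r) = -(D.kap g 3) / D.kap g' 3 := by
        rw [hn', ZMod.natCast_zmod_val]
      have e3 := hn (g * g' ^ n) (by rw [D.chi_mul, hg, e1, mul_one]) (by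
        rw [hmul g _ hg, e2, hnc, div_mul_cancel₀ _ hg3, add_neg_cancel])
      rw [hmul g _ hg, e2, hnc] at e3
      rw [hc, ← e3]
      ring)
    rw [h2, h3] at hε
    refine one_fact (w := (q : 𝓞 E) ^ (-c).val) hp (pow_ne_zero _ (Nat.cast_ne_zero.2 hq.ne_zero))
      ?_ hd (by rw [hε, mul_comm])
    have hqn : Algebra.norm ℤ ((q : 𝓞 E)) = (q : ℤ) ^ Module.finrank ℚ E := by
      have e := Algebra.norm_algebraMap (R := ℤ) (S := 𝓞 E) (q : ℤ)
      rw [RingOfIntegers.rank E] at e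
      simpa using e
    rw [map_pow, hqn, Int.natAbs_pow, Int.natAbs_pow, Int.natAbs_natCast, ← pow_mul,
      hq.factorization_pow, Finsupp.single_eq_of_ne hpq]
  set a : ZMod r := D.kap h 0 / D.kap h 2 with ha
  have hh1 : D.kap h 1 = 0 := by
    have e := hQ h hh
    rw [hh3, mul_zero, zero_sub, neg_eq_zero] at e
    exact (mul_eq_zero.1 e).resolve_right hh2
  have k1 : ∀ g, D.chi g = 1 → D.kap g 1 = a * D.kap g 3 := by
    intro g hg
    have e1 := hQ g hg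
    have e2 := hQ (g * h) (by rw [D.chi_mul, hg, hh, mul_one])
    simp only [hmul g h hg, hh3, hh1] at e2
    rw [ha, div_mul_eq_mul_div, eq_div_iff hh2]
    linear_combination e1 - e2
  have k0' : ∀ g, D.chi g = 1 → D.kap g 3 ≠ 0 → D.kap g 0 = a * D.kap g 2 := by
    intro g hg hg3
    have e1 := hQ g hg
    rw [k1 g hg] at e1
    apply mul_right_cancel₀ hg3
    linear_combination e1
  have k0 : ∀ g, D.chi g = 1 → D.kap g 0 = a * D.kap g 2 := by
    intro g hg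
    by_cases hg3' : D.kap g 3 = 0
    · have e1 := k0' g' hg' hg3
      have e2 := k0' (g * g') (by rw [D.chi_mul, hg, hg', mul_one]) (by
        rw [hmul g _ hg, hg3', zero_add]; exact hg3)
      rw [hmul g _ hg, hmul g _ hg, e1] at e2
      linear_combination e2
    · exact k0' g hg hg3'
  apply hbad
  refine ⟨(-a).val, ?_, ?_⟩
  · obtain ⟨ε, hε⟩ := comb D hs 0 2 (-a) (fun g hg => by rw [k0 g hg]; ring)
    exact ⟨ε, by rw [hε, h0, h2]⟩
  · obtain ⟨ε, hε⟩ := comb D hs 1 3 (-a) (fun g hg => by rw [k1 g hg]; ring)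
    exact ⟨ε, by rw [hε, h1, h3]⟩

end

end Pool.Agent.H500.Kum
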