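import Mathlib

set_option autoImplicit false

/-!
# The affine group with homotheties as linear parts, and the independence of such quotients
-/

namespace Pool.Agent.H500.Kum

/-- affine transformations `v ↦ x + a v` of `𝔽_r ^ 4` -/
@[ext]
structure Aff (r : ℕ) where
  a : (ZMod r)ˣ
  x : Fin 4 → ZMod r

namespace Aff

variable {r : ℕ}

instance : Mul (Aff r) := ⟨fun g h => ⟨g.a * h.a, g.x + (g.a : ZMod r) • h.x⟩⟩
instance : One (Aff r) := ⟨⟨1, 0⟩⟩
instance : Inv (Aff r) := ⟨fun g => ⟨g.a⁻¹, -(((g.a⁻¹ : (ZMod r)ˣ) : ZMod r) • g.x)⟩⟩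

theorem mul_a (g h : Aff r) : (g * h).a = g.a * h.a := rfl
theorem mul_x (g h : Aff r) : (g * h).x = g.x + (g.a : ZMod r) • h.x := rfl
theorem one_a : (1 : Aff r).a = 1 := rfl
theorem one_x : (1 : Aff r).x = 0 := rfl
theorem inv_a (g : Aff r) : (g⁻¹).a = g.a⁻¹ := rfl
theorem inv_x (g : Aff r) : (g⁻¹).x = -(((g.a⁻¹ : (ZMod r)ˣ) : ZMod r) • g.x) := rfl

instance : Group (Aff r) := Group.ofLeftAxioms
  (fun g h k => by
    apply Aff.ext
    · simp only [mul_a, mul_assoc]
    · simp only [mul_x, mul_a, smul_add, Units.val_mul, mul_smul, add_assoc])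
  (fun g => by
    apply Aff.ext
    · simp only [mul_a, one_a, one_mul]
    · simp only [mul_x, one_x, one_a, Units.val_one, one_smul, zero_add])
  (fun g => by
    apply Aff.ext
    · simp only [mul_a, inv_a, one_a, inv_mul_cancel]
    · simp only [mul_x, inv_x, inv_a, one_x, neg_add_cancel])

/-- the linear part -/
def lin (r : ℕ) : Aff r →* (ZMod r)ˣ where
  toFun := Aff.a
  map_one' := rfl
  map_mul' := fun _ _ => rfl

theorem lin_apply (g : Aff r) : lin r g = g.a := rfl

theorem pow_of_a {g : Aff r} (hg : g.a = 1) (n : ℕ) :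
    (g ^ n).a = 1 ∧ (g ^ n).x = (n : ZMod r) • g.x := by
  induction n with
  | zero => exact ⟨rfl, by rw [pow_zero, one_x, Nat.cast_zero, zero_smul]⟩
  | succ n ih =>
    rw [pow_succ]
    refine ⟨by rw [mul_a, ih.1, hg, one_mul], ?_⟩
    rw [mul_x, ih.1, ih.2, Units.val_one, one_smul, Nat.cast_succ, add_smul, one_smul]

theorem comm_x {s w : Aff r} (hw : w.a = 1) :
    (s * w * s⁻¹ * w⁻¹).a = 1 ∧ (s * w * s⁻¹ * w⁻¹).x = ((s.a : ZMod r) - 1) • w.x := by
  constructor
  · simp only [mul_a, inv_a, hw, mul_one, inv_one, mul_inv_cancel]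
  · simp only [mul_x, mul_a, inv_a, inv_x, hw, Units.val_one, one_smul, mul_one, inv_one,
      smul_neg]
    rw [mul_inv_cancel, Units.val_one, one_smul, sub_smul, one_smul, smul_smul]
    have h1 : (s.a : ZMod r) * ((s.a)⁻¹ : (ZMod r)ˣ) = 1 := Units.mul_inv _
    rw [h1, one_smul]
    abel

instance [NeZero r] : Finite (Aff r) := by
  have h : Function.Injective fun g : Aff r => (g.a, g.x) := by
    intro g h hgh
    exact Aff.ext (congrArg Prod.fst hgh) (congrArg Prod.snd hgh)
  exact Finite.of_injective _ h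

/-- the quadratic form -/
def Q (x : Fin 4 → ZMod r) : ZMod r := x 0 * x 3 - x 1 * x 2

theorem Q_smul (c : ZMod r) (x : Fin 4 → ZMod r) : Q (c • x) = c ^ 2 * Q x := by
  simp only [Q, Pi.smul_apply, smul_eq_mul]
  ring

/-- the good elements -/
def Good (g : Aff r) : Prop := g.a = 1 ∧ Q g.x ≠ 0

end Aff

open Aff

section indep

variable {ι : Type} [Fintype ι] (r : ι → ℕ) [hr : ∀ i, Fact (r i).Prime]
  (hinj : Function.Injective r) (h3 : ∀ i, 3 ≤ r i) {G : Type} [Group G] (Φ : ∀ i, G →* Aff (r i))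
  (hχ : ∀ t : (i : ι) → (ZMod (r i))ˣ, ∃ g : G, ∀ i, (Φ i g).a = t i)

include hinj in
theorem exists_idem (i : ι) : ∃ e : ℕ, (e : ZMod (r i)) = 1 ∧ ∀ j, j ≠ i → (e : ZMod (r j)) = 0 := by
  classical
  refine ⟨(∏ j ∈ Finset.univ.erase i, r j) ^ (r i - 1), ?_, ?_⟩
  · push_cast
    apply ZMod.pow_card_sub_one_eq_one
    rw [Finset.prod_ne_zero_iff]
    intro j hj h
    rw [ZMod.natCast_eq_zero_iff] at h
    have h1 := (Nat.prime_dvd_prime_iff_eq (hr i).out (hr j).out).1 h
    exact (Finset.mem_erase.1 hj).1 (hinj h1.symm)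
  · intro j hj
    push_cast
    have h1 : (∏ x ∈ Finset.univ.erase i, (r x : ZMod (r j))) = 0 := by
      apply Finset.prod_eq_zero (Finset.mem_erase.2 ⟨hj, Finset.mem_univ j⟩)
      exact ZMod.natCast_self (r j)
    rw [h1]
    apply zero_pow
    have := (hr i).out.two_le
    omega

include hinj h3 hχ in
theorem indep (g : ι → G) : ∃ g' : G, ∀ i, Φ i g' = Φ i (g i) := by
  classical
  obtain ⟨g0, hg0⟩ := hχ fun i => (Φ i (g i)).a
  -- the elements `w i`
  set w : ι → G := fun i => g0⁻¹ * g i with hw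
  have hwa : ∀ i, (Φ i (w i)).a = 1 := by
    intro i
    rw [hw]
    simp only [map_mul, map_inv, mul_a, inv_a, hg0, inv_mul_cancel]
  have h2 : ∀ i, ∃ u : (ZMod (r i))ˣ, (u : ZMod (r i)) = 2 := by
    intro i
    have h4 : (2 : ZMod (r i)) ≠ 0 := by
      intro h
      have h5 : ((2 : ℕ) : ZMod (r i)) = 0 := by exact_mod_cast h
      rw [ZMod.natCast_eq_zero_iff] at h5
      have := Nat.le_of_dvd (by norm_num) h5
      have := h3 i
      omega
    exact ⟨Units.mk0 2 h4, rfl⟩
  choose u hu using h2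
  have hs : ∀ i, ∃ s : G, (Φ i s).a = u i := by
    intro i
    obtain ⟨s, hs⟩ := hχ u
    exact ⟨s, hs i⟩
  choose s hs using hs
  have hn : ∀ i, ∃ n : G, (∀ j, (Φ j n).a = 1) ∧ Φ i n = Φ i (w i) := by
    intro i
    refine ⟨s i * w i * (s i)⁻¹ * (w i)⁻¹, ?_, ?_⟩
    · intro j
      simp only [map_mul, map_inv, mul_a, inv_a]
      rw [mul_comm (Φ j (s i)).a, mul_inv_cancel_right, mul_inv_cancel]
    · simp only [map_mul, map_inv]
      obtain ⟨h4, h5⟩ := comm_x (s := Φ i (s i)) (hwa i)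
      apply Aff.ext
      · rw [h4, hwa]
      · rw [h5, hs, hu]
        norm_num
  choose n hna hni using hn
  have key : ∀ R : Finset ι, ∃ m : G, (∀ j, (Φ j m).a = 1) ∧
      (∀ j ∈ R, (Φ j m).x = (Φ j (w j)).x) ∧ (∀ j ∉ R, (Φ j m).x = 0) := by
    intro R
    induction R using Finset.induction_on with
    | empty => exact ⟨1, fun j => by rw [map_one, one_a], by simp, fun j _ => by rw [map_one, one_x]⟩
    | insert i R hi ih =>
      obtain ⟨m, hm1, hm2, hm3⟩ := ih
      obtain ⟨e, he1, he2⟩ := exists_idem r hinj i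
      have hx : ∀ j, (Φ j (m * n i ^ e)).x = (Φ j m).x + (e : ZMod (r j)) • (Φ j (n i)).x := by
        intro j
        rw [map_mul, map_pow, mul_x, hm1, (pow_of_a (hna i j) e).2, Units.val_one, one_smul]
      refine ⟨m * n i ^ e, ?_, ?_, ?_⟩
      · intro j
        rw [map_mul, map_pow, mul_a, hm1, (pow_of_a (hna i j) e).1, one_mul]
      · intro j hj
        rw [hx]
        by_cases hji : j = i
        · subst hji
          rw [hm3 j hi, he1, one_smul, zero_add, hni]
        · rw [he2 j hji, zero_smul, add_zero]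
          exact hm2 j ((Finset.mem_insert.1 hj).resolve_left hji)
      · intro j hj
        rw [Finset.mem_insert, not_or] at hj
        rw [hx, he2 j hj.1, zero_smul, add_zero]
        exact hm3 j hj.2
  obtain ⟨m, hm1, hm2, -⟩ := key Finset.univ
  refine ⟨g0 * m, fun i => ?_⟩
  have h4 : Φ i m = Φ i (w i) := Aff.ext (by rw [hm1, hwa]) (hm2 i (Finset.mem_univ i))
  rw [map_mul, h4, ← map_mul, hw]
  simp only [mul_inv_cancel_left]

end indep

end Pool.Agent.H500.Kum
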