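import Pool.Agent.H500.KumI

set_option autoImplicit false
set_option linter.unusedSectionVars false

/-!
# The density of the primes modulo which given rational primes have given power residue symbols
-/

namespace Pool.Agent.H500.KumI

open NumberField IsDedekindDomain Pool.Agent.W569.FM Pool.Agent.H500.Kum Filter Topology
open Pool.Agent.W401.Cheb (GK IsFrob dens)

section

variable {E : Type} [Field E] [NumberField E] {r : ℕ} [hr : Fact r.Prime] {ι : Type} [Fintype ι]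

/-- the analysis at one prime -/
theorem at_frob (D : KJ ι E r) {v : HeightOneSpectrum (𝓞 E)}
    {σ : GF E} (hσ : IsFrob v σ) (hrv : (r : 𝓞 E) ∉ v.asIdeal) (hc : ∀ i, D.c i ∉ v.asIdeal)
    {m : ℕ} (hm : r * m + 1 = Ideal.absNorm v.asIdeal) :
    D.chi σ = 1 ∧ ∀ i, ∀ (w : 𝓞 E) (s : ZMod r), algebraMap (𝓞 E) (OO E) w = D.z ^ s.val →
      D.c i ^ m - w ∈ v.asIdeal → D.kap σ i = s := by
  obtain ⟨P, hPm, hPv, hP⟩ := hσ
  have hPp := hPm.isPrime
  have hmem : ∀ x : 𝓞 E, algebraMap (𝓞 E) (OO E) x ∈ P ↔ x ∈ v.asIdeal := by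
    intro x
    rw [← hPv, Ideal.mem_comap]
  have hrP : (r : OO E) ∉ P := by
    rw [← map_natCast (algebraMap (𝓞 E) (OO E)), hmem]
    exact hrv
  have hroot : ∀ s t : ZMod r, D.z ^ s.val - D.z ^ t.val ∈ P → s = t := by
    intro s t hst
    have e : D.z ^ s.val = D.z ^ t.val := by
      refine Pool.Agent.Y115.Chi.root_eq (P := P) (l := r) hrP ?_ ?_ hst hr.out.ne_zero
      · rw [← pow_mul, mul_comm, pow_mul, D.z_pow, one_pow]
      · rw [← pow_mul, mul_comm, pow_mul, D.z_pow, one_pow]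
    have e1 : D.z ^ s.val * 1 = D.z ^ t.val * 1 := by rw [e]
    exact pow_unique D.hz one_ne_zero e1
  constructor
  · apply D.chi_unique
    have e := hP D.z
    rw [D.smul_z, ← hm, pow_succ, pow_mul, D.z_pow, one_pow, one_mul] at e
    have e2 : D.z ^ (D.chi σ).val - D.z ^ (1 : ZMod r).val ∈ P := by
      rw [ZMod.val_one, pow_one]
      exact e
    rw [D.smul_z, hroot _ _ e2]
  · intro i w s hw hi
    have e := hP (D.y i)
    have hyP : D.y i ∉ P := by
      intro h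
      apply hc i
      rw [← hmem, ← D.hy]
      exact Ideal.pow_mem_of_mem P h r hr.out.pos
    rw [D.smul_y] at e
    have e1 : D.z ^ (D.kap σ i).val * D.y i - D.y i ^ Ideal.absNorm v.asIdeal =
        D.y i * (D.z ^ (D.kap σ i).val - algebraMap (𝓞 E) (OO E) (D.c i) ^ m) := by
      rw [← D.hy, ← pow_mul, ← hm]
      ring
    rw [e1] at e
    have e2 := (hPp.mem_or_mem e).resolve_left hyP
    have e3 : algebraMap (𝓞 E) (OO E) (D.c i) ^ m - D.z ^ s.val ∈ P := by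
      rw [← hw, ← map_pow, ← map_sub, hmem]
      exact hi
    apply hroot
    have e4 := P.add_mem e2 e3
    rwa [sub_add_sub_cancel] at e4

/-- rational primes unramified in `E` are independent modulo `r`-th powers -/
theorem indep {T : Finset ℕ} (hT : ∀ p ∈ T, p.Prime)
    (hur : ∀ p ∈ T, ∀ v : HeightOneSpectrum (𝓞 E), (p : 𝓞 E) ∈ v.asIdeal →
      (p : 𝓞 E) ∉ v.asIdeal ^ 2) (x : T → ZMod r)
    (h : ∃ ε : 𝓞 E, ε ^ r = ∏ i : T, ((i : ℕ) : 𝓞 E) ^ (x i).val) : x = 0 := by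
  classical
  obtain ⟨ε, hε⟩ := h
  funext i
  have hp := hT i.1 i.2
  -- a prime above
  obtain ⟨v, hv⟩ : ∃ v : HeightOneSpectrum (𝓞 E), (((i : ℕ)) : 𝓞 E) ∈ v.asIdeal := by
    have hne : Ideal.span {((i : ℕ) : 𝓞 E)} ≠ ⊤ := by
      intro h1
      rw [Ideal.span_singleton_eq_top] at h1
      have h2 := h1.map (Algebra.norm ℤ)
      have h3 := Algebra.norm_algebraMap (R := ℤ) (S := 𝓞 E) ((i : ℕ) : ℤ)
      rw [RingOfIntegers.rank E] at h3
      have h4 : Algebra.norm ℤ (((i : ℕ)) : 𝓞 E) = ((i : ℕ) : ℤ) ^ Module.finrank ℚ E := by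
        simpa using h3
      rw [h4, isUnit_pow_iff (Module.finrank_pos.ne'), Int.isUnit_iff_natAbs_eq,
        Int.natAbs_natCast] at h2
      exact hp.one_lt.ne' h2
    obtain ⟨M, hM, hle⟩ := Ideal.exists_le_maximal _ hne
    have hmem : (((i : ℕ)) : 𝓞 E) ∈ M := hle (Ideal.mem_span_singleton_self _)
    refine ⟨⟨M, hM.isPrime, ?_⟩, hmem⟩
    rintro rfl
    rw [Ideal.mem_bot] at hmem
    exact Nat.cast_ne_zero.2 hp.ne_zero hmem
  set V := v.intValuation with hV
  have hform : ∀ x : 𝓞 E, x ≠ 0 → ∃ n : ℕ, V x = WithZero.exp (-(n : ℤ)) := fun x hx =>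
    ⟨_, v.intValuation_if_neg hx⟩
  have hne : ∀ j : T, ((j : ℕ) : 𝓞 E) ≠ 0 := fun j => Nat.cast_ne_zero.2 (hT j.1 j.2).ne_zero
  have hVi : V ((i : ℕ) : 𝓞 E) = WithZero.exp (-((1 : ℕ) : ℤ)) := by
    obtain ⟨n, hn⟩ := hform _ (hne i)
    have h1 := (v.intValuation_le_pow_iff_mem ((i : ℕ) : 𝓞 E) 1).2 (by rwa [pow_one])
    have h2 := (v.intValuation_le_pow_iff_mem ((i : ℕ) : 𝓞 E) 2).not.2 (hur i.1 i.2 v hv)
    rw [← hV, hn, WithZero.exp_le_exp] at h1 h2
    rw [hn]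
    congr 1
    omega
  have hVj : ∀ j : T, j ≠ i → V ((j : ℕ) : 𝓞 E) = 1 := by
    intro j hj
    rw [hV, HeightOneSpectrum.intValuation_eq_one_iff]
    intro h1
    have hcop : IsCoprime ((j : ℕ) : ℤ) ((i : ℕ) : ℤ) := by
      rw [Nat.isCoprime_iff_coprime, Nat.coprime_primes (hT j.1 j.2) hp]
      intro h2
      exact hj (Subtype.ext h2)
    obtain ⟨a, b, hab⟩ := hcop
    apply v.isPrime.ne_top
    rw [Ideal.eq_top_iff_one]
    have h2 : (1 : 𝓞 E) = (a : 𝓞 E) * ((j : ℕ) : 𝓞 E) + (b : 𝓞 E) * ((i : ℕ) : 𝓞 E) := by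
      have := congrArg (fun n : ℤ => (n : 𝓞 E)) hab
      push_cast at this
      exact this.symm
    rw [h2]
    exact v.asIdeal.add_mem (Ideal.mul_mem_left _ _ h1) (Ideal.mul_mem_left _ _ hv)
  have hε0 : ε ≠ 0 := by
    rintro rfl
    rw [zero_pow hr.out.ne_zero] at hε
    have h1 := hε.symm
    rw [Finset.prod_eq_zero_iff] at h1
    obtain ⟨j, -, hj⟩ := h1
    exact hne j (pow_eq_zero_iff (by
      intro h0
      rw [h0, pow_zero] at hj
      exact one_ne_zero hj) |>.1 hj)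
  obtain ⟨n, hn⟩ := hform ε hε0
  have h1 := congrArg V hε
  rw [map_pow, map_prod, hn, Finset.prod_eq_single i (fun j _ hj => by
    rw [map_pow, hVj j hj, one_pow]) (fun h => absurd (Finset.mem_univ i) h), map_pow, hVi,
    ← WithZero.exp_nsmul, ← WithZero.exp_nsmul, WithZero.exp_inj] at h1
  simp only [smul_neg, neg_inj, nsmul_eq_mul, Nat.cast_one, mul_one] at h1
  have h2 : r * n = (x i).val := by exact_mod_cast h1
  have h3 : (x i).val < r := ZMod.val_lt _
  have h4 : (x i).val = 0 := by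
    rcases Nat.eq_zero_or_pos n with h0 | h0
    · rw [← h2, h0, mul_zero]
    · have : r * 1 ≤ r * n := Nat.mul_le_mul_left r h0
      omega
  rw [Pi.zero_apply]
  exact (ZMod.val_eq_zero _).1 h4

/-- **The density of the primes with given power residue symbols is at most `r ^ (-|T|)`.** -/
theorem pattern (T : Finset ℕ) (hT : ∀ p ∈ T, p.Prime)
    (hur : ∀ p ∈ T, ∀ v : HeightOneSpectrum (𝓞 E), (p : 𝓞 E) ∈ v.asIdeal →
      (p : 𝓞 E) ∉ v.asIdeal ^ 2) (s : ℕ → ZMod r) (hs : r = 2 ∨ s = 0) (w : ℕ → 𝓞 E)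
    (hw : ∀ z : OO E, IsPrimitiveRoot z r → ∀ i, algebraMap (𝓞 E) (OO E) (w i) = z ^ (s i).val)
    (P : HeightOneSpectrum (𝓞 E) → Prop)
    (hP : ∀ v, P v → ∃ m, r * m + 1 = Ideal.absNorm v.asIdeal ∧
      ∀ p ∈ T, (p : 𝓞 E) ^ m - w p ∈ v.asIdeal) {ε : ℝ} (hε : 0 < ε) :
    ∀ᶠ N in atTop, dens P N < 1 / (r : ℝ) ^ T.card + ε := by
  classical
  obtain ⟨D, hD⟩ := exists_KJ (r := r) (fun i : T => ((i : ℕ) : 𝓞 E))
    (fun i => Nat.cast_ne_zero.2 (hT i.1 i.2).ne_zero)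
  set C : Set (GF E) := {g | D.chi g = 1 ∧ ∀ i : T, D.kap g i = s i} with hC
  have hr2 : ∀ g, r = 2 → D.chi g = 1 := by
    intro g h2
    have h1 : D.chi g ≠ 0 := by
      intro h
      have h3 := D.chi_mul g g⁻¹
      rw [mul_inv_cancel, D.chi_one, h, zero_mul] at h3
      exact one_ne_zero h3
    have h5 : ∀ c : ZMod r, c ≠ 0 → c = 1 := by
      intro c hc
      apply ZMod.val_injective r
      have e1 := ZMod.val_lt c
      have e2 : c.val ≠ 0 := fun h => hc ((ZMod.val_eq_zero _).1 h)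
      rw [ZMod.val_one]
      omega
    exact h5 _ h1
  have hlim := Pool.Agent.W528.Ord.chebK E D.Phi.ker D.isOpen_ker C (by
    rintro σ ⟨h1, h2⟩ τ
    have e0 : D.chi (τ * σ * τ⁻¹) = 1 := by
      rw [D.chi_mul, D.chi_mul, h1, mul_one, ← D.chi_mul, mul_inv_cancel, D.chi_one]
    refine ⟨e0, fun i => ?_⟩
    have e1 : D.kap (τ * σ * τ⁻¹) i + D.chi (τ * σ * τ⁻¹) * D.kap τ i = D.kap (τ * σ) i := by
      rw [← D.kap_mul]
      congr 1
      group
    rw [e0, one_mul, D.kap_mul τ σ, h2 i] at e1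
    have e2 : D.kap (τ * σ * τ⁻¹) i = D.chi τ * s i := by linear_combination e1
    rw [e2]
    rcases hs with h | h
    · rw [hr2 τ h, one_mul]
    · rw [h, Pi.zero_apply, mul_zero]) (by
    rintro σ ⟨h1, h2⟩ u hu
    have hu' : D.Phi u = 1 := hu
    have e1 : D.chi u = 1 := congrArg (fun g => (AffI.a g : ZMod r)) hu'
    have e2 : ∀ i, D.kap u i = 0 := fun i => congrFun (congrArg AffI.x hu') i
    refine ⟨by rw [D.chi_mul, h1, e1, mul_one], fun i => ?_⟩
    rw [D.kap_mul, e2, mul_zero, add_zero, h2])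
  have hcard : ((QuotientGroup.mk : GK E → GK E ⧸ D.Phi.ker) '' C).ncard ≤ 1 := by
    rw [Set.ncard_le_one_iff_eq]
    by_cases hne : C.Nonempty
    · obtain ⟨g, hg⟩ := hne
      right
      refine ⟨QuotientGroup.mk g, ?_⟩
      ext x
      constructor
      · rintro ⟨h, hh, rfl⟩
        show (QuotientGroup.mk h : GK E ⧸ D.Phi.ker) = QuotientGroup.mk g
        rw [QuotientGroup.eq, MonoidHom.mem_ker, map_mul, map_inv, inv_mul_eq_one]
        apply AffI.ext
        · apply Units.ext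
          show D.chi h = D.chi g
          rw [hh.1, hg.1]
        · funext i
          show D.kap h i = D.kap g i
          rw [hh.2, hg.2]
      · rintro rfl
        exact ⟨g, hg, rfl⟩
    · left
      rw [Set.not_nonempty_iff_eq_empty] at hne
      rw [hne, Set.image_empty]
  have hge := card_ge D (fun x hx => indep hT hur x (by rwa [hD] at hx))
  rw [Fintype.card_coe] at hge
  have hle : (((QuotientGroup.mk : GK E → GK E ⧸ D.Phi.ker) '' C).ncard : ℝ) /
      (Nat.card (GK E ⧸ D.Phi.ker) : ℝ) ≤ 1 / (r : ℝ) ^ T.card := by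
    apply div_le_div₀ zero_le_one
    · exact_mod_cast hcard
    · exact pow_pos (Nat.cast_pos.2 hr.out.pos) _
    · exact_mod_cast hge
  -- the exceptional primes
  set X : HeightOneSpectrum (𝓞 E) → Prop := fun v => (r : 𝓞 E) ∈ v.asIdeal ∨
    ∃ i, D.c i ∈ v.asIdeal with hX
  have hXfin : {v | X v}.Finite := by
    have h1 : {v | X v} = {v : HeightOneSpectrum (𝓞 E) | (r : 𝓞 E) ∈ v.asIdeal} ∪
        ⋃ i, {v : HeightOneSpectrum (𝓞 E) | D.c i ∈ v.asIdeal} := by
      ext v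
      simp only [hX, Set.mem_union, Set.mem_iUnion, Set.mem_ofPred_eq]
    rw [h1]
    exact (fin_mem (Nat.cast_ne_zero.2 hr.out.ne_zero)).union
      (Set.finite_iUnion fun i => fin_mem (D.hc i))
  have hXd := dens_fin X hXfin
  have hsub : ∀ v, P v → (∃ σ ∈ C, IsFrob v σ) ∨ X v := by
    intro v hv
    by_cases hXv : X v
    · exact Or.inr hXv
    · left
      rw [hX] at hXv
      push Not at hXv
      obtain ⟨hX1, hX2⟩ := hXv
      obtain ⟨σ, hσ⟩ := Pool.Agent.W401.Frob.exists_frob v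
      obtain ⟨m, hm, hm'⟩ := hP v hv
      obtain ⟨h1, h2⟩ := at_frob D hσ hX1 hX2 hm
      refine ⟨σ, ⟨h1, fun i => h2 i (w i) (s i) (hw _ D.hz i) ?_⟩, hσ⟩
      rw [hD]
      exact hm' i.1 i.2
  have hsum := hlim.add hXd
  rw [add_zero] at hsum
  have hlt : (((QuotientGroup.mk : GK E → GK E ⧸ D.Phi.ker) '' C).ncard : ℝ) /
      (Nat.card (GK E ⧸ D.Phi.ker) : ℝ) < 1 / (r : ℝ) ^ T.card + ε := by linarith
  filter_upwards [hsum.eventually (gt_mem_nhds hlt)] with N hN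
  calc dens P N ≤ dens (fun v => (∃ σ ∈ C, IsFrob v σ) ∨ X v) N :=
        Pool.Agent.W528.Ord.dens_mono hsub N
    _ ≤ _ := Pool.Agent.W528.Ord.dens_or _ _ N
    _ < _ := hN

end

end Pool.Agent.H500.KumI
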