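import Pool.Agent.H500.Lin2

set_option autoImplicit false
set_option linter.unusedSectionVars false

/-!
# Lines over extension fields
-/

namespace Pool.Agent.H500.LI

open Matrix Pool.Agent.H500.Lin2

section

variable {k k' : Type} [Field k] [Field k'] (ι : k →+* k')

theorem parallel {x y : k'} (hxy : x ≠ 0 ∨ y ≠ 0) {v w : Fin 2 → k'} (hv : v ≠ 0)
    (h1 : x * v 0 + y * v 1 = 0) (h2 : x * w 0 + y * w 1 = 0) : ∃ c : k', w = c • v := by
  have hcr : v 0 * w 1 - v 1 * w 0 = 0 := by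
    rcases hxy with h | h
    · apply mul_left_cancel₀ h
      linear_combination w 1 * h1 - v 1 * h2
    · apply mul_left_cancel₀ h
      linear_combination -w 0 * h1 + v 0 * h2
  by_cases h0 : v 0 = 0
  · have h3 : v 1 ≠ 0 := by
      intro h4
      apply hv
      funext i
      fin_cases i
      · exact h0
      · exact h4
    refine ⟨w 1 / v 1, ?_⟩
    funext i
    fin_cases i
    · show w 0 = w 1 / v 1 * v 0
      rw [h0, mul_zero]
      rw [h0, zero_mul, zero_sub, neg_eq_zero] at hcr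
      exact (mul_eq_zero.1 hcr).resolve_left h3
    · show w 1 = w 1 / v 1 * v 1
      rw [div_mul_cancel₀ _ h3]
  · refine ⟨w 0 / v 0, ?_⟩
    funext i
    fin_cases i
    · show w 0 = w 0 / v 0 * v 0
      rw [div_mul_cancel₀ _ h0]
    · show w 1 = w 0 / v 0 * v 1
      rw [div_mul_eq_mul_div, eq_div_iff h0]
      linear_combination hcr

/-- the kernel of a nonzero matrix has dimension at most one -/
theorem ker_line {n : Matrix (Fin 2) (Fin 2) k'} (hn : n ≠ 0) {v w : Fin 2 → k'} (hv : v ≠ 0)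
    (h1 : n *ᵥ v = 0) (h2 : n *ᵥ w = 0) : ∃ c : k', w = c • v := by
  have hrow : ∀ i, n i 0 * v 0 + n i 1 * v 1 = 0 ∧ n i 0 * w 0 + n i 1 * w 1 = 0 := by
    intro i
    have e1 := congrFun h1 i
    have e2 := congrFun h2 i
    rw [Matrix.mulVec, dotProduct, Fin.sum_univ_two] at e1 e2
    exact ⟨e1, e2⟩
  by_cases h0 : n 0 0 ≠ 0 ∨ n 0 1 ≠ 0
  · exact parallel h0 hv (hrow 0).1 (hrow 0).2
  · by_cases h3 : n 1 0 ≠ 0 ∨ n 1 1 ≠ 0
    · exact parallel h3 hv (hrow 1).1 (hrow 1).2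
    · exfalso
      push Not at h0 h3
      apply hn
      ext i j
      fin_cases i <;> fin_cases j
      · exact h0.1
      · exact h0.2
      · exact h3.1
      · exact h3.2

theorem map_mulVec (M : Matrix (Fin 2) (Fin 2) k) (v : Fin 2 → k) :
    (M.map ι) *ᵥ (fun i => ι (v i)) = fun i => ι ((M *ᵥ v) i) := by
  funext i
  simp only [Matrix.mulVec, dotProduct, Fin.sum_univ_two, Matrix.map_apply, map_add, map_mul]

theorem map_ne {v : Fin 2 → k} (hv : v ≠ 0) : (fun i => ι (v i)) ≠ 0 := by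
  intro h
  apply hv
  funext i
  have h1 := congrFun h i
  exact (map_eq_zero ι).1 h1

/-- a line killed by a matrix over `k` is defined over `k` -/
theorem descend_line {n : Matrix (Fin 2) (Fin 2) k} (hn : n ≠ 0) {v : Fin 2 → k'} (hv : v ≠ 0)
    (h1 : (n.map ι) *ᵥ v = 0) : ∃ v0 : Fin 2 → k, v0 ≠ 0 ∧ n *ᵥ v0 = 0 ∧ ∃ c : k', c ≠ 0 ∧
      (fun i => ι (v0 i)) = c • v := by
  have hdet : n.det = 0 := by
    have h2 := Matrix.exists_mulVec_eq_zero_iff.1 ⟨v, hv, h1⟩
    have h3 : ι n.det = (n.map ι).det := by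
      rw [RingHom.map_det]
      rfl
    rw [h2] at h3
    exact (map_eq_zero ι).1 h3
  obtain ⟨v0, hv0, h4⟩ := Matrix.exists_mulVec_eq_zero_iff.2 hdet
  have hn' : n.map ι ≠ 0 := by
    intro h
    apply hn
    ext i j
    have h5 := congrFun (congrFun h i) j
    exact (map_eq_zero ι).1 h5
  obtain ⟨c, hc⟩ := ker_line hn' hv h1 (w := fun i => ι (v0 i)) (by
    rw [map_mulVec, h4]
    funext i
    simp)
  refine ⟨v0, hv0, h4, c, ?_, hc⟩
  rintro rfl
  rw [zero_smul] at hc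
  exact map_ne ι hv0 hc

/-- eigenvalues on a line defined over `k` -/
theorem descend_eig {M : Matrix (Fin 2) (Fin 2) k} {v0 : Fin 2 → k} (hv0 : v0 ≠ 0) {t : k'}
    (h : (M.map ι) *ᵥ (fun i => ι (v0 i)) = t • fun i => ι (v0 i)) :
    ∃ t0 : k, t = ι t0 ∧ M *ᵥ v0 = t0 • v0 := by
  obtain ⟨i, hi⟩ : ∃ i, v0 i ≠ 0 := by
    by_contra hcon
    push Not at hcon
    exact hv0 (funext hcon)
  rw [map_mulVec] at h
  have h1 := congrFun h i
  simp only [Pi.smul_apply, smul_eq_mul] at h1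
  have hi' : ι (v0 i) ≠ 0 := (map_ne_zero ι).2 hi
  have ht : t = ι ((M *ᵥ v0) i / v0 i) := by
    rw [map_div₀, eq_div_iff hi', h1]
  refine ⟨_, ht, ?_⟩
  funext j
  have h2 := congrFun h j
  simp only [Pi.smul_apply, smul_eq_mul] at h2
  apply ι.injective
  rw [h2, Pi.smul_apply, smul_eq_mul, map_mul, ← ht]

/-- the sum of eigenvalue data -/
theorem eig_root {M : Matrix (Fin 2) (Fin 2) k} {v : Fin 2 → k} (hv : v ≠ 0) {c : k}
    (h : M *ᵥ v = c • v) : c * c - M.trace * c + M.det = 0 := by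
  have h1 := congrArg (fun M => M *ᵥ v) (ch M)
  beta_reduce at h1
  rw [← Matrix.mulVec_mulVec, h, Matrix.mulVec_smul, h, Matrix.sub_mulVec, Matrix.smul_mulVec,
    Matrix.smul_mulVec, Matrix.one_mulVec, h] at h1
  have h2 : (c * c - M.trace * c + M.det) • v = 0 := by
    have h3 : (c * c - M.trace * c + M.det) • v = c • c • v - (M.trace • c • v - M.det • v) := by
      module
    rw [h3, h1, sub_self]
  exact (smul_eq_zero.1 h2).resolve_right hv

/-- **From an element of order `l` and irreducibility to large image.** -/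
theorem large_of {G : Type} [Group G] (ρ : G →* GL (Fin 2) k) {l : ℕ} (hl : l.Prime) [CharP k l]
    [Finite ρ.range] (hirr : ¬ ∃ v : Fin 2 → k, v ≠ 0 ∧ ∀ g, ∃ c : k,
      (ρ g : Matrix (Fin 2) (Fin 2) k) *ᵥ v = c • v) (hcard : l ∣ Nat.card ρ.range)
    (N : Subgroup G) (hN : N.Normal) (hNi : ¬ l ∣ N.index) {v : Fin 2 → k'} (hv : v ≠ 0)
    (hst : ∀ g ∈ N, ∃ c : k', ((ρ g : Matrix (Fin 2) (Fin 2) k).map ι) *ᵥ v = c • v) : False := by
  classical
  have hlf : Fact l.Prime := ⟨hl⟩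
  have hck' : CharP k' l := (RingHom.charP_iff ι ι.injective l).1 inferInstance
  obtain ⟨⟨_, g, rfl⟩, hx⟩ := exists_prime_orderOf_dvd_card' l hcard
  set m := N.index with hm
  have hgm : g ^ m ∈ N := N.pow_index_mem g
  have hord : orderOf (ρ g) = l := by
    rw [← hx]
    exact (Subgroup.orderOf_coe (⟨ρ g, g, rfl⟩ : ρ.range))
  have hu1 : ρ (g ^ m) ≠ 1 := by
    intro h
    rw [map_pow] at h
    exact hNi (hord ▸ orderOf_dvd_of_pow_eq_one h)
  have hul : ρ (g ^ m) ^ l = 1 := by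
    rw [map_pow, ← pow_mul, mul_comm, pow_mul, ← hord, pow_orderOf_eq_one, one_pow]
  set u : Matrix (Fin 2) (Fin 2) k := (ρ (g ^ m) : Matrix (Fin 2) (Fin 2) k) with hu
  set n := u - 1 with hn
  have hn0 : n ≠ 0 := by
    intro h
    apply hu1
    apply Units.ext
    rw [hn, sub_eq_zero] at h
    exact h
  have hul' : u ^ l = 1 := by
    rw [hu, ← Units.val_pow_eq_pow_val, hul, Units.val_one]
  -- stable vectors are killed by `n`
  have hkill : ∀ w : Fin 2 → k', w ≠ 0 → (∀ g ∈ N, ∃ c : k',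
      ((ρ g : Matrix (Fin 2) (Fin 2) k).map ι) *ᵥ w = c • w) → (n.map ι) *ᵥ w = 0 := by
    intro w hw h
    obtain ⟨c, hc⟩ := h _ hgm
    have hpow : ∀ j : ℕ, ((u ^ j).map ι) *ᵥ w = c ^ j • w := by
      intro j
      induction j with
      | zero => simp [Matrix.map_one]
      | succ j ih =>
        rw [pow_succ', Matrix.map_mul, ← Matrix.mulVec_mulVec, ih, Matrix.mulVec_smul, hc,
          smul_smul, pow_succ]
    have h1 := hpow l
    rw [hul', Matrix.map_one _ (map_zero ι) (map_one ι), Matrix.one_mulVec] at h1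
    have h2 : c ^ l = 1 := by
      have h3 : (c ^ l - 1) • w = 0 := by rw [sub_smul, one_smul, ← h1, sub_self]
      exact sub_eq_zero.1 ((smul_eq_zero.1 h3).resolve_right hw)
    have h3 : c = 1 := by
      have h4 : (c - 1) ^ l = 0 := by
        rw [sub_pow_char, h2, one_pow, sub_self]
      exact sub_eq_zero.1 (pow_eq_zero_iff hl.ne_zero |>.1 h4)
    rw [h3, one_smul] at hc
    have h5 : n.map ι = u.map ι - 1 := by
      ext i j
      rw [hn, Matrix.map_apply, Matrix.sub_apply, Matrix.sub_apply, map_sub, Matrix.map_apply,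
        Matrix.one_apply, Matrix.one_apply]
      split_ifs <;> simp
    rw [h5, Matrix.sub_mulVec, Matrix.one_mulVec]
    rw [hu, hc, sub_self]
  have hnv := hkill v hv hst
  obtain ⟨v0, hv0, -, s, hs, hsv⟩ := descend_line ι hn0 hv hnv
  apply hirr
  refine ⟨v0, hv0, fun h => ?_⟩
  -- the translate of `v` is stable
  set w := ((ρ h : Matrix (Fin 2) (Fin 2) k).map ι) *ᵥ v with hw
  have hw0 : w ≠ 0 := by
    intro h0
    apply hv
    have h1 : ((((ρ h)⁻¹ : GL (Fin 2) k) : Matrix (Fin 2) (Fin 2) k).map ι) *ᵥ w = v := by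
      rw [hw, Matrix.mulVec_mulVec, ← Matrix.map_mul, ← Units.val_mul, inv_mul_cancel,
        Units.val_one, Matrix.map_one _ (map_zero ι) (map_one ι), Matrix.one_mulVec]
    rw [← h1, h0, Matrix.mulVec_zero]
  have hwst : ∀ g ∈ N, ∃ c : k', ((ρ g : Matrix (Fin 2) (Fin 2) k).map ι) *ᵥ w = c • w := by
    intro g hg
    obtain ⟨c, hc⟩ := hst (h⁻¹ * g * h) (by
      have := hN.conj_mem g hg h⁻¹
      rwa [inv_inv] at this)
    refine ⟨c, ?_⟩
    rw [hw, Matrix.mulVec_mulVec, ← Matrix.map_mul, ← Units.val_mul, ← map_mul]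
    have h1 : g * h = h * (h⁻¹ * g * h) := by group
    rw [h1, map_mul, Units.val_mul, Matrix.map_mul, ← Matrix.mulVec_mulVec, hc, Matrix.mulVec_smul]
  have hn0' : n.map ι ≠ 0 := by
    intro h
    apply hn0
    ext i j
    have h5 := congrFun (congrFun h i) j
    exact (map_eq_zero ι).1 h5
  obtain ⟨t, ht⟩ := ker_line hn0' hv hnv (hkill w hw0 hwst)
  obtain ⟨t0, -, ht0⟩ := descend_eig ι (M := (ρ h : Matrix (Fin 2) (Fin 2) k)) hv0 (t := t) (by
    rw [hsv, Matrix.mulVec_smul, ← hw, ht, smul_comm])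
  exact ⟨t0, ht0⟩

end

end Pool.Agent.H500.LI
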