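import Pool.Agent.H500.LIDef
import Pool.Agent.H500.LI1
import Pool.Agent.H500.Dih
import Pool.Agent.H500.Desc
import Pool.Agent.H500.Core

set_option autoImplicit false
set_option linter.unusedSectionVars false

/-!
# Large residual images: the main lemma
-/

namespace Pool.Agent.H500.LI

open NumberField IsDedekindDomain Pool.Agent.W569.FM Filter Topology Matrix
open Pool.Agent.H500.Kum Pool.Agent.H500.Tr Pool.Agent.H500.Lin2
open Pool.Agent.W401.Cheb (dens)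

/-- powers of the Frobenius values of a character -/
theorem char_pow {l : ℕ} [hl : Fact l.Prime] {k : Type} [Field k] [CharP k l] (S : Finset ℕ)
    (χ : GF ℚ →* kˣ) (hχ : IsOpen (χ.ker : Set (GF ℚ)))
    (hun : ∀ p : ℕ, p.Prime → p ∉ S → p ≠ l → ∀ P : Ideal (OO ℚ), P.IsMaximal → (p : OO ℚ) ∈ P →
      ∀ τ, InInertia P τ → χ τ = 1) {r : ℕ} (hr : r.Prime) (hrS : ∑ s ∈ S, s < r) (hrl : r ≠ l) :
    ∃ c a : ℕ, ¬ r ∣ c ∧ ∀ p : ℕ, p.Prime → p ≠ l → ∀ P : Ideal (OO ℚ), P.IsMaximal →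
      (p : OO ℚ) ∈ P → ∀ σ, FrobAt p P σ → (χ σ : k) ^ c = (p : k) ^ a := by
  obtain ⟨c, a, hc, h⟩ := rpart (l := l) hr hrl χ hχ (by
    intro q hq hql
    by_cases hqS : q ∈ S
    · right
      have h1 : q ≤ ∑ s ∈ S, s := Finset.single_le_sum (f := fun s : ℕ => s)
        (fun _ _ => Nat.zero_le _) hqS
      refine ⟨by omega, fun h2 => ?_⟩
      have h3 := Nat.le_of_dvd (by have := hq.two_le; omega) h2
      omega
    · left
      exact hun q hq hqS hql)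
  refine ⟨c, a, hc, ?_⟩
  intro p hp hpl P hP hpP σ hσ
  have hlP : (l : OO ℚ) ∉ P := fun h =>
    not_both hP.ne_top ((Nat.coprime_primes hp hl.out).2 hpl) hpP h
  have h1 := congrArg (fun x : kˣ => (x : k)) (h σ)
  simp only [Units.val_pow_eq_pow_val] at h1
  rw [h1]
  congr 1
  show (ZMod.castHom (dvd_refl l) k) (om l σ : ZMod l) = (p : k)
  rw [om_frob hlP hσ, map_natCast]

/-- lifting a reduction to an extension field -/
theorem exists_lift {E F : Type} [Field E] [NumberField E] [Field F] [NumberField F] [Algebra E F]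
    (ℓ : HeightOneSpectrum (𝓞 E)) {k kb : Type} [Field k] [Field kb] [IsAlgClosed kb]
    (φ : 𝓞 E →+* k) (hφ : RingHom.ker φ = ℓ.asIdeal) (ι : k →+* kb) :
    ∃ Φ : 𝓞 F →+* kb, ∀ x, Φ (algebraMap (𝓞 E) (𝓞 F) x) = ι (φ x) := by
  have hint : Algebra.IsIntegral (𝓞 E) (𝓞 F) := inferInstance
  have hmaxE := ℓ.isMaximal
  obtain ⟨Q, hQm, hQ⟩ := Ideal.exists_ideal_over_maximal_of_isIntegral (S := 𝓞 F) ℓ.asIdeal
    (by
      have hinj : Function.Injective (algebraMap (𝓞 E) (𝓞 F)) :=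
        FaithfulSMul.algebraMap_injective _ _
      rw [(RingHom.injective_iff_ker_eq_bot _).1 hinj]
      exact bot_le)
  let _ : Field (𝓞 F ⧸ Q) := Ideal.Quotient.field Q
  let _ : Field (𝓞 E ⧸ ℓ.asIdeal) := Ideal.Quotient.field ℓ.asIdeal
  have hQ0 : Q ≠ ⊥ := by
    rintro rfl
    apply ℓ.ne_bot
    rw [← hQ]
    have hinj : Function.Injective (algebraMap (𝓞 E) (𝓞 F)) :=
      FaithfulSMul.algebraMap_injective _ _
    exact Ideal.comap_bot_of_injective _ hinj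
  have hfin : Finite (𝓞 F ⧸ Q) := Ideal.finiteQuotientOfFreeOfNeBot _ hQ0
  let f : 𝓞 E ⧸ ℓ.asIdeal →+* 𝓞 F ⧸ Q := Ideal.quotientMap Q (algebraMap (𝓞 E) (𝓞 F)) hQ.ge
  let g : 𝓞 E ⧸ ℓ.asIdeal →+* kb := Ideal.Quotient.lift ℓ.asIdeal (ι.comp φ) (by
    intro x hx
    rw [← hφ, RingHom.mem_ker] at hx
    rw [RingHom.comp_apply, hx, map_zero])
  let _ : Algebra (𝓞 E ⧸ ℓ.asIdeal) (𝓞 F ⧸ Q) := f.toAlgebra
  let _ : Algebra (𝓞 E ⧸ ℓ.asIdeal) kb := g.toAlgebra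
  have hmf : Module.Finite (𝓞 E ⧸ ℓ.asIdeal) (𝓞 F ⧸ Q) := Module.Finite.of_finite
  have halg : Algebra.IsAlgebraic (𝓞 E ⧸ ℓ.asIdeal) (𝓞 F ⧸ Q) := Algebra.IsAlgebraic.of_finite _ _
  let L : 𝓞 F ⧸ Q →ₐ[𝓞 E ⧸ ℓ.asIdeal] kb := IsAlgClosed.lift
  refine ⟨L.toRingHom.comp (Ideal.Quotient.mk Q), fun x => ?_⟩
  have h1 : Ideal.Quotient.mk Q (algebraMap (𝓞 E) (𝓞 F) x) =
      algebraMap (𝓞 E ⧸ ℓ.asIdeal) (𝓞 F ⧸ Q) (Ideal.Quotient.mk ℓ.asIdeal x) := by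
    show _ = f (Ideal.Quotient.mk ℓ.asIdeal x)
    rw [Ideal.quotientMap_mk]
  show L (Ideal.Quotient.mk Q (algebraMap (𝓞 E) (𝓞 F) x)) = ι (φ x)
  rw [h1, AlgHom.commutes]
  rfl

/-- the character on a stable line -/
theorem line_char {G : Type} [Group G] {k : Type} [Field k] (ρ : G →* GL (Fin 2) k)
    {v : Fin 2 → k} (hv : v ≠ 0)
    (h : ∀ g, ∃ c : k, (ρ g : Matrix (Fin 2) (Fin 2) k) *ᵥ v = c • v) :
    ∃ χ : G →* kˣ, ∀ g, (ρ g : Matrix (Fin 2) (Fin 2) k) *ᵥ v = (χ g : k) • v := by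
  choose c hc using h
  have huniq : ∀ {x y : k}, x • v = y • v → x = y := by
    intro x y hxy
    have h1 : (x - y) • v = 0 := by rw [sub_smul, hxy, sub_self]
    exact sub_eq_zero.1 ((smul_eq_zero.1 h1).resolve_right hv)
  have hmul : ∀ g g', c (g * g') = c g * c g' := by
    intro g g'
    apply huniq
    rw [← hc, map_mul, Units.val_mul, ← Matrix.mulVec_mulVec, hc, Matrix.mulVec_smul, hc,
      smul_smul, mul_comm]
  have hone : c 1 = 1 := by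
    apply huniq
    rw [← hc, map_one, Units.val_one, Matrix.one_mulVec, one_smul]
  refine ⟨{ toFun := fun g => ⟨c g, c g⁻¹, by rw [← hmul, mul_inv_cancel, hone],
              by rw [← hmul, inv_mul_cancel, hone]⟩
            map_one' := Units.ext hone
            map_mul' := fun g g' => Units.ext (hmul g g') }, fun g => hc g⟩

theorem exists_dvdF {F : Type} [Field F] [NumberField F] {x : 𝓞 F} (hx : x ≠ 0) :
    ∃ D : ℕ, 0 < D ∧ x ∣ (D : 𝓞 F) := by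
  have : Algebra.IsAlgebraic ℤ (𝓞 F) := inferInstance
  obtain ⟨c, hc0, hc⟩ := (Algebra.IsAlgebraic.isAlgebraic (R := ℤ) x).exists_nonzero_dvd
    (mem_nonZeroDivisors_of_ne_zero hx)
  refine ⟨c.natAbs, Int.natAbs_pos.2 hc0, ?_⟩
  rcases Int.natAbs_eq c with h | h
  · have h1 : ((c.natAbs : ℕ) : 𝓞 F) = algebraMap ℤ (𝓞 F) c := by
      conv_rhs => rw [h]
      simp
    rw [h1]
    exact hc
  · have h1 : ((c.natAbs : ℕ) : 𝓞 F) = -algebraMap ℤ (𝓞 F) c := by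
      conv_rhs => rw [h]
      simp
    rw [h1]
    exact (dvd_neg).2 hc

/-- **The main lemma.** -/
theorem main {E F : Type} [Field E] [NumberField E] [Field F] [NumberField F] [Algebra E F]
    (S : Finset ℕ) (a d : ℕ → 𝓞 E) {p q : ℕ} (hp : p.Prime) (hq : q.Prime) (hpq : p ≠ q)
    (hpS : p ∉ S) (hqS : q ∉ S) (α β : Fin 2 → 𝓞 F)
    (hα1 : algebraMap (𝓞 E) (𝓞 F) (a p) = α 0 + α 1)
    (hα2 : algebraMap (𝓞 E) (𝓞 F) (d p) = α 0 * α 1)
    (hβ1 : algebraMap (𝓞 E) (𝓞 F) (a q) = β 0 + β 1)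
    (hβ2 : algebraMap (𝓞 E) (𝓞 F) (d q) = β 0 * β 1)
    (hrel : ∀ (i j : Fin 2) (N b : ℕ), 0 < N →
      ¬ (α i ^ N = (p : 𝓞 F) ^ b ∧ β j ^ N = (q : 𝓞 F) ^ b))
    (hcm : ∀ U : Subgroup (GF ℚ), IsOpen (U : Set (GF ℚ)) → U.index = 2 →
      (∀ p : ℕ, p.Prime → p ∉ S → ∀ P : Ideal (OO ℚ), P.IsMaximal → (p : OO ℚ) ∈ P →
        ∀ τ, InInertia P τ → τ ∈ U) →
      ∃ p : ℕ, p.Prime ∧ p ∉ S ∧ a p ≠ 0 ∧ ∃ P : Ideal (OO ℚ), P.IsMaximal ∧ (p : OO ℚ) ∈ P ∧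
        ∃ σ, FrobAt p P σ ∧ σ ∉ U)
    (Bad : HeightOneSpectrum (𝓞 E) → Prop)
    (hBad : ∀ ℓ, Bad ℓ → ∃ (k : Type) (_ : Field k) (φ : 𝓞 E →+* k) (ρ : GF ℚ →* GL (Fin 2) k),
      IsResidual S a d ℓ φ ρ ∧
      (((2 : ℕ) : 𝓞 E) ∉ ℓ.asIdeal → (p : 𝓞 E) ∉ ℓ.asIdeal → (q : 𝓞 E) ∉ ℓ.asIdeal →
        ∀ v : Fin 2 → AlgebraicClosure k, v ≠ 0 → (∀ g, ∃ c : AlgebraicClosure k,
          ((ρ g : Matrix (Fin 2) (Fin 2) k).map (algebraMap k (AlgebraicClosure k))) *ᵥ v = c • v) →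
        ∀ P : Ideal (OO ℚ), P.IsMaximal → ∀ σ, ((p : OO ℚ) ∈ P ∧ FrobAt p P σ) ∨
          ((q : OO ℚ) ∈ P ∧ FrobAt q P σ) → ∀ c : AlgebraicClosure k,
          ((ρ σ : Matrix (Fin 2) (Fin 2) k).map (algebraMap k (AlgebraicClosure k))) *ᵥ v = c • v →
          ∃ x : 𝓞 E, c = algebraMap k (AlgebraicClosure k) (φ x)) ∧
      ((∃ v : Fin 2 → k, v ≠ 0 ∧ ∀ g, ∃ c : k, (ρ g : Matrix (Fin 2) (Fin 2) k) *ᵥ v = c • v) ∨
        ¬ ringChar k ∣ Nat.card ρ.range)) :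
    Tendsto (dens Bad) atTop (𝓝 0) := by
  classical
  by_cases hinf : {p : ℕ | p.Prime ∧ p ∉ S ∧ a p ≠ 0}.Infinite
  swap
  · -- almost all traces vanish
    refine dens_fin _ ((fin_mem (E := E) (x := ((2 : ℕ) : 𝓞 E))
      (Nat.cast_ne_zero.2 two_ne_zero)).subset ?_)
    intro ℓ hℓ
    obtain ⟨k, _, φ, ρ, hρ, -, -⟩ := hBad ℓ hℓ
    obtain ⟨l, hl, hlc, hcast, -⟩ := Pool.Agent.H500.Core.res_char (K := E) ℓ φ hρ.ker
    rw [Set.not_infinite] at hinf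
    obtain ⟨B, hB⟩ := (hinf.union (S : Set ℕ).toFinite).bddAbove
    obtain ⟨p', hp', hBp, P, hP, hpP, σ, hσ, hfr⟩ := Pool.Agent.H500.Dih.cheb_inf ρ.ker
      hρ.continuous inferInstance (B + l)
    have hp'S : p' ∉ S := fun h => by
      have := hB (Or.inr h : p' ∈ _ ∪ (S : Set ℕ))
      omega
    have ha0 : a p' = 0 := by
      by_contra h
      have := hB (show p' ∈ {p : ℕ | p.Prime ∧ p ∉ S ∧ a p ≠ 0} ∪ (S : Set ℕ) from
        Or.inl ⟨hp', hp'S, h⟩)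
      omega
    have hp'ℓ : (p' : 𝓞 E) ∉ ℓ.asIdeal := by
      rw [hcast]
      intro h
      rcases (Nat.dvd_prime hp').1 h with h1 | h1
      · exact hl.ne_one h1
      · omega
    have h1 := hρ.trace p' hp' hp'S hp'ℓ P hP hpP σ hfr
    have h2 : ρ σ = 1 := hσ
    rw [h2, Units.val_one, Matrix.trace_one, ha0, map_zero, Fintype.card_fin] at h1
    show ((2 : ℕ) : 𝓞 E) ∈ ℓ.asIdeal
    rw [← hρ.ker, RingHom.mem_ker, map_natCast]
    exact h1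
  set r0 := ∑ s ∈ S, s with hr0
  -- the types of exceptional primes
  set X0 : HeightOneSpectrum (𝓞 E) → Prop := fun ℓ => (p : 𝓞 E) ∈ ℓ.asIdeal ∨
    (q : 𝓞 E) ∈ ℓ.asIdeal ∨ ((2 : ℕ) : 𝓞 E) ∈ ℓ.asIdeal with hX0
  set R : Fin 2 × Fin 2 → HeightOneSpectrum (𝓞 E) → Prop := fun ij ℓ =>
    ∃ (k' : Type) (_ : Field k') (φ' : 𝓞 F →+* k'),
      RingHom.ker (φ'.comp (algebraMap (𝓞 E) (𝓞 F))) = ℓ.asIdeal ∧
      φ' (α ij.1) ≠ 0 ∧ φ' (β ij.2) ≠ 0 ∧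
      (∃ x : 𝓞 E, φ' (α ij.1) = φ' (algebraMap (𝓞 E) (𝓞 F) x)) ∧
      (∃ x : 𝓞 E, φ' (β ij.2) = φ' (algebraMap (𝓞 E) (𝓞 F) x)) ∧
      ∀ r : ℕ, r.Prime → r0 < r → (r : k') ≠ 0 → ∃ u b : ℕ, ¬ r ∣ u ∧
        φ' (α ij.1) ^ u = (p : k') ^ b ∧ φ' (β ij.2) ^ u = (q : k') ^ b with hR
  set D : HeightOneSpectrum (𝓞 E) → Prop := fun v => ∃ U : Subgroup (GF ℚ),
      IsOpen (U : Set (GF ℚ)) ∧ U.index = 2 ∧
      (∀ p : ℕ, p.Prime → p ∉ S → (p : 𝓞 E) ∉ v.asIdeal → ∀ P : Ideal (OO ℚ), P.IsMaximal →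
        (p : OO ℚ) ∈ P → ∀ τ, InInertia P τ → τ ∈ U) ∧
      ∀ p : ℕ, p.Prime → p ∉ S → (p : 𝓞 E) ∉ v.asIdeal → a p ∉ v.asIdeal → ∀ P : Ideal (OO ℚ),
        P.IsMaximal → (p : OO ℚ) ∈ P → ∀ σ, FrobAt p P σ → σ ∈ U with hD
  set C : HeightOneSpectrum (𝓞 E) → Prop := fun ℓ =>
    (∃ (k' : Type) (_ : Field k') (φ' : 𝓞 F →+* k'),
      RingHom.ker (φ'.comp (algebraMap (𝓞 E) (𝓞 F))) = ℓ.asIdeal ∧
      φ' (α 0 ^ 60 - α 1 ^ 60) = 0 ∧ φ' (β 0 ^ 60 - β 1 ^ 60) = 0) ∧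
    d p ∉ ℓ.asIdeal ∧ d q ∉ ℓ.asIdeal ∧
    ∀ r : ℕ, r.Prime → r0 < r → (r : 𝓞 E) ∉ ℓ.asIdeal → ∃ u b : ℕ, ¬ r ∣ u ∧
      d p ^ u - (p : 𝓞 E) ^ b ∈ ℓ.asIdeal ∧ d q ^ u - (q : 𝓞 E) ^ b ∈ ℓ.asIdeal with hC
  have hempty : ∀ P : HeightOneSpectrum (𝓞 E) → Prop, (∀ ℓ, ¬ P ℓ) →
      Tendsto (dens P) atTop (𝓝 0) := by
    intro P hP
    refine dens_fin _ ?_
    convert Set.finite_empty
    ext ℓ
    exact ⟨fun h => hP ℓ h, fun h => absurd h (Set.notMem_empty _)⟩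
  have hX0d : Tendsto (dens X0) atTop (𝓝 0) := by
    refine dens_fin _ ?_
    exact (fin_mem (Nat.cast_ne_zero.2 hp.ne_zero)).union
      ((fin_mem (Nat.cast_ne_zero.2 hq.ne_zero)).union (fin_mem (Nat.cast_ne_zero.2 two_ne_zero)))
  have hRd : ∀ ij, Tendsto (dens (R ij)) atTop (𝓝 0) := by
    rintro ⟨i, j⟩
    by_cases hA : α i = 0
    · refine hempty _ ?_
      rintro ℓ ⟨k', _, φ', -, h1, -⟩
      exact h1 (by rw [hA, map_zero])
    by_cases hB : β j = 0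
    · refine hempty _ ?_
      rintro ℓ ⟨k', _, φ', -, -, h1, -⟩
      exact h1 (by rw [hB, map_zero])
    refine Pool.Agent.H500.Desc.descend hp hq hpq hA hB (fun N b hN => hrel i j N b hN) _ r0 ?_
    rintro ℓ ⟨k', _, φ', h1, -, -, h2, h3, h4⟩
    exact ⟨k', _, φ', h1, h2, h3, h4⟩
  have hDd : Tendsto (dens D) atTop (𝓝 0) :=
    Pool.Agent.H500.Dih.dihedral S a hcm hinf D (fun v hv => hv)
  have hCd : Tendsto (dens C) atTop (𝓝 0) := by
    by_cases hdp : d p = 0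
    · refine hempty _ ?_
      rintro ℓ ⟨-, h1, -⟩
      exact h1 (by rw [hdp]; exact ℓ.asIdeal.zero_mem)
    by_cases hdq : d q = 0
    · refine hempty _ ?_
      rintro ℓ ⟨-, -, h1, -⟩
      exact h1 (by rw [hdq]; exact ℓ.asIdeal.zero_mem)
    by_cases hdrel : ∃ N b : ℕ, 0 < N ∧ d p ^ N = (p : 𝓞 E) ^ b ∧ d q ^ N = (q : 𝓞 E) ^ b
    · obtain ⟨N, b, hN, e1, e2⟩ := hdrel
      -- one of the two differences is not zero
      have hkey : ∀ (γ : Fin 2 → 𝓞 F) (δ : 𝓞 E) (x : ℕ), algebraMap (𝓞 E) (𝓞 F) δ = γ 0 * γ 1 →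
          δ ^ N = (x : 𝓞 E) ^ b → γ 0 ^ 60 - γ 1 ^ 60 = 0 →
          γ 0 ^ (120 * N) = (x : 𝓞 F) ^ (60 * b) := by
        intro γ δ x h1 h2 h3
        have h4 : γ 0 ^ 60 = γ 1 ^ 60 := sub_eq_zero.1 h3
        have h5 : γ 0 ^ 120 = (algebraMap (𝓞 E) (𝓞 F) δ) ^ 60 := by
          rw [h1, mul_pow, ← h4, ← pow_add]
        rw [pow_mul, h5, ← pow_mul, mul_comm 60 N, pow_mul, ← map_pow, h2, map_pow, map_natCast,
          ← pow_mul, mul_comm b 60]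
      obtain ⟨x, hx0, hx⟩ : ∃ x : 𝓞 F, x ≠ 0 ∧ ∀ ℓ, C ℓ →
          ∃ (k' : Type) (_ : Field k') (φ' : 𝓞 F →+* k'),
            RingHom.ker (φ'.comp (algebraMap (𝓞 E) (𝓞 F))) = ℓ.asIdeal ∧ φ' x = 0 := by
        by_cases h0 : α 0 ^ 60 - α 1 ^ 60 = 0
        · refine ⟨β 0 ^ 60 - β 1 ^ 60, ?_, ?_⟩
          · intro h1
            exact hrel 0 0 (120 * N) (60 * b) (by positivity)
              ⟨hkey α (d p) p hα2 e1 h0, hkey β (d q) q hβ2 e2 h1⟩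
          · rintro ℓ ⟨⟨k', _, φ', h2, -, h3⟩, -⟩
            exact ⟨k', _, φ', h2, h3⟩
        · refine ⟨α 0 ^ 60 - α 1 ^ 60, h0, ?_⟩
          rintro ℓ ⟨⟨k', _, φ', h2, h3, -⟩, -⟩
          exact ⟨k', _, φ', h2, h3⟩
      obtain ⟨m, hm0, y, hy⟩ := exists_dvdF hx0
      refine dens_fin _ ((fin_mem (E := E) (x := (m : 𝓞 E))
        (Nat.cast_ne_zero.2 hm0.ne')).subset ?_)
      intro ℓ hℓ
      obtain ⟨k', _, φ', h1, h2⟩ := hx ℓ hℓ
      show (m : 𝓞 E) ∈ ℓ.asIdeal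
      rw [← h1, RingHom.mem_ker, RingHom.comp_apply, map_natCast, hy, map_mul, h2, zero_mul]
    · refine Pool.Agent.H500.Kum.density hp hq hpq hdp hdq ?_ _ r0 ?_
      · intro N b hN h
        exact hdrel ⟨N, b, hN, h.1, h.2⟩
      · rintro ℓ ⟨-, -, -, h⟩
        exact h
  have hExd : Tendsto (dens fun ℓ => X0 ℓ ∨ (D ℓ ∨ C ℓ)) atTop (𝓝 0) := by
    have h1 := hX0d.add (hDd.add hCd)
    rw [add_zero, add_zero] at h1
    refine squeeze_zero (fun N => Pool.Agent.W528.Ord.dens_nonneg _ N) (fun N => ?_) h1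
    exact (Pool.Agent.W528.Ord.dens_or _ _ N).trans
      (add_le_add_right (Pool.Agent.W528.Ord.dens_or _ _ N) _)
  refine Pool.Agent.H500.Core.dens_union (Ch := Fin 2 × Fin 2) _ _ R ?_ hExd hRd
  intro ℓ hℓ
  obtain ⟨k, _, φ, ρ, hρ, hstar, hbad⟩ := hBad ℓ hℓ
  by_cases hx0 : X0 ℓ
  · exact Or.inl (Or.inl hx0)
  have hx0' := hx0
  rw [hX0] at hx0
  push Not at hx0
  obtain ⟨hpℓ, hqℓ, h2ℓ⟩ := hx0
  obtain ⟨l, hl, hlc, hcast, -⟩ := Pool.Agent.H500.Core.res_char (K := E) ℓ φ hρ.ker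
  have hlf : Fact l.Prime := ⟨hl⟩
  have hrc : ringChar k = l := (ringChar.eq k l).symm ▸ rfl
  have hlp : p ≠ l := by
    rintro rfl
    exact hpℓ ((hcast _).2 dvd_rfl)
  have hlq : q ≠ l := by
    rintro rfl
    exact hqℓ ((hcast _).2 dvd_rfl)
  have hmem : ∀ x : 𝓞 E, x ∈ ℓ.asIdeal ↔ φ x = 0 := by
    intro x
    rw [← hρ.ker, RingHom.mem_ker]
  have hnl : ∀ p' : ℕ, p'.Prime → p' ≠ l → (p' : 𝓞 E) ∉ ℓ.asIdeal := by
    intro p' hp' hne h
    rcases (Nat.dvd_prime hp').1 ((hcast _).1 h) with h1 | h1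
    · exact hl.ne_one h1
    · exact hne h1.symm
  set kb := AlgebraicClosure k with hkb
  set ι : k →+* kb := algebraMap k kb with hι
  have hckb : CharP kb l := (RingHom.charP_iff ι ι.injective l).1 hlc
  obtain ⟨Φ, hΦ⟩ := exists_lift (F := F) ℓ (k := k) (kb := kb) φ hρ.ker ι
  set ρb : GF ℚ →* GL (Fin 2) kb := (Matrix.GeneralLinearGroup.map ι).comp ρ with hρb
  have hρbv : ∀ g, (ρb g : Matrix (Fin 2) (Fin 2) kb) = (ρ g : Matrix (Fin 2) (Fin 2) k).map ι :=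
    fun g => rfl
  have hkerle : ρ.ker ≤ ρb.ker := by
    intro g hg
    have h1 : ρ g = 1 := hg
    show Matrix.GeneralLinearGroup.map ι (ρ g) = 1
    rw [h1, map_one]
  have htr : ∀ g, (ρb g : Matrix (Fin 2) (Fin 2) kb).trace =
      ι (ρ g : Matrix (Fin 2) (Fin 2) k).trace := by
    intro g
    rw [hρbv, Matrix.trace_fin_two, Matrix.trace_fin_two, map_add]
    rfl
  have hdt : ∀ g, (ρb g : Matrix (Fin 2) (Fin 2) kb).det =
      ι (ρ g : Matrix (Fin 2) (Fin 2) k).det := by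
    intro g
    rw [hρbv, RingHom.map_det]
    rfl
  -- Frobenius elements at `p` and `q`
  obtain ⟨⟨Pp, hPp, hpPp, σp, hσp⟩, -⟩ := sFROB p hp
  obtain ⟨⟨Pq, hPq, hqPq, σq, hσq⟩, -⟩ := sFROB q hq
  have etp := hρ.trace p hp hpS hpℓ Pp hPp hpPp σp hσp
  have edp := hρ.det p hp hpS hpℓ Pp hPp hpPp σp hσp
  have etq := hρ.trace q hq hqS hqℓ Pq hPq hqPq σq hσq
  have edq := hρ.det q hq hqS hqℓ Pq hPq hqPq σq hσq
  have htrp : (ρb σp : Matrix (Fin 2) (Fin 2) kb).trace = Φ (α 0) + Φ (α 1) := by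
    rw [htr, etp, ← hΦ, hα1, map_add]
  have hdtp : (ρb σp : Matrix (Fin 2) (Fin 2) kb).det = Φ (α 0) * Φ (α 1) := by
    rw [hdt, edp, ← hΦ, hα2, map_mul]
  have htrq : (ρb σq : Matrix (Fin 2) (Fin 2) kb).trace = Φ (β 0) + Φ (β 1) := by
    rw [htr, etq, ← hΦ, hβ1, map_add]
  have hdtq : (ρb σq : Matrix (Fin 2) (Fin 2) kb).det = Φ (β 0) * Φ (β 1) := by
    rw [hdt, edq, ← hΦ, hβ2, map_mul]
  have hkerΦ : RingHom.ker (Φ.comp (algebraMap (𝓞 E) (𝓞 F))) = ℓ.asIdeal := by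
    ext x
    rw [RingHom.mem_ker, RingHom.comp_apply, hΦ, map_eq_zero_iff ι ι.injective, hmem]
  -- the case of a stable line
  have hline : (∃ v : Fin 2 → kb, v ≠ 0 ∧ ∀ g, ∃ c : kb,
      (ρb g : Matrix (Fin 2) (Fin 2) kb) *ᵥ v = c • v) → ∃ ij, R ij ℓ := by
    rintro ⟨v, hv, hst⟩
    obtain ⟨χ, hχ⟩ := line_char ρb hv hst
    have hχ1 : ∀ g, ρ g = 1 → χ g = 1 := by
      intro g hg
      apply Units.ext
      have h1 := hχ g
      have h2 : ρb g = 1 := hkerle hg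
      rw [h2, Units.val_one, Matrix.one_mulVec] at h1
      have h3 : ((χ g : kb) - 1) • v = 0 := by rw [sub_smul, one_smul, ← h1, sub_self]
      rw [Units.val_one]
      exact sub_eq_zero.1 ((smul_eq_zero.1 h3).resolve_right hv)
    have hroot : ∀ (γ : Fin 2 → 𝓞 F) (σ : GF ℚ),
        (ρb σ : Matrix (Fin 2) (Fin 2) kb).trace = Φ (γ 0) + Φ (γ 1) →
        (ρb σ : Matrix (Fin 2) (Fin 2) kb).det = Φ (γ 0) * Φ (γ 1) → ∃ i, Φ (γ i) = χ σ := by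
      intro γ σ h1 h2
      have h3 := eig_root hv (hχ σ)
      rw [h1, h2] at h3
      have h4 : ((χ σ : kb) - Φ (γ 0)) * ((χ σ : kb) - Φ (γ 1)) = 0 := by linear_combination h3
      rcases mul_eq_zero.1 h4 with h5 | h5
      · exact ⟨0, (sub_eq_zero.1 h5).symm⟩
      · exact ⟨1, (sub_eq_zero.1 h5).symm⟩
    obtain ⟨i, hi⟩ := hroot α σp htrp hdtp
    obtain ⟨j, hj⟩ := hroot β σq htrq hdtq
    refine ⟨(i, j), kb, inferInstance, Φ, hkerΦ, ?_, ?_, ?_, ?_, ?_⟩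
    · rw [hi]
      exact (χ σp).ne_zero
    · rw [hj]
      exact (χ σq).ne_zero
    · obtain ⟨x, hx⟩ := hstar h2ℓ hpℓ hqℓ v hv hst Pp hPp σp (Or.inl ⟨hpPp, hσp⟩) _ (hχ σp)
      exact ⟨x, by rw [hi, hΦ, hx]⟩
    · obtain ⟨x, hx⟩ := hstar h2ℓ hpℓ hqℓ v hv hst Pq hPq σq (Or.inr ⟨hqPq, hσq⟩) _ (hχ σq)
      exact ⟨x, by rw [hj, hΦ, hx]⟩
    · intro r hr hr0' hrk
      have hrl : r ≠ l := by
        rintro rfl
        exact hrk (CharP.cast_eq_zero kb r)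
      obtain ⟨c, b, hc, h⟩ := char_pow (l := l) S χ (Subgroup.isOpen_mono
        (fun g hg => hχ1 g hg) hρ.continuous) (fun p' hp' hp'S hp'l P hP hpP τ hτ =>
          hχ1 τ (hρ.unramified p' hp' hp'S (hnl p' hp' hp'l) P hP hpP τ hτ)) hr hr0' hrl
      refine ⟨c, b, hc, ?_, ?_⟩
      · rw [hi]
        exact h p hp hlp Pp hPp hpPp σp hσp
      · rw [hj]
        exact h q hq hlq Pq hPq hqPq σq hσq
  rcases hbad with ⟨v, hv, hst⟩ | hcard
  · -- a stable line over `k`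
    right
    apply hline
    refine ⟨fun i => ι (v i), map_ne ι hv, fun g => ?_⟩
    obtain ⟨c, hc⟩ := hst g
    refine ⟨ι c, ?_⟩
    rw [hρbv, map_mulVec, hc]
    funext i
    simp
  · have hfin : Finite ρ.range := finite_range ρ hρ.continuous
    have hinjm : Function.Injective (Matrix.GeneralLinearGroup.map (n := Fin 2) ι) := by
      intro x y hxy
      apply Units.ext
      ext i j
      have h1 := congrArg (fun M : GL (Fin 2) kb => (M : Matrix (Fin 2) (Fin 2) kb) i j) hxy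
      exact ι.injective h1
    have hfb : Function.Bijective (fun x : ρ.range => (⟨Matrix.GeneralLinearGroup.map ι x.1, by
        obtain ⟨g, hg⟩ := x.2
        exact ⟨g, by rw [← hg]; rfl⟩⟩ : ρb.range)) := by
      constructor
      · intro x y hxy
        exact Subtype.ext (hinjm (congrArg Subtype.val hxy))
      · rintro ⟨_, g, rfl⟩
        exact ⟨⟨ρ g, g, rfl⟩, rfl⟩
    have hfinb : Finite ρb.range := Finite.of_surjective _ hfb.2
    have hcb : Nat.card ρb.range = Nat.card ρ.range := (Nat.card_congr (Equiv.ofBijective _ hfb)).symm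
    have hcb0 : ((Nat.card ρb.range : ℕ) : kb) ≠ 0 := by
      rw [hcb, Ne, CharP.cast_eq_zero_iff kb l, ← hrc]
      exact hcard
    rcases small_image ρb hcb0 with h | ⟨U, hUi, hUk, hUt⟩ | h
    · right
      exact hline h
    · -- dihedral
      left; right; left
      refine ⟨U, Subgroup.isOpen_mono (hkerle.trans hUk) hρ.continuous, hUi, ?_, ?_⟩
      · intro p' hp' hp'S hp'ℓ P hP hpP τ hτ
        exact hUk (hkerle (hρ.unramified p' hp' hp'S hp'ℓ P hP hpP τ hτ))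
      · intro p' hp' hp'S hp'ℓ hap P hP hpP σ hσ
        by_contra hσU
        have h1 := hUt σ hσU
        rw [htr, hρ.trace p' hp' hp'S hp'ℓ P hP hpP σ hσ, map_eq_zero_iff ι ι.injective,
          ← hmem] at h1
        exact hap h1
    · -- exceptional
      left; right; right
      have hpow : ∀ (γ : Fin 2 → 𝓞 F) (σ : GF ℚ),
          (ρb σ : Matrix (Fin 2) (Fin 2) kb).trace = Φ (γ 0) + Φ (γ 1) →
          (ρb σ : Matrix (Fin 2) (Fin 2) kb).det = Φ (γ 0) * Φ (γ 1) →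
          Φ (γ 0 ^ 60 - γ 1 ^ 60) = 0 := by
        intro γ σ h1 h2
        obtain ⟨c, hc⟩ := h σ
        have h3 : ∀ i, Φ (γ i) ^ 60 = c := by
          intro i
          obtain ⟨v, hv, hva⟩ := exists_eigen (M := (ρb σ : Matrix (Fin 2) (Fin 2) kb))
            (a := Φ (γ i)) (by
              rw [h1, h2]
              fin_cases i
              · show Φ (γ 0) * Φ (γ 0) - (Φ (γ 0) + Φ (γ 1)) * Φ (γ 0) + Φ (γ 0) * Φ (γ 1) = 0
                ring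
              · show Φ (γ 1) * Φ (γ 1) - (Φ (γ 0) + Φ (γ 1)) * Φ (γ 1) + Φ (γ 0) * Φ (γ 1) = 0
                ring)
          have h4 : ∀ n : ℕ, (ρb σ : Matrix (Fin 2) (Fin 2) kb) ^ n *ᵥ v = Φ (γ i) ^ n • v := by
            intro n
            induction n with
            | zero => simp
            | succ n ih =>
              rw [pow_succ', ← Matrix.mulVec_mulVec, ih, Matrix.mulVec_smul, hva, smul_smul,
                pow_succ]
          have h5 := h4 60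
          rw [hc, Matrix.smul_mulVec, Matrix.one_mulVec] at h5
          have h6 : (Φ (γ i) ^ 60 - c) • v = 0 := by rw [sub_smul, h5, sub_self]
          exact sub_eq_zero.1 ((smul_eq_zero.1 h6).resolve_right hv)
        rw [map_sub, map_pow, map_pow, h3, h3, sub_self]
      have hdet0 : ∀ g, (ρ g : Matrix (Fin 2) (Fin 2) k).det ≠ 0 := by
        intro g
        have h1 : IsUnit (ρ g : Matrix (Fin 2) (Fin 2) k) := (ρ g).isUnit
        exact ((Matrix.isUnit_iff_isUnit_det _).1 h1).ne_zero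
      refine ⟨⟨kb, inferInstance, Φ, hkerΦ, hpow α σp htrp hdtp, hpow β σq htrq hdtq⟩, ?_, ?_, ?_⟩
      · rw [hmem, ← edp]
        exact hdet0 _
      · rw [hmem, ← edq]
        exact hdet0 _
      · intro r hr hr0' hrℓ
        have hrl : r ≠ l := by
          rintro rfl
          exact hrℓ ((hcast _).2 dvd_rfl)
        set χ : GF ℚ →* kˣ := Matrix.GeneralLinearGroup.det.comp ρ with hχ
        have hχ1 : ∀ g, ρ g = 1 → χ g = 1 := by
          intro g hg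
          show Matrix.GeneralLinearGroup.det (ρ g) = 1
          rw [hg, map_one]
        obtain ⟨c, b, hc, h⟩ := char_pow (l := l) S χ (Subgroup.isOpen_mono
          (fun g hg => hχ1 g hg) hρ.continuous) (fun p' hp' hp'S hp'l P hP hpP τ hτ =>
            hχ1 τ (hρ.unramified p' hp' hp'S (hnl p' hp' hp'l) P hP hpP τ hτ)) hr hr0' hrl
        have h1 := h p hp hlp Pp hPp hpPp σp hσp
        have h2 := h q hq hlq Pq hPq hqPq σq hσq
        have e1 : (χ σp : k) = φ (d p) := edp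
        have e2 : (χ σq : k) = φ (d q) := edq
        rw [e1] at h1
        rw [e2] at h2
        refine ⟨c, b, hc, ?_, ?_⟩
        · rw [hmem, map_sub, map_pow, map_pow, map_natCast, h1, sub_self]
        · rw [hmem, map_sub, map_pow, map_pow, map_natCast, h2, sub_self]

end Pool.Agent.H500.LI
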