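import Pool.Graph.R_seed8.W569.FM.Stmts

set_option autoImplicit false

/-!
# Two-dimensional residual representations of the absolute Galois group of the rational numbers

`GF ℚ` is the absolute Galois group of `ℚ`, `OO ℚ` the ring of all algebraic integers,
`InInertia P τ` says that `τ` lies in the inertia group of the maximal ideal `P` of `OO ℚ`, and
`FrobAt p P σ` that `σ x ≡ x ^ p` modulo `P` for all `x` in `OO ℚ`.
-/

namespace Pool.Agent.H500.LI

open NumberField IsDedekindDomain Pool.Agent.W569.FM Matrix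

/-- `ρ` is a residual representation at the prime `ℓ` of the number field `E`, attached to the
polynomials `X ^ 2 - a p X + d p`, for the primes `p ∉ S`; `φ` is the reduction modulo `ℓ`.  There is no
condition at the primes in `S` and at the residue characteristic. -/
structure IsResidual {E : Type} [Field E] [NumberField E] (S : Finset ℕ) (a d : ℕ → 𝓞 E)
    (ℓ : HeightOneSpectrum (𝓞 E)) {k : Type} [Field k] (φ : 𝓞 E →+* k)
    (ρ : GF ℚ →* GL (Fin 2) k) : Prop where
  /-- `φ` is a reduction modulo `ℓ` -/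
  ker : RingHom.ker φ = ℓ.asIdeal
  /-- `ρ` is continuous -/
  continuous : IsOpen (ρ.ker : Set (GF ℚ))
  /-- `ρ` is unramified outside `S` and the residue characteristic of `ℓ` -/
  unramified : ∀ p : ℕ, p.Prime → p ∉ S → (p : 𝓞 E) ∉ ℓ.asIdeal → ∀ P : Ideal (OO ℚ),
    P.IsMaximal → (p : OO ℚ) ∈ P → ∀ τ, InInertia P τ → ρ τ = 1
  /-- the traces of the Frobenius elements -/
  trace : ∀ p : ℕ, p.Prime → p ∉ S → (p : 𝓞 E) ∉ ℓ.asIdeal → ∀ P : Ideal (OO ℚ),
    P.IsMaximal → (p : OO ℚ) ∈ P → ∀ σ, FrobAt p P σ →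
      (ρ σ : Matrix (Fin 2) (Fin 2) k).trace = φ (a p)
  /-- the determinants of the Frobenius elements -/
  det : ∀ p : ℕ, p.Prime → p ∉ S → (p : 𝓞 E) ∉ ℓ.asIdeal → ∀ P : Ideal (OO ℚ),
    P.IsMaximal → (p : OO ℚ) ∈ P → ∀ σ, FrobAt p P σ →
      (ρ σ : Matrix (Fin 2) (Fin 2) k).det = φ (d p)

/-- `ρ` is odd: the determinant of some complex conjugation (element `c` with `c ^ 2 = 1`) is `-1`. -/
def Odd {k : Type} [Field k] (ρ : GF ℚ →* GL (Fin 2) k) : Prop :=
  ∃ c : GF ℚ, c * c = 1 ∧ (ρ c : Matrix (Fin 2) (Fin 2) k).det = -1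

/-- The image of `ρ` is large: its order is divisible by the characteristic `l` of `k`, and for each
open normal subgroup `N` whose index is not divisible by `l` the restriction of `ρ` to `N` is absolutely
irreducible: it stabilises no line, over no extension `k'` of `k`. -/
def Large {k : Type} [Field k] (ρ : GF ℚ →* GL (Fin 2) k) : Prop :=
  ringChar k ∣ Nat.card ρ.range ∧
  ∀ N : Subgroup (GF ℚ), N.Normal → IsOpen (N : Set (GF ℚ)) → ¬ ringChar k ∣ N.index →
    ∀ (k' : Type) [Field k'] (ι : k →+* k') (v : Fin 2 → k'), v ≠ 0 →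
      ¬ ∀ g ∈ N, ∃ c : k', ((ρ g : Matrix (Fin 2) (Fin 2) k).map ι) *ᵥ v = c • v

end Pool.Agent.H500.LI
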