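import Pool.Agent.H500.Two

set_option autoImplicit false
set_option linter.unusedSectionVars false

/-!
# Finite groups of two by two matrices of order prime to the characteristic
-/

namespace Pool.Agent.H500.Lin2

open scoped LinearAlgebra.Projectivization Matrix
open Matrix

section

variable {k : Type} [Field k]

/-- Cayley-Hamilton -/
theorem ch (M : Matrix (Fin 2) (Fin 2) k) : M * M = M.trace • M - M.det • 1 := by
  ext i j
  fin_cases i <;> fin_cases j <;>
    simp [Matrix.mul_apply, Fin.sum_univ_two, Matrix.trace_fin_two, Matrix.det_fin_two] <;> ring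

/-- a matrix with an eigenvector in every direction is scalar -/
theorem scalar_of (M : Matrix (Fin 2) (Fin 2) k) (h : ∀ v : Fin 2 → k, v ≠ 0 → ∃ a : k, M *ᵥ v = a • v) :
    ∃ a : k, M = a • (1 : Matrix (Fin 2) (Fin 2) k) := by
  obtain ⟨a, ha⟩ := h ![1, 0] (fun h0 => by simpa using congrFun h0 0)
  obtain ⟨b, hb⟩ := h ![0, 1] (fun h0 => by simpa using congrFun h0 1)
  obtain ⟨c, hc⟩ := h ![1, 1] (fun h0 => by simpa using congrFun h0 0)
  have a0 := congrFun ha 0
  have a1 := congrFun ha 1
  have b0 := congrFun hb 0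
  have b1 := congrFun hb 1
  have c0 := congrFun hc 0
  have c1 := congrFun hc 1
  simp [Matrix.mulVec, dotProduct, Fin.sum_univ_two] at a0 a1 b0 b1 c0 c1
  refine ⟨a, ?_⟩
  ext i j
  fin_cases i <;> fin_cases j <;> simp [a0, a1, b0, b1]
  rw [b0, add_zero] at c0
  rw [a1, zero_add] at c1
  rw [← b1, c1, ← c0, a0]

/-- eigenvectors -/
theorem exists_eigen {M : Matrix (Fin 2) (Fin 2) k} {a : k} (h : a * a - M.trace * a + M.det = 0) :
    ∃ v : Fin 2 → k, v ≠ 0 ∧ M *ᵥ v = a • v := by
  have h1 : (M - a • (1 : Matrix (Fin 2) (Fin 2) k)).det = 0 := by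
    rw [Matrix.det_fin_two]
    simp only [Matrix.sub_apply, Matrix.smul_apply, smul_eq_mul, Matrix.one_apply]
    rw [Matrix.trace_fin_two, Matrix.det_fin_two] at h
    simp
    linear_combination h
  obtain ⟨v, hv, hv0⟩ := Matrix.exists_mulVec_eq_zero_iff.2 h1
  refine ⟨v, hv, ?_⟩
  rw [Matrix.sub_mulVec, Matrix.smul_mulVec, Matrix.one_mulVec, sub_eq_zero] at hv0
  exact hv0

/-- a matrix of finite order prime to the characteristic is diagonalisable -/
theorem diag [IsAlgClosed k] {M : Matrix (Fin 2) (Fin 2) k} {m : ℕ} (hm : (m : k) ≠ 0)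
    (hM : M ^ m = 1) : (∃ a : k, M = a • (1 : Matrix (Fin 2) (Fin 2) k)) ∨
      ∃ a b : k, ∃ v w : Fin 2 → k, a ≠ b ∧ v ≠ 0 ∧ w ≠ 0 ∧ M *ᵥ v = a • v ∧ M *ᵥ w = b • w := by
  obtain ⟨a, ha⟩ : ∃ a : k, a * a - M.trace * a + M.det = 0 := by
    obtain ⟨a, ha⟩ := IsAlgClosed.exists_root (M.charpoly) (by
      rw [Matrix.charpoly_degree_eq_dim]
      simp)
    refine ⟨a, ?_⟩
    rw [Matrix.charpoly_fin_two, Polynomial.IsRoot.def] at ha
    simp at ha
    linear_combination ha
  obtain ⟨v, hv, hva⟩ := exists_eigen ha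
  by_cases hab : a = M.trace - a
  · left
    refine ⟨a, ?_⟩
    set n := M - a • (1 : Matrix (Fin 2) (Fin 2) k) with hn
    have hn2 : n * n = 0 := by
      have h1 : M.trace = 2 * a := by linear_combination -hab
      have h2 : M.det = a * a := by linear_combination ha + a * h1
      rw [hn, sub_mul, mul_sub, mul_sub, ch, h1, h2]
      simp only [smul_mul_assoc, mul_smul_comm, one_mul, mul_one, smul_smul]
      module
    have hpow : ∀ j : ℕ, M ^ (j + 1) = a ^ (j + 1) • (1 : Matrix (Fin 2) (Fin 2) k) +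
        ((j + 1 : ℕ) * a ^ j : k) • n := by
      intro j
      have hMn : M = a • (1 : Matrix (Fin 2) (Fin 2) k) + n := by rw [hn]; abel
      induction j with
      | zero => simp [← hMn]
      | succ j ih =>
        rw [pow_succ, ih]
        conv_lhs => rw [hMn]
        rw [add_mul, mul_add, mul_add, smul_mul_smul_comm, smul_mul_assoc, smul_mul_assoc,
          smul_mul_assoc, hn2, one_mul, mul_smul_comm, mul_one, one_mul]
        simp only [smul_smul, smul_zero, add_zero]
        rw [add_assoc, ← add_smul]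
        have e1 : a ^ (j + 1) + ((j + 1 : ℕ) : k) * a ^ j * a =
            ((j + 1 + 1 : ℕ) : k) * a ^ (j + 1) := by
          push_cast
          ring
        rw [e1, ← pow_succ]
    have hva' : ∀ j : ℕ, M ^ j *ᵥ v = a ^ j • v := by
      intro j
      induction j with
      | zero => simp
      | succ j ih =>
        rw [pow_succ', ← Matrix.mulVec_mulVec, ih, Matrix.mulVec_smul, hva, smul_smul, pow_succ]
    have ham : a ^ m = 1 := by
      have h1 := hva' m
      rw [hM, Matrix.one_mulVec] at h1
      have h2 : (a ^ m - 1) • v = 0 := by rw [sub_smul, one_smul, ← h1, sub_self]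
      rcases smul_eq_zero.1 h2 with h3 | h3
      · linear_combination h3
      · exact absurd h3 hv
    obtain ⟨j, rfl⟩ : ∃ j, m = j + 1 := by
      refine ⟨m - 1, ?_⟩
      have : m ≠ 0 := by
        rintro rfl
        exact hm Nat.cast_zero
      omega
    have h1 := hpow j
    rw [hM, ham, one_smul] at h1
    have h2 : ((j + 1 : ℕ) * a ^ j : k) • n = 0 := by
      have := h1.symm
      rwa [add_eq_left] at this
    have ha0 : a ≠ 0 := by
      rintro rfl
      rw [zero_pow (Nat.succ_ne_zero j)] at ham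
      exact zero_ne_one ham
    rcases smul_eq_zero.1 h2 with h3 | h3
    · exact absurd h3 (mul_ne_zero hm (pow_ne_zero _ ha0))
    · rw [hn, sub_eq_zero] at h3
      exact h3
  · right
    obtain ⟨w, hw, hwb⟩ := exists_eigen (M := M) (a := M.trace - a) (by linear_combination ha)
    exact ⟨a, M.trace - a, v, w, hab, hv, hw, hva, hwb⟩

/-- two eigenvectors with different eigenvalues -/
theorem comb {M : Matrix (Fin 2) (Fin 2) k} {a b : k} {v w : Fin 2 → k} (hab : a ≠ b) (hv : v ≠ 0)
    (hw : w ≠ 0) (hva : M *ᵥ v = a • v) (hwb : M *ᵥ w = b • w) (u : Fin 2 → k) :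
    ∃ x y : k, u = x • v + y • w := by
  have hli : LinearIndependent k ![v, w] := by
    rw [LinearIndependent.pair_iff]
    intro s t hst
    have h1 : s • a • v + t • b • w = 0 := by
      have h2 := congrArg (fun z => M *ᵥ z) hst
      simp only [Matrix.mulVec_add, Matrix.mulVec_smul, Matrix.mulVec_zero, hva, hwb] at h2
      exact h2
    have h3 : (s * (a - b)) • v = 0 := by
      have h4 : (s * (a - b)) • v = (s • a • v + t • b • w) - b • (s • v + t • w) := by module
      rw [h4, h1, hst, smul_zero, sub_zero]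
    have hs : s = 0 := by
      rcases smul_eq_zero.1 h3 with h4 | h4
      · exact (mul_eq_zero.1 h4).resolve_right (sub_ne_zero.2 hab)
      · exact absurd h4 hv
    refine ⟨hs, ?_⟩
    rw [hs, zero_smul, zero_add] at hst
    exact (smul_eq_zero.1 hst).resolve_right hw
  have hspan := hli.span_eq_top_of_card_eq_finrank (by simp)
  have hu : u ∈ Submodule.span k (Set.range ![v, w]) := by rw [hspan]; trivial
  rw [Matrix.range_cons, Matrix.range_cons, Matrix.range_empty, Set.union_empty,
    Set.singleton_union, Submodule.mem_span_pair] at hu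
  obtain ⟨x, y, h⟩ := hu
  exact ⟨x, y, h.symm⟩

/-- the projective action -/
noncomputable def toP : GL (Fin 2) k →* Equiv.Perm (ℙ k (Fin 2 → k)) :=
  (MulAction.toPermHom (LinearMap.GeneralLinearGroup k (Fin 2 → k)) (ℙ k (Fin 2 → k))).comp
    Matrix.GeneralLinearGroup.toLin.toMonoidHom

theorem toP_mk (g : GL (Fin 2) k) {v : Fin 2 → k} (hv : v ≠ 0) (hgv : (g : Matrix (Fin 2) (Fin 2) k) *ᵥ v ≠ 0) :
    toP g (Projectivization.mk k v hv) = Projectivization.mk k _ hgv := rfl

theorem mulVec_ne (g : GL (Fin 2) k) {v : Fin 2 → k} (hv : v ≠ 0) :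
    (g : Matrix (Fin 2) (Fin 2) k) *ᵥ v ≠ 0 := by
  intro h
  apply hv
  have h1 : ((g⁻¹ : GL (Fin 2) k) : Matrix (Fin 2) (Fin 2) k) *ᵥ
      ((g : Matrix (Fin 2) (Fin 2) k) *ᵥ v) = v := by
    rw [Matrix.mulVec_mulVec, ← Units.val_mul, inv_mul_cancel, Units.val_one, Matrix.one_mulVec]
  rw [← h1, h, Matrix.mulVec_zero]

theorem toP_fix (g : GL (Fin 2) k) {v w : Fin 2 → k} (hv : v ≠ 0) (hw : w ≠ 0) :
    toP g (Projectivization.mk k v hv) = Projectivization.mk k w hw ↔
      ∃ a : k, (g : Matrix (Fin 2) (Fin 2) k) *ᵥ v = a • w := by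
  rw [toP_mk g hv (mulVec_ne g hv), Projectivization.mk_eq_mk_iff']
  constructor
  · rintro ⟨a, ha⟩
    exact ⟨a, ha.symm⟩
  · rintro ⟨a, ha⟩
    exact ⟨a, ha.symm⟩

/-- the projective image of a matrix of order prime to the characteristic -/
theorem two_pts [IsAlgClosed k] {g : GL (Fin 2) k} {m : ℕ} (hm : (m : k) ≠ 0)
    (hg : g ^ m = 1) (h1 : toP g ≠ 1) : ∃ x y : ℙ k (Fin 2 → k), x ≠ y ∧
      ∀ z, toP g z = z ↔ z = x ∨ z = y := by
  rcases diag hm (M := (g : Matrix (Fin 2) (Fin 2) k)) (by
    rw [← Units.val_pow_eq_pow_val, hg, Units.val_one]) with ⟨a, ha⟩ |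
    ⟨a, b, v, w, hab, hv, hw, hva, hwb⟩
  · exfalso
    apply h1
    ext z
    induction z using Projectivization.ind with
    | h v hv =>
      rw [Equiv.Perm.one_apply, toP_fix]
      exact ⟨a, by rw [ha, Matrix.smul_mulVec, Matrix.one_mulVec]⟩
  · refine ⟨Projectivization.mk k v hv, Projectivization.mk k w hw, ?_, fun z => ?_⟩
    · intro h
      rw [Projectivization.mk_eq_mk_iff'] at h
      obtain ⟨c, hc⟩ := h
      have h2 : (a - b) • v = 0 := by
        have h3 : a • v = b • v := by
          rw [← hva, ← hc, Matrix.mulVec_smul, hwb, smul_comm]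
        rw [sub_smul, h3, sub_self]
      rcases smul_eq_zero.1 h2 with h3 | h3
      · exact sub_ne_zero.2 hab h3
      · exact hv h3
    · induction z using Projectivization.ind with
      | h u hu =>
        rw [toP_fix]
        constructor
        · rintro ⟨c, hc⟩
          obtain ⟨x, y, rfl⟩ := comb hab hv hw hva hwb u
          rw [Matrix.mulVec_add, Matrix.mulVec_smul, Matrix.mulVec_smul, hva, hwb] at hc
          have hli : ∀ s t : k, s • v + t • w = 0 → s = 0 ∧ t = 0 := by
            intro s t hst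
            have h1 : s • a • v + t • b • w = 0 := by
              have h2 := congrArg (fun z => (g : Matrix (Fin 2) (Fin 2) k) *ᵥ z) hst
              simp only [Matrix.mulVec_add, Matrix.mulVec_smul, Matrix.mulVec_zero, hva, hwb] at h2
              exact h2
            have h3 : (s * (a - b)) • v = 0 := by
              have h4 : (s * (a - b)) • v = (s • a • v + t • b • w) - b • (s • v + t • w) := by
                module
              rw [h4, h1, hst, smul_zero, sub_zero]
            have hs : s = 0 := by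
              rcases smul_eq_zero.1 h3 with h4 | h4
              · exact (mul_eq_zero.1 h4).resolve_right (sub_ne_zero.2 hab)
              · exact absurd h4 hv
            refine ⟨hs, ?_⟩
            rw [hs, zero_smul, zero_add] at hst
            exact (smul_eq_zero.1 hst).resolve_right hw
          obtain ⟨h2, h3⟩ := hli (x * (a - c)) (y * (b - c)) (by
            have h4 : (x * (a - c)) • v + (y * (b - c)) • w =
              (x • a • v + y • b • w) - c • (x • v + y • w) := by module
            rw [h4, hc, sub_self])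
          rcases mul_eq_zero.1 h2 with h4 | h4
          · right
            rw [Projectivization.mk_eq_mk_iff']
            exact ⟨y, by rw [h4, zero_smul, zero_add]⟩
          · left
            have h5 : b - c ≠ 0 := by
              intro h6
              exact hab (by linear_combination h4 - h6)
            rw [Projectivization.mk_eq_mk_iff']
            exact ⟨x, by rw [(mul_eq_zero.1 h3).resolve_right h5, zero_smul, add_zero]⟩
        · rintro (h | h)
          · rw [Projectivization.mk_eq_mk_iff'] at h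
            obtain ⟨c, rfl⟩ := h
            exact ⟨a, by rw [Matrix.mulVec_smul, hva, smul_comm]⟩
          · rw [Projectivization.mk_eq_mk_iff'] at h
            obtain ⟨c, rfl⟩ := h
            exact ⟨b, by rw [Matrix.mulVec_smul, hwb, smul_comm]⟩

/-- **Homomorphisms to `GL_2` with finite image of order prime to the characteristic.** -/
theorem small_image [IsAlgClosed k] {G : Type} [Group G] (ρ : G →* GL (Fin 2) k)
    [Finite ρ.range] (hcard : ((Nat.card ρ.range : ℕ) : k) ≠ 0) :
    (∃ v : Fin 2 → k, v ≠ 0 ∧ ∀ g, ∃ c : k, (ρ g : Matrix (Fin 2) (Fin 2) k) *ᵥ v = c • v) ∨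
    (∃ U : Subgroup G, U.index = 2 ∧ ρ.ker ≤ U ∧ ∀ g ∉ U, (ρ g : Matrix (Fin 2) (Fin 2) k).trace = 0) ∨
    ∀ g, ∃ a : k, (ρ g : Matrix (Fin 2) (Fin 2) k) ^ 60 = a • (1 : Matrix (Fin 2) (Fin 2) k) := by
  classical
  set τ : G →* Equiv.Perm (ℙ k (Fin 2 → k)) := toP.comp ρ with hτ
  have hfin : Finite τ.range := by
    have h1 : Function.Surjective (fun x : ρ.range => (⟨toP x.1, by
        obtain ⟨g, hg⟩ := x.2
        exact ⟨g, by rw [← hg]; rfl⟩⟩ : τ.range)) := by
      rintro ⟨_, g, rfl⟩
      exact ⟨⟨ρ g, g, rfl⟩, rfl⟩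
    exact Finite.of_surjective _ h1
  have hord : ∀ g, ρ g ^ Nat.card ρ.range = 1 := by
    intro g
    have h1 := pow_card_eq_one' (x := (⟨ρ g, g, rfl⟩ : ρ.range))
    exact congrArg Subtype.val h1
  -- stable lines
  have hline : ∀ x : ℙ k (Fin 2 → k), (∀ g, τ g x = x) → ∃ v : Fin 2 → k, v ≠ 0 ∧ ∀ g, ∃ c : k,
      (ρ g : Matrix (Fin 2) (Fin 2) k) *ᵥ v = c • v := by
    intro x hx
    induction x using Projectivization.ind with
    | h v hv => exact ⟨v, hv, fun g => (toP_fix (ρ g) hv hv).1 (hx g)⟩
  rcases Pool.Agent.H500.Two.two_fixed (Γ := τ.range) (X := ℙ k (Fin 2 → k)) (by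
    rintro ⟨_, g, rfl⟩ hg
    have hg' : toP (ρ g) ≠ 1 := fun h => hg (Subtype.ext h)
    exact two_pts hcard (hord g) hg') with ⟨x, hx⟩ | ⟨x, y, hxy, h⟩ | h
  · left
    exact hline x fun g => hx ⟨τ g, g, rfl⟩
  · have h' : ∀ g, (τ g x = x ∧ τ g y = y) ∨ (τ g x = y ∧ τ g y = x) := fun g => h ⟨τ g, g, rfl⟩
    by_cases hall : ∀ g, τ g x = x
    · left
      exact hline x hall
    · right; left
      push Not at hall
      obtain ⟨s, hs⟩ := hall
      set U : Subgroup G := (MulAction.stabilizer (Equiv.Perm (ℙ k (Fin 2 → k))) x).comap τ with hU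
      have hmem : ∀ g, g ∈ U ↔ τ g x = x := fun g => Iff.rfl
      refine ⟨U, ?_, ?_, ?_⟩
      · rw [Subgroup.index_eq_two_iff]
        refine ⟨s, fun b => ?_⟩
        have hsx : τ s x = y := ((h' s).resolve_left (fun h => hs h.1)).1
        have hsy : τ s y = x := ((h' s).resolve_left (fun h => hs h.1)).2
        rw [hmem, hmem, map_mul, Equiv.Perm.mul_apply, hsx]
        rcases h' b with ⟨h1, h2⟩ | ⟨h1, h2⟩
        · right
          exact ⟨h1, by rw [h2]; exact hxy.symm⟩
        · left
          exact ⟨h2, by rw [h1]; exact hxy.symm⟩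
      · intro g hg
        rw [MonoidHom.mem_ker] at hg
        rw [hmem, hτ, MonoidHom.comp_apply, hg, map_one, Equiv.Perm.one_apply]
      · intro g hg
        rw [hmem] at hg
        obtain ⟨h1, h2⟩ := (h' g).resolve_left (fun h => hg h.1)
        induction x using Projectivization.ind with
        | h v hv =>
          induction y using Projectivization.ind with
          | h w hw =>
            obtain ⟨c, hc⟩ := (toP_fix (ρ g) hv hw).1 h1
            obtain ⟨d, hd⟩ := (toP_fix (ρ g) hw hv).1 h2
            have h3 := congrArg (fun M => M *ᵥ v) (ch (ρ g : Matrix (Fin 2) (Fin 2) k))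
            beta_reduce at h3
            rw [← Matrix.mulVec_mulVec, hc, Matrix.mulVec_smul, hd, Matrix.sub_mulVec,
              Matrix.smul_mulVec, Matrix.smul_mulVec, Matrix.one_mulVec, hc] at h3
            by_contra htr
            apply hg
            refine (toP_fix (ρ g) hv hv).2 ⟨(ρ g : Matrix (Fin 2) (Fin 2) k).trace⁻¹ *
              (c * d + (ρ g : Matrix (Fin 2) (Fin 2) k).det), ?_⟩
            have h4 : (ρ g : Matrix (Fin 2) (Fin 2) k).trace • (c • w) =
                (c * d + (ρ g : Matrix (Fin 2) (Fin 2) k).det) • v := by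
              rw [add_smul, mul_smul, h3]
              abel
            rw [hc, mul_smul, ← h4, inv_smul_smul₀ htr]
  · right; right
    intro g
    obtain ⟨j, hj0, hj5, hj⟩ := h ⟨τ g, g, rfl⟩
    have h1 : τ g ^ j = 1 := congrArg Subtype.val hj
    have h60 : τ g ^ 60 = 1 := by
      have h2 : j ∣ 60 := by interval_cases j <;> norm_num
      obtain ⟨i, hi⟩ := h2
      rw [hi, pow_mul, h1, one_pow]
    have h2 := scalar_of ((ρ g : Matrix (Fin 2) (Fin 2) k) ^ 60) (by
      intro v hv
      have h3 := congrArg (fun π => π (Projectivization.mk k v hv)) h60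
      beta_reduce at h3
      rw [← map_pow, hτ, MonoidHom.comp_apply, Equiv.Perm.one_apply, toP_fix] at h3
      obtain ⟨a, ha⟩ := h3
      refine ⟨a, ?_⟩
      rw [← ha, map_pow, Units.val_pow_eq_pow_val])
    exact h2

end

end Pool.Agent.H500.Lin2
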