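import Pool.Agent.H500.MWN

set_option autoImplicit false
set_option linter.unusedSectionVars false

/-!
# Assembling the parts over the complex numbers
-/

namespace Pool.Agent.H500.ML

open NumberField IsDedekindDomain Filter Topology Polynomial Pool.Agent.H500.MW
open Pool.Agent.Y800 (GQ ZBar QBar Unramified IsGeomFrob IsSemisimpleRep)

/-- the diagonal matrix with the entries `t ^ w i` -/
def wt {m : ℕ} (w : Fin m → ℕ) (t : ℂ) : Matrix (Fin m) (Fin m) ℂ := Matrix.diagonal fun i => t ^ w i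

/-- a representation of finite image and weights, with given Frobenius polynomials -/
structure GoodC (S : Finset ℕ) {m : ℕ} (R : GQ →* GL (Fin m) ℂ) (w : Fin m → ℕ)
    (F : ℕ → ℂ[X]) : Prop where
  isOpen : IsOpen (R.ker : Set GQ)
  comm : ∀ g (t : ℂ), (R g : Matrix (Fin m) (Fin m) ℂ) * wt w t = wt w t * R g
  unram : ∀ p : ℕ, p.Prime → p ∉ S → Unramified R p
  frob : ∀ p : ℕ, p.Prime → p ∉ S → ∀ Q : Ideal ZBar, Q.IsMaximal → (p : ZBar) ∈ Q → ∀ σ : GQ,
    IsGeomFrob p Q σ → Diag ((R σ : Matrix (Fin m) (Fin m) ℂ) * wt w p) ∧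
      ((R σ : Matrix (Fin m) (Fin m) ℂ) * wt w p).charpoly = F p

theorem diag_B2 {k : Type} [Field k] {a b : ℕ} {M : Matrix (Fin a) (Fin a) k}
    {N : Matrix (Fin b) (Fin b) k} (h : Diag M) (h' : Diag N) : Diag (B2 M N) := by
  obtain ⟨x, d, hx⟩ := h
  obtain ⟨y, e, hy⟩ := h'
  refine ⟨blk (x, y), Fin.append d e, ?_⟩
  rw [← map_inv, blk_coe, blk_coe, ← B2_diag, hx, hy]
  show _ = B2 (x : Matrix (Fin a) (Fin a) k) (y : Matrix (Fin b) (Fin b) k) * _ *
    B2 ((x⁻¹ : GL (Fin a) k) : Matrix (Fin a) (Fin a) k) ((y⁻¹ : GL (Fin b) k) : Matrix (Fin b) (Fin b) k)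
  rw [B2_mul, B2_mul]

theorem wt_append {a b : ℕ} (w : Fin a → ℕ) (w' : Fin b → ℕ) (t : ℂ) :
    wt (Fin.append w w') t = B2 (wt w t) (wt w' t) := by
  unfold wt
  rw [B2_diag]
  congr 1
  ext i
  refine Fin.addCases (fun i => ?_) (fun i => ?_) i <;> simp

theorem GoodC.dsum {S : Finset ℕ} {a b : ℕ} {R : GQ →* GL (Fin a) ℂ} {R' : GQ →* GL (Fin b) ℂ}
    {w : Fin a → ℕ} {w' : Fin b → ℕ} {F F' : ℕ → ℂ[X]} (h : GoodC S R w F) (h' : GoodC S R' w' F') :
    GoodC S (dsum R R') (Fin.append w w') fun p => F p * F' p where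
  isOpen := by
    refine Subgroup.isOpen_mono (H₁ := R.ker ⊓ R'.ker) ?_ (h.isOpen.inter h'.isOpen)
    rintro g ⟨h1, h2⟩
    exact dsum_one _ _ h1 h2
  comm g t := by
    rw [dsum_coe, wt_append, ← B2_mul, ← B2_mul, h.comm, h'.comm]
  unram p hp hpS Q hQ hpQ τ hτ := dsum_one _ _ (h.unram p hp hpS Q hQ hpQ τ hτ)
    (h'.unram p hp hpS Q hQ hpQ τ hτ)
  frob p hp hpS Q hQ hpQ σ hσ := by
    have h1 := h.frob p hp hpS Q hQ hpQ σ hσ
    have h2 := h'.frob p hp hpS Q hQ hpQ σ hσ
    rw [dsum_coe, wt_append, ← B2_mul]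
    exact ⟨diag_B2 h1.1 h2.1, by rw [B2_charpoly, h1.2, h2.2]⟩

theorem GoodC.zero (S : Finset ℕ) : GoodC S (m := 0) 1 (fun i => i.elim0) fun _ => 1 where
  isOpen := by
    rw [MonoidHom.ker_one]
    exact isOpen_univ
  comm g t := by
    ext i
    exact i.elim0
  unram p hp hpS Q hQ hpQ τ hτ := rfl
  frob p hp hpS Q hQ hpQ σ hσ := by
    refine ⟨⟨1, fun i => i.elim0, ?_⟩, ?_⟩
    · ext i
      exact i.elim0
    · unfold Matrix.charpoly
      exact Matrix.det_isEmpty

theorem wt_const {m : ℕ} (w : ℕ) (t : ℂ) : wt (m := m) (fun _ => w) t = (t ^ w) • 1 := by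
  unfold wt
  rw [Matrix.smul_one_eq_diagonal]

/-- the part of weight `w` -/
theorem goodC_slope (S : Finset ℕ) {m n : ℕ} (R : GQ →* GL (Fin m) QBar)
    (hRo : IsOpen (R.ker : Set GQ)) (w : ℕ) (e : QBar →+* ℂ) (s : ℕ → Finset (Fin n))
    (x : ℕ → Fin n → QBar)
    (hR : ∀ p : ℕ, p.Prime → p ∉ S → Unramified R p ∧
        ∀ Q : Ideal ZBar, Q.IsMaximal → (p : ZBar) ∈ Q → ∀ σ : GQ, IsGeomFrob p Q σ →
          (R σ : Matrix (Fin m) (Fin m) QBar).charpoly =
            ∏ i ∈ s p, (X - Polynomial.C (x p i / (p : QBar) ^ w))) :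
    GoodC S ((Matrix.GeneralLinearGroup.map e).comp R) (fun _ => w)
      fun p => ∏ i ∈ s p, (X - Polynomial.C (e (x p i))) where
  isOpen := by
    rw [Pool.Agent.Y800.ker_map]
    exact hRo
  comm g t := by
    rw [wt_const, Matrix.mul_smul, Matrix.smul_mul, Matrix.mul_one, Matrix.one_mul]
  unram p hp hpS Q hQ hpQ τ hτ := by
    rw [MonoidHom.comp_apply, (hR p hp hpS).1 Q hQ hpQ τ hτ, map_one]
  frob p hp hpS Q hQ hpQ σ hσ := by
    classical
    set R' : GQ →* GL (Fin m) ℂ := (Matrix.GeneralLinearGroup.map e).comp R with hR'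
    have hR'o : IsOpen (R'.ker : Set GQ) := by
      rw [hR', Pool.Agent.Y800.ker_map]
      exact hRo
    have hfin := Pool.Agent.Y800.finite_quot R' hR'o
    obtain ⟨N, hN, hpow⟩ := Pool.Agent.Y800.exists_pow_mat R' hfin
    have hp0 : (p : ℂ) ≠ 0 := Nat.cast_ne_zero.2 hp.ne_zero
    rw [wt_const, Matrix.mul_smul, Matrix.mul_one]
    refine ⟨?_, ?_⟩
    · refine Diag.smul ?_ _
      obtain ⟨b, d, hbd⟩ := Pool.Agent.Y800.diag_of_pow_eq_one _ N hN (hpow σ)
      obtain ⟨h, hh⟩ := Pool.Agent.Y800.conj_of_basis _ b d hbd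
      exact ⟨h, d, hh⟩
    · have h2 : (R' σ : Matrix (Fin m) (Fin m) ℂ).charpoly =
          ∏ i ∈ s p, (X - Polynomial.C (e (x p i / (p : QBar) ^ w))) := by
        have h3 : (R' σ : Matrix (Fin m) (Fin m) ℂ) =
          (R σ : Matrix (Fin m) (Fin m) QBar).map e := rfl
        rw [h3, Matrix.charpoly_map, (hR p hp hpS).2 Q hQ hpQ σ hσ, Polynomial.map_prod]
        refine Finset.prod_congr rfl fun i _ => ?_
        rw [Polynomial.map_sub, Polynomial.map_X, Polynomial.map_C]
      rw [charpoly_smul' (pow_ne_zero w hp0) _ (s p) _ h2]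
      refine Finset.prod_congr rfl fun i _ => ?_
      rw [map_div₀, map_pow, map_natCast, mul_div_cancel₀ _ (pow_ne_zero w hp0)]

/-- the sum of the parts -/
theorem goodC_sum (S : Finset ℕ) {n : ℕ} (b : ℕ → Fin n → ℕ) (e : QBar →+* ℂ)
    (x : ℕ → Fin n → QBar)
    (h : ∀ w : ℕ, ∃ (m : ℕ) (R : GQ →* GL (Fin m) QBar), IsOpen (R.ker : Set GQ) ∧
      ∀ p : ℕ, p.Prime → p ∉ S → Unramified R p ∧
        ∀ Q : Ideal ZBar, Q.IsMaximal → (p : ZBar) ∈ Q → ∀ σ : GQ, IsGeomFrob p Q σ →
          (R σ : Matrix (Fin m) (Fin m) QBar).charpoly =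
            ∏ i with b p i = w, (X - Polynomial.C (x p i / (p : QBar) ^ w))) (W : ℕ) :
    ∃ (m : ℕ) (ρ : GQ →* GL (Fin m) ℂ) (w : Fin m → ℕ), GoodC S ρ w (fun p =>
      ∏ i with b p i < W, (X - Polynomial.C (e (x p i)))) := by
  classical
  induction W with
  | zero =>
    refine ⟨0, 1, fun i => i.elim0, ?_⟩
    have h1 := GoodC.zero S
    simpa using h1
  | succ W ih =>
    obtain ⟨m, ρ, w, hρ⟩ := ih
    obtain ⟨m', R, hRo, hR⟩ := h W
    have h1 := goodC_slope S R hRo W e (fun p => Finset.univ.filter fun i => b p i = W) x hR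
    have h2 := hρ.dsum h1
    have hsplit : ∀ p : ℕ, (Finset.univ.filter fun i => b p i < W + 1) =
        (Finset.univ.filter fun i => b p i < W) ∪ (Finset.univ.filter fun i => b p i = W) := by
      intro p
      ext i
      simp only [Finset.mem_filter, Finset.mem_univ, true_and, Finset.mem_union]
      omega
    have hdisj : ∀ p : ℕ, Disjoint (Finset.univ.filter fun i => b p i < W)
        (Finset.univ.filter fun i => b p i = W) := by
      intro p
      rw [Finset.disjoint_filter]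
      intro i _ h3
      omega
    refine ⟨m + m', Pool.Agent.H500.MW.dsum ρ ((Matrix.GeneralLinearGroup.map e).comp R),
      Fin.append w fun _ => W, ?_⟩
    convert h2 using 2 with p
    rw [hsplit, Finset.prod_union (hdisj p)]

/-- **Families with small residual projective images are of Artin type with weights.** -/
theorem artin_type {E : Type} [Field E] [NumberField E] {n : ℕ} (τ : E →+* ℂ) (S : Finset ℕ)
    (P : ℕ → (𝓞 E)[X]) (α : ℕ → Fin n → ℂ)
    (hP : ∀ p : ℕ, p.Prime → p ∉ S → (P p).map (τ.comp (algebraMap (𝓞 E) E)) =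
      ∏ i, (X - Polynomial.C (α p i))) (C : ℕ) {Λ : HeightOneSpectrum (𝓞 E) → Prop}
    (hΛ : PosUD Λ) (hres : ∀ v, Λ v → SmallProj P S C v) :
    ∃ (R : GQ →* GL (Fin n) ℂ) (w : Fin n → ℕ),
      GoodC S R w fun p => ∏ i, (X - Polynomial.C (α p i)) := by
  classical
  obtain ⟨j, e, hje⟩ : ∃ (j : E →+* QBar) (e : QBar →+* ℂ), e.comp j = τ := by
    let j : E →ₐ[ℚ] QBar := IsAlgClosed.lift
    let _ : Algebra E QBar := (j : E →+* QBar).toAlgebra
    let _ : Algebra E ℂ := τ.toAlgebra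
    have _ : IsScalarTower ℚ E QBar := IsScalarTower.of_algebraMap_eq fun x => by
      exact (j.commutes x).symm
    have _ : Algebra.IsAlgebraic E QBar := by
      constructor
      intro x
      exact (Pool.Agent.Y800.isAlgebraic_gen ℚ x).tower_top E
    let e : QBar →ₐ[E] ℂ := IsAlgClosed.lift
    refine ⟨j, e, ?_⟩
    ext x
    exact e.commutes x
  have hroots : ∀ p : ℕ, ∃ β : Fin n → ZBar, p.Prime → p ∉ S →
      (P p).map (RingOfIntegers.mapRingHom j) = ∏ i, (X - Polynomial.C (β i)) ∧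
      ∀ i, e (β i : QBar) = α p i := by
    intro p
    by_cases h : p.Prime ∧ p ∉ S
    · obtain ⟨hp, hpS⟩ := h
      have hinjτ : Function.Injective (τ.comp (algebraMap (𝓞 E) E)) :=
        τ.injective.comp RingOfIntegers.coe_injective
      have hPm : (P p).Monic := by
        refine Polynomial.monic_of_injective hinjτ ?_
        rw [hP p hp hpS]
        exact monic_prod_of_monic _ _ fun i _ => monic_X_sub_C _
      have h0 : (((P p).map (j.comp (algebraMap (𝓞 E) E))).map e) =
          ∏ i, (X - Polynomial.C (α p i)) := by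
        rw [Polynomial.map_map, ← hP p hp hpS, ← hje]
        rfl
      have h1 : ((P p).map (j.comp (algebraMap (𝓞 E) E))).roots.map e =
          Finset.univ.val.map (α p) := by
        have h2 := (IsAlgClosed.splits ((P p).map (j.comp (algebraMap (𝓞 E) E)))).roots_map e
        rw [h0] at h2
        rw [← h2]
        have : ∏ i, (X - Polynomial.C (α p i)) =
            ((Finset.univ.val.map (α p)).map fun a => X - Polynomial.C a).prod := by
          rw [Multiset.map_map]; rfl
        rw [this, Polynomial.roots_multiset_prod_X_sub_C]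
      have h2 : ∀ i, ∃ y : QBar, e y = α p i ∧ ((P p).map (j.comp (algebraMap (𝓞 E) E))).IsRoot y := by
        intro i
        have h3 : α p i ∈ ((P p).map (j.comp (algebraMap (𝓞 E) E))).roots.map e := by
          rw [h1]
          exact Multiset.mem_map_of_mem _ (Finset.mem_univ_val i)
        obtain ⟨y, hy, hye⟩ := Multiset.mem_map.1 h3
        exact ⟨y, hye, (Polynomial.mem_roots'.1 hy).2⟩
      choose y hy hyr using h2
      have hprod : (P p).map (j.comp (algebraMap (𝓞 E) E)) = ∏ i, (X - Polynomial.C (y i)) := by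
        apply Polynomial.map_injective e e.injective
        rw [h0, Polynomial.map_prod]
        refine Finset.prod_congr rfl fun i _ => ?_
        rw [Polynomial.map_sub, Polynomial.map_X, Polynomial.map_C, hy]
      have hint : ∀ i, IsIntegral ℤ (y i) := by
        intro i
        let _ : Algebra (𝓞 E) QBar := (j.comp (algebraMap (𝓞 E) E)).toAlgebra
        have h3 : IsIntegral (𝓞 E) (y i) := by
          refine ⟨P p, hPm, ?_⟩
          have h4 := hyr i
          rw [IsRoot, eval_map] at h4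
          exact h4
        have _ : IsScalarTower ℤ (𝓞 E) QBar := IsScalarTower.of_algebraMap_eq fun z => by
          simp
        exact isIntegral_trans (R := ℤ) (A := 𝓞 E) (y i) h3
      have hz : ∀ i, ∃ z : ZBar, (z : QBar) = y i := fun i => ⟨⟨y i, hint i⟩, rfl⟩
      choose z hz using hz
      refine ⟨z, fun _ _ => ⟨?_, fun i => by rw [hz i]; exact hy i⟩⟩
      apply Polynomial.map_injective (algebraMap ZBar QBar) RingOfIntegers.coe_injective
      rw [Polynomial.map_map, Polynomial.map_prod]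
      refine Eq.trans ?_ (hprod.trans ?_)
      · rfl
      · refine Finset.prod_congr rfl fun i _ => ?_
        rw [Polynomial.map_sub, Polynomial.map_X, Polynomial.map_C, ← hz i]
    · exact ⟨0, fun h1 h2 => absurd ⟨h1, h2⟩ h⟩
  choose β hβ using hroots
  obtain ⟨N, b, W, hN, hpow, hperm, hW, hslope⟩ := core j P S β
    (fun p hp hpS => (hβ p hp hpS).1) C hΛ hres
  obtain ⟨m, ρ, w, hg⟩ := goodC_sum S b e (fun p i => (β p i : QBar)) hslope W
  have hall : ∀ p : ℕ, p.Prime → p ∉ S →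
      ∏ i with b p i < W, (X - Polynomial.C (e (β p i : QBar))) = ∏ i, (X - Polynomial.C (α p i)) := by
    intro p hp hpS
    rw [Finset.filter_true_of_mem fun i _ => hW p hp hpS i]
    refine Finset.prod_congr rfl fun i _ => ?_
    rw [(hβ p hp hpS).2 i]
  have hmn : m = n := by
    obtain ⟨p, hp, hpS⟩ := exists_good_prime S
    obtain ⟨Q, σ, hQ, hpQ, hσ⟩ := Pool.Agent.Y800.exists_geom hp
    have h1 := congrArg natDegree ((((hg.frob p hp hpS) Q hQ hpQ σ hσ).2).trans (hall p hp hpS))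
    rw [natDegree_prod_of_monic _ _ (fun i _ => monic_X_sub_C _)] at h1
    simpa using h1
  subst hmn
  exact ⟨ρ, w, hg.isOpen, hg.comm, hg.unram, fun p hp hpS Q hQ hpQ σ hσ =>
    ⟨((hg.frob p hp hpS) Q hQ hpQ σ hσ).1, (((hg.frob p hp hpS) Q hQ hpQ σ hσ).2).trans (hall p hp hpS)⟩⟩

end Pool.Agent.H500.ML
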