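import Pool.Agent.H500.MLA

set_option autoImplicit false
set_option linter.unusedSectionVars false

/-!
# Algebraic representations of the general linear group on a one-parameter subgroup
-/

namespace Pool.Agent.H500.ML

open Polynomial

/-- `r` is an algebraic representation of `GL_n`: the entries of `r g` are polynomials in the entries
of `g` and `(det g)⁻¹` -/
def Algebraic {n m : ℕ} (r : GL (Fin n) ℂ →* GL (Fin m) ℂ) : Prop :=
  ∀ a b : Fin m, ∃ (f : MvPolynomial (Fin n × Fin n) ℂ) (k : ℕ), ∀ g : GL (Fin n) ℂ,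
    (r g : Matrix (Fin m) (Fin m) ℂ) a b =
      MvPolynomial.eval (fun ij => (g : Matrix (Fin n) (Fin n) ℂ) ij.1 ij.2) f /
        (g : Matrix (Fin n) (Fin n) ℂ).det ^ k

/-- polynomials with matrix coefficients are determined by their values -/
theorem coeff_eq {a : Type} (D : ℕ) (A A' : ℕ → Matrix a a ℂ)
    (h : ∀ t : ℂ, t ≠ 0 → ∑ j ∈ Finset.range D, t ^ j • A j = ∑ j ∈ Finset.range D, t ^ j • A' j)
    {j : ℕ} (hj : j < D) : A j = A' j := by
  ext x y
  set p : ℂ[X] := ∑ j ∈ Finset.range D, Polynomial.C (A j x y - A' j x y) * X ^ j with hp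
  have h0 : p = 0 := by
    apply Polynomial.eq_zero_of_infinite_isRoot
    refine Set.Infinite.mono (s := {t : ℂ | t ≠ 0}) ?_ ?_
    · intro t ht
      have h1 := congrFun (congrFun (h t ht) x) y
      rw [Matrix.sum_apply, Matrix.sum_apply] at h1
      rw [Set.mem_ofPred_eq, Polynomial.IsRoot.def, hp, Polynomial.eval_finsetSum]
      simp only [eval_mul, eval_C, eval_pow, eval_X, sub_mul, Finset.sum_sub_distrib]
      simp only [Matrix.smul_apply, smul_eq_mul] at h1
      rw [sub_eq_zero]
      rw [Finset.sum_congr rfl fun j _ => mul_comm (A j x y) (t ^ j),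
        Finset.sum_congr rfl fun j _ => mul_comm (A' j x y) (t ^ j)]
      exact h1
    · exact (Set.finite_singleton (0 : ℂ)).infinite_compl
  have h2 : p.coeff j = A j x y - A' j x y := by
    rw [hp, Polynomial.finsetSum_coeff]
    simp only [coeff_C_mul, coeff_X_pow, mul_ite, mul_one, mul_zero]
    rw [Finset.sum_ite_eq (Finset.range D) j, if_pos (Finset.mem_range.2 hj)]
  rw [h0, coeff_zero] at h2
  exact (sub_eq_zero.1 h2.symm)

/-- the decomposition of the space of `r` under the one-parameter subgroup `μ` -/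
structure Wts {m : ℕ} (μ : ℂˣ →* GL (Fin m) ℂ) where
  D : ℕ
  K : ℕ
  B : ℕ → Matrix (Fin m) (Fin m) ℂ
  sum : ∀ t : ℂˣ, (t : ℂ) ^ K • (μ t : Matrix (Fin m) (Fin m) ℂ) =
    ∑ j ∈ Finset.range D, (t : ℂ) ^ j • B j
  idem : ∀ i j, i < D → j < D → B i * B j = if i = j then B i else 0
  comm : ∀ N : Matrix (Fin m) (Fin m) ℂ, (∀ t, N * (μ t : Matrix (Fin m) (Fin m) ℂ) = μ t * N) →
    ∀ j, j < D → N * B j = B j * N

/-- the one-parameter subgroup `t ↦ diag(t ^ w i)` -/
noncomputable def wtU {n : ℕ} (w : Fin n → ℕ) : ℂˣ →* GL (Fin n) ℂ :=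
  MonoidHom.toHomUnits
    { toFun := fun t => wt w t
      map_one' := by
        unfold wt
        simp
      map_mul' := fun s t => by
        unfold wt
        rw [Matrix.diagonal_mul_diagonal]
        congr 1
        ext i
        rw [Units.val_mul, mul_pow] }

theorem wtU_coe {n : ℕ} (w : Fin n → ℕ) (t : ℂˣ) :
    (wtU w t : Matrix (Fin n) (Fin n) ℂ) = wt w t := rfl

theorem exists_wts {n m : ℕ} (r : GL (Fin n) ℂ →* GL (Fin m) ℂ) (hr : Algebraic r)
    (w : Fin n → ℕ) : Nonempty (Wts (r.comp (wtU w))) := by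
  classical
  choose f k hf using hr
  -- the entries are Laurent polynomials
  set q : Fin m → Fin m → ℂ[X] := fun a b =>
    MvPolynomial.aeval (fun ij : Fin n × Fin n => if ij.1 = ij.2 then (X : ℂ[X]) ^ w ij.1 else 0)
      (f a b) with hq
  set W := ∑ i, w i with hW
  have hdet : ∀ t : ℂ, (wt w t).det = t ^ W := by
    intro t
    unfold wt
    rw [Matrix.det_diagonal, Finset.prod_pow_eq_pow_sum]
  have hent : ∀ (t : ℂˣ) a b, ((r.comp (wtU w)) t : Matrix (Fin m) (Fin m) ℂ) a b =
      (q a b).eval (t : ℂ) / (t : ℂ) ^ (W * k a b) := by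
    intro t a b
    rw [MonoidHom.comp_apply, hf, wtU_coe, hdet, ← pow_mul]
    congr 1
    rw [hq]
    simp only
    rw [MvPolynomial.aeval_def, ← Polynomial.coe_evalRingHom, MvPolynomial.hom_eval₂]
    have h1 : (Polynomial.evalRingHom (t : ℂ)).comp (algebraMap ℂ ℂ[X]) = RingHom.id ℂ := by
      ext x
      simp
    rw [h1, MvPolynomial.eval₂_id]
    congr 1
    congr 1
    ext ij
    unfold wt
    rw [Matrix.diagonal_apply]
    split_ifs <;> simp
  set K := ∑ a, ∑ b, W * k a b with hK
  have hle : ∀ a b, W * k a b ≤ K := by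
    intro a b
    calc W * k a b ≤ ∑ b, W * k a b :=
          Finset.single_le_sum (f := fun b => W * k a b) (fun _ _ => Nat.zero_le _) (Finset.mem_univ b)
      _ ≤ K := Finset.single_le_sum (f := fun a => ∑ b, W * k a b) (fun _ _ => Nat.zero_le _)
          (Finset.mem_univ a)
  set q' : Fin m → Fin m → ℂ[X] := fun a b => q a b * X ^ (K - W * k a b) with hq'
  set D := ∑ a, ∑ b, ((q' a b).natDegree + 1) with hD
  have hdeg : ∀ a b, (q' a b).natDegree < D := by
    intro a b
    calc (q' a b).natDegree < (q' a b).natDegree + 1 := Nat.lt_succ_self _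
      _ ≤ ∑ b, ((q' a b).natDegree + 1) :=
          Finset.single_le_sum (f := fun b => (q' a b).natDegree + 1) (fun _ _ => Nat.zero_le _)
            (Finset.mem_univ b)
      _ ≤ D := Finset.single_le_sum (f := fun a => ∑ b, ((q' a b).natDegree + 1))
          (fun _ _ => Nat.zero_le _) (Finset.mem_univ a)
  set B : ℕ → Matrix (Fin m) (Fin m) ℂ := fun j => Matrix.of fun a b => (q' a b).coeff j with hB
  have hsum : ∀ t : ℂˣ, (t : ℂ) ^ K • ((r.comp (wtU w)) t : Matrix (Fin m) (Fin m) ℂ) =
      ∑ j ∈ Finset.range D, (t : ℂ) ^ j • B j := by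
    intro t
    ext a b
    rw [Matrix.smul_apply, hent, Matrix.sum_apply]
    simp only [Matrix.smul_apply, hB, Matrix.of_apply, smul_eq_mul]
    have h1 : (q' a b).eval (t : ℂ) = ∑ j ∈ Finset.range D, (t : ℂ) ^ j * (q' a b).coeff j := by
      rw [Polynomial.eval_eq_sum_range' (hdeg a b)]
      exact Finset.sum_congr rfl fun _ _ => mul_comm _ _
    rw [← h1, hq']
    simp only [eval_mul, eval_pow, eval_X]
    have ht : (t : ℂ) ≠ 0 := t.ne_zero
    have h2 : (t : ℂ) ^ K = (t : ℂ) ^ (W * k a b) * (t : ℂ) ^ (K - W * k a b) := by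
      rw [← pow_add, Nat.add_sub_cancel' (hle a b)]
    rw [h2]
    field_simp
  have hmul : ∀ s t : ℂˣ, ∑ j ∈ Finset.range D, ((s : ℂ) * (t : ℂ)) ^ j • B j =
      (∑ j ∈ Finset.range D, (s : ℂ) ^ j • B j) * ∑ j ∈ Finset.range D, (t : ℂ) ^ j • B j := by
    intro s t
    rw [← hsum, ← hsum, ← Units.val_mul, ← hsum, map_mul, Units.val_mul, Units.val_mul, mul_pow,
      Matrix.smul_mul, Matrix.mul_smul, smul_smul]
  refine ⟨⟨D, K, B, hsum, fun i j hi hj => ?_, fun N hN j hj => ?_⟩⟩
  · have h1 : ∀ t : ℂ, t ≠ 0 → ∀ i, i < D → t ^ i • B i = B i * ∑ j ∈ Finset.range D, t ^ j • B j := by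
      intro t ht i hi
      refine coeff_eq D (fun i => t ^ i • B i) (fun i => B i * ∑ j ∈ Finset.range D, t ^ j • B j) ?_ hi
      intro s hs
      have h2 := hmul (Units.mk0 s hs) (Units.mk0 t ht)
      rw [Units.val_mk0, Units.val_mk0, Finset.sum_mul] at h2
      simp only [smul_smul]
      rw [Finset.sum_congr rfl fun j _ => by rw [← mul_pow], h2]
      exact Finset.sum_congr rfl fun j _ => Matrix.smul_mul _ _ _
    have h3 := coeff_eq D (fun j => if i = j then B i else 0) (fun j => B i * B j) (fun t ht => by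
      have h4 := h1 t ht i hi
      rw [Finset.mul_sum] at h4
      rw [Finset.sum_congr rfl (g := fun j => t ^ j • (B i * B j)) (fun j _ => rfl)]
      rw [Finset.sum_congr rfl fun j (_ : j ∈ Finset.range D) => (Matrix.mul_smul _ _ _)] at h4
      rw [← h4]
      rw [Finset.sum_congr rfl (g := fun j => if i = j then t ^ j • B i else 0) fun j _ => by
        split_ifs
        · rfl
        · exact smul_zero _]
      rw [Finset.sum_ite_eq (Finset.range D) i, if_pos (Finset.mem_range.2 hi)]) hj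
    exact h3.symm
  · refine coeff_eq D (fun j => N * B j) (fun j => B j * N) (fun t ht => ?_) hj
    have h1 := hN (Units.mk0 t ht)
    have h2 := hsum (Units.mk0 t ht)
    rw [Units.val_mk0] at h2
    have h3 : N * (∑ j ∈ Finset.range D, t ^ j • B j) = (∑ j ∈ Finset.range D, t ^ j • B j) * N := by
      rw [← h2, Matrix.mul_smul, Matrix.smul_mul, h1]
    rw [Finset.mul_sum, Finset.sum_mul] at h3
    rw [Finset.sum_congr rfl fun j (_ : j ∈ Finset.range D) => (Matrix.mul_smul N (t ^ j) (B j)).symm,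
      h3]
    exact Finset.sum_congr rfl fun j _ => Matrix.smul_mul _ _ _

end Pool.Agent.H500.ML
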