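import Pool.Agent.H500.MLB
import Pool.Graph.R_pool_sql_team_seeded_3997aac3.Q92.AR.All

set_option autoImplicit false
set_option linter.unusedSectionVars false

/-!
# Characters of summands and the continuation of their Artin L-functions
-/

namespace Pool.Agent.H500.ML

open NumberField IsDedekindDomain Filter Topology
open Pool.Agent.H541R3.ART (Irr irrF mem_irrF)
open Pool.Agent.Q92.AR (artinL Continues artinL_sum)

section
variable {G : Type} [Group G] [Finite G] {ι : Type} [Fintype ι] [DecidableEq ι]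

/-- the representation on the space of column vectors -/
noncomputable def matRep (T : G →* Matrix ι ι ℂ) : Representation ℂ G (ι → ℂ) :=
  (Matrix.toLinAlgEquiv' : Matrix ι ι ℂ ≃ₐ[ℂ] _).toMonoidHom.comp T

theorem matRep_apply (T : G →* Matrix ι ι ℂ) (g : G) : matRep T g = Matrix.toLin' (T g) := rfl

/-- the range of a commuting idempotent -/
noncomputable def rangeRep (T : G →* Matrix ι ι ℂ) (P : Matrix ι ι ℂ) (hc : ∀ g, T g * P = P * T g) :
    Representation ℂ G (LinearMap.range (Matrix.toLin' P)) where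
  toFun g := (Matrix.toLin' (T g)).restrict (p := LinearMap.range (Matrix.toLin' P))
    (q := LinearMap.range (Matrix.toLin' P)) (by
      rintro _ ⟨y, rfl⟩
      refine ⟨Matrix.toLin' (T g) y, ?_⟩
      rw [← LinearMap.comp_apply, ← LinearMap.comp_apply, ← Matrix.toLin'_mul, ← Matrix.toLin'_mul, hc])
  map_one' := by
    ext x
    simp
  map_mul' g h := by
    ext x
    simp

theorem rangeRep_char (T : G →* Matrix ι ι ℂ) (P : Matrix ι ι ℂ) (hP : P * P = P)
    (hc : ∀ g, T g * P = P * T g) (g : G) :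
    (rangeRep T P hc).character g = (T g * P).trace := by
  set W := LinearMap.range (Matrix.toLin' P) with hW
  let pr : (ι → ℂ) →ₗ[ℂ] W := (Matrix.toLin' P).rangeRestrict
  let inc : W →ₗ[ℂ] (ι → ℂ) := (Matrix.toLin' (T g)).comp W.subtype
  have h1 : inc.comp pr = Matrix.toLin' (T g * P) := by
    rw [Matrix.toLin'_mul]
    rfl
  have h2 : pr.comp inc = rangeRep T P hc g := by
    ext x i
    obtain ⟨x, y, rfl⟩ := x
    show (Matrix.toLin' P) ((Matrix.toLin' (T g)) ((Matrix.toLin' P) y)) i =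
      (Matrix.toLin' (T g)) ((Matrix.toLin' P) y) i
    rw [← LinearMap.comp_apply, ← LinearMap.comp_apply, ← Matrix.toLin'_mul, ← Matrix.toLin'_mul,
      ← LinearMap.comp_apply, ← Matrix.toLin'_mul, ← hc, Matrix.mul_assoc, hP]
  have h3 : LinearMap.trace ℂ _ (inc.comp pr) = LinearMap.trace ℂ _ (pr.comp inc) :=
    LinearMap.trace_comp_comm' pr inc
  show LinearMap.trace ℂ _ (rangeRep T P hc g) = _
  rw [← h2, ← h3, h1, ← Matrix.trace_toLin'_eq]

/-- natural multiplicities -/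
theorem exists_mult_rep {V : Type} [AddCommGroup V] [Module ℂ V] [FiniteDimensional ℂ V]
    (σ : Representation ℂ G V) :
    ∃ m : (G → ℂ) → ℕ, ∀ g, σ.character g = ∑ χ ∈ irrF G, (m χ : ℂ) * χ g := by
  classical
  have : Fintype G := Fintype.ofFinite G
  have hG : (Nat.card G : ℂ) ≠ 0 := by exact_mod_cast Nat.card_pos.ne'
  have : Invertible (Nat.card G : ℂ) := invertibleOfNonzero hG
  have h : ∀ χ ∈ Irr G, ∃ m : ℕ, ∑ g, σ.character g * χ g⁻¹ = (m : ℂ) * Nat.card G := by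
    rintro χ ⟨n, ρ, hρ, rfl⟩
    have h := Representation.card_inv_mul_sum_char_mul_char_eq_finrank ρ σ
    refine ⟨Module.finrank ℂ (Representation.IntertwiningMap ρ σ), ?_⟩
    rw [← h]
    field_simp
  have h' : ∀ χ, ∃ m : ℕ, χ ∈ Irr G → ∑ g, σ.character g * χ g⁻¹ = (m : ℂ) * Nat.card G := by
    intro χ
    by_cases hχ : χ ∈ Irr G
    · obtain ⟨m, hm⟩ := h χ hχ
      exact ⟨m, fun _ => hm⟩
    · exact ⟨0, fun h => absurd h hχ⟩
  choose m hm using h'
  refine ⟨m, fun g => ?_⟩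
  exact Pool.Agent.Q92.RT.class_expand (fun g x => σ.char_conj g x) (fun χ hχ => hm χ hχ) g

/-- the functions `g ↦ tr(T(g)⁻¹ P)` are characters -/
theorem exists_mult_inv (T : G →* Matrix ι ι ℂ) (P : Matrix ι ι ℂ) (hP : P * P = P)
    (hc : ∀ g, T g * P = P * T g) :
    ∃ m : (G → ℂ) → ℕ, ∀ g, (T g⁻¹ * P).trace = ∑ χ ∈ irrF G, (m χ : ℂ) * χ g := by
  obtain ⟨m, hm⟩ := exists_mult_rep (rangeRep T P hc).dual
  refine ⟨m, fun g => ?_⟩
  rw [← hm g, Representation.char_dual, rangeRep_char T P hP hc]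

end

/-- **continuation** for natural combinations of irreducible characters -/
theorem continues_of_mult {M : Type} [Field M] [NumberField M] [Algebra ℚ M] [IsGalois ℚ M]
    (φ : (M ≃ₐ[ℚ] M) → ℂ) (m : ((M ≃ₐ[ℚ] M) → ℂ) → ℕ)
    (h : ∀ g, φ g = ∑ χ ∈ irrF (M ≃ₐ[ℚ] M), (m χ : ℂ) * χ g) :
    ∃ f, Continues f (artinL (K := ℚ) M φ) := by
  have hc := Pool.Agent.Q92.AR.continued (K := ℚ) (M := M) (s₀ := 2) (by norm_num) (by norm_num)
  have h1 : ∀ χ, ∃ f : ℂ → ℂ, χ ∈ Irr (M ≃ₐ[ℚ] M) → Continues f (artinL (K := ℚ) M χ) := by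
    intro χ
    by_cases hχ : χ ∈ Irr (M ≃ₐ[ℚ] M)
    · obtain ⟨f, hf⟩ := hc.brauer χ hχ
      exact ⟨f, fun _ => hf⟩
    · exact ⟨0, fun h => absurd h hχ⟩
  choose F hF using h1
  refine ⟨fun s => ∏ χ ∈ irrF (M ≃ₐ[ℚ] M), F χ s ^ m χ, fun s hs => ?_, fun s hs => ?_⟩
  · exact MeromorphicAt.fun_prod fun χ hχ => ((hF χ (mem_irrF.1 hχ)).1 s hs).fun_pow _
  · have h2 : φ = fun g => ∑ χ ∈ irrF (M ≃ₐ[ℚ] M), (m χ : ℂ) * χ g := funext h
    rw [h2, artinL_sum _ m (fun χ => χ) hs]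
    exact Finset.prod_congr rfl fun χ hχ => by rw [(hF χ (mem_irrF.1 hχ)).2 s hs]

end Pool.Agent.H500.ML
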