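import Pool.Agent.H500.MLC
import Pool.Graph.R_seed8.W63.HS.TR

set_option autoImplicit false
set_option linter.unusedSectionVars false

/-!
# Logarithms of Euler factors
-/

namespace Pool.Agent.H500.ML

open Filter Topology Polynomial

section
variable {ι : Type} [Fintype ι] [DecidableEq ι]

theorem det_one_sub (N : Matrix ι ι ℂ) (x : ℂ) :
    (1 - x • N).det = (N.charpoly.roots.map fun a => 1 - a * x).prod := by
  by_cases hx : x = 0
  · subst hx
    simp
  · have h1 : 1 - x • N = x • (Matrix.scalar ι x⁻¹ - N) := by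
      rw [smul_sub, Matrix.scalar_apply, ← Matrix.smul_one_eq_diagonal, smul_smul,
        mul_inv_cancel₀ hx, one_smul]
    rw [h1, Matrix.det_smul, Pool.Agent.W63.HS.TR.det_scalar_sub,
      ← Pool.Agent.W63.HS.TR.card_roots' N]
    have h2 : ∀ s : Multiset ℂ, x ^ s.card * (s.map fun a => x⁻¹ - a).prod =
        (s.map fun a => 1 - a * x).prod := by
      intro s
      induction s using Multiset.induction_on with
      | empty => simp
      | cons a s ih =>
        rw [Multiset.card_cons, Multiset.map_cons, Multiset.prod_cons, Multiset.map_cons,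
          Multiset.prod_cons, ← ih]
        field_simp
        ring
    exact h2 _

theorem hasSum_mlog (x : ℂ) (s : Multiset ℂ) (hs : ∀ a ∈ s, ‖a * x‖ < 1) :
    HasSum (fun k : ℕ => (s.map fun a => a ^ (k + 1)).sum * x ^ (k + 1) / ((k + 1 : ℕ) : ℂ))
      (s.map fun a => -Complex.log (1 - a * x)).sum := by
  induction s using Multiset.induction_on with
  | empty => simp
  | cons a s ih =>
    have h1 := Pool.Agent.Q92.AR.hasSum_log (hs a (Multiset.mem_cons_self a s))
    have h2 := ih fun b hb => hs b (Multiset.mem_cons_of_mem hb)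
    rw [Multiset.map_cons, Multiset.sum_cons]
    refine (h1.add h2).congr_fun fun k => ?_
    rw [Multiset.map_cons, Multiset.sum_cons, mul_pow, add_mul, add_div]

theorem exp_mlog (x : ℂ) (s : Multiset ℂ) (hs : ∀ a ∈ s, ‖a * x‖ < 1) :
    Complex.exp (s.map fun a => -Complex.log (1 - a * x)).sum =
      ((s.map fun a => 1 - a * x).prod)⁻¹ := by
  induction s using Multiset.induction_on with
  | empty => simp
  | cons a s ih =>
    have h2 := ih fun b hb => hs b (Multiset.mem_cons_of_mem hb)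
    rw [Multiset.map_cons, Multiset.sum_cons, Complex.exp_add, h2, Multiset.map_cons,
      Multiset.prod_cons, Complex.exp_neg, Complex.exp_log
      (Pool.Agent.Q92.AR.one_sub_ne (hs a (Multiset.mem_cons_self a s))), mul_inv]

theorem hasSum_logdet (N : Matrix ι ι ℂ) (x : ℂ) (hx : ∀ a ∈ N.charpoly.roots, ‖a * x‖ < 1) :
    ∃ L, HasSum (fun k : ℕ => (N ^ (k + 1)).trace * x ^ (k + 1) / ((k + 1 : ℕ) : ℂ)) L ∧
      Complex.exp L = ((1 - x • N).det)⁻¹ := by
  refine ⟨_, ?_, (exp_mlog x _ hx).trans (by rw [det_one_sub])⟩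
  refine (hasSum_mlog x _ hx).congr_fun fun k => ?_
  rw [Pool.Agent.W63.HS.TR.trace_pow N k.succ_ne_zero]

theorem det_ne_zero_of (N : Matrix ι ι ℂ) (x : ℂ) (hx : ∀ a ∈ N.charpoly.roots, ‖a * x‖ < 1) :
    (1 - x • N).det ≠ 0 := by
  rw [det_one_sub]
  apply Multiset.prod_ne_zero
  intro h
  obtain ⟨a, ha, h0⟩ := Multiset.mem_map.1 h
  exact Pool.Agent.Q92.AR.one_sub_ne (hx a ha) h0

/-- powers of a combination of orthogonal idempotents -/
theorem idem_pow {D : ℕ} {B : ℕ → Matrix ι ι ℂ}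
    (hB : ∀ i j, i < D → j < D → B i * B j = if i = j then B i else 0) (c : ℕ → ℂ) (k : ℕ) :
    (∑ j ∈ Finset.range D, c j • B j) ^ (k + 1) = ∑ j ∈ Finset.range D, c j ^ (k + 1) • B j := by
  induction k with
  | zero => simp
  | succ k ih =>
    rw [pow_succ, ih, Finset.sum_mul]
    refine Finset.sum_congr rfl fun i hi => ?_
    rw [Finset.mul_sum, Finset.sum_eq_single i]
    · rw [Matrix.smul_mul, Matrix.mul_smul, hB i i (Finset.mem_range.1 hi) (Finset.mem_range.1 hi),
        if_pos rfl, smul_smul, ← pow_succ]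
    · intro j hj hji
      rw [Matrix.smul_mul, Matrix.mul_smul, hB i j (Finset.mem_range.1 hi) (Finset.mem_range.1 hj),
        if_neg (Ne.symm hji), smul_zero, smul_zero]
    · intro h
      exact absurd hi h

theorem trace_pow_mul {D K : ℕ} {B : ℕ → Matrix ι ι ℂ}
    (hB : ∀ i j, i < D → j < D → B i * B j = if i = j then B i else 0) {T U : Matrix ι ι ℂ} {t : ℂ}
    (hU : t ^ K • U = ∑ j ∈ Finset.range D, t ^ j • B j) (hTU : T * U = U * T) (k : ℕ) :
    (t ^ K) ^ (k + 1) * ((T * U) ^ (k + 1)).trace =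
      ∑ j ∈ Finset.range D, (t ^ j) ^ (k + 1) * (T ^ (k + 1) * B j).trace := by
  have h1 : (T * U) ^ (k + 1) = T ^ (k + 1) * U ^ (k + 1) := (show Commute T U from hTU).mul_pow _
  rw [h1, ← smul_eq_mul, ← Matrix.trace_smul, ← Matrix.mul_smul, ← _root_.smul_pow, hU, idem_pow hB,
    Finset.mul_sum, Matrix.trace_sum]
  refine Finset.sum_congr rfl fun j _ => ?_
  rw [Matrix.mul_smul, Matrix.trace_smul, smul_eq_mul]

theorem eig_pow {D K : ℕ} {B : ℕ → Matrix ι ι ℂ}
    (hB : ∀ i j, i < D → j < D → B i * B j = if i = j then B i else 0)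
    (hB1 : ∑ j ∈ Finset.range D, B j = 1) {T U : Matrix ι ι ℂ} {t : ℂ}
    (hU : t ^ K • U = ∑ j ∈ Finset.range D, t ^ j • B j) (hTU : T * U = U * T) {o : ℕ}
    (hT : T ^ (o + 1) = 1) {a : ℂ} (ha : a ∈ (T * U).charpoly.roots) :
    ∃ j < D, (t ^ K * a) ^ (o + 1) = (t ^ j) ^ (o + 1) := by
  have h0 : (Matrix.scalar ι a - T * U).det = 0 := by
    rw [← Matrix.eval_charpoly]
    exact (Polynomial.mem_roots'.1 ha).2
  obtain ⟨v, hv, hv0⟩ := Matrix.exists_mulVec_eq_zero_iff.2 h0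
  have h1 : (T * U).mulVec v = a • v := by
    rw [Matrix.sub_mulVec, sub_eq_zero, Matrix.scalar_apply, ← Matrix.smul_one_eq_diagonal,
      Matrix.smul_mulVec, Matrix.one_mulVec] at hv0
    exact hv0.symm
  have h2 : ∀ k : ℕ, ((T * U) ^ k).mulVec v = a ^ k • v := by
    intro k
    induction k with
    | zero => simp
    | succ k ih =>
      rw [pow_succ', ← Matrix.mulVec_mulVec, ih, Matrix.mulVec_smul, h1, smul_smul, ← pow_succ]
  have h3 : (t ^ K) ^ (o + 1) • (T * U) ^ (o + 1) =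
      ∑ j ∈ Finset.range D, (t ^ j) ^ (o + 1) • B j := by
    rw [(show Commute T U from hTU).mul_pow, hT, one_mul, ← _root_.smul_pow, hU, idem_pow hB]
  have h4 : (t ^ K * a) ^ (o + 1) • v = ∑ j ∈ Finset.range D, (t ^ j) ^ (o + 1) • (B j).mulVec v := by
    have h5 := congrArg (fun M : Matrix ι ι ℂ => M.mulVec v) h3
    rw [Matrix.smul_mulVec, h2, smul_smul, ← mul_pow, Matrix.sum_mulVec] at h5
    rw [h5]
    exact Finset.sum_congr rfl fun j _ => Matrix.smul_mulVec _ _ _
  obtain ⟨j, hj, hj0⟩ : ∃ j < D, (B j).mulVec v ≠ 0 := by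
    by_contra hcon
    push Not at hcon
    apply hv
    rw [← Matrix.one_mulVec v, ← hB1, Matrix.sum_mulVec]
    exact Finset.sum_eq_zero fun j hj => hcon j (Finset.mem_range.1 hj)
  refine ⟨j, hj, ?_⟩
  have h6 := congrArg (fun w => (B j).mulVec w) h4
  rw [Matrix.mulVec_smul, Matrix.mulVec_sum, Finset.sum_eq_single j] at h6
  · rw [Matrix.mulVec_smul, Matrix.mulVec_mulVec, hB j j hj hj, if_pos rfl] at h6
    exact smul_left_injective ℂ hj0 h6
  · intro i hi hij
    rw [Matrix.mulVec_smul, Matrix.mulVec_mulVec, hB j i hj (Finset.mem_range.1 hi),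
      if_neg (Ne.symm hij), Matrix.zero_mulVec, smul_zero]
  · intro h
    exact absurd (Finset.mem_range.2 hj) h

/-- the bound for the eigenvalues -/
theorem eig_bound {D K : ℕ} {B : ℕ → Matrix ι ι ℂ}
    (hB : ∀ i j, i < D → j < D → B i * B j = if i = j then B i else 0)
    (hB1 : ∑ j ∈ Finset.range D, B j = 1) {T U : Matrix ι ι ℂ} {p : ℕ} (hp : 1 ≤ p)
    (hU : (p : ℂ) ^ K • U = ∑ j ∈ Finset.range D, (p : ℂ) ^ j • B j) (hTU : T * U = U * T) {o : ℕ}
    (hT : T ^ (o + 1) = 1) {a : ℂ} (ha : a ∈ (T * U).charpoly.roots) :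
    ‖a‖ ≤ (p : ℝ) ^ D := by
  obtain ⟨j, hj, h⟩ := eig_pow hB hB1 hU hTU hT ha
  have h1 := congrArg norm h
  rw [norm_pow, norm_pow, norm_mul, norm_pow, norm_pow, Complex.norm_natCast] at h1
  have hp' : (1 : ℝ) ≤ p := by exact_mod_cast hp
  have h2 : (p : ℝ) ^ K * ‖a‖ = (p : ℝ) ^ j :=
    (pow_left_inj₀ (by positivity) (by positivity) o.succ_ne_zero).1 h1
  calc ‖a‖ ≤ (p : ℝ) ^ K * ‖a‖ := le_mul_of_one_le_left (norm_nonneg _) (one_le_pow₀ hp')
    _ = (p : ℝ) ^ j := h2
    _ ≤ (p : ℝ) ^ D := pow_le_pow_right₀ hp' hj.le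

end

end Pool.Agent.H500.ML
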