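import Pool.Agent.H500.MLD
import Pool.Graph.R_pool_sql_team_seeded_2aa45f1a.Q92.FP.Main

set_option autoImplicit false
set_option linter.unusedSectionVars false

/-!
# The Euler product at finite level
-/

namespace Pool.Agent.H500.ML

open NumberField IsDedekindDomain Filter Topology
open Pool.Agent.H541R3.ART (Irr irrF mem_irrF)
open Pool.Agent.Q92.AR (artinL artTerm artTerm_summable Continues artinL_sum Unramified frob
  ramified_finite cpow_succ_mul)
open Pool.Agent.H921R2.TatePole (nm)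

/-- the prime numbers are the places of `ℚ` -/
noncomputable def pe : Nat.Primes ≃ HeightOneSpectrum (𝓞 ℚ) :=
  Equiv.ofBijective (fun p => Pool.Agent.Q92.FP.place p.2) ⟨fun p q h => by
    apply Subtype.ext
    rw [← Pool.Agent.Q92.FP.absNorm_place p.2, ← Pool.Agent.Q92.FP.absNorm_place q.2]
    exact congrArg (fun v : HeightOneSpectrum (𝓞 ℚ) => Ideal.absNorm v.asIdeal) h, fun v =>
    ⟨⟨_, Pool.Agent.Q92.FP.absNorm_prime v⟩, Pool.Agent.Q92.FP.absNorm_inj
      (Pool.Agent.Q92.FP.absNorm_place _)⟩⟩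

theorem norm_pe (p : Nat.Primes) : Ideal.absNorm (pe p).asIdeal = (p : ℕ) :=
  Pool.Agent.Q92.FP.absNorm_place p.2

section
variable {M : Type} [Field M] [NumberField M] [Algebra ℚ M] [IsGalois ℚ M]

theorem term_eq (φ : (M ≃ₐ[ℚ] M) → ℂ) (p : Nat.Primes) (h : Unramified M (pe p)) (s : ℂ)
    (K j k : ℕ) : artTerm M φ (s + K - j) (pe p, k) =
      φ (frob M (pe p) ^ (k + 1)) * (((p : ℕ) : ℂ) ^ j) ^ (k + 1) / (((p : ℕ) : ℂ) ^ K) ^ (k + 1) *
        (((p : ℕ) : ℂ) ^ (-s)) ^ (k + 1) / ((k + 1 : ℕ) : ℂ) := by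
  have hp0 : ((p : ℕ) : ℂ) ≠ 0 := Nat.cast_ne_zero.2 p.2.ne_zero
  have h1 : ((p : ℕ) : ℂ) ^ (-(s + K - j)) =
      ((p : ℕ) : ℂ) ^ (-s) * (((p : ℕ) : ℂ) ^ K)⁻¹ * ((p : ℕ) : ℂ) ^ j := by
    have h2 : -(s + (K : ℂ) - j) = -s + -(K : ℂ) + j := by ring
    rw [h2, Complex.cpow_add _ _ hp0, Complex.cpow_add _ _ hp0, Complex.cpow_neg _ (K : ℂ),
      Complex.cpow_natCast, Complex.cpow_natCast]
  unfold artTerm
  simp only
  rw [if_pos h, norm_pe, cpow_succ_mul, h1, mul_pow, mul_pow, inv_pow]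
  have h3 : (((p : ℕ) : ℂ) ^ K) ^ (k + 1) ≠ 0 := pow_ne_zero _ (pow_ne_zero _ hp0)
  have h4 : (((p : ℕ) : ℂ) ^ j) ^ (k + 1) ≠ 0 := pow_ne_zero _ (pow_ne_zero _ hp0)
  have h5 : (((p : ℕ) : ℂ) ^ (-s)) ^ (k + 1) ≠ 0 :=
    pow_ne_zero _ (by rw [Complex.cpow_ne_zero_iff]; exact Or.inl hp0)
  have h6 : ((k + 1 : ℕ) : ℂ) ≠ 0 := Nat.cast_ne_zero.2 k.succ_ne_zero
  field_simp

variable {ι : Type} [Fintype ι] [DecidableEq ι]

/-- the size of `a p^(-s)` -/
theorem small_of {p : Nat.Primes} {D : ℕ} {a s : ℂ} (ha : ‖a‖ ≤ ((p : ℕ) : ℝ) ^ D)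
    (hs : (D : ℝ) < s.re) : ‖a * ((p : ℕ) : ℂ) ^ (-s)‖ < 1 := by
  have hp1 : (1 : ℝ) < ((p : ℕ) : ℝ) := by exact_mod_cast p.2.one_lt
  rw [norm_mul, Complex.norm_natCast_cpow_of_pos p.2.pos, Complex.neg_re]
  have h1 : ((p : ℕ) : ℝ) ^ D = ((p : ℕ) : ℝ) ^ (D : ℝ) := (Real.rpow_natCast _ _).symm
  calc ‖a‖ * ((p : ℕ) : ℝ) ^ (-s.re) ≤ ((p : ℕ) : ℝ) ^ (D : ℝ) * ((p : ℕ) : ℝ) ^ (-s.re) := by
        rw [← h1]
        exact mul_le_mul_of_nonneg_right ha (by positivity)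
    _ = ((p : ℕ) : ℝ) ^ ((D : ℝ) - s.re) := by
        rw [← Real.rpow_add (by linarith), sub_eq_add_neg]
    _ < 1 := Real.rpow_lt_one_of_one_lt_of_neg hp1 (by linarith)

/-- **the Euler product at finite level** -/
theorem fin_product (T : (M ≃ₐ[ℚ] M) →* Matrix ι ι ℂ) (D K : ℕ) (B : ℕ → Matrix ι ι ℂ)
    (U : Nat.Primes → Matrix ι ι ℂ)
    (hB : ∀ i j, i < D → j < D → B i * B j = if i = j then B i else 0)
    (hB1 : ∑ j ∈ Finset.range D, B j = 1)
    (hU : ∀ p : Nat.Primes, ((p : ℕ) : ℂ) ^ K • U p = ∑ j ∈ Finset.range D, ((p : ℕ) : ℂ) ^ j • B j)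
    (hTB : ∀ g j, j < D → T g * B j = B j * T g) (hTU : ∀ g (p : Nat.Primes), T g * U p = U p * T g) :
    ∃ L : ℂ → ℂ, MeromorphicOn L Set.univ ∧ ∀ s : ℂ, (D + 1 : ℝ) < s.re →
      (∀ p : Nat.Primes,
        (1 - ((p : ℕ) : ℂ) ^ (-s) • (T (frob M (pe p))⁻¹ * U p)).det ≠ 0) ∧
      ∀ (Z : Finset Nat.Primes), (∀ p, ¬ Unramified M (pe p) → p ∈ Z) →
        (∀ p ∈ Z, ¬ Unramified M (pe p)) →
        HasProd (fun p : Nat.Primes => if p ∈ Z then 1 else
          ((1 - ((p : ℕ) : ℂ) ^ (-s) • (T (frob M (pe p))⁻¹ * U p)).det)⁻¹) (L s) := by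
  classical
  set φ : ℕ → (M ≃ₐ[ℚ] M) → ℂ := fun j g => (T g⁻¹ * B j).trace with hφ
  have hcont : ∀ j, ∃ f : ℂ → ℂ, j < D → Continues f (artinL (K := ℚ) M (φ j)) := by
    intro j
    by_cases hj : j < D
    · obtain ⟨m, hm⟩ := exists_mult_inv T (B j) (by rw [hB j j hj hj, if_pos rfl])
        (fun g => hTB g j hj)
      obtain ⟨f, hf⟩ := continues_of_mult (φ j) m hm
      exact ⟨f, fun _ => hf⟩
    · exact ⟨0, fun h => absurd h hj⟩
  choose f hf using hcont
  have hbd : ∀ p : Nat.Primes, ∀ a ∈ (T (frob M (pe p))⁻¹ * U p).charpoly.roots,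
      ‖a‖ ≤ ((p : ℕ) : ℝ) ^ D := by
    intro p a ha
    obtain ⟨o, ho⟩ : ∃ o : ℕ, Nat.card (M ≃ₐ[ℚ] M) = o + 1 :=
      Nat.exists_eq_succ_of_ne_zero Nat.card_pos.ne'
    refine eig_bound hB hB1 (by exact_mod_cast p.2.one_lt.le) (hU p) (hTU _ p) (o := o) ?_ ha
    rw [← map_pow, ← ho, pow_card_eq_one', map_one]
  refine ⟨fun s => ∏ j ∈ Finset.range D, f j (s + K - j), fun s _ => ?_, fun s hs => ⟨fun p => ?_,
    fun Z hZ1 hZ2 => ?_⟩⟩
  · refine MeromorphicAt.fun_prod fun j hj => ?_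
    have h1 : MeromorphicAt (f j) (s + K - j) := (hf j (Finset.mem_range.1 hj)).1 _ (Set.mem_univ _)
    have h2 : AnalyticAt ℂ (fun s : ℂ => s + K - j) s := by fun_prop
    exact MeromorphicAt.comp_analyticAt (g := fun s : ℂ => s + K - j) (x := s) h1 h2
  · exact det_ne_zero_of _ _ fun a ha => small_of (hbd p a ha) (by linarith)
  · have hsum : ∀ j ∈ Finset.range D, Summable (artTerm (K := ℚ) M (φ j) (s + K - j)) := by
      intro j hj
      refine artTerm_summable _ ?_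
      rw [Complex.sub_re, Complex.add_re, Complex.natCast_re, Complex.natCast_re]
      have h1 : (j : ℝ) ≤ D := by exact_mod_cast (Finset.mem_range.1 hj).le
      have h2 : (0 : ℝ) ≤ K := Nat.cast_nonneg _
      linarith
    have h1 := hasSum_sum fun j hj => (hsum j hj).hasSum
    -- the local terms
    have hloc : ∀ p : Nat.Primes, ∃ L : ℂ, HasSum (fun k : ℕ => ∑ j ∈ Finset.range D,
        artTerm (K := ℚ) M (φ j) (s + K - j) (pe p, k)) L ∧ Complex.exp L = if p ∈ Z then 1 else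
          ((1 - ((p : ℕ) : ℂ) ^ (-s) • (T (frob M (pe p))⁻¹ * U p)).det)⁻¹ := by
      intro p
      by_cases hp : p ∈ Z
      · refine ⟨0, ?_, by rw [if_pos hp, Complex.exp_zero]⟩
        have h2 : (fun k : ℕ => ∑ j ∈ Finset.range D,
            artTerm (K := ℚ) M (φ j) (s + K - j) (pe p, k)) = fun _ => 0 := by
          funext k
          refine Finset.sum_eq_zero fun j _ => ?_
          unfold artTerm
          rw [if_neg (hZ2 p hp)]
        rw [h2]
        exact hasSum_zero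
      · have hun : Unramified M (pe p) := by
          by_contra h
          exact hp (hZ1 p h)
        obtain ⟨L, hL, hL2⟩ := hasSum_logdet (T (frob M (pe p))⁻¹ * U p) (((p : ℕ) : ℂ) ^ (-s))
          fun a ha => small_of (hbd p a ha) (by linarith)
        refine ⟨L, hL.congr_fun fun k => ?_, by rw [hL2, if_neg hp]⟩
        have hp0 : ((p : ℕ) : ℂ) ≠ 0 := Nat.cast_ne_zero.2 p.2.ne_zero
        have h3 := trace_pow_mul hB (hU p) (hTU (frob M (pe p))⁻¹ p) k
        have h4 : (((p : ℕ) : ℂ) ^ K) ^ (k + 1) ≠ 0 := pow_ne_zero _ (pow_ne_zero _ hp0)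
        have h5 : ((T (frob M (pe p))⁻¹ * U p) ^ (k + 1)).trace =
            ∑ j ∈ Finset.range D, φ j (frob M (pe p) ^ (k + 1)) * (((p : ℕ) : ℂ) ^ j) ^ (k + 1) /
              (((p : ℕ) : ℂ) ^ K) ^ (k + 1) := by
          rw [← Finset.sum_div, eq_div_iff h4, mul_comm, h3]
          refine Finset.sum_congr rfl fun j _ => ?_
          rw [hφ]
          simp only
          rw [← map_pow, inv_pow, mul_comm]
        rw [h5, Finset.sum_mul, Finset.sum_div]
        exact Finset.sum_congr rfl fun j _ => (term_eq (φ j) p hun s K j k).symm ▸ rfl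
    choose L hL hL2 using hloc
    have h2 : HasSum (fun p : Nat.Primes => L p)
        (∑ j ∈ Finset.range D, ∑' x, artTerm (K := ℚ) M (φ j) (s + K - j) x) := by
      have h3 := h1.prod_fiberwise (g := fun v => L (pe.symm v)) fun v => by
        obtain ⟨p, rfl⟩ := pe.surjective v
        rw [Equiv.symm_apply_apply]
        exact hL p
      have h4 := (Equiv.hasSum_iff pe).2 h3
      refine h4.congr_fun fun p => ?_
      rw [Function.comp_apply, Equiv.symm_apply_apply]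
    have h5 := h2.cexp
    have h6 : Complex.exp (∑ j ∈ Finset.range D, ∑' x, artTerm (K := ℚ) M (φ j) (s + K - j) x) =
        ∏ j ∈ Finset.range D, f j (s + K - j) := by
      rw [Complex.exp_sum]
      refine Finset.prod_congr rfl fun j hj => ?_
      rw [(hf j (Finset.mem_range.1 hj)).2]
      · rfl
      · rw [Complex.sub_re, Complex.add_re, Complex.natCast_re, Complex.natCast_re]
        have h1 : (j : ℝ) ≤ D := by exact_mod_cast (Finset.mem_range.1 hj).le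
        have h2 : (0 : ℝ) ≤ K := Nat.cast_nonneg _
        linarith
    rw [h6] at h5
    refine h5.congr_fun fun p => ?_
    rw [Function.comp_apply, hL2]

end

end Pool.Agent.H500.ML
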