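import Pool.Agent.H500.MLE

set_option autoImplicit false
set_option linter.unusedSectionVars false

/-!
# L-functions of algebraic constructions
-/

namespace Pool.Agent.H500.ML

open NumberField IsDedekindDomain Filter Topology Polynomial Kronecker
open Pool.Agent.Y800 (GQ ZBar QBar IsGeomFrob)
open Pool.Agent.Q92.AR (Unramified frob ramified_finite IsFrobenius isFrobenius_conj frob_spec)

section
variable {K : Type} [Field K] [NumberField K]

/-- the restriction of an arithmetic Frobenius element -/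
theorem isFrob_restrict {v : HeightOneSpectrum (𝓞 K)} {P : Ideal (𝓞 (AlgebraicClosure K))}
    (hP : P.IsMaximal) (hPv : P.comap (algebraMap (𝓞 K) (𝓞 (AlgebraicClosure K))) = v.asIdeal)
    {σ : Gal(AlgebraicClosure K/K)}
    (hσ : ∀ x : 𝓞 (AlgebraicClosure K), σ • x - x ^ Ideal.absNorm v.asIdeal ∈ P)
    (M : IntermediateField K (AlgebraicClosure K)) [NumberField M] [Normal K M] :
    IsFrobenius v (AlgEquiv.restrictNormalHom M σ) := by
  have hPp : P.IsPrime := hP.isPrime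
  set w : Ideal (𝓞 M) := P.comap (algebraMap (𝓞 M) (𝓞 (AlgebraicClosure K))) with hw
  have hwp : w.IsPrime := Ideal.comap_isPrime _ _
  have hwv : w.comap (algebraMap (𝓞 K) (𝓞 M)) = v.asIdeal := by
    rw [← hPv, hw, Ideal.comap_comap, ← IsScalarTower.algebraMap_eq]
  have hw0 : w ≠ ⊥ := by
    intro h
    apply v.ne_bot
    rw [← hwv, h, ← RingHom.ker_eq_comap_bot]
    exact (RingHom.injective_iff_ker_eq_bot _).1 (FaithfulSMul.algebraMap_injective (𝓞 K) (𝓞 M))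
  refine ⟨w, hwp.isMaximal hw0, hwv, fun x => ?_⟩
  have hgx : IsIntegral ℤ (AlgEquiv.restrictNormalHom M σ (x : M)) := x.2.map _
  obtain ⟨y, hy⟩ : ∃ y : 𝓞 M, (y : M) = AlgEquiv.restrictNormalHom M σ (x : M) :=
    ⟨⟨_, hgx⟩, rfl⟩
  refine ⟨y - x ^ Ideal.absNorm v.asIdeal, ?_, by rw [← hy]; rfl⟩
  rw [hw, Ideal.mem_comap, map_sub, map_pow]
  have h1 : algebraMap (𝓞 M) (𝓞 (AlgebraicClosure K)) y =
      σ • algebraMap (𝓞 M) (𝓞 (AlgebraicClosure K)) x := by
    apply RingOfIntegers.ext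
    have h2 : ((AlgEquiv.restrictNormalHom M σ (x : M) : M) : AlgebraicClosure K) =
        σ ((x : M) : AlgebraicClosure K) :=
      AlgEquiv.restrictNormal_commutes σ M x
    have h3 : ((algebraMap (𝓞 M) (𝓞 (AlgebraicClosure K)) y : 𝓞 (AlgebraicClosure K)) :
        AlgebraicClosure K) = ((y : M) : AlgebraicClosure K) := rfl
    rw [h3, hy, h2]
    rfl
  rw [h1]
  exact hσ _

theorem exists_level (s : Subgroup Gal(AlgebraicClosure K/K))
    (hs : IsOpen (s : Set Gal(AlgebraicClosure K/K))) :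
    ∃ (M : Type) (_ : Field M) (_ : NumberField M) (_ : Algebra K M) (_ : IsGalois K M)
      (res : Gal(AlgebraicClosure K/K) →* (M ≃ₐ[K] M)), Function.Surjective res ∧ res.ker ≤ s ∧
      ∀ (v : HeightOneSpectrum (𝓞 K)) (P : Ideal (𝓞 (AlgebraicClosure K))), P.IsMaximal →
        P.comap (algebraMap (𝓞 K) (𝓞 (AlgebraicClosure K))) = v.asIdeal →
        ∀ σ : Gal(AlgebraicClosure K/K),
          (∀ x : 𝓞 (AlgebraicClosure K), σ • x - x ^ Ideal.absNorm v.asIdeal ∈ P) →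
          IsFrobenius v (res σ) := by
  obtain ⟨M, hM1, hM2, hM3⟩ := (krullTopology_mem_nhds_one_iff_of_normal K (AlgebraicClosure K)
    (s : Set Gal(AlgebraicClosure K/K))).1 (hs.mem_nhds s.one_mem)
  have hnf : NumberField M := NumberField.of_module_finite K M
  have hgal : IsGalois K M := ⟨⟩
  refine ⟨M, inferInstance, hnf, inferInstance, hgal, AlgEquiv.restrictNormalHom M,
    AlgEquiv.restrictNormalHom_surjective _, ?_, fun v P hP hPv σ hσ =>
      isFrob_restrict hP hPv hσ M⟩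
  rw [IntermediateField.restrictNormalHom_ker]
  exact hM3

end

/-- the determinant is a polynomial -/
theorem exists_detPoly {ι : Type} [Fintype ι] [DecidableEq ι] (N : Matrix ι ι ℂ) :
    ∃ q : ℂ[X], ∀ x : ℂ, (1 - x • N).det = q.eval x := by
  refine ⟨(N.charpoly.roots.map fun a => 1 - Polynomial.C a * X).prod, fun x => ?_⟩
  rw [det_one_sub, eval_multiset_prod, Multiset.map_map]
  congr 1
  refine Multiset.map_congr rfl fun a _ => ?_
  simp

theorem mero_poly (q : ℂ[X]) (p : Nat.Primes) (s : ℂ) :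
    MeromorphicAt (fun s : ℂ => q.eval (((p : ℕ) : ℂ) ^ (-s))) s := by
  have h0 : ((p : ℕ) : ℂ) ≠ 0 := Nat.cast_ne_zero.2 p.2.ne_zero
  have h1 : Differentiable ℂ fun s : ℂ => q.eval (((p : ℕ) : ℂ) ^ (-s)) := by
    have h2 : Differentiable ℂ fun s : ℂ => ((p : ℕ) : ℂ) ^ (-s) :=
      fun s => (differentiableAt_id.neg).const_cpow (Or.inl h0)
    exact q.differentiable.comp h2
  exact (h1.analyticAt s).meromorphicAt

section
variable {m d : ℕ}

theorem kron_mul (a b : Matrix (Fin m) (Fin m) ℂ) (c e : Matrix (Fin d) (Fin d) ℂ) :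
    (a ⊗ₖ c) * (b ⊗ₖ e) = (a * b) ⊗ₖ (c * e) := (Matrix.mul_kronecker_mul a b c e).symm

/-- tensor product of representations -/
noncomputable def kronHom {G : Type} [Group G] (f : G →* GL (Fin m) ℂ) (g : G →* GL (Fin d) ℂ) :
    G →* Matrix (Fin m × Fin d) (Fin m × Fin d) ℂ where
  toFun x := (f x : Matrix (Fin m) (Fin m) ℂ) ⊗ₖ (g x : Matrix (Fin d) (Fin d) ℂ)
  map_one' := by simp
  map_mul' x y := by
    rw [map_mul, map_mul, kron_mul]
    rfl

theorem kron_sum (D : ℕ) (c : ℕ → ℂ) (B : ℕ → Matrix (Fin m) (Fin m) ℂ) :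
    (∑ j ∈ Finset.range D, c j • B j) ⊗ₖ (1 : Matrix (Fin d) (Fin d) ℂ) =
      ∑ j ∈ Finset.range D, c j • (B j ⊗ₖ (1 : Matrix (Fin d) (Fin d) ℂ)) := by
  ext ⟨a, b⟩ ⟨a', b'⟩
  simp only [Matrix.kroneckerMap_apply, Matrix.sum_apply, Matrix.smul_apply, smul_eq_mul]
  rw [Finset.sum_mul]
  exact Finset.sum_congr rfl fun j _ => by ring

end

theorem comap_eq (p : Nat.Primes) {A : Type} [CommRing A] [CharZero A] {Q : Ideal A}
    (hQ : Q.IsPrime) (hp : ((p : ℕ) : A) ∈ Q) (f : 𝓞 ℚ →+* A) :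
    Q.comap f = (pe p).asIdeal := by
  have h1 : (Q.comap f).IsPrime := Ideal.comap_isPrime _ _
  have hpv : ((p : ℕ) : 𝓞 ℚ) ∈ Q.comap f := by
    rw [Ideal.mem_comap, map_natCast]
    exact hp
  have h2 : Q.comap f ≠ ⊥ := by
    intro h
    rw [h, Ideal.mem_bot] at hpv
    exact p.2.ne_zero (by exact_mod_cast hpv)
  exact Pool.Agent.Y800.asIdeal_eq (v := ⟨_, h1, h2⟩) p.2 hpv

/-- **L-functions of algebraic constructions and twists** -/
theorem main_L {n m d : ℕ} {S : Finset ℕ} {R : GQ →* GL (Fin n) ℂ} {w : Fin n → ℕ}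
    {α : ℕ → Fin n → ℂ} (hR : GoodC S R w fun p => ∏ i, (X - Polynomial.C (α p i)))
    (r : GL (Fin n) ℂ →* GL (Fin m) ℂ) (hr : Algebraic r)
    (A : GQ →* GL (Fin d) ℂ) (hA : IsOpen (A.ker : Set GQ))
    (D : ℕ → GL (Fin n) ℂ) (hD : ∀ p : ℕ, p.Prime → p ∉ S →
      (D p : Matrix (Fin n) (Fin n) ℂ) = Matrix.diagonal (α p))
    (Fr : ℕ → GQ) (hFr : ∀ p : ℕ, p.Prime → ∃ Q : Ideal ZBar, Q.IsMaximal ∧ (p : ZBar) ∈ Q ∧
      IsGeomFrob p Q (Fr p)) (Z : Finset ℕ) (hSZ : S ⊆ Z) (Bd : ℕ → ℂ[X]) :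
    ∃ (L : ℂ → ℂ) (s₀ : ℝ), MeromorphicOn L Set.univ ∧ ∀ s : ℂ, s₀ < s.re →
      HasProd (fun p : Nat.Primes => if (p : ℕ) ∈ Z then
        ((Bd p).eval (((p : ℕ) : ℂ) ^ (-s)))⁻¹ else
        ((1 - ((p : ℕ) : ℂ) ^ (-s) • ((r (D p) : Matrix (Fin m) (Fin m) ℂ) ⊗ₖ
          (A (Fr p) : Matrix (Fin d) (Fin d) ℂ))).det)⁻¹) (L s) := by
  classical
  -- the number field
  obtain ⟨M, _, _, _, _, res, hsurj, hker, hfrob⟩ := exists_level (K := ℚ) (R.ker ⊓ A.ker)
    (hR.isOpen.inter hA)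
  have hkR : res.ker ≤ R.ker := hker.trans inf_le_left
  have hkA : res.ker ≤ A.ker := hker.trans inf_le_right
  obtain ⟨R', hR'⟩ : ∃ R' : (M ≃ₐ[ℚ] M) →* GL (Fin n) ℂ,
      ∀ g : GQ, R' (res g) = R g :=
    ⟨MonoidHom.liftOfSurjective _ hsurj ⟨R, hkR⟩, fun g =>
      MonoidHom.liftOfRightInverse_comp_apply _ _ _ ⟨R, hkR⟩ g⟩
  obtain ⟨A', hA'⟩ : ∃ A' : (M ≃ₐ[ℚ] M) →* GL (Fin d) ℂ,
      ∀ g : GQ, A' (res g) = A g :=
    ⟨MonoidHom.liftOfSurjective _ hsurj ⟨A, hkA⟩, fun g =>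
      MonoidHom.liftOfRightInverse_comp_apply _ _ _ ⟨A, hkA⟩ g⟩
  obtain ⟨W⟩ := exists_wts r hr w
  set T : (M ≃ₐ[ℚ] M) →* Matrix (Fin m × Fin d) (Fin m × Fin d) ℂ := kronHom (r.comp R') A' with hT
  set one' : Matrix (Fin d) (Fin d) ℂ := 1 with hone
  set B : ℕ → Matrix (Fin m × Fin d) (Fin m × Fin d) ℂ := fun j => W.B j ⊗ₖ one' with hB
  set u : Nat.Primes → ℂˣ := fun p => Units.mk0 ((p : ℕ) : ℂ) (Nat.cast_ne_zero.2 p.2.ne_zero) with hu
  set U : Nat.Primes → Matrix (Fin m × Fin d) (Fin m × Fin d) ℂ := fun p =>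
    ((r (wtU w (u p)) : GL (Fin m) ℂ) : Matrix (Fin m) (Fin m) ℂ) ⊗ₖ one' with hU
  have hcomm : ∀ (g : M ≃ₐ[ℚ] M) (t : ℂˣ), r (R' g) * r (wtU w t) = r (wtU w t) * r (R' g) := by
    intro g t
    obtain ⟨g, rfl⟩ := hsurj g
    rw [hR', ← map_mul, ← map_mul]
    congr 1
    apply Units.ext
    exact hR.comm g t
  have h1 : ∀ i j, i < W.D → j < W.D → B i * B j = if i = j then B i else 0 := by
    intro i j hi hj
    rw [hB]
    simp only
    rw [kron_mul, W.idem i j hi hj, hone, one_mul]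
    split_ifs
    · rfl
    · exact Matrix.zero_kronecker _
  have h2 : ∑ j ∈ Finset.range W.D, B j = 1 := by
    have h := W.sum 1
    rw [map_one, Units.val_one, Units.val_one, one_pow, one_smul] at h
    have h3 := kron_sum (d := d) W.D (fun j => (1 : ℂ) ^ j) W.B
    rw [← h, Matrix.one_kronecker_one] at h3
    rw [h3]
    refine Finset.sum_congr rfl fun j _ => ?_
    rw [one_pow, one_smul]
  have h3 : ∀ p : Nat.Primes, ((p : ℕ) : ℂ) ^ W.K • U p =
      ∑ j ∈ Finset.range W.D, ((p : ℕ) : ℂ) ^ j • B j := by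
    intro p
    have h := W.sum (u p)
    rw [hU, hB]
    simp only
    rw [← Matrix.smul_kronecker, ← kron_sum]
    congr 1
  have h4 : ∀ g j, j < W.D → T g * B j = B j * T g := by
    intro g j hj
    have h := W.comm (r (R' g) : Matrix (Fin m) (Fin m) ℂ) (fun t => by
      have := congrArg (fun x : GL (Fin m) ℂ => (x : Matrix (Fin m) (Fin m) ℂ)) (hcomm g t)
      exact this) j hj
    show ((r (R' g) : Matrix (Fin m) (Fin m) ℂ) ⊗ₖ (A' g : Matrix (Fin d) (Fin d) ℂ)) *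
      (W.B j ⊗ₖ one') = (W.B j ⊗ₖ one') *
      ((r (R' g) : Matrix (Fin m) (Fin m) ℂ) ⊗ₖ (A' g : Matrix (Fin d) (Fin d) ℂ))
    rw [kron_mul, kron_mul, h, hone, mul_one, one_mul]
  have h5 : ∀ g (p : Nat.Primes), T g * U p = U p * T g := by
    intro g p
    have h := congrArg (fun x : GL (Fin m) ℂ => (x : Matrix (Fin m) (Fin m) ℂ)) (hcomm g (u p))
    show ((r (R' g) : Matrix (Fin m) (Fin m) ℂ) ⊗ₖ (A' g : Matrix (Fin d) (Fin d) ℂ)) *
      (((r (wtU w (u p)) : GL (Fin m) ℂ) : Matrix (Fin m) (Fin m) ℂ) ⊗ₖ one') =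
      (((r (wtU w (u p)) : GL (Fin m) ℂ) : Matrix (Fin m) (Fin m) ℂ) ⊗ₖ one') *
      ((r (R' g) : Matrix (Fin m) (Fin m) ℂ) ⊗ₖ (A' g : Matrix (Fin d) (Fin d) ℂ))
    rw [kron_mul, kron_mul, hone, mul_one, one_mul]
    congr 1
  obtain ⟨L, hL, hL2⟩ := fin_product T W.D W.K B U h1 h2 h3 h4 h5
  -- the ramified primes
  have hfin : {p : Nat.Primes | ¬ Unramified M (pe p)}.Finite := by
    have := (ramified_finite (K := ℚ) (M := M)).preimage (f := pe) pe.injective.injOn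
    exact this
  set Zr : Finset Nat.Primes := hfin.toFinset with hZr
  have hmem : ∀ p, p ∈ Zr ↔ ¬ Unramified M (pe p) := fun p => by
    rw [hZr, Set.Finite.mem_toFinset]
    rfl
  set Z' : Finset Nat.Primes := Zr ∪ (Z.filter Nat.Prime).attach.image
    (fun p => (⟨p.1, (Finset.mem_filter.1 p.2).2⟩ : Nat.Primes)) with hZ'
  have hmem2 : ∀ p : Nat.Primes, p ∉ Z' → (p : ℕ) ∉ Z ∧ Unramified M (pe p) := by
    intro p hp
    rw [hZ', Finset.mem_union, not_or] at hp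
    refine ⟨fun h => hp.2 ?_, ?_⟩
    · exact Finset.mem_image.2 ⟨⟨p, Finset.mem_filter.2 ⟨h, p.2⟩⟩, Finset.mem_attach _ _, rfl⟩
    · by_contra h
      exact hp.1 ((hmem p).2 h)
  -- comparison of the factors
  have hcmp : ∀ p : Nat.Primes, p ∉ Z' → ∀ x : ℂ,
      (1 - x • ((r (D p) : Matrix (Fin m) (Fin m) ℂ) ⊗ₖ (A (Fr p) : Matrix (Fin d) (Fin d) ℂ))).det =
      (1 - x • (T (frob M (pe p))⁻¹ * U p)).det := by
    intro p hp x
    obtain ⟨hpZ, hun⟩ := hmem2 p hp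
    have hpS : (p : ℕ) ∉ S := fun h => hpZ (hSZ h)
    obtain ⟨Q, hQ, hpQ, hσ⟩ := hFr p p.2
    set σ := Fr p with hσd
    -- conjugation to the diagonal matrix
    obtain ⟨hd1, hd2⟩ := hR.frob p p.2 hpS Q hQ hpQ σ hσ
    obtain ⟨h, hh⟩ := hd1.conj (α p) hd2
    have e1 : R σ * wtU w (u p) = h * D p * h⁻¹ := by
      apply Units.ext
      rw [Units.val_mul, Units.val_mul, Units.val_mul, hD p p.2 hpS]
      exact hh
    have e2 : r (D p) = (r h)⁻¹ * (r (R σ) * r (wtU w (u p))) * r h := by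
      rw [← map_mul, e1, map_mul, map_mul, map_inv]
      group
    -- the Frobenius element at finite level
    have e3 : IsFrobenius (pe p) (res σ⁻¹) := by
      refine hfrob (pe p) Q hQ ?_ σ⁻¹ ?_
      · have hQp : Q.IsPrime := hQ.isPrime
        exact comap_eq p hQp hpQ _
      · rw [norm_pe]
        exact Pool.Agent.Y800.arith_of_geom hσ
    obtain ⟨c, hc⟩ := isFrobenius_conj hun e3 (frob_spec (M := M) (pe p))
    have e4 : (frob M (pe p))⁻¹ = c⁻¹ * res σ * c := by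
      rw [hc, map_inv]
      group
    have e5 : T (frob M (pe p))⁻¹ * U p =
        T c⁻¹ * (T (res σ) * U p) * T c := by
      rw [e4, map_mul, map_mul, mul_assoc (T c⁻¹ * _) (T c) (U p), h5 c p]
      simp only [mul_assoc]
    have e6 : (r (D p) : Matrix (Fin m) (Fin m) ℂ) ⊗ₖ (A σ : Matrix (Fin d) (Fin d) ℂ) =
        (((r h)⁻¹ : GL (Fin m) ℂ) : Matrix (Fin m) (Fin m) ℂ) ⊗ₖ one' *
          (T (res σ) * U p) *
          ((r h : GL (Fin m) ℂ) : Matrix (Fin m) (Fin m) ℂ) ⊗ₖ one' := by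
      show _ = (((r h)⁻¹ : GL (Fin m) ℂ) : Matrix (Fin m) (Fin m) ℂ) ⊗ₖ one' *
        ((((r (R' (res σ)) : GL (Fin m) ℂ) : Matrix (Fin m) (Fin m) ℂ) ⊗ₖ
          (A' (res σ) : Matrix (Fin d) (Fin d) ℂ)) *
          (((r (wtU w (u p)) : GL (Fin m) ℂ) : Matrix (Fin m) (Fin m) ℂ) ⊗ₖ one')) *
        ((r h : GL (Fin m) ℂ) : Matrix (Fin m) (Fin m) ℂ) ⊗ₖ one'
      rw [hR', hA', kron_mul, kron_mul, kron_mul, hone, mul_one, one_mul, mul_one, e2]
      rfl
    have hdet : ∀ (X Y N : Matrix (Fin m × Fin d) (Fin m × Fin d) ℂ), X * Y = 1 →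
        (1 - x • (X * N * Y)).det = (1 - x • N).det := by
      intro X Y N hXY
      have e7 : 1 - x • (X * N * Y) = X * (1 - x • N) * Y := by
        rw [mul_sub, sub_mul, mul_one, hXY, Matrix.mul_smul, Matrix.smul_mul]
      rw [e7, Matrix.det_mul, Matrix.det_mul, mul_comm X.det, mul_assoc, ← Matrix.det_mul, hXY,
        Matrix.det_one, mul_one]
    rw [e6, e5, hdet _ _ _ (by
      rw [kron_mul, ← Units.val_mul, inv_mul_cancel, Units.val_one, hone, one_mul,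
        Matrix.one_kronecker_one]),
      hdet _ _ _ (by rw [← map_mul, inv_mul_cancel, map_one])]
  -- the correction factors
  choose q1 hq1 using fun p : Nat.Primes => exists_detPoly
    ((r (D p) : Matrix (Fin m) (Fin m) ℂ) ⊗ₖ (A (Fr p) : Matrix (Fin d) (Fin d) ℂ))
  choose q2 hq2 using fun p : Nat.Primes => exists_detPoly (T (frob M (pe p))⁻¹ * U p)
  set E : Nat.Primes → ℂ → ℂ := fun p s =>
    (if (p : ℕ) ∈ Z then ((Bd p).eval (((p : ℕ) : ℂ) ^ (-s)))⁻¹ else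
      ((q1 p).eval (((p : ℕ) : ℂ) ^ (-s)))⁻¹) *
    (if p ∈ Zr then 1 else (q2 p).eval (((p : ℕ) : ℂ) ^ (-s))) with hE
  have hEm : ∀ p s, MeromorphicAt (E p) s := by
    intro p s
    rw [hE]
    simp only
    refine MeromorphicAt.fun_mul ?_ ?_
    · split_ifs
      · exact (mero_poly _ _ _).fun_inv
      · exact (mero_poly _ _ _).fun_inv
    · split_ifs
      · exact MeromorphicAt.const _ _
      · exact mero_poly _ _ _
  refine ⟨fun s => L s * ∏ p ∈ Z', E p s, W.D + 1, fun s _ =>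
    (hL s (Set.mem_univ _)).fun_mul (MeromorphicAt.fun_prod fun p _ => hEm p s), fun s hs => ?_⟩
  obtain ⟨hne, hprod⟩ := hL2 s hs
  have hP1 := hprod Zr (fun p hp => (hmem p).2 hp) (fun p hp => (hmem p).1 hp)
  have hP2 : HasProd (fun p : Nat.Primes => if p ∈ Z' then E p s else 1) (∏ p ∈ Z', E p s) := by
    have := hasProd_prod_of_ne_finset_one (f := fun p : Nat.Primes => if p ∈ Z' then E p s else 1)
      (s := Z') (L := SummationFilter.unconditional _) (fun p hp => if_neg hp)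
    rwa [Finset.prod_congr rfl fun p hp => if_pos hp] at this
  refine (hP1.mul hP2).congr_fun fun p => ?_
  have hne' := hne p
  by_cases hp : p ∈ Z'
  · rw [if_pos hp, hE]
    simp only
    rw [hq1, hq2]
    rw [hq2] at hne'
    by_cases hr' : p ∈ Zr
    · rw [if_pos hr', if_pos hr', one_mul, mul_one]
    · rw [if_neg hr', if_neg hr']
      split_ifs
      · field_simp
      · field_simp
  · rw [if_neg hp, mul_one, if_neg (hmem2 p hp).1, if_neg fun h => (hmem p).1 h (hmem2 p hp).2,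
      hcmp p hp]

end Pool.Agent.H500.ML
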