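import Pool.Agent.H500.Desc
import Pool.Agent.H500.TrC
import Pool.Graph.R_seed8.Y800.Frob2

set_option autoImplicit false
set_option linter.unusedSectionVars false

/-!
# Density tools
-/

namespace Pool.Agent.H500.MW

open NumberField IsDedekindDomain Filter Topology
open Pool.Agent.W401.Cheb (dens GK IsFrob)
open Pool.Agent.W569.FM (OO GF FrobAt)

section dens

variable {K : Type} [Field K] [NumberField K]

/-- positive upper density -/
def PosUD (P : HeightOneSpectrum (𝓞 K) → Prop) : Prop :=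
  ∃ ε : ℝ, 0 < ε ∧ ∃ᶠ N in atTop, ε ≤ dens P N

variable {P Q : HeightOneSpectrum (𝓞 K) → Prop}

theorem PosUD.mono (h : PosUD P) (hPQ : ∀ v, P v → Q v) : PosUD Q := by
  obtain ⟨ε, hε, hf⟩ := h
  exact ⟨ε, hε, hf.mono fun N hN => hN.trans (Pool.Agent.W528.Ord.dens_mono hPQ N)⟩

theorem PosUD.nonempty (h : PosUD P) : ∃ v, P v := by
  obtain ⟨ε, hε, hf⟩ := h
  by_contra hcon
  push Not at hcon
  obtain ⟨N, hN⟩ := hf.exists
  have h0 : dens P N = 0 := by
    unfold dens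
    have : IsEmpty {v : HeightOneSpectrum (𝓞 K) // Ideal.absNorm v.asIdeal ≤ N ∧ P v} :=
      ⟨fun v => hcon v.1 v.2.2⟩
    rw [Nat.card_of_isEmpty]
    simp
  rw [h0] at hN
  linarith

/-- removing a set of small density -/
theorem PosUD.diff_le {ε δ : ℝ} (hf : ∃ᶠ N in atTop, ε ≤ dens P N)
    (hQ : ∀ᶠ N in atTop, dens Q N ≤ δ) :
    ∃ᶠ N in atTop, ε - δ ≤ dens (fun v => P v ∧ ¬ Q v) N := by
  refine (hf.and_eventually hQ).mono fun N hN => ?_
  have h1 : dens P N ≤ dens (fun v => (P v ∧ ¬ Q v) ∨ Q v) N :=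
    Pool.Agent.W528.Ord.dens_mono (fun v hv => by
      by_cases h : Q v
      · exact Or.inr h
      · exact Or.inl ⟨hv, h⟩) N
  have h2 := Pool.Agent.W528.Ord.dens_or (fun v => P v ∧ ¬ Q v) Q N
  linarith [hN.1, hN.2]

theorem PosUD.diff (h : PosUD P) (hQ : Tendsto (dens Q) atTop (𝓝 0)) :
    PosUD (fun v => P v ∧ ¬ Q v) := by
  obtain ⟨ε, hε, hf⟩ := h
  refine ⟨ε - ε / 2, by linarith, PosUD.diff_le hf ?_⟩
  exact (hQ.eventually (gt_mem_nhds (half_pos hε))).mono fun N hN => hN.le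

theorem PosUD.infinite (h : PosUD P) : {v | P v}.Infinite := by
  intro hfin
  have h1 := h.diff (Pool.Agent.H500.Kum.dens_fin P hfin)
  obtain ⟨v, hv, hv'⟩ := h1.nonempty
  exact hv' hv

theorem posUD_of_not (h : ¬ Tendsto (dens P) atTop (𝓝 0)) : PosUD P := by
  by_contra hcon
  apply h
  rw [Metric.tendsto_atTop]
  intro ε hε
  have h1 : ∀ᶠ N in atTop, ¬ ε ≤ dens P N := by
    by_contra h2
    exact hcon ⟨ε, hε, Filter.not_eventually.1 h2 |>.mono fun N hN => not_not.1 hN⟩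
  obtain ⟨N0, hN0⟩ := eventually_atTop.1 h1
  refine ⟨N0, fun N hN => ?_⟩
  rw [Real.dist_eq, sub_zero, abs_of_nonneg (Pool.Agent.W528.Ord.dens_nonneg _ _)]
  exact not_le.1 (hN0 N hN)

/-- removing finitely many sets from decreasing families with density tending to zero -/
theorem PosUD.diff_family (h : PosUD P) {ι : Type} (s : Finset ι)
    (Q : ι → ℕ → HeightOneSpectrum (𝓞 K) → Prop)
    (hanti : ∀ i ∈ s, ∀ a b, a ≤ b → ∀ v, Q i b v → Q i a v)
    (hQ : ∀ i ∈ s, ∀ ε : ℝ, 0 < ε → ∃ κ, ∀ᶠ N in atTop, dens (Q i κ) N ≤ ε) :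
    ∃ κ : ℕ, PosUD (fun v => P v ∧ ∀ i ∈ s, ¬ Q i κ v) := by
  classical
  induction s using Finset.induction_on with
  | empty =>
    refine ⟨0, h.mono fun v hv => ⟨hv, fun i hi => absurd hi (Finset.notMem_empty i)⟩⟩
  | insert i s his ih =>
    obtain ⟨κ, ε, hε, hf⟩ := ih (fun j hj => hanti j (Finset.mem_insert_of_mem hj))
      (fun j hj => hQ j (Finset.mem_insert_of_mem hj))
    obtain ⟨κ', hκ'⟩ := hQ i (Finset.mem_insert_self i s) (ε / 2) (half_pos hε)
    have h1 := PosUD.diff_le hf hκ'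
    refine ⟨max κ κ', ε - ε / 2, by linarith, h1.mono fun N hN => hN.trans ?_⟩
    refine Pool.Agent.W528.Ord.dens_mono (fun v hv => ⟨hv.1.1, fun j hj => ?_⟩) N
    rw [Finset.mem_insert] at hj
    rcases hj with rfl | hj
    · intro hjv
      exact hv.2 (hanti _ (Finset.mem_insert_self _ s) _ _ (le_max_right κ κ') v hjv)
    · intro hjv
      exact hv.1.2 j hj (hanti _ (Finset.mem_insert_of_mem hj) _ _ (le_max_left κ κ') v hjv)

end dens

section small

variable {K : Type} [Field K] [NumberField K]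

/-- the primes with a Frobenius element in an open normal subgroup -/
theorem dens_sub (U : Subgroup (GK K)) [U.Normal] (hU : IsOpen (U : Set (GK K))) :
    Tendsto (dens fun v : HeightOneSpectrum (𝓞 K) => ∃ σ ∈ (U : Set (GK K)), IsFrob v σ) atTop
      (𝓝 (1 / (U.index : ℝ))) := by
  have h1 := Pool.Agent.W528.Ord.chebK K U hU (U : Set (GK K))
    (fun σ hσ τ => Subgroup.Normal.conj_mem inferInstance σ hσ τ)
    (fun σ hσ u hu => U.mul_mem hσ hu)
  have e : (QuotientGroup.mk : GK K → GK K ⧸ U) '' (U : Set (GK K)) = {1} := by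
    ext x
    constructor
    · rintro ⟨u, hu, rfl⟩
      exact (QuotientGroup.eq_one_iff u).2 hu
    · rintro rfl
      exact ⟨1, U.one_mem, rfl⟩
  rw [e, Set.ncard_singleton] at h1
  have e2 : (Nat.card (GK K ⧸ U) : ℝ) = (U.index : ℝ) := rfl
  rw [e2] at h1
  simpa using h1

/-- there are primes not containing a given nonzero number -/
theorem exists_not_mem {x : 𝓞 K} (hx : x ≠ 0) : ∃ v : HeightOneSpectrum (𝓞 K), x ∉ v.asIdeal := by
  have h0 : PosUD (fun _ : HeightOneSpectrum (𝓞 K) => True) := by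
    have h1 := dens_sub (K := K) ⊤ (by rw [Subgroup.coe_top]; exact isOpen_univ)
    rw [Subgroup.index_top, Nat.cast_one, div_one] at h1
    refine ⟨1 / 2, by norm_num, Eventually.frequently ?_⟩
    refine (h1.eventually (lt_mem_nhds (by norm_num : (1 / 2 : ℝ) < 1))).mono fun N hN => ?_
    exact hN.le.trans (Pool.Agent.W528.Ord.dens_mono (fun _ _ => trivial) N)
  obtain ⟨v, -, hv⟩ := (h0.diff (Pool.Agent.H500.Kum.dens_fin _
    (Pool.Agent.H500.Kum.fin_mem hx))).nonempty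
  exact ⟨v, hv⟩

/-- **The primes whose norm to the power `m` is close to one at `r` are rare.** -/
theorem small_pow {m : ℕ} (hm : 0 < m) {r : ℕ} (hr : r.Prime) {ε : ℝ} (hε : 0 < ε) :
    ∃ κ : ℕ, ∀ᶠ N in atTop, dens (fun v : HeightOneSpectrum (𝓞 K) =>
      r ^ κ ∣ Ideal.absNorm v.asIdeal ^ m - 1) N ≤ ε := by
  classical
  obtain ⟨v0, hv0⟩ := exists_not_mem (K := K) (x := (r : 𝓞 K)) (Nat.cast_ne_zero.2 hr.ne_zero)
  set q := Ideal.absNorm v0.asIdeal with hq
  have hq2 : 1 < q := by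
    rcases Nat.lt_or_ge 1 q with h | h
    · exact h
    · exfalso
      have h1 : q ≠ 0 := by
        rw [hq, Ne, Ideal.absNorm_eq_zero_iff]
        exact v0.ne_bot
      have h2 : q = 1 := by omega
      rw [hq, Ideal.absNorm_eq_one_iff] at h2
      exact v0.isPrime.ne_top h2
  obtain ⟨B, hB⟩ := exists_nat_gt (2 / ε)
  have hB0 : 0 < B := by
    rcases Nat.eq_zero_or_pos B with h | h
    · exfalso
      rw [h, Nat.cast_zero] at hB
      have : 0 < 2 / ε := by positivity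
      linarith
    · exact h
  set κ := q * (m * B) with hκ
  have hqr : q ^ (m * B) ≤ r ^ κ := by
    rw [hκ, pow_mul r]
    exact Nat.pow_le_pow_left (Nat.lt_pow_self hr.one_lt).le _
  refine ⟨κ, ?_⟩
  have hchar : CharZero (AlgebraicClosure K) := charZero_of_injective_algebraMap
    (algebraMap K (AlgebraicClosure K)).injective
  have hr0 : r ^ κ ≠ 0 := pow_ne_zero _ hr.ne_zero
  have hne : NeZero (r ^ κ) := ⟨hr0⟩
  have hne' : NeZero ((r ^ κ : ℕ) : AlgebraicClosure K) := ⟨Nat.cast_ne_zero.2 hr0⟩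
  obtain ⟨z, hz⟩ := HasEnoughRootsOfUnity.exists_primitiveRoot (AlgebraicClosure K) (r ^ κ)
  have hzint : IsIntegral ℤ z := hz.isIntegral (Nat.pos_of_ne_zero hr0)
  set z' : OO K := ⟨z, hzint⟩ with hz'
  have hz'1 : z' ^ (r ^ κ) = 1 := RingOfIntegers.ext hz.pow_eq_one
  set χ : GK K →* (ZMod (r ^ κ))ˣ := hz.autToPow K with hχ
  set f : GK K →* (ZMod (r ^ κ))ˣ := (powMonoidHom m).comp χ with hf
  have hspec : ∀ g : GK K, z ^ (χ g : ZMod (r ^ κ)).val = g z := fun g => hz.autToPow_spec K g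
  have hopen : IsOpen (f.ker : Set (GK K)) := by
    refine Subgroup.isOpen_mono (H₁ := (MulAction.stabilizer (GK K) z : Subgroup (GK K))) ?_
      (stabilizer_isOpen_of_isIntegral (K := K) z)
    intro g hg
    have h1 : g z = z := hg
    show (χ g) ^ m = 1
    have h2 : χ g = 1 := by
      apply Units.ext
      have h3 := hspec g
      rw [h1] at h3
      have h4 : z ^ (χ g : ZMod (r ^ κ)).val = z ^ ((1 : ZMod (r ^ κ))).val := by
        rw [h3]
        rcases Nat.lt_or_ge 1 (r ^ κ) with h5 | h5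
        · have : Fact (1 < r ^ κ) := ⟨h5⟩
          rw [ZMod.val_one, pow_one]
        · have h6 : r ^ κ = 1 := by omega
          have h7 : z = 1 := by
            have := hz.pow_eq_one
            rwa [h6, pow_one] at this
          rw [h7, one_pow]
      have h5 := hz.pow_inj (ZMod.val_lt _) (ZMod.val_lt _) h4
      exact ZMod.val_injective _ h5
    rw [h2, one_pow]
  -- Frobenius elements
  have hfrob : ∀ v : HeightOneSpectrum (𝓞 K), (r : 𝓞 K) ∉ v.asIdeal → ∀ σ, IsFrob v σ →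
      (χ σ : ZMod (r ^ κ)) = (Ideal.absNorm v.asIdeal : ZMod (r ^ κ)) := by
    rintro v hv σ ⟨R, hR, hRv, hσ⟩
    have hrR : ((r ^ κ : ℕ) : OO K) ∉ R := by
      intro h
      rw [Nat.cast_pow] at h
      have h1 := hR.isPrime.mem_of_pow_mem _ h
      apply hv
      rw [← hRv, Ideal.mem_comap, map_natCast]
      exact h1
    have h2 : σ • z' = z' ^ Ideal.absNorm v.asIdeal := by
      refine Pool.Agent.Y115.Chi.root_eq (P := R) (l := r ^ κ) hrR ?_ ?_ (hσ z') hr0
      · rw [← smul_pow', hz'1, smul_one]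
      · rw [← pow_mul, mul_comm, pow_mul, hz'1, one_pow]
    have h3 : σ z = z ^ Ideal.absNorm v.asIdeal :=
      congrArg (fun x : OO K => (x : AlgebraicClosure K)) h2
    have h4 := hspec σ
    rw [h3] at h4
    have h5 : z ^ (χ σ : ZMod (r ^ κ)).val =
        z ^ ((Ideal.absNorm v.asIdeal : ZMod (r ^ κ))).val := by
      rw [h4, ZMod.val_natCast]
      exact (pow_eq_pow_mod _ hz.pow_eq_one)
    exact ZMod.val_injective _ (hz.pow_inj (ZMod.val_lt _) (ZMod.val_lt _) h5)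
  -- the index is large
  have hfin : Finite (GK K ⧸ f.ker) := Subgroup.quotient_finite_of_isOpen _ hopen
  have hidx : B ≤ f.ker.index := by
    obtain ⟨σ0, hσ0⟩ := Pool.Agent.W401.Frob.exists_frob v0
    have h1 := hfrob v0 hv0 σ0 hσ0
    have h2 : ∀ t, 0 < t → t ≤ B → (f σ0) ^ t ≠ 1 := by
      intro t ht htB h3
      have h4 : ((q : ZMod (r ^ κ)) ^ m) ^ t = 1 := by
        have h5 := congrArg (fun u : (ZMod (r ^ κ))ˣ => (u : ZMod (r ^ κ))) h3
        have h6 : ((f σ0 : (ZMod (r ^ κ))ˣ) : ZMod (r ^ κ)) = (q : ZMod (r ^ κ)) ^ m := by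
          show ((χ σ0 ^ m : (ZMod (r ^ κ))ˣ) : ZMod (r ^ κ)) = _
          rw [Units.val_pow_eq_pow_val, h1]
        simp only [Units.val_pow_eq_pow_val, Units.val_one] at h5
        rw [h6] at h5
        exact h5
      have h7 : ((q ^ (m * t) : ℕ) : ZMod (r ^ κ)) = ((1 : ℕ) : ZMod (r ^ κ)) := by
        rw [Nat.cast_pow, Nat.cast_one]
        rw [← pow_mul] at h4
        exact h4
      rw [ZMod.natCast_eq_natCast_iff, Nat.ModEq.comm, Nat.modEq_iff_dvd' (Nat.one_le_pow _ _ (by omega))] at h7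
      have h8 : 1 < q ^ (m * t) := Nat.one_lt_pow (Nat.mul_pos hm ht).ne' hq2
      have h9 := Nat.le_of_dvd (by omega) h7
      have h10 : q ^ (m * t) ≤ q ^ (m * B) :=
        Nat.pow_le_pow_right (by omega) (Nat.mul_le_mul_left m htB)
      omega
    have h3 : Finite f.range := Finite.of_equiv _ (QuotientGroup.quotientKerEquivRange f).toEquiv
    have h4 : Nat.card f.range = f.ker.index :=
      Nat.card_congr (QuotientGroup.quotientKerEquivRange f).toEquiv.symm
    rw [← h4]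
    set x : f.range := ⟨f σ0, σ0, rfl⟩ with hx
    have h5 : orderOf x ∣ Nat.card f.range := orderOf_dvd_natCard x
    have h6 : 0 < orderOf x := orderOf_pos x
    by_contra hlt
    push Not at hlt
    have h7 := Nat.le_of_dvd Nat.card_pos h5
    refine h2 (orderOf x) h6 (by omega) ?_
    have h8 := pow_orderOf_eq_one x
    exact congrArg Subtype.val h8
  have hd := dens_sub f.ker hopen
  have hd2 := Pool.Agent.H500.Kum.dens_fin (fun v : HeightOneSpectrum (𝓞 K) =>
    (r : 𝓞 K) ∈ v.asIdeal) (Pool.Agent.H500.Kum.fin_mem (Nat.cast_ne_zero.2 hr.ne_zero))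
  have hlt : 1 / (f.ker.index : ℝ) < ε := by
    have h1 : (B : ℝ) ≤ f.ker.index := by exact_mod_cast hidx
    have h2 : (0 : ℝ) < B := by exact_mod_cast hB0
    calc 1 / (f.ker.index : ℝ) ≤ 1 / (B : ℝ) := one_div_le_one_div_of_le h2 h1
      _ < ε := by
        rw [div_lt_iff₀ h2]
        rw [div_lt_iff₀ hε] at hB
        linarith
  have hsum := hd.add hd2
  rw [add_zero] at hsum
  refine (hsum.eventually (gt_mem_nhds hlt)).mono fun N hN => ?_
  refine le_trans ?_ hN.le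
  refine le_trans (Pool.Agent.W528.Ord.dens_mono (Q := fun v =>
    (∃ σ ∈ (f.ker : Set (GK K)), IsFrob v σ) ∨ (r : 𝓞 K) ∈ v.asIdeal) ?_ N)
    (Pool.Agent.W528.Ord.dens_or _ _ N)
  intro v hv
  by_cases hrv : (r : 𝓞 K) ∈ v.asIdeal
  · exact Or.inr hrv
  · left
    obtain ⟨σ, hσ⟩ := Pool.Agent.W401.Frob.exists_frob v
    refine ⟨σ, ?_, hσ⟩
    show (χ σ) ^ m = 1
    apply Units.ext
    rw [Units.val_pow_eq_pow_val, hfrob v hrv σ hσ, Units.val_one, ← Nat.cast_pow, ← Nat.cast_one,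
      ZMod.natCast_eq_natCast_iff, Nat.ModEq.comm, Nat.modEq_iff_dvd']
    · exact hv
    · apply Nat.one_le_pow
      apply Nat.pos_of_ne_zero
      rw [Ne, Ideal.absNorm_eq_zero_iff]
      exact v.ne_bot

end small

section cnt

open Pool.Agent.Y800 (cnt fin_cnt)

/-- an upper bound for the number of the primes with Frobenius elements in a set -/
theorem cnt_div_le (C : Set Pool.Agent.Y800.GQ) (Z : Set ℕ)
    (hC : ∀ p : ℕ, p.Prime → p ∈ Z → ∀ P : Ideal Pool.Agent.Y800.ZBar, P.IsMaximal →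
      (p : Pool.Agent.Y800.ZBar) ∈ P →
      ∀ σ : Pool.Agent.Y800.GQ, (∀ x : Pool.Agent.Y800.ZBar, σ • x - x ^ p ∈ P) → σ ∈ C) (N : ℕ) :
    (cnt Z N : ℝ) / (Nat.primeCounting N : ℝ) ≤
      dens (fun v : HeightOneSpectrum (𝓞 ℚ) => ∃ σ ∈ C, IsFrob v σ) N := by
  unfold dens cnt
  apply div_le_div_of_nonneg_right _ (Nat.cast_nonneg _)
  norm_cast
  have e0 : Nat.card {v : HeightOneSpectrum (𝓞 ℚ) // Ideal.absNorm v.asIdeal ≤ N ∧
      ∃ σ ∈ C, IsFrob v σ} = {v : HeightOneSpectrum (𝓞 ℚ) | Ideal.absNorm v.asIdeal ≤ N ∧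
      ∃ σ ∈ C, IsFrob v σ}.ncard := rfl
  rw [e0]
  have hfin : {v : HeightOneSpectrum (𝓞 ℚ) | Ideal.absNorm v.asIdeal ≤ N ∧
      ∃ σ ∈ C, IsFrob v σ}.Finite :=
    (Pool.Agent.W352.ChAbs.finite_le (K := ℚ) N).subset (fun v hv => hv.1)
  refine le_trans (Set.ncard_le_ncard ?_ (hfin.image (fun v => Ideal.absNorm v.asIdeal)))
    (Set.ncard_image_le hfin)
  rintro p ⟨hp, hpN, hpZ⟩
  have hmax := Pool.Agent.W571.FM.pl_max hp
  have hnorm : Ideal.absNorm (Pool.Agent.W571.FM.pl p) = p := Pool.Agent.W571.FM.absNorm_pl p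
  have hbot : Pool.Agent.W571.FM.pl p ≠ ⊥ := by
    intro h
    rw [h, Ideal.absNorm_bot] at hnorm
    exact hp.ne_zero hnorm.symm
  set v : HeightOneSpectrum (𝓞 ℚ) := ⟨Pool.Agent.W571.FM.pl p, hmax.isPrime, hbot⟩ with hv
  have hvn : Ideal.absNorm v.asIdeal = p := hnorm
  obtain ⟨σ, hσ⟩ := Pool.Agent.W401.Frob.exists_frob v
  refine ⟨v, ⟨by rw [hvn]; exact hpN, σ, ?_, hσ⟩, hvn⟩
  obtain ⟨Q, hQ, hQv, hQσ⟩ := hσ
  have hpv : (p : 𝓞 ℚ) ∈ v.asIdeal := by
    show (p : 𝓞 ℚ) ∈ Pool.Agent.W571.FM.pl p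
    unfold Pool.Agent.W571.FM.pl
    exact Ideal.mem_span_singleton_self _
  have hpQ : (p : Pool.Agent.Y800.ZBar) ∈ Q := by
    rw [← hQv, Ideal.mem_comap, map_natCast] at hpv
    exact hpv
  refine hC p hp hpZ Q hQ hpQ σ fun x => ?_
  have := hQσ x
  rwa [hvn] at this

/-- the primes which satisfy `p ^ H = 1` modulo `l` -/
theorem cnt_pow (l : ℕ) [hl : Fact l.Prime] {H : ℕ} (hH : 0 < H) {ε : ℝ} (hε : 0 < ε) :
    ∀ᶠ N : ℕ in atTop, (cnt {p : ℕ | p ≠ l ∧ (p : ZMod l) ^ H = 1} N : ℝ) ≤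
      (H / ((l : ℝ) - 1) + ε) * (Nat.primeCounting N : ℝ) := by
  classical
  set f : GF ℚ →* (ZMod l)ˣ := (powMonoidHom H).comp (Pool.Agent.H500.Tr.om l) with hf
  have hopen : IsOpen (f.ker : Set (GF ℚ)) := by
    refine Subgroup.isOpen_mono ?_ (Pool.Agent.H500.Tr.om_open l)
    intro g hg
    show (Pool.Agent.H500.Tr.om l g) ^ H = 1
    rw [show Pool.Agent.H500.Tr.om l g = 1 from hg, one_pow]
  have hd := dens_sub (K := ℚ) f.ker hopen
  have hl1 : (0 : ℝ) < (l : ℝ) - 1 := by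
    have : (1 : ℝ) < l := by exact_mod_cast hl.out.one_lt
    linarith
  have hidx : 1 / (f.ker.index : ℝ) ≤ H / ((l : ℝ) - 1) := by
    have h1 : f.range = (powMonoidHom H : (ZMod l)ˣ →* (ZMod l)ˣ).range := by
      rw [hf, MonoidHom.range_comp,
        MonoidHom.range_eq_top.2 (Pool.Agent.H500.Tr.om_surj (l := l)), ← MonoidHom.range_eq_map]
    have h2 : f.ker.index = (powMonoidHom H : (ZMod l)ˣ →* (ZMod l)ˣ).ker.index := by
      rw [Subgroup.index_ker, Subgroup.index_ker, h1]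
    have h3 := (powMonoidHom H : (ZMod l)ˣ →* (ZMod l)ˣ).ker.card_mul_index
    rw [Nat.card_eq_fintype_card (α := (ZMod l)ˣ), ZMod.card_units] at h3
    have h4 : Nat.card (powMonoidHom H : (ZMod l)ˣ →* (ZMod l)ˣ).ker ≤ H := by
      have h5 := IsCyclic.card_pow_eq_one_le (α := (ZMod l)ˣ) hH
      refine le_trans (le_of_eq ?_) h5
      rw [Nat.card_eq_fintype_card, Fintype.card_subtype]
      congr 1
      ext x
      rw [Finset.mem_filter, Finset.mem_filter]
      exact Iff.rfl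
    rw [h2]
    have hpos : 0 < (powMonoidHom H : (ZMod l)ˣ →* (ZMod l)ˣ).ker.index := by
      apply Nat.pos_of_ne_zero
      intro h0
      rw [h0, mul_zero] at h3
      have := hl.out.two_le
      omega
    have hpos' : (0 : ℝ) < (powMonoidHom H : (ZMod l)ˣ →* (ZMod l)ˣ).ker.index := by
      exact_mod_cast hpos
    rw [div_le_div_iff₀ hpos' hl1, one_mul]
    have h6 : (l : ℝ) - 1 = ((l - 1 : ℕ) : ℝ) := by
      rw [Nat.cast_sub hl.out.one_le, Nat.cast_one]
    rw [h6, ← h3, Nat.cast_mul]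
    exact mul_le_mul_of_nonneg_right (by exact_mod_cast h4) hpos'.le
  have hlt : 1 / (f.ker.index : ℝ) < H / ((l : ℝ) - 1) + ε := by linarith
  filter_upwards [hd.eventually (gt_mem_nhds hlt), eventually_ge_atTop 2] with N hN hN2
  have hpos : (0 : ℝ) < (Nat.primeCounting N : ℝ) := by
    have : 0 < Nat.primeCounting N := by
      have h1 : Nat.primeCounting 2 ≤ Nat.primeCounting N := Nat.monotone_primeCounting hN2
      have h2 : Nat.primeCounting 2 = 1 := by decide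
      omega
    exact_mod_cast this
  rw [← div_le_iff₀ hpos]
  refine (cnt_div_le (f.ker : Set (GF ℚ)) _ ?_ N).trans hN.le
  rintro p hp ⟨hpl, hpH⟩ P hP hpP σ hσ
  have hlP : (l : OO ℚ) ∉ P := fun h =>
    Pool.Agent.H500.Tr.not_both hP.ne_top ((Nat.coprime_primes hl.out hp).2 hpl.symm) h hpP
  show (Pool.Agent.H500.Tr.om l σ) ^ H = 1
  apply Units.ext
  rw [Units.val_pow_eq_pow_val, Pool.Agent.H500.Tr.om_frob hlP hσ, Units.val_one]
  exact hpH

end cnt

end Pool.Agent.H500.MW
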