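import Pool.Agent.H500.MWA
import Pool.Graph.R_seed8.Y800.Diag

set_option autoImplicit false
set_option linter.unusedSectionVars false

/-!
# Eigenvalues of representations with a small projective image
-/

namespace Pool.Agent.H500.MW

open NumberField IsDedekindDomain Filter Topology Polynomial
open Pool.Agent.W569.FM (OO GF FrobAt InInertia)
open Pool.Agent.H500.Tr (om om_open om_frob om_inert rpart)

section linear

variable {k : Type} [Field k] {m : ℕ}

/-- eigenvectors -/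
theorem exists_eigen (M : Matrix (Fin m) (Fin m) k) {x : k} (hx : M.charpoly.IsRoot x) :
    ∃ v : Fin m → k, v ≠ 0 ∧ M.mulVec v = x • v := by
  have h1 : (Matrix.scalar (Fin m) x - M).det = 0 := by
    rw [← Matrix.eval_charpoly]
    exact hx
  obtain ⟨v, hv, hv0⟩ := Matrix.exists_mulVec_eq_zero_iff.2 h1
  refine ⟨v, hv, ?_⟩
  rw [Matrix.sub_mulVec, sub_eq_zero, Matrix.scalar_apply, ← Matrix.smul_one_eq_diagonal,
    Matrix.smul_mulVec, Matrix.one_mulVec] at hv0
  exact hv0.symm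

theorem pow_mulVec (M : Matrix (Fin m) (Fin m) k) {x : k} {v : Fin m → k}
    (h : M.mulVec v = x • v) (N : ℕ) : (M ^ N).mulVec v = x ^ N • v := by
  induction N with
  | zero => rw [pow_zero, pow_zero, Matrix.one_mulVec, one_smul]
  | succ N ih =>
    rw [pow_succ, ← Matrix.mulVec_mulVec, h, Matrix.mulVec_smul, ih, smul_smul, pow_succ, mul_comm]

/-- an eigenvalue of a matrix with a scalar power -/
theorem root_pow (M : Matrix (Fin m) (Fin m) k) {N : ℕ} {c : k} (hM : M ^ N = c • 1) {x : k}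
    (hx : M.charpoly.IsRoot x) : x ^ (N * m) = M.det ^ N := by
  obtain ⟨v, hv, hv1⟩ := exists_eigen M hx
  have h1 := pow_mulVec M hv1 N
  rw [hM, Matrix.smul_mulVec, Matrix.one_mulVec] at h1
  have h2 : x ^ N = c := by
    obtain ⟨i, hi⟩ := Function.ne_iff.1 hv
    have h3 := congrFun h1 i
    simp only [Pi.smul_apply, smul_eq_mul] at h3
    exact (mul_right_cancel₀ hi h3).symm
  rw [pow_mul, h2, ← Matrix.det_pow, hM, Matrix.det_smul, Matrix.det_one, mul_one, Fintype.card_fin]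

end linear

/-- **The eigenvalues of a representation with a small projective image.** -/
theorem local_exp {l : ℕ} [hl : Fact l.Prime] {k : Type} [Field k] [CharP k l] [IsAlgClosed k]
    {m : ℕ} (σ : GF ℚ →* GL (Fin m) k) (hσ : IsOpen (σ.ker : Set (GF ℚ))) {C : ℕ}
    (U : Subgroup (GF ℚ)) (hU0 : U.index ≠ 0) (hUC : U.index ≤ C)
    (hUs : ∀ u ∈ U, ∃ c : k, (σ u : Matrix (Fin m) (Fin m) k) = c • 1) (S : Finset ℕ)
    (hur : ∀ q : ℕ, q.Prime → q ∉ S → q ≠ l → ∀ P : Ideal (OO ℚ), P.IsMaximal →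
      (q : OO ℚ) ∈ P → ∀ τ, InInertia P τ → σ τ = 1) {Q R r0 : ℕ} (hQl : ¬ l ∣ Q) (hQ0 : 0 < Q)
    (hQ : ∀ g, ∀ x : k, (σ g : Matrix (Fin m) (Fin m) k).charpoly.IsRoot x → x ^ Q = 1)
    (hS0 : ∀ s ∈ S, s ≤ r0)
    (hR : ∀ r : ℕ, r.Prime → r ≤ r0 → ∀ κ : ℕ, r ^ κ ∣ Q → r ^ κ ∣ R) :
    ∃ e : ℕ, ∀ g, ∀ x : k, (σ g : Matrix (Fin m) (Fin m) k).charpoly.IsRoot x →
      x ^ (C.factorial * m * R) =
        ((Units.map (ZMod.castHom (dvd_refl l) k : ZMod l →* k) (om l g)⁻¹ : kˣ) : k) ^ e := by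
  classical
  set θ : GF ℚ →* kˣ := Matrix.GeneralLinearGroup.det.comp σ with hθ
  have hθo : IsOpen (θ.ker : Set (GF ℚ)) := by
    refine Subgroup.isOpen_mono ?_ hσ
    intro g hg
    show Matrix.GeneralLinearGroup.det (σ g) = 1
    rw [show σ g = 1 from hg, map_one]
  set ωk : GF ℚ →* kˣ := (Units.map (ZMod.castHom (dvd_refl l) k : ZMod l →* k)).comp (om l)
    with hωk
  have hθQ : ∀ g, θ g ^ Q = 1 := by
    intro g
    apply Units.ext
    rw [Units.val_pow_eq_pow_val, Units.val_one]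
    have h1 : ((θ g : kˣ) : k) = (σ g : Matrix (Fin m) (Fin m) k).charpoly.roots.prod := by
      show (σ g : Matrix (Fin m) (Fin m) k).det = _
      exact Matrix.det_eq_prod_roots_charpoly _
    have h2 := Multiset.prod_hom (σ g : Matrix (Fin m) (Fin m) k).charpoly.roots
      (powMonoidHom Q : k →* k)
    rw [h1]
    show (powMonoidHom Q : k →* k) _ = 1
    rw [← h2]
    apply Multiset.prod_eq_one
    intro y hy
    obtain ⟨x, hx, rfl⟩ := Multiset.mem_map.1 hy
    exact hQ g x (Polynomial.isRoot_of_mem_roots hx)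
  set η : GF ℚ →* kˣ := θ ^ R with hη
  have hηa : ∀ g, η g = θ g ^ R := fun g => rfl
  set H : Subgroup (GF ℚ →* kˣ) := Subgroup.zpowers ωk with hH
  have key : ∀ r : ℕ, r.Prime → ∃ c : ℕ, ¬ r ∣ c ∧ η ^ c ∈ H := by
    intro r hr
    by_cases hrl : r = l
    · subst hrl
      refine ⟨Q, hQl, ?_⟩
      have h1 : η ^ Q = 1 := by
        ext g
        show (((θ g) ^ R) ^ Q : kˣ) = ((1 : kˣ) : k)
        rw [← pow_mul, mul_comm, pow_mul, hθQ, one_pow]
      rw [h1]
      exact H.one_mem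
    · by_cases hr0 : r ≤ r0
      · obtain ⟨κ, c, hrc, hQc⟩ := Nat.exists_eq_pow_mul_and_not_dvd hQ0.ne' r hr.ne_one
        obtain ⟨R', hR'⟩ := hR r hr hr0 κ ⟨c, hQc⟩
        refine ⟨c, hrc, ?_⟩
        have h1 : η ^ c = 1 := by
          ext g
          show (((θ g) ^ R) ^ c : kˣ) = ((1 : kˣ) : k)
          have h2 : R * c = Q * R' := by
            rw [hR', hQc]
            ring
          rw [← pow_mul, h2, pow_mul, hθQ, one_pow]
        rw [h1]
        exact H.one_mem
      · push Not at hr0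
        obtain ⟨c, a, hrc, hca⟩ := rpart (l := l) hr hrl θ hθo (by
          intro q hq hql
          by_cases hqS : q ∈ S
          · right
            have h1 := hS0 q hqS
            refine ⟨by omega, fun h2 => ?_⟩
            have h3 := Nat.le_of_dvd (by have := hq.two_le; omega) h2
            omega
          · left
            intro P hP hqP τ hτ
            show Matrix.GeneralLinearGroup.det (σ τ) = 1
            rw [hur q hq hqS hql P hP hqP τ hτ, map_one])
        refine ⟨c, hrc, ?_⟩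
        have h1 : η ^ c = ωk ^ (a * R) := by
          ext g
          show (((θ g) ^ R) ^ c : kˣ) = (((ωk g) ^ (a * R) : kˣ) : k)
          rw [← pow_mul, mul_comm, pow_mul, hca g, ← pow_mul]
          rfl
        rw [h1]
        exact H.pow_mem (Subgroup.mem_zpowers ωk) _
  -- `η` is a power of the cyclotomic character
  have hHn : H.Normal := ⟨fun a ha b => by
    have h1 : b * a * b⁻¹ = a := by
      ext g
      show ((b g * a g * (b g)⁻¹ : kˣ) : k) = (a g : kˣ)
      rw [mul_comm (b g), mul_inv_cancel_right]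
    rw [h1]
    exact ha⟩
  have hηH : η ∈ H := by
    set y : (GF ℚ →* kˣ) ⧸ H := QuotientGroup.mk η with hy
    have h1 : ∀ c : ℕ, η ^ c ∈ H → orderOf y ∣ c := by
      intro c hc
      apply orderOf_dvd_of_pow_eq_one
      rw [hy, ← QuotientGroup.mk_pow]
      exact (QuotientGroup.eq_one_iff _).2 hc
    have h2 : orderOf y = 1 := by
      by_contra hne
      obtain ⟨r, hr, hrd⟩ := Nat.exists_prime_and_dvd hne
      obtain ⟨c, hrc, hc⟩ := key r hr
      exact hrc (hrd.trans (h1 c hc))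
    rw [orderOf_eq_one_iff] at h2
    exact (QuotientGroup.eq_one_iff _).1 h2
  have hfin : IsOfFinOrder ωk⁻¹ := by
    rw [isOfFinOrder_iff_pow_eq_one]
    refine ⟨l - 1, by have := hl.out.two_le; omega, ?_⟩
    ext g
    show ((((ωk g)⁻¹) ^ (l - 1) : kˣ) : k) = ((1 : kˣ) : k)
    have h1 : (om l g) ^ (l - 1) = 1 := by
      rw [← ZMod.card_units l]
      exact pow_card_eq_one
    have h2 : (ωk g) ^ (l - 1) = 1 := by
      show (Units.map (ZMod.castHom (dvd_refl l) k : ZMod l →* k) (om l g)) ^ (l - 1) = 1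
      rw [← map_pow, h1, map_one]
    rw [inv_pow, h2, inv_one]
  obtain ⟨e, he⟩ : ∃ e : ℕ, (ωk⁻¹) ^ e = η := by
    have h1 : η ∈ Subgroup.zpowers ωk⁻¹ := by
      rw [Subgroup.zpowers_inv]
      exact hηH
    exact hfin.mem_powers_iff_mem_zpowers.2 h1
  refine ⟨e * C.factorial, fun g x hx => ?_⟩
  have hgU : g ^ C.factorial ∈ U := by
    obtain ⟨t, ht0, htU, ht⟩ := Subgroup.exists_pow_mem_of_index_ne_zero hU0 g
    obtain ⟨s, hs⟩ := Nat.dvd_factorial ht0 (htU.trans hUC)
    rw [hs, pow_mul]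
    exact U.pow_mem ht s
  obtain ⟨c, hc⟩ := hUs _ hgU
  rw [map_pow, Units.val_pow_eq_pow_val] at hc
  have h1 := root_pow _ hc hx
  have h2 : (((ωk⁻¹) ^ e) g : kˣ) = η g := by rw [he]
  have h3 : ((ωk g)⁻¹) ^ e = θ g ^ R := h2
  have h4 : (((Units.map (ZMod.castHom (dvd_refl l) k : ZMod l →* k) (om l g)⁻¹ : kˣ)) : kˣ) =
      (ωk g)⁻¹ := by
    rw [map_inv]
    rfl
  rw [pow_mul, h1, h4, ← pow_mul, mul_comm C.factorial R, pow_mul, pow_mul]
  have h5 := congrArg (fun u : kˣ => (u : k)) h3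
  simp only [Units.val_pow_eq_pow_val] at h5
  rw [h5]
  rfl

end Pool.Agent.H500.MW
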