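import Pool.Agent.H500.MWC

set_option autoImplicit false
set_option linter.unusedSectionVars false

/-!
# Slopes
-/

namespace Pool.Agent.H500.MW

open NumberField IsDedekindDomain Filter Topology Polynomial
open Pool.Agent.Y800 (GQ ZBar QBar)
open Pool.Agent.W401.Cheb (dens)

/-- `A` has the slope `c` at the prime number `p`: some power of `A` is a power of `p`, and the
quotient of the exponents is `c`. -/
def Sl (p : ℕ) (A : ZBar) (c : ℚ) : Prop :=
  ∃ N a : ℕ, 0 < N ∧ A ^ N = (p : ZBar) ^ a ∧ (a : ℚ) = c * N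

theorem pow_inj' {p : ℕ} (hp : 1 < p) {a b : ℕ} (h : (p : ZBar) ^ a = (p : ZBar) ^ b) : a = b := by
  have h1 : ((p ^ a : ℕ) : ZBar) = ((p ^ b : ℕ) : ZBar) := by
    push_cast
    exact h
  exact Nat.pow_right_injective hp (Nat.cast_injective h1)

theorem Sl.unique {p : ℕ} (hp : 1 < p) {A : ZBar} {c c' : ℚ} (h : Sl p A c) (h' : Sl p A c') :
    c = c' := by
  obtain ⟨N, a, hN, h1, h2⟩ := h
  obtain ⟨N', a', hN', h1', h2'⟩ := h'
  have h3 : (p : ZBar) ^ (a * N') = (p : ZBar) ^ (a' * N) := by
    rw [pow_mul, ← h1, pow_mul, ← h1', ← pow_mul, ← pow_mul, mul_comm]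
  have h4 := pow_inj' hp h3
  have h5 : (a : ℚ) * N' = a' * N := by exact_mod_cast h4
  rw [h2, h2'] at h5
  have hN0 : (N : ℚ) ≠ 0 := by exact_mod_cast hN.ne'
  have hN0' : (N' : ℚ) ≠ 0 := by exact_mod_cast hN'.ne'
  have h6 : (c - c') * (N * N') = 0 := by ring_nf; ring_nf at h5; linarith
  rcases mul_eq_zero.1 h6 with h7 | h7
  · linarith
  · exact absurd h7 (mul_ne_zero hN0 hN0')

variable {E : Type} [Field E] [NumberField E]

/-- **Density zero for unrelated pairs.** -/
theorem descZ (j0 : E →+* QBar) {p q : ℕ} (hp : p.Prime) (hq : q.Prime) (hpq : p ≠ q) {A B : ZBar}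
    (hA : A ≠ 0) (hB : B ≠ 0) {M : ℕ} (hM : 0 < M)
    (hrel : ∀ N a : ℕ, 0 < N → ¬ (A ^ N = (p : ZBar) ^ a ∧ B ^ N = (q : ZBar) ^ a)) :
    Tendsto (dens fun v : HeightOneSpectrum (𝓞 E) => ∃ (k : Type) (_ : Field k) (ψ : ZBar →+* k),
      RingHom.ker (ψ.comp (RingOfIntegers.mapRingHom j0)) = v.asIdeal ∧
      ∃ e : ℕ, ψ A ^ M = (p : k) ^ e ∧ ψ B ^ M = (q : k) ^ e) atTop (𝓝 0) := by
  classical
  let _ : Algebra E QBar := j0.toAlgebra
  have hintA : IsIntegral E (A : QBar) := by
    have h1 : IsIntegral ℤ (A : QBar) := A.2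
    exact h1.tower_top
  have hintB : IsIntegral E (B : QBar) := by
    have h1 : IsIntegral ℤ (B : QBar) := B.2
    exact h1.tower_top
  set F : IntermediateField E QBar := IntermediateField.adjoin E ({(A : QBar), (B : QBar)} : Set QBar)
    with hF
  have hfd : FiniteDimensional E F := by
    apply IntermediateField.finiteDimensional_adjoin
    intro x hx
    rcases hx with rfl | hx
    · exact hintA
    · rw [Set.mem_singleton_iff] at hx
      subst hx
      exact hintB
  have hnf : NumberField F := NumberField.of_module_finite E F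
  have hAF : (A : QBar) ∈ F := IntermediateField.subset_adjoin _ _ (by simp)
  have hBF : (B : QBar) ∈ F := IntermediateField.subset_adjoin _ _ (by simp)
  have hmk : ∀ C : ZBar, (C : QBar) ∈ F → ∃ C' : 𝓞 F,
      RingOfIntegers.mapRingHom (F.val : F →+* QBar) C' = C := by
    intro C hC
    have hint : IsIntegral ℤ (⟨(C : QBar), hC⟩ : F) :=
      (isIntegral_algebraMap_iff (algebraMap F QBar).injective).1 C.2
    exact ⟨⟨⟨(C : QBar), hC⟩, hint⟩, RingOfIntegers.ext rfl⟩
  obtain ⟨A', hA'⟩ := hmk A hAF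
  obtain ⟨B', hB'⟩ := hmk B hBF
  set i0 : 𝓞 F →+* ZBar := RingOfIntegers.mapRingHom (F.val : F →+* QBar) with hi0
  have hcomp : i0.comp (algebraMap (𝓞 E) (𝓞 F)) = RingOfIntegers.mapRingHom j0 := by
    ext x
    rfl
  refine Pool.Agent.H500.Desc.descend (E := E) (F := F) hp hq hpq (A := A' ^ M) (B := B' ^ M)
    ?_ ?_ ?_ _ 0 ?_
  · apply pow_ne_zero
    rintro rfl
    exact hA (by rw [← hA', map_zero])
  · apply pow_ne_zero
    rintro rfl
    exact hB (by rw [← hB', map_zero])
  · rintro N a hN ⟨h1, h2⟩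
    refine hrel (M * N) a (Nat.mul_pos hM hN) ⟨?_, ?_⟩
    · rw [← hA', pow_mul, ← map_pow, ← map_pow, h1, map_pow, map_natCast]
    · rw [← hB', pow_mul, ← map_pow, ← map_pow, h2, map_pow, map_natCast]
  · rintro v ⟨k, _, ψ, hker, e, h1, h2⟩
    refine ⟨k, inferInstance, ψ.comp i0, ?_, ⟨(p : 𝓞 E) ^ e, ?_⟩, ⟨(q : 𝓞 E) ^ e, ?_⟩, ?_⟩
    · rw [RingHom.comp_assoc, hcomp]
      exact hker
    · rw [RingHom.comp_apply, map_pow, hA', map_pow, h1, RingHom.comp_apply]
      simp
    · rw [RingHom.comp_apply, map_pow, hB', map_pow, h2, RingHom.comp_apply]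
      simp
    · intro r hr _ _
      refine ⟨1, e, fun h => hr.one_lt.ne' (Nat.dvd_one.1 h), ?_, ?_⟩
      · rw [RingHom.comp_apply, map_pow, hA', map_pow, pow_one, h1]
      · rw [RingHom.comp_apply, map_pow, hB', map_pow, pow_one, h2]

section matching

theorem exists_equiv {α β γ : Type} [Fintype α] [Fintype β] [DecidableEq γ] (f : α → γ) (g : β → γ)
    (h : Finset.univ.val.map f = Finset.univ.val.map g) : ∃ σ : α ≃ β, ∀ a, g (σ a) = f a := by
  classical
  have hc : ∀ c, Fintype.card {a // f a = c} = Fintype.card {b // g b = c} := by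
    intro c
    have h1 := congrArg (Multiset.count c) h
    rw [Multiset.count_map, Multiset.count_map] at h1
    rw [Fintype.card_subtype, Fintype.card_subtype]
    have e1 : (Finset.univ.filter fun a => f a = c).card =
        (Multiset.filter (fun a => c = f a) Finset.univ.val).card := by
      rw [Finset.card_def, Finset.filter_val]
      congr 1
      exact Multiset.filter_congr fun a _ => eq_comm
    have e2 : (Finset.univ.filter fun a => g a = c).card =
        (Multiset.filter (fun a => c = g a) Finset.univ.val).card := by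
      rw [Finset.card_def, Finset.filter_val]
      congr 1
      exact Multiset.filter_congr fun a _ => eq_comm
    rw [e1, e2]
    exact h1
  exact ⟨Equiv.ofFiberEquiv fun c => Fintype.equivOfCardEq (hc c),
    fun a => Equiv.ofFiberEquiv_map _ a⟩

theorem exists_roots {k : Type} [Field k] [IsAlgClosed k] (f : k[X]) (hf : f.Monic) :
    ∃ y : Fin f.natDegree → k, f = ∏ t, (X - Polynomial.C (y t)) := by
  classical
  have hs := IsAlgClosed.splits f
  have h1 := hs.eq_prod_roots_of_monic hf
  have h2 : f.roots.card = f.natDegree := hs.natDegree_eq_card_roots.symm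
  obtain ⟨l, hl⟩ : ∃ l : List k, (l : Multiset k) = f.roots := ⟨_, Multiset.coe_toList _⟩
  have hlen : l.length = f.natDegree := by rw [← h2, ← hl, Multiset.coe_card]
  have h3 : f = ∏ t : Fin l.length, (X - Polynomial.C (l.get t)) := by
    conv_lhs => rw [h1, ← hl]
    rw [Multiset.map_coe, Multiset.prod_coe, ← List.prod_ofFn]
    congr 1
    apply List.ext_get
    · simp
    · intro i _ _
      simp
  refine ⟨fun t => l.get (Fin.cast hlen.symm t), ?_⟩
  conv_lhs => rw [h3]
  exact Fintype.prod_equiv (finCongr hlen) _ _ (fun t => rfl)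

/-- distributing the roots of a product -/
theorem matching {k : Type} [Field k] [IsAlgClosed k] {n : ℕ} {J : Type} [Fintype J]
    [DecidableEq J] (x : Fin n → k) (f : J → k[X]) (hf : ∀ j, (f j).Monic)
    (h : ∏ j, f j = ∏ i, (X - Polynomial.C (x i))) :
    ∃ b : Fin n → J, ∀ j, f j = ∏ i with b i = j, (X - Polynomial.C (x i)) := by
  classical
  choose y hy using fun j => exists_roots (f j) (hf j)
  set T := (Σ j : J, Fin (f j).natDegree) with hT
  have h1 : ∏ j, f j = ∏ s : T, (X - Polynomial.C (y s.1 s.2)) := by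
    rw [Fintype.prod_sigma]
    exact Finset.prod_congr rfl fun j _ => hy j
  have h2 : Finset.univ.val.map x = Finset.univ.val.map (fun s : T => y s.1 s.2) := by
    have h3 := congrArg Polynomial.roots (h.symm.trans h1)
    have e1 : ∏ i, (X - Polynomial.C (x i)) =
        ((Finset.univ.val.map x).map fun a => X - Polynomial.C a).prod := by
      rw [Multiset.map_map]
      rfl
    have e2 : ∏ s : T, (X - Polynomial.C (y s.1 s.2)) =
        ((Finset.univ.val.map (fun s : T => y s.1 s.2)).map fun a => X - Polynomial.C a).prod := by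
      rw [Multiset.map_map]
      rfl
    rw [e1, e2, roots_multiset_prod_X_sub_C, roots_multiset_prod_X_sub_C] at h3
    exact h3
  obtain ⟨σ, hσ⟩ := exists_equiv x (fun s : T => y s.1 s.2) h2
  refine ⟨fun i => (σ i).1, fun j => ?_⟩
  rw [Finset.prod_filter]
  have h3 : ∏ i, (if (σ i).1 = j then X - Polynomial.C (x i) else (1 : k[X])) =
      ∏ s : T, (if s.1 = j then X - Polynomial.C (y s.1 s.2) else (1 : k[X])) := by
    refine Fintype.prod_equiv σ _ _ fun i => ?_
    rw [hσ i]
  rw [h3, Fintype.prod_sigma, Finset.prod_eq_single j]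
  · simp only [if_true]
    exact hy j
  · intro j' _ hj'
    refine Finset.prod_eq_one fun t _ => ?_
    rw [if_neg hj']
  · intro hj
    exact absurd (Finset.mem_univ j) hj

end matching

end Pool.Agent.H500.MW
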