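import Pool.Agent.H500.MWD

set_option autoImplicit false
set_option linter.unusedSectionVars false

/-!
# The slopes do not depend on the prime
-/

namespace Pool.Agent.H500.MW

open NumberField IsDedekindDomain Filter Topology Polynomial
open Pool.Agent.H500.Tr (om om_open om_frob om_inert)
open Pool.Agent.Y800 (GQ ZBar QBar Unramified IsGeomFrob)
open Pool.Agent.W401.Cheb (dens)

section ru

/-- roots of unity of bounded degree -/
theorem order_dvd {x : QBar} {d : ℕ} (hd : (minpoly ℚ x).natDegree ≤ d) {m : ℕ} (hm : 0 < m)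
    (hx : x ^ m = 1) : x ^ (2 * d).factorial = 1 := by
  have hfin : IsOfFinOrder x := isOfFinOrder_iff_pow_eq_one.2 ⟨m, hm, hx⟩
  have hprim : IsPrimitiveRoot x (orderOf x) := IsPrimitiveRoot.orderOf x
  have ho : 0 < orderOf x := hfin.orderOf_pos
  have hint : IsIntegral ℤ x := hprim.isIntegral ho
  have htot : Nat.totient (orderOf x) ≤ d := by
    have h1 := hprim.totient_le_degree_minpoly
    have h2 : (minpoly ℚ x).natDegree = (minpoly ℤ x).natDegree := by
      rw [minpoly.isIntegrallyClosed_eq_field_fractions' ℚ hint,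
        (minpoly.monic hint).natDegree_map]
    rw [h2] at hd
    refine h1.trans (le_trans (le_of_eq ?_) hd)
    congr!
  rw [← orderOf_dvd_iff_pow_eq_one]
  rw [Nat.dvd_iff_prime_pow_dvd_dvd]
  intro p k hp hpk
  rcases Nat.eq_zero_or_pos k with hk | hk
  · rw [hk, pow_zero]
    exact one_dvd _
  · have h1 : Nat.totient (p ^ k) ≤ d :=
      (Nat.le_of_dvd (Nat.totient_pos.2 ho) (Nat.totient_dvd_of_dvd hpk)).trans htot
    rw [Nat.totient_prime_pow hp hk] at h1
    have h2 : p ^ k ≤ 2 * d := by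
      have h3 : p ^ k = p ^ (k - 1) * p := by
        rw [← pow_succ, Nat.sub_add_cancel hk]
      have h4 : p ≤ 2 * (p - 1) := by
        have := hp.two_le
        omega
      calc p ^ k = p ^ (k - 1) * p := h3
        _ ≤ p ^ (k - 1) * (2 * (p - 1)) := Nat.mul_le_mul_left _ h4
        _ = 2 * (p ^ (k - 1) * (p - 1)) := by ring
        _ ≤ 2 * d := Nat.mul_le_mul_left 2 h1
    exact Nat.dvd_factorial (pow_pos hp.pos k) h2

end ru

section

variable {E : Type} [Field E] [NumberField E]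

theorem dens_exists {ι : Type} [Fintype ι] (P : ι → HeightOneSpectrum (𝓞 E) → Prop)
    (hP : ∀ i, Tendsto (dens (P i)) atTop (𝓝 0)) :
    Tendsto (dens fun v => ∃ i, P i v) atTop (𝓝 0) := by
  classical
  have key : ∀ s : Finset ι, Tendsto (dens fun v => ∃ i ∈ s, P i v) atTop (𝓝 0) := by
    intro s
    induction s using Finset.induction_on with
    | empty =>
      refine Pool.Agent.H500.Kum.dens_fin _ ?_
      have : {v : HeightOneSpectrum (𝓞 E) | ∃ i ∈ (∅ : Finset ι), P i v} = ∅ := by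
        ext v
        simp
      rw [this]
      exact Set.finite_empty
    | insert i s _ ih =>
      have h1 := (hP i).add ih
      rw [add_zero] at h1
      refine squeeze_zero (fun N => Pool.Agent.W528.Ord.dens_nonneg _ N) (fun N => ?_) h1
      refine le_trans (Pool.Agent.W528.Ord.dens_mono (Q := fun v => P i v ∨ ∃ i ∈ s, P i v) ?_ N)
        (Pool.Agent.W528.Ord.dens_or _ _ N)
      rintro v ⟨j, hj, hjv⟩
      rw [Finset.mem_insert] at hj
      rcases hj with rfl | hj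
      · exact Or.inl hjv
      · exact Or.inr ⟨j, hj, hjv⟩
  have h1 := key Finset.univ
  simpa using h1

variable {j0 : E →+* QBar} {n : ℕ} {α : ℕ → Fin n → ZBar} {S : Finset ℕ} {C M : ℕ}
  {v : HeightOneSpectrum (𝓞 E)}

theorem Loc.cast_mem (L : Loc j0 α S C M v) {a : ℕ} : (a : 𝓞 E) ∈ v.asIdeal ↔ (a : L.k) = 0 := by
  rw [← L.hker, RingHom.mem_ker, map_natCast]

theorem Loc.l_mem (L : Loc j0 α S C M v) : (L.l : 𝓞 E) ∈ v.asIdeal := by
  rw [L.cast_mem]
  exact CharP.cast_eq_zero _ _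

theorem Loc.ne_l (L : Loc j0 α S C M v) {p : ℕ} (hp : (p : 𝓞 E) ∉ v.asIdeal) : p ≠ L.l := by
  rintro rfl
  exact hp L.l_mem

/-- the value of the cyclotomic character at a geometric Frobenius element -/
theorem om_geom (l : ℕ) [hl : Fact l.Prime] (k : Type) [Field k] [CharP k l] {p : ℕ} (hp : p.Prime)
    (hpl : p ≠ l) {Q : Ideal ZBar} (hQ : Q.IsMaximal) (hpQ : (p : ZBar) ∈ Q) {σ : GQ}
    (hσ : IsGeomFrob p Q σ) :
    ((Units.map (ZMod.castHom (dvd_refl l) k : ZMod l →* k) (om l σ)⁻¹ : kˣ) : k) = (p : k) := by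
  have h1 := Pool.Agent.Y800.arith_of_geom hσ
  have hlQ : (l : Pool.Agent.W569.FM.OO ℚ) ∉ Q := fun h =>
    Pool.Agent.H500.Tr.not_both hQ.ne_top ((Nat.coprime_primes hl.out hp).2 hpl.symm) h hpQ
  have h2 : (om l σ⁻¹ : ZMod l) = p := om_frob hlQ h1
  rw [← map_inv]
  show (ZMod.castHom (dvd_refl l) k) (om l σ⁻¹ : ZMod l) = (p : k)
  rw [h2, map_natCast]

/-- the blocks at a Frobenius element -/
theorem Loc.block (L : Loc j0 α S C M v) {p : ℕ} (hp : p.Prime) (hpS : p ∉ S) (hpl : p ≠ L.l)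
    {Q : Ideal ZBar} (hQ : Q.IsMaximal) (hpQ : (p : ZBar) ∈ Q) {σ : GQ} (hσ : IsGeomFrob p Q σ) :
    open scoped Classical in
    ∃ b : Fin n → L.J,
      (∀ j, (L.ρ j σ : Matrix (Fin (L.m j)) (Fin (L.m j)) L.k).charpoly =
        ∏ i with b i = j, (X - Polynomial.C (L.ψ (α p i)))) ∧
      (∀ i, L.ψ (α p i) ^ M = (p : L.k) ^ L.e (b i)) ∧
      ∀ j, (Finset.univ.filter fun i => b i = j).card = L.m j := by
  classical
  obtain ⟨b, hb⟩ := matching (fun i => L.ψ (α p i))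
    (fun j => (L.ρ j σ : Matrix (Fin (L.m j)) (Fin (L.m j)) L.k).charpoly)
    (fun j => Matrix.charpoly_monic _) (L.hfrob p hp hpS hpl Q hQ hpQ σ hσ)
  refine ⟨b, hb, fun i => ?_, fun j => ?_⟩
  · rw [← om_geom L.l L.k hp hpl hQ hpQ hσ]
    apply L.he (b i) σ
    rw [hb (b i), IsRoot, eval_prod]
    refine Finset.prod_eq_zero (i := i) (by simp) ?_
    simp
  · have h1 := congrArg natDegree (hb j)
    rw [natDegree_prod_of_monic _ _ (fun i _ => monic_X_sub_C _)] at h1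
    simp only [Matrix.charpoly_natDegree_eq_dim, Fintype.card_fin, natDegree_X_sub_C,
      Finset.sum_const, smul_eq_mul, mul_one] at h1
    exact h1.symm

/-- **The slopes at two primes are the same.** -/
theorem slopes_eq (hM : 0 < M) (hα0 : ∀ p : ℕ, p.Prime → p ∉ S → ∀ i, α p i ≠ 0)
    {Λ : HeightOneSpectrum (𝓞 E) → Prop} (hΛ : PosUD Λ)
    (hloc : ∀ v, Λ v → Nonempty (Loc j0 α S C M v)) {p q : ℕ} (hp : p.Prime) (hpS : p ∉ S)
    (hq : q.Prime) (hqS : q ∉ S) (hpq : p ≠ q) :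
    ∃ π : Fin n ≃ Fin n, ∀ i, ∃ c : ℚ, Sl p (α p i) c ∧ Sl q (α q (π i)) c := by
  classical
  set Rel : Fin n × Fin n → Prop := fun x => ∃ N a : ℕ, 0 < N ∧
    α p x.1 ^ N = (p : ZBar) ^ a ∧ α q x.2 ^ N = (q : ZBar) ^ a with hRel
  set Z : Fin n × Fin n → HeightOneSpectrum (𝓞 E) → Prop := fun x v => ¬ Rel x ∧
    ∃ (k : Type) (_ : Field k) (ψ : ZBar →+* k),
      RingHom.ker (ψ.comp (RingOfIntegers.mapRingHom j0)) = v.asIdeal ∧
      ∃ e : ℕ, ψ (α p x.1) ^ M = (p : k) ^ e ∧ ψ (α q x.2) ^ M = (q : k) ^ e with hZ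
  have hZ0 : ∀ x, Tendsto (dens (Z x)) atTop (𝓝 0) := by
    intro x
    by_cases hx : Rel x
    · refine Pool.Agent.H500.Kum.dens_fin _ ?_
      have : {v : HeightOneSpectrum (𝓞 E) | Z x v} = ∅ := by
        ext v
        simp only [hZ, Set.mem_ofPred_eq, Set.mem_empty_iff_false, iff_false]
        rintro ⟨h, _⟩
        exact h hx
      rw [this]
      exact Set.finite_empty
    · have h1 := descZ j0 hp hq hpq (hα0 p hp hpS x.1) (hα0 q hq hqS x.2) hM (by
        rintro N a hN ⟨h2, h3⟩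
        exact hx ⟨N, a, hN, h2, h3⟩)
      refine squeeze_zero (fun N => Pool.Agent.W528.Ord.dens_nonneg _ N) (fun N => ?_) h1
      exact Pool.Agent.W528.Ord.dens_mono (fun v hv => hv.2) N
  obtain ⟨v, ⟨⟨hv, hvZ⟩, hpv⟩, hqv⟩ := (((hΛ.diff (dens_exists Z hZ0)).diff
    (Pool.Agent.H500.Kum.dens_fin _ (Pool.Agent.H500.Kum.fin_mem (x := (p : 𝓞 E))
      (Nat.cast_ne_zero.2 hp.ne_zero)))).diff
    (Pool.Agent.H500.Kum.dens_fin _ (Pool.Agent.H500.Kum.fin_mem (x := (q : 𝓞 E))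
      (Nat.cast_ne_zero.2 hq.ne_zero)))).nonempty
  obtain ⟨L⟩ := hloc v hv
  obtain ⟨P1, σ1, hP1, hpP1, hσ1⟩ := Pool.Agent.Y800.exists_geom hp
  obtain ⟨P2, σ2, hP2, hqP2, hσ2⟩ := Pool.Agent.Y800.exists_geom hq
  obtain ⟨b1, -, hb1, hc1⟩ := L.block hp hpS (L.ne_l hpv) hP1 hpP1 hσ1
  obtain ⟨b2, -, hb2, hc2⟩ := L.block hq hqS (L.ne_l hqv) hP2 hqP2 hσ2
  have hc : ∀ j, Fintype.card {i // b1 i = j} = Fintype.card {i // b2 i = j} := by
    intro j
    rw [Fintype.card_subtype, Fintype.card_subtype]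
    have h1 := hc1 j
    have h2 := hc2 j
    convert h1.trans h2.symm
  set π : Fin n ≃ Fin n := Equiv.ofFiberEquiv fun j => Fintype.equivOfCardEq (hc j) with hπ
  have hπb : ∀ i, b2 (π i) = b1 i := fun i => Equiv.ofFiberEquiv_map _ i
  refine ⟨π, fun i => ?_⟩
  have hrel : Rel (i, π i) := by
    by_contra hx
    apply hvZ
    refine ⟨(i, π i), hx, L.k, inferInstance, L.ψ, L.hker, L.e (b1 i), hb1 i, ?_⟩
    have h1 := hb2 (π i)
    rw [hπb i] at h1
    exact h1
  obtain ⟨N, a, hN, h1, h2⟩ := hrel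
  have hN0 : (N : ℚ) ≠ 0 := by exact_mod_cast hN.ne'
  exact ⟨a / N, ⟨N, a, hN, h1, by field_simp⟩, ⟨N, a, hN, h2, by field_simp⟩⟩

end

end Pool.Agent.H500.MW
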