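import Pool.Graph.R_seed8.Y800.Diag

set_option autoImplicit false
set_option linter.unusedSectionVars false

/-!
# Direct sums of representations
-/

namespace Pool.Agent.H500.MW

open Polynomial
open Pool.Agent.Y800 (IsSemisimpleRep Stable)

section maschke

variable {k : Type} [Field k] {n : ℕ}

/-- **Maschke's theorem** -/
theorem maschke {G : Type} [Group G] (ρ : G →* GL (Fin n) k) (hR : Finite ρ.range)
    (hcard0 : (Nat.card ρ.range : k) ≠ 0) : IsSemisimpleRep ρ := by
  classical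
  intro W hW
  have := Fintype.ofFinite ρ.range
  obtain ⟨π, hπ⟩ := W.exists_isCompl
  obtain ⟨p, hp⟩ : ∃ p : (Fin n → k) →ₗ[k] (Fin n → k), (∀ v, p v ∈ W) ∧ ∀ w ∈ W, p w = w := by
    refine ⟨W.subtype ∘ₗ W.projectionOnto π hπ, fun v => ?_, fun w hw => ?_⟩
    · exact (W.projectionOnto π hπ v).2
    · have := Submodule.projectionOnto_apply_left hπ ⟨w, hw⟩
      rw [LinearMap.comp_apply]
      simp [this]
  obtain ⟨hp1, hp2⟩ := hp
  let L : ρ.range → ((Fin n → k) →ₗ[k] (Fin n → k)) := fun h =>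
    Matrix.toLin' ((h.1 : GL (Fin n) k) : Matrix (Fin n) (Fin n) k)
  have hLmul : ∀ h h' : ρ.range, L (h * h') = L h ∘ₗ L h' := by
    intro h h'
    show Matrix.toLin' _ = _
    rw [Subgroup.coe_mul, Units.val_mul, Matrix.toLin'_mul]
  have hL1 : L 1 = LinearMap.id := by
    show Matrix.toLin' _ = _
    rw [Subgroup.coe_one, Units.val_one, Matrix.toLin'_one]
  have hLW : ∀ (h : ρ.range), ∀ w ∈ W, L h w ∈ W := by
    rintro ⟨_, g, rfl⟩ w hw
    exact hW g w hw
  let q : (Fin n → k) →ₗ[k] (Fin n → k) :=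
    (Fintype.card ρ.range : k)⁻¹ • ∑ h : ρ.range, L h ∘ₗ p ∘ₗ L h⁻¹
  have hcard : (Fintype.card ρ.range : k) ≠ 0 := by
    rw [← Nat.card_eq_fintype_card]
    exact hcard0
  have hqW : ∀ v, q v ∈ W := by
    intro v
    show ((Fintype.card ρ.range : k)⁻¹ • ∑ h : ρ.range, L h ∘ₗ p ∘ₗ L h⁻¹) v ∈ W
    rw [LinearMap.smul_apply, LinearMap.sum_apply]
    exact W.smul_mem _ (W.sum_mem fun h _ => hLW h _ (hp1 _))
  have hqw : ∀ w ∈ W, q w = w := by
    intro w hw
    show ((Fintype.card ρ.range : k)⁻¹ • ∑ h : ρ.range, L h ∘ₗ p ∘ₗ L h⁻¹) w = w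
    rw [LinearMap.smul_apply, LinearMap.sum_apply]
    have h1 : ∀ h : ρ.range, (L h ∘ₗ p ∘ₗ L h⁻¹) w = w := by
      intro h
      rw [LinearMap.comp_apply, LinearMap.comp_apply, hp2 _ (hLW _ w hw), ← LinearMap.comp_apply,
        ← hLmul, mul_inv_cancel, hL1, LinearMap.id_apply]
    rw [Finset.sum_congr rfl fun h _ => h1 h, Finset.sum_const, Finset.card_univ,
      ← Nat.cast_smul_eq_nsmul k, smul_smul, inv_mul_cancel₀ hcard, one_smul]
  have hqcomm : ∀ (h : ρ.range) v, q (L h v) = L h (q v) := by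
    intro h v
    show ((Fintype.card ρ.range : k)⁻¹ • ∑ h : ρ.range, L h ∘ₗ p ∘ₗ L h⁻¹) (L h v) =
      L h (((Fintype.card ρ.range : k)⁻¹ • ∑ h : ρ.range, L h ∘ₗ p ∘ₗ L h⁻¹) v)
    rw [LinearMap.smul_apply, LinearMap.sum_apply, LinearMap.smul_apply, LinearMap.sum_apply,
      map_smul, map_sum]
    congr 1
    refine Fintype.sum_equiv (Equiv.mulLeft h⁻¹) _ _ (fun g => ?_)
    show L g (p (L g⁻¹ (L h v))) = L h (L (h⁻¹ * g) (p (L (h⁻¹ * g)⁻¹ v)))
    rw [← LinearMap.comp_apply (L g⁻¹) (L h), ← hLmul, ← LinearMap.comp_apply (L h), ← hLmul,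
      mul_inv_cancel_left, mul_inv_rev, inv_inv]
  refine ⟨LinearMap.ker q, ?_, ?_⟩
  · intro g w hw
    rw [LinearMap.mem_ker] at hw ⊢
    have := hqcomm ⟨ρ g, g, rfl⟩ w
    rw [hw, map_zero] at this
    exact this
  · constructor
    · rw [Submodule.disjoint_def]
      intro x hx hx'
      rw [LinearMap.mem_ker, hqw x hx] at hx'
      exact hx'
    · rw [codisjoint_iff, eq_top_iff]
      intro v _
      rw [Submodule.mem_sup]
      refine ⟨q v, hqW v, v - q v, ?_, by abel⟩
      rw [LinearMap.mem_ker, map_sub, hqw _ (hqW v), sub_self]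

end maschke

section two

variable {k : Type} [Field k] {a b : ℕ}

/-- block diagonal matrices with two blocks -/
def B2 (M : Matrix (Fin a) (Fin a) k) (N : Matrix (Fin b) (Fin b) k) :
    Matrix (Fin (a + b)) (Fin (a + b)) k :=
  Matrix.reindex finSumFinEquiv finSumFinEquiv (Matrix.fromBlocks M 0 0 N)

theorem B2_one : B2 (1 : Matrix (Fin a) (Fin a) k) (1 : Matrix (Fin b) (Fin b) k) = 1 := by
  unfold B2
  rw [Matrix.fromBlocks_one, Matrix.reindex_apply, Matrix.submatrix_one_equiv]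

theorem B2_mul (M M' : Matrix (Fin a) (Fin a) k) (N N' : Matrix (Fin b) (Fin b) k) :
    B2 (M * M') (N * N') = B2 M N * B2 M' N' := by
  unfold B2
  rw [Matrix.reindex_apply, Matrix.reindex_apply, Matrix.reindex_apply,
    Matrix.submatrix_mul_equiv, Matrix.fromBlocks_multiply]
  simp

theorem B2_diag (d : Fin a → k) (e : Fin b → k) :
    B2 (Matrix.diagonal d) (Matrix.diagonal e) = Matrix.diagonal (Fin.append d e) := by
  unfold B2
  rw [Matrix.fromBlocks_diagonal, Matrix.reindex_apply, Matrix.submatrix_diagonal_equiv]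
  congr 1
  ext i
  refine Fin.addCases (fun i => ?_) (fun i => ?_) i
  · simp
  · simp

theorem B2_charpoly (M : Matrix (Fin a) (Fin a) k) (N : Matrix (Fin b) (Fin b) k) :
    (B2 M N).charpoly = M.charpoly * N.charpoly := by
  unfold B2
  rw [Matrix.charpoly_reindex, Matrix.charpoly_fromBlocks_zero₁₂]

theorem B2_mulVec (M : Matrix (Fin a) (Fin a) k) (N : Matrix (Fin b) (Fin b) k)
    (v : Fin (a + b) → k) :
    (B2 M N).mulVec v = Fin.append (M.mulVec fun i => v (Fin.castAdd b i))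
      (N.mulVec fun i => v (Fin.natAdd a i)) := by
  unfold B2
  rw [Matrix.reindex_apply, Matrix.submatrix_mulVec_equiv, Matrix.fromBlocks_mulVec]
  ext i
  refine Fin.addCases (fun i => ?_) (fun i => ?_) i
  · simp
    rfl
  · simp
    rfl

/-- block diagonal invertible matrices -/
noncomputable def blk : GL (Fin a) k × GL (Fin b) k →* GL (Fin (a + b)) k :=
  MonoidHom.toHomUnits
    { toFun := fun x => B2 (x.1 : Matrix (Fin a) (Fin a) k) (x.2 : Matrix (Fin b) (Fin b) k)
      map_one' := B2_one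
      map_mul' := fun _ _ => B2_mul _ _ _ _ }

theorem blk_coe (x : GL (Fin a) k × GL (Fin b) k) : (blk x : Matrix (Fin (a + b)) (Fin (a + b)) k) =
    B2 (x.1 : Matrix (Fin a) (Fin a) k) (x.2 : Matrix (Fin b) (Fin b) k) := rfl

variable {G : Type} [Group G]

/-- the direct sum of two representations -/
noncomputable def dsum (ρ : G →* GL (Fin a) k) (ρ' : G →* GL (Fin b) k) :
    G →* GL (Fin (a + b)) k := blk.comp (ρ.prod ρ')

variable (ρ : G →* GL (Fin a) k) (ρ' : G →* GL (Fin b) k)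

theorem dsum_coe (g : G) : (dsum ρ ρ' g : Matrix (Fin (a + b)) (Fin (a + b)) k) =
    B2 (ρ g : Matrix (Fin a) (Fin a) k) (ρ' g : Matrix (Fin b) (Fin b) k) := rfl

theorem dsum_charpoly (g : G) : (dsum ρ ρ' g : Matrix (Fin (a + b)) (Fin (a + b)) k).charpoly =
    (ρ g : Matrix (Fin a) (Fin a) k).charpoly * (ρ' g : Matrix (Fin b) (Fin b) k).charpoly := by
  rw [dsum_coe, B2_charpoly]

theorem dsum_one {g : G} (h : ρ g = 1) (h' : ρ' g = 1) : dsum ρ ρ' g = 1 := by
  show blk (ρ g, ρ' g) = 1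
  rw [h, h']
  exact map_one blk

/-- diagonalizable matrices -/
def Diag {m : ℕ} (M : Matrix (Fin m) (Fin m) k) : Prop :=
  ∃ (h : GL (Fin m) k) (d : Fin m → k), M = (h : Matrix (Fin m) (Fin m) k) * Matrix.diagonal d *
    ((h⁻¹ : GL (Fin m) k) : Matrix (Fin m) (Fin m) k)

theorem dsum_diag {g : G} (h : Diag (ρ g : Matrix (Fin a) (Fin a) k))
    (h' : Diag (ρ' g : Matrix (Fin b) (Fin b) k)) :
    Diag (dsum ρ ρ' g : Matrix (Fin (a + b)) (Fin (a + b)) k) := by
  obtain ⟨x, d, hx⟩ := h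
  obtain ⟨y, e, hy⟩ := h'
  refine ⟨blk (x, y), Fin.append d e, ?_⟩
  rw [← map_inv, dsum_coe, blk_coe, blk_coe, ← B2_diag, hx, hy]
  show _ = B2 (x : Matrix (Fin a) (Fin a) k) (y : Matrix (Fin b) (Fin b) k) * _ *
    B2 ((x⁻¹ : GL (Fin a) k) : Matrix (Fin a) (Fin a) k) ((y⁻¹ : GL (Fin b) k) : Matrix (Fin b) (Fin b) k)
  rw [B2_mul, B2_mul]

theorem dsum_ss (h : IsSemisimpleRep ρ) (h' : IsSemisimpleRep ρ') : IsSemisimpleRep (dsum ρ ρ') := by
  intro W hW
  set i1 : (Fin a → k) →ₗ[k] (Fin (a + b) → k) :=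
    { toFun := fun u => Fin.append u 0
      map_add' := fun u v => by
        ext i
        refine Fin.addCases (fun i => ?_) (fun i => ?_) i <;> simp
      map_smul' := fun c u => by
        ext i
        refine Fin.addCases (fun i => ?_) (fun i => ?_) i <;> simp } with hi1
  set i2 : (Fin b → k) →ₗ[k] (Fin (a + b) → k) :=
    { toFun := fun u => Fin.append 0 u
      map_add' := fun u v => by
        ext i
        refine Fin.addCases (fun i => ?_) (fun i => ?_) i <;> simp
      map_smul' := fun c u => by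
        ext i
        refine Fin.addCases (fun i => ?_) (fun i => ?_) i <;> simp } with hi2
  set p1 : (Fin (a + b) → k) →ₗ[k] (Fin a → k) := LinearMap.funLeft k k (Fin.castAdd b) with hp1
  set p2 : (Fin (a + b) → k) →ₗ[k] (Fin b → k) := LinearMap.funLeft k k (Fin.natAdd a) with hp2
  have hp1i1 : ∀ u, p1 (i1 u) = u := fun u => by
    ext i
    show Fin.append u 0 (Fin.castAdd b i) = u i
    simp
  have hp2i1 : ∀ u, p2 (i1 u) = 0 := fun u => by
    ext i
    show Fin.append u (0 : Fin b → k) (Fin.natAdd a i) = 0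
    simp
  have hp1i2 : ∀ u, p1 (i2 u) = 0 := fun u => by
    ext i
    show Fin.append (0 : Fin a → k) u (Fin.castAdd b i) = 0
    simp
  have hp2i2 : ∀ u, p2 (i2 u) = u := fun u => by
    ext i
    show Fin.append 0 u (Fin.natAdd a i) = u i
    simp
  have hdec : ∀ v, v = i1 (p1 v) + i2 (p2 v) := fun v => by
    ext i
    refine Fin.addCases (fun i => ?_) (fun i => ?_) i
    · show v _ = Fin.append (p1 v) (0 : Fin b → k) _ + Fin.append (0 : Fin a → k) (p2 v) _
      simp
      rfl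
    · show v _ = Fin.append (p1 v) (0 : Fin b → k) _ + Fin.append (0 : Fin a → k) (p2 v) _
      simp
      rfl
  have hact : ∀ g v, (dsum ρ ρ' g : Matrix (Fin (a + b)) (Fin (a + b)) k).mulVec v =
      i1 ((ρ g : Matrix (Fin a) (Fin a) k).mulVec (p1 v)) +
      i2 ((ρ' g : Matrix (Fin b) (Fin b) k).mulVec (p2 v)) := by
    intro g v
    rw [dsum_coe, B2_mulVec]
    ext i
    refine Fin.addCases (fun i => ?_) (fun i => ?_) i
    · show _ = Fin.append _ (0 : Fin b → k) _ + Fin.append (0 : Fin a → k) _ _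
      simp
      rfl
    · show _ = Fin.append _ (0 : Fin b → k) _ + Fin.append (0 : Fin a → k) _ _
      simp
      rfl
  -- the two subspaces
  obtain ⟨C1, hC1, hc1⟩ := h (W.comap i1) (fun g u hu => by
    rw [Submodule.mem_comap] at hu ⊢
    have h1 := hW g _ hu
    rw [hact, hp1i1, hp2i1, Matrix.mulVec_zero, map_zero, add_zero] at h1
    exact h1)
  obtain ⟨C2, hC2, hc2⟩ := h' (W.map p2) (fun g u hu => by
    obtain ⟨w, hw, rfl⟩ := Submodule.mem_map.1 hu
    refine Submodule.mem_map.2 ⟨_, hW g w hw, ?_⟩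
    rw [hact, map_add, hp2i1, hp2i2, zero_add])
  refine ⟨C1.map i1 ⊔ C2.map i2, ?_, ?_⟩
  · intro g w hw
    obtain ⟨x, hx, y, hy, rfl⟩ := Submodule.mem_sup.1 hw
    obtain ⟨u, hu, rfl⟩ := Submodule.mem_map.1 hx
    obtain ⟨u', hu', rfl⟩ := Submodule.mem_map.1 hy
    rw [hact, map_add, map_add, hp1i1, hp2i1, hp1i2, hp2i2, add_zero, zero_add]
    exact Submodule.add_mem_sup (Submodule.mem_map_of_mem (hC1 g u hu))
      (Submodule.mem_map_of_mem (hC2 g u' hu'))
  · constructor
    · rw [Submodule.disjoint_def]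
      intro x hx hx'
      obtain ⟨y, hy, z, hz, rfl⟩ := Submodule.mem_sup.1 hx'
      obtain ⟨u, hu, rfl⟩ := Submodule.mem_map.1 hy
      obtain ⟨u', hu', rfl⟩ := Submodule.mem_map.1 hz
      have h1 : u' ∈ W.map p2 := ⟨_, hx, by rw [map_add, hp2i1, hp2i2, zero_add]⟩
      have h2 : u' = 0 := (Submodule.disjoint_def.1 hc2.disjoint) u' h1 hu'
      subst h2
      rw [map_zero, add_zero] at hx ⊢
      have h3 : u = 0 := (Submodule.disjoint_def.1 hc1.disjoint) u hx hu
      rw [h3, map_zero]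
    · rw [codisjoint_iff, eq_top_iff]
      intro v _
      have h1 : p2 v ∈ W.map p2 ⊔ C2 := by
        rw [hc2.sup_eq_top]
        trivial
      obtain ⟨w2, hw2, c2, hc2', h2⟩ := Submodule.mem_sup.1 h1
      obtain ⟨w, hw, rfl⟩ := Submodule.mem_map.1 hw2
      have h3 : p1 (v - w) ∈ W.comap i1 ⊔ C1 := by
        rw [hc1.sup_eq_top]
        trivial
      obtain ⟨w1, hw1, c1, hc1', h4⟩ := Submodule.mem_sup.1 h3
      rw [Submodule.mem_sup]
      refine ⟨w + i1 w1, W.add_mem hw hw1, i1 c1 + i2 c2,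
        Submodule.add_mem_sup (Submodule.mem_map_of_mem hc1') (Submodule.mem_map_of_mem hc2'), ?_⟩
      have h5 : v - w = i1 (p1 (v - w)) + i2 (p2 (v - w)) := hdec _
      rw [← h4, map_sub, ← h2, add_sub_cancel_left, map_add] at h5
      rw [sub_eq_iff_eq_add] at h5
      rw [h5]
      abel

theorem dsum_continuous [TopologicalSpace k] [TopologicalSpace G] [IsTopologicalGroup G]
    (h : Continuous ρ) (h' : Continuous ρ') : Continuous (dsum ρ ρ') := by
  have key : Continuous fun g => (dsum ρ ρ' g : Matrix (Fin (a + b)) (Fin (a + b)) k) := by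
    have e : (fun g => (dsum ρ ρ' g : Matrix (Fin (a + b)) (Fin (a + b)) k)) = fun g =>
        B2 (ρ g : Matrix (Fin a) (Fin a) k) (ρ' g : Matrix (Fin b) (Fin b) k) := rfl
    rw [e]
    unfold B2
    refine Continuous.matrix_reindex ?_ _ _
    exact Continuous.matrix_fromBlocks (Units.continuous_val.comp h) continuous_const
      continuous_const (Units.continuous_val.comp h')
  rw [Units.continuous_iff]
  refine ⟨key, ?_⟩
  have e : (Units.val ∘ (fun g => (dsum ρ ρ' g)⁻¹)) = fun g =>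
      (dsum ρ ρ' g⁻¹ : Matrix (Fin (a + b)) (Fin (a + b)) k) := by
    funext g
    rw [map_inv]
    rfl
  show Continuous fun g => ((dsum ρ ρ' g)⁻¹ : GL (Fin (a + b)) k).1
  have e2 : (fun g => ((dsum ρ ρ' g)⁻¹ : GL (Fin (a + b)) k).1) = fun g =>
      (dsum ρ ρ' g⁻¹ : Matrix (Fin (a + b)) (Fin (a + b)) k) := by
    funext g
    rw [map_inv]
  rw [e2]
  exact key.comp continuous_inv

end two

section family

variable {k : Type} [Field k] {G : Type} [Group G]

/-- the direct sum of a finite family of representations -/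
theorem exists_sum {J : Type} [DecidableEq J] (m : J → ℕ) (ρ : ∀ j, G →* GL (Fin (m j)) k)
    (s : Finset J) : ∃ (N : ℕ) (R : G →* GL (Fin N) k),
      (∀ g, (R g : Matrix (Fin N) (Fin N) k).charpoly =
        ∏ j ∈ s, (ρ j g : Matrix (Fin (m j)) (Fin (m j)) k).charpoly) ∧
      ∀ g, (∀ j ∈ s, ρ j g = 1) → R g = 1 := by
  induction s using Finset.induction_on with
  | empty =>
    refine ⟨0, 1, fun g => ?_, fun g _ => rfl⟩
    rw [Finset.prod_empty]
    unfold Matrix.charpoly
    exact Matrix.det_isEmpty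
  | insert j s hj ih =>
    obtain ⟨N, R, h1, h2⟩ := ih
    refine ⟨m j + N, dsum (ρ j) R, fun g => ?_, fun g hg => ?_⟩
    · rw [dsum_charpoly, h1, Finset.prod_insert hj]
    · exact dsum_one _ _ (hg j (Finset.mem_insert_self _ _))
        (h2 g fun i hi => hg i (Finset.mem_insert_of_mem hi))

end family

end Pool.Agent.H500.MW
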