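import Pool.Agent.H500.MWF
import Pool.Agent.H500.MWG
import Pool.Graph.R_pool_sql_team_seeded_1acbe0a2.Y800.Resid2

set_option autoImplicit false
set_option linter.unusedSectionVars false

/-!
# The decomposition of a residual representation by slopes
-/

namespace Pool.Agent.H500.MW

open NumberField IsDedekindDomain Filter Topology Polynomial
open Pool.Agent.H500.Tr (om om_open om_frob om_inert)
open Pool.Agent.Y800 (GQ ZBar QBar Unramified IsGeomFrob cnt IsSemisimpleRep)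
open Pool.Agent.W401.Cheb (dens)

section

variable {E : Type} [Field E] [NumberField E] {j0 : E →+* QBar} {n : ℕ} {α : ℕ → Fin n → ZBar}
  {S : Finset ℕ} {C M : ℕ} {v : HeightOneSpectrum (𝓞 E)}

/-- powers of a prime number below the characteristic -/
theorem cast_pow_inj {l : ℕ} {k : Type} [Field k] [CharP k l] {p x y : ℕ} (hp : 1 < p)
    (hx : p ^ x < l) (hy : p ^ y < l) (h : (p : k) ^ x = (p : k) ^ y) : x = y := by
  have h1 : ((p ^ x : ℕ) : k) = ((p ^ y : ℕ) : k) := by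
    push_cast
    exact h
  have h2 := CharP.natCast_injOn_Iio k l (Set.mem_Iio.2 hx) (Set.mem_Iio.2 hy) h1
  exact Nat.pow_right_injective hp h2

/-- the prime `p` is consistent with the labels `c` -/
def Loc.Cons (L : Loc j0 α S C M v) (a : ℕ → Fin n → ℕ) (c : L.J → ℕ) (p : ℕ) : Prop :=
  ∀ i j, L.ψ (α p i) ^ M = (p : L.k) ^ L.e j → a p i = c j

variable (L : Loc j0 α S C M v) {N : ℕ} {a : ℕ → Fin n → ℕ}

/-- labels at the prime `p0` -/
theorem Loc.exists_label (ha : ∀ p : ℕ, p.Prime → p ∉ S → ∀ i, α p i ^ N = (p : ZBar) ^ a p i)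
    {A : ℕ} (hA : ∀ p : ℕ, p.Prime → p ∉ S → ∀ i, a p i ≤ A) {p0 T : ℕ} (hp0 : p0.Prime)
    (hp0S : p0 ∉ S) (hM : 0 < M) (hT0 : 0 < T) (hT : A * M ≤ T) (hl : p0 ^ T < L.l) :
    ∃ c : L.J → ℕ, (∀ j, (p0 : L.k) ^ (L.e j * N) = (p0 : L.k) ^ (c j * M)) ∧
      (∀ j, ∃ i, L.ψ (α p0 i) ^ M = (p0 : L.k) ^ L.e j ∧ a p0 i = c j) ∧ L.Cons a c p0 := by
  classical
  have hlp : p0 < L.l := by
    have h2 : p0 ^ 1 ≤ p0 ^ T := Nat.pow_le_pow_right hp0.pos hT0
    rw [pow_one] at h2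
    omega
  obtain ⟨Q, σ, hQ, hpQ, hσ⟩ := Pool.Agent.Y800.exists_geom hp0
  obtain ⟨b, -, hb, hc⟩ := L.block hp0 hp0S hlp.ne hQ hpQ hσ
  have hne : ∀ j, ∃ i, b i = j := by
    intro j
    have h1 : 0 < (Finset.univ.filter fun i => b i = j).card := by
      have h2 := hc j
      have h3 := L.hm j
      rw [← h2] at h3
      convert h3
    obtain ⟨i, hi⟩ := Finset.card_pos.1 h1
    exact ⟨i, (Finset.mem_filter.1 hi).2⟩
  choose i0 hi0 using hne
  have hpow : ∀ i j, L.ψ (α p0 i) ^ M = (p0 : L.k) ^ L.e j →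
      (p0 : L.k) ^ (L.e j * N) = (p0 : L.k) ^ (a p0 i * M) := by
    intro i j h
    rw [pow_mul, ← h, ← pow_mul, mul_comm M N, pow_mul, ← map_pow, ha p0 hp0 hp0S i, map_pow,
      map_natCast, ← pow_mul]
  refine ⟨fun j => a p0 (i0 j), fun j => ?_, fun j => ⟨i0 j, ?_, rfl⟩, ?_⟩
  · refine hpow (i0 j) j ?_
    have h1 := hb (i0 j)
    rw [hi0 j] at h1
    exact h1
  · have h1 := hb (i0 j)
    rw [hi0 j] at h1
    exact h1
  · intro i j hij
    have h1 := hpow i j hij
    have h2 : (p0 : L.k) ^ (L.e j * N) = (p0 : L.k) ^ (a p0 (i0 j) * M) := by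
      refine hpow (i0 j) j ?_
      have h1 := hb (i0 j)
      rw [hi0 j] at h1
      exact h1
    have h3 := h1.symm.trans h2
    have hlt : ∀ i, p0 ^ (a p0 i * M) < L.l := by
      intro i
      refine lt_of_le_of_lt (Nat.pow_le_pow_right hp0.pos ?_) hl
      exact (Nat.mul_le_mul_right M (hA p0 hp0 hp0S i)).trans hT
    have h4 := cast_pow_inj (l := L.l) hp0.one_lt (hlt i) (hlt (i0 j)) h3
    exact Nat.eq_of_mul_eq_mul_right hM h4

/-- the inconsistent primes satisfy a congruence modulo the characteristic -/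
theorem Loc.bad_pow (ha : ∀ p : ℕ, p.Prime → p ∉ S → ∀ i, α p i ^ N = (p : ZBar) ^ a p i)
    {A : ℕ} (hA : ∀ p : ℕ, p.Prime → p ∉ S → ∀ i, a p i ≤ A) {p0 : ℕ} (hp0 : p0.Prime)
    (hp0S : p0 ∉ S) {c : L.J → ℕ}
    (hc : ∀ j, (p0 : L.k) ^ (L.e j * N) = (p0 : L.k) ^ (c j * M))
    (hcA : ∀ j, ∃ i, a p0 i = c j) {I : ℕ}
    (hI : ∀ x y : ℕ, (p0 : ZMod L.l) ^ x = (p0 : ZMod L.l) ^ y → x * I ≡ y * I [MOD (L.l - 1)])
    {p : ℕ} (hp : p.Prime) (hpS : p ∉ S) (hpl : p ≠ L.l) (hbad : ¬ L.Cons a c p) :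
    (p : ZMod L.l) ^ (A.factorial * M * I) = 1 := by
  classical
  unfold Loc.Cons at hbad
  push Not at hbad
  obtain ⟨i, j, h1, h2⟩ := hbad
  have hinj : Function.Injective (ZMod.castHom (dvd_refl L.l) L.k) :=
    (ZMod.castHom (dvd_refl L.l) L.k).injective
  have hdown : ∀ (q x y : ℕ), (q : L.k) ^ x = (q : L.k) ^ y →
      (q : ZMod L.l) ^ x = (q : ZMod L.l) ^ y := by
    intro q x y h
    apply hinj
    rw [map_pow, map_pow, map_natCast]
    exact h
  have h3 : (p : L.k) ^ (L.e j * N) = (p : L.k) ^ (a p i * M) := by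
    rw [pow_mul, ← h1, ← pow_mul, mul_comm M N, pow_mul, ← map_pow, ha p hp hpS i, map_pow,
      map_natCast, ← pow_mul]
  have h4 := hdown p _ _ h3
  have h5 := hI _ _ (hdown p0 _ _ (hc j))
  have hpne : (p : ZMod L.l) ≠ 0 := by
    rw [Ne, ZMod.natCast_eq_zero_iff]
    intro h
    exact hpl ((Nat.prime_dvd_prime_iff_eq L.hl.out hp).1 h).symm
  have h6 : (p : ZMod L.l) ^ (L.l - 1) = 1 := ZMod.pow_card_sub_one_eq_one hpne
  have h7 : (p : ZMod L.l) ^ (L.e j * N * I) = (p : ZMod L.l) ^ (c j * M * I) := by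
    have h8 := pow_eq_pow_iff_modEq (x := Units.mk0 (p : ZMod L.l) hpne) (n := L.e j * N * I)
      (m := c j * M * I)
    have h9 : orderOf (Units.mk0 (p : ZMod L.l) hpne) ∣ L.l - 1 := by
      apply orderOf_dvd_of_pow_eq_one
      apply Units.ext
      rw [Units.val_pow_eq_pow_val, Units.val_mk0, h6, Units.val_one]
    have h10 := h8.2 (h5.of_dvd h9)
    have h11 := congrArg (fun u : (ZMod L.l)ˣ => (u : ZMod L.l)) h10
    simpa [Units.val_pow_eq_pow_val] using h11
  have h8 : (p : ZMod L.l) ^ (a p i * M * I) = (p : ZMod L.l) ^ (c j * M * I) := by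
    rw [← h7, pow_mul, ← h4, ← pow_mul]
  have hcj : c j ≤ A := by
    obtain ⟨i', hi'⟩ := hcA j
    rw [← hi']
    exact hA p0 hp0 hp0S i'
  have key : ∀ x y : ℕ, x < y → y ≤ A →
      (p : ZMod L.l) ^ (x * M * I) = (p : ZMod L.l) ^ (y * M * I) →
      (p : ZMod L.l) ^ (A.factorial * M * I) = 1 := by
    intro x y hxy hyA h
    have h9 : (p : ZMod L.l) ^ ((y - x) * M * I) = 1 := by
      have h10 : y * M * I = x * M * I + (y - x) * M * I := by
        obtain ⟨d, rfl⟩ := Nat.exists_eq_add_of_lt hxy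
        have h11 : x + d + 1 - x = d + 1 := by omega
        rw [h11]
        ring
      rw [h10, pow_add] at h
      have h12 : (p : ZMod L.l) ^ (x * M * I) ≠ 0 := pow_ne_zero _ hpne
      have h13 : (p : ZMod L.l) ^ (x * M * I) * 1 =
          (p : ZMod L.l) ^ (x * M * I) * (p : ZMod L.l) ^ ((y - x) * M * I) := by
        rw [mul_one]
        exact h
      exact (mul_left_cancel₀ h12 h13).symm
    obtain ⟨t, ht⟩ := Nat.dvd_factorial (show 0 < y - x by omega) (show y - x ≤ A by omega)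
    have h14 : A.factorial * M * I = (y - x) * M * I * t := by
      rw [ht]
      ring
    rw [h14, pow_mul, h9, one_pow]
  rcases lt_or_gt_of_ne h2 with h9 | h9
  · exact key _ _ h9 hcj h8
  · exact key _ _ h9 (hA p hp hpS i) h8.symm

/-- **The inconsistent primes are rare.** -/
theorem Loc.bad_dens (ha : ∀ p : ℕ, p.Prime → p ∉ S → ∀ i, α p i ^ N = (p : ZBar) ^ a p i)
    {A : ℕ} (hA : ∀ p : ℕ, p.Prime → p ∉ S → ∀ i, a p i ≤ A) {p0 T : ℕ} (hp0 : p0.Prime)
    (hp0S : p0 ∉ S) (hM : 0 < M) (hT0 : 0 < T) (hl : p0 ^ T < L.l) {c : L.J → ℕ}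
    (hc : ∀ j, (p0 : L.k) ^ (L.e j * N) = (p0 : L.k) ^ (c j * M))
    (hcA : ∀ j, ∃ i, a p0 i = c j) {ε : ℝ} (hε : 0 < ε) :
    ∀ᶠ X : ℕ in atTop, (cnt {p : ℕ | ¬ (p ∉ S ∧ p ≠ L.l ∧ L.Cons a c p)} X : ℝ) ≤
      ((A.factorial * M : ℕ) / (T : ℝ) + ε) * (Nat.primeCounting X : ℝ) := by
  classical
  have hlp : p0 < L.l := by
    have h2 : p0 ^ 1 ≤ p0 ^ T := Nat.pow_le_pow_right hp0.pos hT0
    rw [pow_one] at h2
    omega
  have hpne : (p0 : ZMod L.l) ≠ 0 := by
    rw [Ne, ZMod.natCast_eq_zero_iff]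
    intro h
    exact hlp.ne' ((Nat.prime_dvd_prime_iff_eq L.hl.out hp0).1 h)
  set u : (ZMod L.l)ˣ := Units.mk0 (p0 : ZMod L.l) hpne with hu
  set o := orderOf u with ho
  have hopos : 0 < o := orderOf_pos u
  have hod : o ∣ L.l - 1 := by
    rw [← ZMod.card_units L.l]
    exact orderOf_dvd_card
  obtain ⟨I, hI⟩ := hod
  have hl1 : 0 < L.l - 1 := by
    have := L.hl.out.two_le
    omega
  have hI0 : 0 < I := by
    rcases Nat.eq_zero_or_pos I with h | h
    · rw [h, mul_zero] at hI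
      omega
    · exact h
  have hoT : T < o := by
    by_contra hlt
    push Not at hlt
    have h1 : (p0 : ZMod L.l) ^ o = 1 := by
      have h2 := congrArg Units.val (pow_orderOf_eq_one u)
      rw [Units.val_pow_eq_pow_val, Units.val_one] at h2
      exact h2
    have h2 : (p0 : ZMod L.l) ^ o = (p0 : ZMod L.l) ^ 0 := by rw [h1, pow_zero]
    have h3 := cast_pow_inj (l := L.l) hp0.one_lt
      (lt_of_le_of_lt (Nat.pow_le_pow_right hp0.pos hlt) hl)
      (by rw [pow_zero]; exact L.hl.out.one_lt) h2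
    omega
  have hmod : ∀ x y : ℕ, (p0 : ZMod L.l) ^ x = (p0 : ZMod L.l) ^ y →
      x * I ≡ y * I [MOD (L.l - 1)] := by
    intro x y h
    have h1 : u ^ x = u ^ y := by
      apply Units.ext
      rw [Units.val_pow_eq_pow_val, Units.val_pow_eq_pow_val, Units.val_mk0]
      exact h
    have h2 := pow_eq_pow_iff_modEq.1 h1
    rw [hI]
    exact Nat.ModEq.mul_right' I h2
  set H := A.factorial * M * I with hH
  have hH0 : 0 < H := Nat.mul_pos (Nat.mul_pos (Nat.factorial_pos A) hM) hI0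
  have hratio : (H : ℝ) / ((L.l : ℝ) - 1) ≤ (A.factorial * M : ℕ) / (T : ℝ) := by
    have h1 : ((L.l : ℝ) - 1) = (o : ℝ) * I := by
      have h2 : ((L.l - 1 : ℕ) : ℝ) = (L.l : ℝ) - 1 := by
        rw [Nat.cast_sub L.hl.out.one_le, Nat.cast_one]
      rw [← h2, hI, Nat.cast_mul]
    have hI0' : (0 : ℝ) < I := by exact_mod_cast hI0
    have ho0' : (0 : ℝ) < o := by exact_mod_cast hopos
    have hT0' : (0 : ℝ) < T := by exact_mod_cast hT0
    rw [h1, hH, Nat.cast_mul (A.factorial * M) I, mul_div_mul_right _ _ hI0'.ne']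
    apply div_le_div_of_nonneg_left (Nat.cast_nonneg _) hT0'
    exact_mod_cast hoT.le
  have h1 := cnt_pow L.l hH0 (half_pos hε)
  have h2 := Pool.Agent.Y800.cnt_finite (insert L.l S) (half_pos hε)
  filter_upwards [h1, h2] with X hX1 hX2
  have h3 : cnt {p : ℕ | ¬ (p ∉ S ∧ p ≠ L.l ∧ L.Cons a c p)} X ≤
      cnt {p : ℕ | p ≠ L.l ∧ (p : ZMod L.l) ^ H = 1} X + cnt ((insert L.l S : Finset ℕ) : Set ℕ) X := by
    refine le_trans (Set.ncard_le_ncard ?_ ((Pool.Agent.Y800.fin_cnt _ X).union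
      (Pool.Agent.Y800.fin_cnt _ X))) (Set.ncard_union_le _ _)
    rintro p ⟨hp, hpX, hpb⟩
    by_cases hpS : p ∈ insert L.l S
    · exact Or.inr ⟨hp, hpX, hpS⟩
    · left
      refine ⟨hp, hpX, ?_⟩
      rw [Finset.mem_insert, not_or] at hpS
      refine ⟨hpS.1, ?_⟩
      have h4 : ¬ L.Cons a c p := fun h => hpb ⟨hpS.2, hpS.1, h⟩
      exact L.bad_pow ha hA hp0 hp0S hc hcA hmod hp hpS.2 hpS.1 h4
  have h4 : (cnt {p : ℕ | ¬ (p ∉ S ∧ p ≠ L.l ∧ L.Cons a c p)} X : ℝ) ≤
      cnt {p : ℕ | p ≠ L.l ∧ (p : ZMod L.l) ^ H = 1} X +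
        cnt ((insert L.l S : Finset ℕ) : Set ℕ) X := by exact_mod_cast h3
  have hpi : (0 : ℝ) ≤ Nat.primeCounting X := Nat.cast_nonneg _
  have h5 := mul_le_mul_of_nonneg_right hratio hpi
  nlinarith

/-- **The part of a given slope.** -/
theorem Loc.slope_rep (hCl : C < L.l) (c : L.J → ℕ) (x : ℕ) :
    ∃ (n' : ℕ) (R : GQ →* GL (Fin n') L.k), IsOpen (R.ker : Set GQ) ∧ IsSemisimpleRep R ∧
      ∀ p : ℕ, p.Prime → p ∉ S → p ≠ L.l → L.Cons a c p → Unramified R p ∧
        ∀ Q : Ideal ZBar, Q.IsMaximal → (p : ZBar) ∈ Q → ∀ σ : GQ, IsGeomFrob p Q σ →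
          (R σ : Matrix (Fin n') (Fin n') L.k).charpoly =
            ∏ i with a p i = x, (X - Polynomial.C (L.ψ (α p i))) := by
  classical
  set s : Finset L.J := Finset.univ.filter fun j => c j = x with hs
  obtain ⟨n', R, hR1, hR2⟩ := exists_sum L.m L.ρ s
  have hopen : IsOpen (R.ker : Set GQ) := by
    refine Subgroup.isOpen_mono (H₁ := ⨅ j, (L.ρ j).ker) ?_ ?_
    · intro g hg
      exact hR2 g fun j _ => (Subgroup.mem_iInf.1 hg) j
    · rw [Subgroup.coe_iInf]
      exact isOpen_iInter_of_finite L.hopen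
  have hfinq : Finite (GQ ⧸ R.ker) := Subgroup.quotient_finite_of_isOpen _ hopen
  have hfin : Finite R.range := Finite.of_equiv _ (QuotientGroup.quotientKerEquivRange R).toEquiv
  refine ⟨n', R, hopen, maschke R hfin ?_, ?_⟩
  · intro h0
    have h1 : L.l ∣ Nat.card R.range := (CharP.cast_eq_zero_iff L.k L.l _).1 h0
    obtain ⟨⟨_, g, rfl⟩, hy⟩ := exists_prime_orderOf_dvd_card' (p := L.l) h1
    have hgl : (R g) ^ L.l = 1 := by
      have h2 := pow_orderOf_eq_one (⟨R g, g, rfl⟩ : R.range)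
      rw [hy] at h2
      exact congrArg Subtype.val h2
    have hone : ∀ j ∈ s, L.ρ j (g ^ C.factorial) = 1 := by
      intro j hj
      obtain ⟨U, hU0, hUC, hUs⟩ := L.hU j
      have hgU : g ^ C.factorial ∈ U := by
        obtain ⟨t, ht0, htU, ht⟩ := Subgroup.exists_pow_mem_of_index_ne_zero hU0 g
        obtain ⟨s', hs'⟩ := Nat.dvd_factorial ht0 (htU.trans hUC)
        rw [hs', pow_mul]
        exact U.pow_mem ht s'
      obtain ⟨z, hz⟩ := hUs _ hgU
      have hroot : (L.ρ j (g ^ C.factorial) : Matrix (Fin (L.m j)) (Fin (L.m j)) L.k).charpoly.IsRoot z := by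
        rw [IsRoot, Matrix.eval_charpoly, hz, Matrix.scalar_apply, ← Matrix.smul_one_eq_diagonal,
          sub_self]
        have : Nonempty (Fin (L.m j)) := ⟨⟨0, L.hm j⟩⟩
        exact Matrix.det_zero
      have hroot2 : (R (g ^ C.factorial) : Matrix (Fin n') (Fin n') L.k).charpoly.IsRoot z := by
        rw [hR1, IsRoot, eval_prod]
        exact Finset.prod_eq_zero hj hroot
      obtain ⟨w, hw, hw1⟩ := exists_eigen _ hroot2
      have h3 := pow_mulVec _ hw1 L.l
      rw [← Units.val_pow_eq_pow_val, map_pow, ← pow_mul, mul_comm C.factorial, pow_mul, hgl,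
        one_pow, Units.val_one, Matrix.one_mulVec] at h3
      obtain ⟨i, hi⟩ := Function.ne_iff.1 hw
      have h4 := congrFun h3 i
      simp only [Pi.smul_apply, smul_eq_mul] at h4
      have h5 : z ^ L.l = 1 := by
        have h6 : (1 : L.k) * w i = z ^ L.l * w i := by rw [one_mul]; exact h4
        exact (mul_right_cancel₀ hi h6).symm
      have h7 : (z - 1) ^ L.l = 0 := by
        rw [sub_pow_char, h5, one_pow, sub_self]
      have h8 : z = 1 := sub_eq_zero.1 (pow_eq_zero_iff L.hl.out.ne_zero |>.1 h7)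
      apply Units.ext
      rw [hz, h8, one_smul, Units.val_one]
    have h9 : (R g) ^ C.factorial = 1 := by
      rw [← map_pow]
      exact hR2 _ hone
    have h10 : orderOf (⟨R g, g, rfl⟩ : R.range) ∣ C.factorial := by
      apply orderOf_dvd_of_pow_eq_one
      exact Subtype.ext h9
    rw [hy] at h10
    exact absurd ((L.hl.out.dvd_factorial).1 h10) (not_le.2 hCl)
  · intro p hp hpS hpl hcons
    refine ⟨fun Q hQ hpQ τ hτ => hR2 τ fun j _ => L.hur j p hp hpS hpl Q hQ hpQ τ hτ,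
      fun Q hQ hpQ σ hσ => ?_⟩
    obtain ⟨b, hb1, hb2, -⟩ := L.block hp hpS hpl hQ hpQ hσ
    have hab : ∀ i, a p i = c (b i) := fun i => hcons i (b i) (hb2 i)
    rw [hR1]
    have h1 : ∀ j ∈ s, (L.ρ j σ : Matrix (Fin (L.m j)) (Fin (L.m j)) L.k).charpoly =
        ∏ i ∈ (Finset.univ.filter fun i => a p i = x) with b i = j,
          (X - Polynomial.C (L.ψ (α p i))) := by
      intro j hj
      rw [hb1 j]
      refine Finset.prod_congr ?_ fun _ _ => rfl
      ext i
      simp only [Finset.mem_filter, Finset.mem_univ, true_and]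
      constructor
      · intro h
        refine ⟨?_, h⟩
        rw [hab i, h]
        exact (Finset.mem_filter.1 hj).2
      · exact fun h => h.2
    rw [Finset.prod_congr rfl h1]
    refine (Finset.prod_fiberwise_of_maps_to ?_ _).trans ?_
    · intro i hi
      rw [hs, Finset.mem_filter]
      refine ⟨Finset.mem_univ _, ?_⟩
      rw [← hab i]
      exact (Finset.mem_filter.1 hi).2
    · refine Finset.prod_congr ?_ fun _ _ => rfl
      ext i
      simp

end

/-- the trace of a representation is not zero on a large set -/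
theorem trace_zero_false {k : Type} [Field k] {n' : ℕ} (hn' : 0 < n') (R : GQ →* GL (Fin n') k)
    (ho : IsOpen (R.ker : Set GQ)) (hss : IsSemisimpleRep R)
    (hne : ∀ m : ℕ, 1 ≤ m → m ≤ n' → (m : k) ≠ 0) (Z : Set ℕ) (c : ℝ) (hc : c * n' ^ 2 ≤ 1 / 4)
    (hZ : ∀ᶠ X : ℕ in atTop, (cnt Z X : ℝ) ≤ c * (Nat.primeCounting X : ℝ))
    (h : ∀ p : ℕ, p.Prime → p ∉ Z → ∀ Q : Ideal ZBar, Q.IsMaximal → (p : ZBar) ∈ Q →
      ∀ σ : GQ, IsGeomFrob p Q σ → (R σ : Matrix (Fin n') (Fin n') k).trace = 0) : False := by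
  classical
  obtain ⟨m, hm, μ, i1, i2, i3⟩ := Pool.Agent.Y800.exists_haar
  set T : Finset k := {0} with hT
  set D : Set GQ := {g : GQ | (R g : Matrix (Fin n') (Fin n') k).trace ∈ T} with hD
  have hDc : IsClosed D := Pool.Agent.Y800.isClosed_preimage R ho
    {x : GL (Fin n') k | (x : Matrix (Fin n') (Fin n') k).trace ∈ T}
  have hker : IsClosed (R.ker : Set GQ) := Subgroup.isClosed_of_isOpen _ ho
  have hμ := Pool.Agent.Y800.haar_ge μ D hDc (fun σ hσ τ => by
      show (R (τ * σ * τ⁻¹) : Matrix (Fin n') (Fin n') k).trace ∈ T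
      rw [Pool.Agent.Y800.trace_conj_inv]; exact hσ) Z c hZ (fun p hp hpZ Q hQ hpQ σ hσ => by
      show (R σ : Matrix (Fin n') (Fin n') k).trace ∈ T
      rw [h p hp hpZ Q hQ hpQ σ hσ]
      exact Finset.mem_singleton_self 0)
  have h4 := Pool.Agent.Y800.few_traces μ R hss hne T c hker hDc hμ (by linarith)
  obtain ⟨hf, h5⟩ := h4
  rw [hT, Finset.card_singleton, Nat.cast_one, one_pow] at h5
  have hcard : Nat.card (GQ ⧸ R.ker) = 1 := by
    have h6 : 0 < Nat.card (GQ ⧸ R.ker) := Nat.card_pos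
    have h7 : (Nat.card (GQ ⧸ R.ker) : ℝ) < 2 := by nlinarith
    have h8 : Nat.card (GQ ⧸ R.ker) < 2 := by exact_mod_cast h7
    omega
  have hc1 : c < 1 := by
    have h6 : (1 : ℝ) ≤ (n' : ℝ) ^ 2 := by
      have : (1 : ℝ) ≤ n' := by exact_mod_cast hn'
      nlinarith
    nlinarith
  have hempty : D = ∅ := by
    ext g
    simp only [Set.mem_empty_iff_false, iff_false]
    intro hg
    have h6 : R g = 1 := by
      have h7 : R.ker = ⊤ := by
        rw [← Subgroup.index_eq_one]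
        exact hcard
      have h8 : g ∈ R.ker := by rw [h7]; trivial
      exact h8
    have h7 : (R g : Matrix (Fin n') (Fin n') k).trace = 0 := Finset.mem_singleton.1 hg
    rw [h6, Units.val_one, Matrix.trace_one, Fintype.card_fin] at h7
    exact hne n' hn' le_rfl h7
  rw [hempty, MeasureTheory.measure_empty] at hμ
  have h6 : ENNReal.ofReal (1 - c) = 0 := le_antisymm hμ zero_le
  rw [ENNReal.ofReal_eq_zero] at h6
  linarith

end Pool.Agent.H500.MW
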