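import Pool.Agent.H500.TrA
import Pool.Agent.H500.KumCyc
import Pool.Graph.R_seed8.W215.FM.Gen
import Pool.Graph.R_seed8.W327.FM.TameAbs
import Pool.Graph.R_seed8.W258.FM.TameFin
import Pool.Graph.R_seed8.W569.FM.Span
import Pool.Graph.R_seed8.Y115.Chi

set_option autoImplicit false
set_option linter.unusedSectionVars false

/-!
# The `r`-part of a character of the absolute Galois group of `ℚ` with values in characteristic `l`
-/

namespace Pool.Agent.H500.Tr

open NumberField IsDedekindDomain Pool.Agent.W569.FM Pool.Agent.H500.Kum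

theorem sGEN : S_GEN := Pool.Agent.W215.FM.main

theorem sTAME : S_TAME := Pool.Agent.W327.FM.main Pool.Agent.W258.FM.main

theorem sFROB : S_FROB := Pool.Agent.W571.FM.main

section om

variable (l : ℕ) [hl : Fact l.Prime]

noncomputable def Dl : KD ℚ l := (exists_KD (fun _ => 1) (fun _ => one_ne_zero)).choose

/-- the mod `l` cyclotomic character -/
noncomputable def om : GF ℚ →* (ZMod l)ˣ := (Aff.lin l).comp (Dl l).Phi

theorem om_val (g : GF ℚ) : (om l g : ZMod l) = (Dl l).chi g := rfl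

theorem om_open : IsOpen ((om l).ker : Set (GF ℚ)) := by
  refine Subgroup.isOpen_mono ?_ (Dl l).isOpen_ker
  intro g hg
  show (Aff.lin l) ((Dl l).Phi g) = 1
  have h1 : (Dl l).Phi g = 1 := hg
  rw [h1, map_one]

variable {l}

theorem om_frob {P : Ideal (OO ℚ)} (hlP : (l : OO ℚ) ∉ P) {σ : GF ℚ} {p : ℕ}
    (hσ : FrobAt p P σ) : (om l σ : ZMod l) = p := by
  rw [om_val]
  apply (Dl l).chi_unique
  have e1 : (Dl l).z ^ (p : ZMod l).val = (Dl l).z ^ p := by
    rw [ZMod.val_natCast]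
    exact (pow_eq_pow_mod _ (Dl l).z_pow).symm
  rw [e1]
  refine Pool.Agent.Y115.Chi.root_eq (P := P) (l := l) hlP ?_ ?_ (hσ _) hl.out.ne_zero
  · rw [← smul_pow', (Dl l).z_pow, smul_one]
  · rw [← pow_mul, mul_comm, pow_mul, (Dl l).z_pow, one_pow]

theorem om_inert {P : Ideal (OO ℚ)} (hlP : (l : OO ℚ) ∉ P) {τ : GF ℚ}
    (hτ : InInertia P τ) : om l τ = 1 := by
  apply Units.ext
  rw [om_val]
  apply (Dl l).chi_unique
  rw [Units.val_one, ZMod.val_one, pow_one]
  refine Pool.Agent.Y115.Chi.root_eq (P := P) (l := l) hlP ?_ ?_ (hτ _) hl.out.ne_zero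
  · rw [← smul_pow', (Dl l).z_pow, smul_one]
  · exact (Dl l).z_pow

theorem om_surj : Function.Surjective (om l) := by
  intro t
  obtain ⟨g, hg⟩ := chi_surj (E := ℚ) (ι := Unit) (fun _ => l) (fun _ _ _ => rfl)
    (fun _ h => by
      rw [Rat.numberField_discr] at h
      have h1 := Int.natAbs_dvd_natAbs.2 h
      rw [Int.natAbs_natCast, Int.natAbs_one, Nat.dvd_one] at h1
      exact hl.out.one_lt.ne' h1) (fun _ => Dl l) (fun _ => t)
  exact ⟨g, hg ()⟩

end om

theorem finite_range {A : Type} [Group A] (f : GF ℚ →* A) (hf : IsOpen (f.ker : Set (GF ℚ))) :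
    Finite f.range := by
  have h1 : Finite (GF ℚ ⧸ f.ker) := Subgroup.quotient_finite_of_isOpen _ hf
  exact Finite.of_equiv _ (QuotientGroup.quotientKerEquivRange f).toEquiv

/-- **The `r`-part of a character.** -/
theorem rpart {l : ℕ} [hl : Fact l.Prime] {r : ℕ} (hr : r.Prime) (hrl : r ≠ l) {k : Type} [Field k]
    [CharP k l] (θ : GF ℚ →* kˣ) (hθ : IsOpen (θ.ker : Set (GF ℚ)))
    (hN : ∀ q : ℕ, q.Prime → q ≠ l → (∀ P : Ideal (OO ℚ), P.IsMaximal → (q : OO ℚ) ∈ P →
      ∀ τ, InInertia P τ → θ τ = 1) ∨ (q ≠ r ∧ ¬ r ∣ q - 1)) :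
    ∃ c a : ℕ, ¬ r ∣ c ∧ ∀ g, θ g ^ c = (Units.map (ZMod.castHom (dvd_refl l) k : ZMod l →* k)
      (om l g)) ^ a := by
  classical
  have hlp := hl.out
  -- the order of the image
  have hfinθ := finite_range θ hθ
  obtain ⟨e, c, hrc, hn⟩ := Nat.exists_eq_pow_mul_and_not_dvd (n := Nat.card θ.range)
    Nat.card_pos.ne' r hr.ne_one
  obtain ⟨e', c', hrc', hl1⟩ := Nat.exists_eq_pow_mul_and_not_dvd (n := l - 1)
    (by have := hlp.two_le; omega) r hr.ne_one
  have hc'0 : c' ≠ 0 := by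
    rintro rfl
    exact hrc' (dvd_zero r)
  have hθn : ∀ g, (θ g ^ c) ^ (r ^ e) = 1 := by
    intro g
    rw [← pow_mul, mul_comm, ← hn]
    have h1 : (⟨θ g, g, rfl⟩ : θ.range) ^ Nat.card θ.range = 1 := pow_card_eq_one'
    exact congrArg Subtype.val h1
  have hωn : ∀ g, (om l g ^ c') ^ (r ^ e') = 1 := by
    intro g
    rw [← pow_mul, mul_comm, ← hl1, ← ZMod.card_units l, ← Nat.card_eq_fintype_card]
    exact pow_card_eq_one'
  -- the combined homomorphism
  set f : GF ℚ →* kˣ × (ZMod l)ˣ := ((powMonoidHom c).comp θ).prod ((powMonoidHom c').comp (om l))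
    with hf
  have hf1 : ∀ g, (f g).1 = θ g ^ c := fun g => rfl
  have hf2 : ∀ g, (f g).2 = om l g ^ c' := fun g => rfl
  have hfopen : IsOpen (f.ker : Set (GF ℚ)) := by
    refine Subgroup.isOpen_mono (H₁ := θ.ker ⊓ (om l).ker) ?_ ?_
    · rintro g ⟨h1, h2⟩
      show f g = 1
      apply Prod.ext
      · rw [hf1, show θ g = 1 from h1, one_pow]
        rfl
      · rw [hf2, show om l g = 1 from h2, one_pow]
        rfl
    · exact hθ.inter (om_open l)
  have hfinf := finite_range f hfopen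
  set F : GF ℚ →* f.range := f.rangeRestrict with hF
  have hFopen : IsOpen (F.ker : Set (GF ℚ)) := by
    rw [hF, MonoidHom.ker_rangeRestrict]
    exact hfopen
  have hpow : ∀ x : f.range, x ^ (r ^ (e + e')) = 1 := by
    rintro ⟨_, g, rfl⟩
    apply Subtype.ext
    show f g ^ (r ^ (e + e')) = 1
    apply Prod.ext
    · show (f g).1 ^ (r ^ (e + e')) = 1
      rw [hf1, pow_add r, pow_mul, hθn, one_pow]
    · show (f g).2 ^ (r ^ (e + e')) = 1
      rw [hf2, pow_add r, mul_comm, pow_mul, hωn, one_pow]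
  have hPG : IsPGroup r f.range := fun x => ⟨e + e', hpow x⟩
  have hrfact : Fact r.Prime := ⟨hr⟩
  -- tame relation
  have htame : ∀ (q : ℕ), q.Prime → r ≠ q → ∀ P : Ideal (OO ℚ), P.IsMaximal → (q : OO ℚ) ∈ P →
      ∀ τ, InInertia P τ → (F τ) ^ (q - 1) = 1 := by
    intro q hq hrq P hP hqP τ hτ
    obtain ⟨⟨P1, hP1, hqP1, σ1, hσ1⟩, hconj⟩ := sFROB q hq
    obtain ⟨h1, -⟩ := sTAME r q hr hq hrq f.range hPG F hFopen P1 hP1 hqP1
    obtain ⟨g, hg⟩ := hconj P1 P hP1 hP hqP1 hqP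
    have h2 := h1 _ (hg τ hτ) σ1 hσ1
    have hcomm : ∀ a b : f.range, a * b = b * a := fun a b => mul_comm a b
    have h3 : F (g⁻¹ * τ * g) = F τ := by
      rw [map_mul, map_mul, map_inv, hcomm _ (F g), mul_inv_cancel_left]
    have h4 : F (σ1 * (g⁻¹ * τ * g) * σ1⁻¹) = F (g⁻¹ * τ * g) := by
      rw [map_mul, map_mul, map_inv, hcomm (F σ1), mul_inv_cancel_right]
    rw [h4, h3] at h2
    have h5 : F τ ^ (q - 1) * F τ = 1 * F τ := by
      rw [← pow_succ, Nat.sub_add_cancel hq.one_le, ← h2, one_mul]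
    exact mul_right_cancel h5
  -- inertia outside `l` is trivial
  have hout : ∀ (q : ℕ), q.Prime → q ≠ l → ∀ P : Ideal (OO ℚ), P.IsMaximal → (q : OO ℚ) ∈ P →
      ∀ τ, InInertia P τ → F τ = 1 := by
    intro q hq hql P hP hqP τ hτ
    rcases hN q hq hql with h | ⟨hqr, hrq⟩
    · apply Subtype.ext
      show f τ = 1
      apply Prod.ext
      · rw [hf1, h P hP hqP τ hτ, one_pow]
        rfl
      · have hlP : (l : OO ℚ) ∉ P := fun hl' =>
          not_both hP.ne_top ((Nat.coprime_primes hq hlp).2 hql) hqP hl'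
        rw [hf2, om_inert hlP hτ, one_pow]
        rfl
    · have h1 := htame q hq hqr.symm P hP hqP τ hτ
      have h2 := hpow (F τ)
      have hcop : Nat.Coprime (q - 1) (r ^ (e + e')) :=
        (Nat.Coprime.pow_left _ ((hr.coprime_iff_not_dvd).2 hrq)).symm
      rw [← orderOf_dvd_iff_pow_eq_one] at h1 h2
      have h3 := Nat.dvd_gcd h1 h2
      rw [hcop.gcd_eq_one, Nat.dvd_one, orderOf_eq_one_iff] at h3
      exact h3
  -- inertia at `l`
  obtain ⟨⟨P0, hP0, hlP0, σ0, hσ0⟩, hconj⟩ := sFROB l hlp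
  obtain ⟨-, τ0, hτ0, hcyc⟩ := sTAME r l hr hlp hrl f.range hPG F hFopen P0 hP0 hlP0
  have hgen : ∀ g, F g ∈ Subgroup.zpowers (F τ0) := by
    have key := sGEN (f.range ⧸ Subgroup.zpowers (F τ0))
      ((QuotientGroup.mk' (Subgroup.zpowers (F τ0))).comp F) (by
        refine Subgroup.isOpen_mono ?_ hFopen
        intro g hg
        show QuotientGroup.mk' (Subgroup.zpowers (F τ0)) (F g) = 1
        rw [show F g = 1 from hg, map_one]) (by
        intro P hP τ hτ
        obtain ⟨q, hq, hqP⟩ := Pool.Agent.W569.FM.exists_char P hP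
        show QuotientGroup.mk' (Subgroup.zpowers (F τ0)) (F τ) = 1
        by_cases hql : q = l
        · subst hql
          obtain ⟨g, hg⟩ := hconj P0 P hP0 hP hlP0 hqP
          have h1 := hcyc _ (hg τ hτ)
          have hcomm : ∀ a b : f.range, a * b = b * a := fun a b => mul_comm a b
          have h3 : F (g⁻¹ * τ * g) = F τ := by
            rw [map_mul, map_mul, map_inv, hcomm _ (F g), mul_inv_cancel_left]
          rw [h3] at h1
          exact (QuotientGroup.eq_one_iff _).2 h1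
        · rw [hout q hq hql P hP hqP τ hτ, map_one])
    intro g
    exact (QuotientGroup.eq_one_iff _).1 (key g)
  set x : kˣ := θ τ0 ^ c with hx
  set y : (ZMod l)ˣ := om l τ0 ^ c' with hy
  have hxy : ∀ g, ∃ n : ℤ, θ g ^ c = x ^ n ∧ om l g ^ c' = y ^ n := by
    intro g
    obtain ⟨n, hn⟩ := Subgroup.mem_zpowers_iff.1 (hgen g)
    have h1 : f τ0 ^ n = f g := by
      have := congrArg Subtype.val hn
      exact this
    refine ⟨n, ?_, ?_⟩
    · rw [← hf1, ← h1]
      rfl
    · rw [← hf2, ← h1]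
      rfl
  -- the order of `y`
  have hordy : orderOf y = r ^ e' := by
    apply Nat.dvd_antisymm
    · exact orderOf_dvd_of_pow_eq_one (hωn τ0)
    · obtain ⟨u, hu⟩ := IsCyclic.exists_generator (α := (ZMod l)ˣ)
      obtain ⟨g, hg⟩ := om_surj (l := l) u
      obtain ⟨n, -, hn⟩ := hxy g
      rw [hg] at hn
      have hordu : orderOf u = l - 1 := by
        rw [orderOf_eq_card_of_forall_mem_zpowers hu, Nat.card_eq_fintype_card,
          ZMod.card_units]
      have h1 : orderOf (u ^ c') = r ^ e' := by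
        rw [orderOf_pow, hordu, hl1, Nat.gcd_eq_right (dvd_mul_left c' _),
          Nat.mul_div_cancel _ (Nat.pos_of_ne_zero hc'0)]
      rw [← h1, hn]
      exact orderOf_dvd_of_mem_zpowers (Subgroup.zpow_mem_zpowers y n)
  -- the order of `x`
  have hordx : x ^ (r ^ e') = 1 := by
    have h1 : x ^ (l - 1) = 1 := by
      have h2 := htame l hlp hrl P0 hP0 hlP0 τ0 hτ0
      have h3 := congrArg Subtype.val h2
      have h4 : (f τ0) ^ (l - 1) = 1 := h3
      have h5 := congrArg Prod.fst h4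
      exact h5
    have h2 : x ^ (r ^ e) = 1 := hθn τ0
    rw [← orderOf_dvd_iff_pow_eq_one] at h1 h2 ⊢
    rw [hl1] at h1
    have h3 : Nat.Coprime (orderOf x) c' := by
      refine Nat.Coprime.coprime_dvd_left h2 ?_
      exact Nat.Coprime.pow_left _ ((hr.coprime_iff_not_dvd).2 hrc')
    exact h3.dvd_of_dvd_mul_right h1
  -- conclusion
  set j : (ZMod l)ˣ →* kˣ := Units.map (ZMod.castHom (dvd_refl l) k : ZMod l →* k) with hj
  have hjinj : Function.Injective j := Units.map_injective (ZMod.castHom (dvd_refl l) k).injective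
  have hY : IsPrimitiveRoot ((j y : kˣ) : k) (r ^ e') := by
    rw [IsPrimitiveRoot.coe_units_iff, ← hordy, ← orderOf_injective j hjinj y]
    exact IsPrimitiveRoot.orderOf _
  have hne : NeZero (r ^ e') := ⟨pow_ne_zero _ hr.ne_zero⟩
  obtain ⟨a, -, ha⟩ := hY.eq_pow_of_pow_eq_one (ξ := (x : k)) (by
    rw [← Units.val_pow_eq_pow_val, hordx, Units.val_one])
  have ha' : x = j y ^ a := Units.ext (ha.symm.trans (Units.val_pow_eq_pow_val _ _).symm)
  refine ⟨c, c' * a, hrc, fun g => ?_⟩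
  obtain ⟨n, h1, h2⟩ := hxy g
  calc θ g ^ c = x ^ n := h1
    _ = (j y ^ a) ^ n := by rw [ha']
    _ = (j (y ^ n)) ^ a := by
        rw [map_zpow, ← zpow_natCast, ← zpow_mul, ← zpow_natCast, ← zpow_mul, mul_comm]
    _ = (j (om l g)) ^ (c' * a) := by rw [← h2, map_pow, pow_mul]

end Pool.Agent.H500.Tr
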