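import Pool.Agent.H500.KumRes
import Pool.Agent.H500.TrB
import Pool.Graph.R_seed8.Y800.HM

set_option autoImplicit false
set_option linter.unusedSectionVars false

/-!
# Quadratic characters of the absolute Galois group of the rational numbers
-/

namespace Pool.Agent.H500.Quad

open NumberField IsDedekindDomain Pool.Agent.W569.FM Filter Topology
open Pool.Agent.H500.Kum Pool.Agent.H500.KumI Pool.Agent.H500.Tr
open Pool.Agent.W401.Cheb (dens)

theorem unram_of {E : Type} [Field E] [NumberField E] {p : ℕ} (hp : p.Prime) (h : ¬ (p : ℤ) ∣ discr E)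
    (v : HeightOneSpectrum (𝓞 E)) (hv : (p : 𝓞 E) ∈ v.asIdeal) : (p : 𝓞 E) ∉ v.asIdeal ^ 2 := by
  intro h2
  apply h
  have hpZ : Prime (p : ℤ) := Nat.prime_iff_prime_int.1 hp
  have hmax : (Ideal.span {(p : ℤ)}).IsMaximal :=
    PrincipalIdealRing.isMaximal_of_irreducible hpZ.irreducible
  have hne : Ideal.span {(p : ℤ)} ≠ ⊥ := by
    rw [Ne, Ideal.span_singleton_eq_bot]
    exact hpZ.ne_zero
  have h3 : v.asIdeal ^ 2 ∣ (Ideal.span {(p : ℤ)}).map (algebraMap ℤ (𝓞 E)) := by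
    rw [Ideal.map_span, Set.image_singleton, Ideal.dvd_span_singleton]
    simpa using h2
  have h4 := pow_sub_one_dvd_differentIdeal ℤ v.asIdeal 2 hne h3
  rw [show 2 - 1 = 1 from rfl, pow_one] at h4
  have h5 := Ideal.absNorm_dvd_absNorm_of_le (Ideal.dvd_iff_le.1 h4)
  rw [NumberField.absNorm_differentIdeal E (𝓞 E)] at h5
  have h6 : p ∣ Ideal.absNorm v.asIdeal := by
    by_contra hnd
    have hcop : Nat.Coprime p (Ideal.absNorm v.asIdeal) := (hp.coprime_iff_not_dvd).2 hnd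
    have h7 : ((Ideal.absNorm v.asIdeal : ℕ) : 𝓞 E) ∈ v.asIdeal := Ideal.absNorm_mem _
    apply v.isPrime.ne_top
    rw [Ideal.eq_top_iff_one]
    have h8 := Nat.gcd_eq_gcd_ab p (Ideal.absNorm v.asIdeal)
    rw [hcop.gcd_eq_one] at h8
    have h9 : (1 : 𝓞 E) = (p : 𝓞 E) * (p.gcdA (Ideal.absNorm v.asIdeal) : 𝓞 E) +
        ((Ideal.absNorm v.asIdeal : ℕ) : 𝓞 E) * (p.gcdB (Ideal.absNorm v.asIdeal) : 𝓞 E) := by
      exact_mod_cast congrArg (Int.cast : ℤ → 𝓞 E) h8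
    rw [h9]
    exact v.asIdeal.add_mem (v.asIdeal.mul_mem_right _ hv) (v.asIdeal.mul_mem_right _ h7)
  exact Int.natCast_dvd.2 (h6.trans h5)

section eps

variable (l : ℕ) [hl : Fact l.Prime]

/-- the quadratic character of conductor `l` -/
noncomputable def eps : GF ℚ →* ℤˣ := (quadraticChar (ZMod l)).toUnitHom.comp (om l)

theorem eps_open : IsOpen ((eps l).ker : Set (GF ℚ)) := by
  refine Subgroup.isOpen_mono ?_ (om_open l)
  intro g hg
  have h1 : om l g = 1 := hg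
  show (quadraticChar (ZMod l)).toUnitHom (om l g) = 1
  rw [h1, map_one]

variable {l}

theorem eps_val (hl2 : l ≠ 2) (g : GF ℚ) : (((eps l g : ℤˣ) : ℤ) : ZMod l) =
    (om l g : ZMod l) ^ (l / 2) := by
  have h1 := quadraticChar_eq_pow_of_char_ne_two' (F := ZMod l) (by rwa [ZMod.ringChar_zmod_n])
    (om l g : ZMod l)
  rw [ZMod.card] at h1
  rw [← h1]
  rfl

theorem eps_frob (hl2 : l ≠ 2) {P : Ideal (OO ℚ)} (hlP : (l : OO ℚ) ∉ P) {σ : GF ℚ} {p : ℕ}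
    (hσ : FrobAt p P σ) : (((eps l σ : ℤˣ) : ℤ) : ZMod l) = (p : ZMod l) ^ (l / 2) := by
  rw [eps_val hl2, om_frob hlP hσ]

theorem eps_inert {P : Ideal (OO ℚ)} (hlP : (l : OO ℚ) ∉ P) {τ : GF ℚ}
    (hτ : InInertia P τ) : eps l τ = 1 := by
  show (quadraticChar (ZMod l)).toUnitHom (om l τ) = 1
  rw [om_inert hlP hτ, map_one]

theorem eps_ne (hl2 : l ≠ 2) : ∃ g, eps l g ≠ 1 := by
  obtain ⟨a, ha⟩ := quadraticChar_exists_neg_one (F := ZMod l) (by rwa [ZMod.ringChar_zmod_n])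
  have ha0 : a ≠ 0 := by
    rintro rfl
    rw [quadraticChar_zero] at ha
    norm_num at ha
  obtain ⟨g, hg⟩ := om_surj (l := l) (Units.mk0 a ha0)
  refine ⟨g, fun h => ?_⟩
  have h1 : ((eps l g : ℤˣ) : ℤ) = quadraticChar (ZMod l) a := by
    show (((quadraticChar (ZMod l)).toUnitHom (om l g) : ℤˣ) : ℤ) = _
    rw [hg]
    rfl
  rw [h, ha] at h1
  norm_num at h1

/-- at a prime above `l` -/
theorem eps_ram (hl2 : l ≠ 2) {P : Ideal (OO ℚ)} (hP : P.IsMaximal) (hlP : (l : OO ℚ) ∈ P) :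
    ∃ τ, InInertia P τ ∧ eps l τ ≠ 1 := by
  by_contra hcon
  push Not at hcon
  obtain ⟨g, hg⟩ := eps_ne (l := l) hl2
  apply hg
  refine sGEN ℤˣ (eps l) (eps_open l) ?_ g
  intro Q hQ τ hτ
  by_cases hlQ : (l : OO ℚ) ∈ Q
  · obtain ⟨h, hh⟩ := (sFROB l hl.out).2 P Q hP hQ hlP hlQ
    have h1 := hcon _ (hh τ hτ)
    rw [map_mul, map_mul, map_inv, mul_comm (eps l h)⁻¹, inv_mul_cancel_right] at h1
    exact h1
  · exact eps_inert hlQ hτ

theorem two_group : IsPGroup 2 (ℤˣ × ℤˣ) := by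
  intro g
  refine ⟨1, ?_⟩
  rw [pow_one, sq]
  ext <;> simp

/-- **Quadratic characters at `l`.** -/
theorem at_l (hl2 : l ≠ 2) (δ : GF ℚ →* ℤˣ) (hδ : IsOpen (δ.ker : Set (GF ℚ))) :
    (∀ P : Ideal (OO ℚ), P.IsMaximal → (l : OO ℚ) ∈ P → ∀ τ, InInertia P τ → δ τ = 1) ∨
    (∀ P : Ideal (OO ℚ), P.IsMaximal → (l : OO ℚ) ∈ P → ∀ τ, InInertia P τ → δ τ = eps l τ) := by
  classical
  by_cases hram : ∀ P : Ideal (OO ℚ), P.IsMaximal → (l : OO ℚ) ∈ P → ∀ τ, InInertia P τ → δ τ = 1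
  · exact Or.inl hram
  right
  push Not at hram
  obtain ⟨P0, hP0, hlP0, τ1, hτ1, hδ1⟩ := hram
  intro P hP hlP τ hτ
  -- an inertia element at `P` with nontrivial image
  obtain ⟨τ2, hτ2, hδ2⟩ : ∃ τ2, InInertia P τ2 ∧ δ τ2 ≠ 1 := by
    obtain ⟨h, hh⟩ := (sFROB l hl.out).2 P P0 hP hP0 hlP hlP0
    refine ⟨_, hh τ1 hτ1, ?_⟩
    rw [map_mul, map_mul, map_inv, mul_comm (δ h)⁻¹, inv_mul_cancel_right]
    exact hδ1
  obtain ⟨τ3, hτ3, hε3⟩ := eps_ram hl2 hP hlP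
  have hopen : IsOpen ((δ.prod (eps l)).ker : Set (GF ℚ)) := by
    have h1 : ((δ.prod (eps l)).ker : Set (GF ℚ)) = (δ.ker : Set (GF ℚ)) ∩ (eps l).ker := by
      ext g
      constructor
      · intro h
        have h2 : (δ g, eps l g) = (1, 1) := h
        exact ⟨congrArg Prod.fst h2, congrArg Prod.snd h2⟩
      · rintro ⟨h2, h3⟩
        exact Prod.ext h2 h3
    rw [h1]
    exact hδ.inter (eps_open l)
  obtain ⟨τ0, hτ0, hz⟩ := (sTAME 2 l Nat.prime_two hl.out (Ne.symm hl2) (ℤˣ × ℤˣ) two_group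
    (δ.prod (eps l)) hopen P hP hlP).2
  have hzz : ∀ τ, InInertia P τ → (δ.prod (eps l)) τ = 1 ∨ (δ.prod (eps l)) τ = (δ.prod (eps l)) τ0 := by
    intro τ hτ
    obtain ⟨m, hm⟩ := Subgroup.mem_zpowers_iff.1 (hz τ hτ)
    have h2 : (δ.prod (eps l)) τ0 ^ (2 : ℤ) = 1 := by
      rw [zpow_two]
      ext <;> simp
    rw [← hm]
    rcases Int.even_or_odd' m with ⟨j, rfl | rfl⟩
    · left
      rw [zpow_mul, h2, one_zpow]
    · right
      rw [zpow_add, zpow_mul, h2, one_zpow, one_mul, zpow_one]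
  have hcases : ∀ u : ℤˣ, u ≠ 1 → u = -1 := fun u hu => (Int.units_eq_one_or u).resolve_left hu
  have e1 : δ τ0 = -1 := by
    rcases hzz τ2 hτ2 with h | h
    · exact absurd (congrArg Prod.fst h) hδ2
    · have h3 : δ τ2 = δ τ0 := congrArg Prod.fst h
      rw [← h3]
      exact hcases _ hδ2
  have e2 : eps l τ0 = -1 := by
    rcases hzz τ3 hτ3 with h | h
    · exact absurd (congrArg Prod.snd h) hε3
    · have h3 : eps l τ3 = eps l τ0 := congrArg Prod.snd h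
      rw [← h3]
      exact hcases _ hε3
  rcases hzz τ hτ with h | h
  · have h3 : δ τ = 1 := congrArg Prod.fst h
    have h4 : eps l τ = 1 := congrArg Prod.snd h
    rw [h3, h4]
  · have h3 : δ τ = δ τ0 := congrArg Prod.fst h
    have h4 : eps l τ = eps l τ0 := congrArg Prod.snd h
    rw [h3, h4, e1, e2]

end eps

end Pool.Agent.H500.Quad
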