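import Pool.Agent.H500.MWF
import Pool.Agent.H500.Quad

set_option autoImplicit false
set_option linter.unusedSectionVars false

/-!
# The slopes are integers
-/

namespace Pool.Agent.H500.MW

open NumberField IsDedekindDomain Filter Topology Polynomial
open Pool.Agent.Y800 (GQ ZBar QBar)

section

variable {F : Type} [Field F] [NumberField F]

/-- `X ^ N - p` is irreducible over a number field in which `p` is unramified -/
theorem irred_of_unram {p : ℕ} (hp : p.Prime) (hd : ¬ (p : ℤ) ∣ discr F) {N : ℕ} (hN : 0 < N)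
    (v : HeightOneSpectrum (𝓞 F)) (hv : (p : 𝓞 F) ∈ v.asIdeal) :
    Irreducible ((X : F[X]) ^ N - Polynomial.C (p : F)) := by
  classical
  have hv2 : (p : 𝓞 F) ∉ v.asIdeal ^ 2 := Pool.Agent.H500.Quad.unram_of hp hd v hv
  set f : (𝓞 F)[X] := X ^ N - Polynomial.C (p : 𝓞 F) with hf
  have hm : f.Monic := monic_X_pow_sub_C _ hN.ne'
  have hdeg : f.natDegree = N := natDegree_X_pow_sub_C
  have hE : f.IsEisensteinAt v.asIdeal := by
    refine ⟨?_, ?_, ?_⟩
    · rw [hm.leadingCoeff]
      intro h
      exact v.isPrime.ne_top ((Ideal.eq_top_iff_one _).2 h)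
    · intro i hi
      rw [hdeg] at hi
      rw [hf, coeff_sub, coeff_X_pow, coeff_C, if_neg hi.ne]
      by_cases h0 : i = 0
      · rw [if_pos h0, zero_sub]
        exact v.asIdeal.neg_mem hv
      · rw [if_neg h0, sub_zero]
        exact v.asIdeal.zero_mem
    · rw [hf, coeff_sub, coeff_X_pow, coeff_C, if_neg hN.ne, if_pos rfl, zero_sub]
      intro h
      exact hv2 ((Ideal.neg_mem_iff _).1 h)
  have hirr : Irreducible f := hE.irreducible v.isPrime hm.isPrimitive (by rw [hdeg]; exact hN)
  have h1 := (hm.irreducible_iff_irreducible_map_fraction_map (K := F)).1 hirr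
  rw [hf, Polynomial.map_sub, Polynomial.map_pow, Polynomial.map_X, Polynomial.map_C,
    map_natCast] at h1
  exact h1

end

section

variable {E : Type} [Field E] [NumberField E]

/-- **The sum of the roots whose slope is not an integer.** -/
theorem kummer_zero (j0 : E →+* QBar) {N n : ℕ} (hN : 0 < N) (P : ℕ → (𝓞 E)[X]) (S : Finset ℕ)
    (α : ℕ → Fin n → ZBar)
    (hα : ∀ p : ℕ, p.Prime → p ∉ S → (P p).map (RingOfIntegers.mapRingHom j0) =
      ∏ i, (X - Polynomial.C (α p i))) {a : ℕ → Fin n → ℕ}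
    (ha : ∀ p : ℕ, p.Prime → p ∉ S → ∀ i, α p i ^ N = (p : ZBar) ^ a p i) {x : ℕ} (hx : ¬ N ∣ x) :
    ∃ B : ℕ, ∀ p : ℕ, p.Prime → p ∉ S → B < p → ∑ i with a p i = x, α p i = 0 := by
  classical
  let _ : Algebra E QBar := j0.toAlgebra
  have hne : NeZero N := ⟨hN.ne'⟩
  have hne' : NeZero (N : QBar) := ⟨Nat.cast_ne_zero.2 hN.ne'⟩
  obtain ⟨z, hz⟩ := HasEnoughRootsOfUnity.exists_primitiveRoot QBar N
  have hzint : IsIntegral E z := by
    have h1 : IsIntegral ℤ z := hz.isIntegral hN
    exact h1.tower_top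
  set F : IntermediateField E QBar := IntermediateField.adjoin E ({z} : Set QBar) with hF
  have hfd : FiniteDimensional E F := IntermediateField.adjoin.finiteDimensional hzint
  have hnf : NumberField F := NumberField.of_module_finite E F
  have hzF : z ∈ F := IntermediateField.mem_adjoin_simple_self _ _
  have hnormal : Normal F QBar := normal_iff.2 fun y => ⟨by
    have h1 : IsAlgebraic ℚ y := Pool.Agent.Y800.isAlgebraic_gen ℚ y
    exact h1.isIntegral.tower_top, IsAlgClosed.splits _⟩
  refine ⟨(discr F).natAbs, fun p hp hpS hpB => ?_⟩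
  have hd : ¬ (p : ℤ) ∣ discr F := by
    intro h
    have h1 := Int.natAbs_dvd_natAbs.2 h
    rw [Int.natAbs_natCast] at h1
    have h2 := Nat.le_of_dvd (Int.natAbs_pos.2 (discr_ne_zero F)) h1
    omega
  obtain ⟨v, hv⟩ : ∃ v : HeightOneSpectrum (𝓞 F), (p : 𝓞 F) ∈ v.asIdeal := by
    obtain ⟨Q, σ, hQ, hpQ, -⟩ := Pool.Agent.Y800.exists_geom hp
    set i0 : 𝓞 F →+* ZBar := RingOfIntegers.mapRingHom (F.val : F →+* QBar) with hi0
    have h1 : (Q.comap i0).IsPrime := Ideal.comap_isPrime _ _
    have h2 : (p : 𝓞 F) ∈ Q.comap i0 := by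
      rw [Ideal.mem_comap, map_natCast]
      exact hpQ
    refine ⟨⟨Q.comap i0, h1, ?_⟩, h2⟩
    intro h3
    rw [h3, Ideal.mem_bot] at h2
    exact hp.ne_zero (by exact_mod_cast h2)
  have hirr := irred_of_unram hp hd hN v hv
  obtain ⟨β, hβ⟩ := IsAlgClosed.exists_pow_nat_eq (p : QBar) hN
  have hp0 : (p : QBar) ≠ 0 := Nat.cast_ne_zero.2 hp.ne_zero
  have hβ0 : β ≠ 0 := by
    rintro rfl
    rw [zero_pow hN.ne'] at hβ
    exact hp0 hβ.symm
  have hmin : ∀ y : QBar, y ^ N = (p : QBar) →
      (X : F[X]) ^ N - Polynomial.C (p : F) = minpoly F y := by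
    intro y hy
    refine minpoly.eq_of_irreducible_of_monic hirr ?_ (monic_X_pow_sub_C _ hN.ne')
    rw [map_sub, map_pow, aeval_X, aeval_C, map_natCast, hy, sub_self]
  have hconj : IsConjRoot F β (z * β) := by
    show minpoly F β = minpoly F (z * β)
    rw [← hmin β hβ, ← hmin (z * β) (by rw [mul_pow, hz.pow_eq_one, one_mul, hβ])]
  obtain ⟨g, hg⟩ := (isConjRoot_iff_exists_algEquiv).1 hconj.symm
  have hgz : g z = z := g.commutes ⟨z, hzF⟩
  have hgp : g (p : QBar) = p := map_natCast g p
  have haQ : ∀ i, (α p i : QBar) ^ N = (p : QBar) ^ a p i := by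
    intro i
    have h1 := congrArg (algebraMap ZBar QBar) (ha p hp hpS i)
    rw [map_pow, map_pow, map_natCast] at h1
    exact h1
  -- the action on the roots of the given slope
  have hact : ∀ i, a p i = x → g (α p i : QBar) = z ^ x * (α p i : QBar) := by
    intro i hi
    have h1 : ((α p i : QBar) / β ^ x) ^ N = 1 := by
      rw [div_pow, haQ, hi, ← pow_mul, mul_comm x N, pow_mul, hβ, div_self (pow_ne_zero _ hp0)]
    obtain ⟨t, -, ht⟩ := hz.eq_pow_of_pow_eq_one h1
    have h2 : (α p i : QBar) = z ^ t * β ^ x := by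
      rw [ht, div_mul_cancel₀ _ (pow_ne_zero _ hβ0)]
    rw [h2, map_mul, map_pow, map_pow, hgz, hg]
    ring
  -- the permutation of the roots
  have hprod : (P p).map (j0.comp (algebraMap (𝓞 E) E)) =
      ∏ i, (X - Polynomial.C (α p i : QBar)) := by
    have h1 := congrArg (Polynomial.map (algebraMap ZBar QBar)) (hα p hp hpS)
    rw [Polynomial.map_map, Polynomial.map_prod] at h1
    refine Eq.trans ?_ (h1.trans ?_)
    · congr 1
    · refine Finset.prod_congr rfl fun i _ => ?_
      rw [Polynomial.map_sub, Polynomial.map_X, Polynomial.map_C]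
  have hfix : ((P p).map (j0.comp (algebraMap (𝓞 E) E))).map (g : QBar →+* QBar) =
      (P p).map (j0.comp (algebraMap (𝓞 E) E)) := by
    rw [Polynomial.map_map]
    congr 1
    ext c
    show g (j0 (c : E)) = j0 (c : E)
    exact g.commutes (algebraMap E F (c : E))
  have hms : Finset.univ.val.map (fun i => g (α p i : QBar)) =
      Finset.univ.val.map (fun i => (α p i : QBar)) := by
    rw [hprod, Polynomial.map_prod] at hfix
    have e1 : ∏ i, Polynomial.map (g : QBar →+* QBar) (X - Polynomial.C (α p i : QBar)) =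
        ((Finset.univ.val.map fun i => g (α p i : QBar)).map fun a => X - Polynomial.C a).prod := by
      rw [Multiset.map_map]
      show _ = ∏ i, (X - Polynomial.C (g (α p i : QBar)))
      refine Finset.prod_congr rfl fun i _ => ?_
      rw [Polynomial.map_sub, Polynomial.map_X, Polynomial.map_C]
      rfl
    have e2 : ∏ i, (X - Polynomial.C (α p i : QBar)) =
        ((Finset.univ.val.map fun i => (α p i : QBar)).map fun a => X - Polynomial.C a).prod := by
      rw [Multiset.map_map]
      rfl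
    have h1 := congrArg Polynomial.roots hfix
    rw [e1, e2, roots_multiset_prod_X_sub_C, roots_multiset_prod_X_sub_C] at h1
    exact h1
  obtain ⟨π, hπ⟩ := exists_equiv (fun i => g (α p i : QBar)) (fun i => (α p i : QBar)) hms
  have hπa : ∀ i, a p (π i) = a p i := by
    intro i
    have h1 := haQ (π i)
    have h2 : (α p (π i) : QBar) = g (α p i : QBar) := hπ i
    rw [h2, ← map_pow, haQ i, map_pow, hgp] at h1
    have h3 : ((p ^ a p i : ℕ) : QBar) = ((p ^ a p (π i) : ℕ) : QBar) := by
      push_cast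
      exact h1
    exact (Nat.pow_right_injective hp.two_le (Nat.cast_injective h3)).symm
  set T : QBar := ∑ i with a p i = x, (α p i : QBar) with hT
  have hT1 : ∑ i with a p i = x, g (α p i : QBar) = z ^ x * T := by
    rw [hT, Finset.mul_sum]
    exact Finset.sum_congr rfl fun i hi => hact i (Finset.mem_filter.1 hi).2
  have hT2 : ∑ i with a p i = x, g (α p i : QBar) = T := by
    rw [hT]
    refine Finset.sum_equiv π ?_ fun i _ => (hπ i).symm
    intro i
    simp only [Finset.mem_filter, Finset.mem_univ, true_and, hπa i]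
  have hzx : z ^ x ≠ 1 := by
    intro h
    exact hx ((hz.pow_eq_one_iff_dvd x).1 h)
  have hT0 : T = 0 := by
    rw [hT2] at hT1
    have h1 : (z ^ x - 1) * T = 0 := by
      rw [sub_mul, one_mul, ← hT1, sub_self]
    rcases mul_eq_zero.1 h1 with h2 | h2
    · exact absurd (sub_eq_zero.1 h2) hzx
    · exact h2
  apply RingOfIntegers.ext
  have h1 : ((∑ i with a p i = x, α p i : ZBar) : QBar) = ∑ i with a p i = x, (α p i : QBar) :=
    map_sum (algebraMap ZBar QBar) _ _
  rw [h1]
  exact hT0

end

end Pool.Agent.H500.MW
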