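import Pool.Agent.H500.MWH
import Pool.Agent.H500.MWI
import Pool.Graph.R_pool_sql_team_seeded_2aa45f1a.Q92.FP.Artin

set_option autoImplicit false
set_option linter.unusedSectionVars false

/-!
# The parts of the given slopes
-/

namespace Pool.Agent.H500.MW

open NumberField IsDedekindDomain Filter Topology Polynomial
open Pool.Agent.H500.Tr (om om_open om_frob om_inert)
open Pool.Agent.Y800 (GQ ZBar QBar Unramified IsGeomFrob cnt IsSemisimpleRep)
open Pool.Agent.W401.Cheb (dens)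

section

variable {E : Type} [Field E] [NumberField E] {j0 : E →+* QBar} {n : ℕ} {α : ℕ → Fin n → ZBar}
  {S : Finset ℕ} {C M : ℕ} {v : HeightOneSpectrum (𝓞 E)}

theorem Loc.large (L : Loc j0 α S C M v) {D : ℕ} (h : ((D.factorial : ℕ) : 𝓞 E) ∉ v.asIdeal) :
    D < L.l := by
  by_contra hlt
  push Not at hlt
  apply h
  rw [L.cast_mem]
  exact (CharP.cast_eq_zero_iff L.k L.l _).2 (Nat.dvd_factorial L.hl.out.pos hlt)

/-- the labelled local data -/
theorem exists_data {N : ℕ} {a : ℕ → Fin n → ℕ}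
    (ha : ∀ p : ℕ, p.Prime → p ∉ S → ∀ i, α p i ^ N = (p : ZBar) ^ a p i)
    {A : ℕ} (hA : ∀ p : ℕ, p.Prime → p ∉ S → ∀ i, a p i ≤ A) {p0 T : ℕ} (hp0 : p0.Prime)
    (hp0S : p0 ∉ S) (hM : 0 < M) (hT0 : 0 < T) (hT : A * M ≤ T) {D : ℕ} (hD : p0 ^ T ≤ D)
    (hv : ((D.factorial : ℕ) : 𝓞 E) ∉ v.asIdeal) (hL : Nonempty (Loc j0 α S C M v)) :
    ∃ (L : Loc j0 α S C M v) (c : L.J → ℕ), D < L.l ∧
      (∀ j, (p0 : L.k) ^ (L.e j * N) = (p0 : L.k) ^ (c j * M)) ∧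
      (∀ j, ∃ i, L.ψ (α p0 i) ^ M = (p0 : L.k) ^ L.e j ∧ a p0 i = c j) ∧ L.Cons a c p0 := by
  obtain ⟨L⟩ := hL
  have hl := L.large hv
  obtain ⟨c, h1, h2, h3⟩ := L.exists_label ha hA hp0 hp0S hM hT0 hT (lt_of_le_of_lt hD hl)
  exact ⟨L, c, hl, h1, h2, h3⟩

/-- the trace of a matrix with given eigenvalues -/
theorem trace_of_roots {k : Type} [Field k] {n' : ℕ} (hn' : 0 < n') (R : Matrix (Fin n') (Fin n') k)
    {ι : Type} (s : Finset ι) (x : ι → k) (h : R.charpoly = ∏ i ∈ s, (X - Polynomial.C (x i))) :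
    R.trace = ∑ i ∈ s, x i := by
  have : Nonempty (Fin n') := ⟨⟨0, hn'⟩⟩
  rw [Matrix.trace_eq_neg_charpoly_nextCoeff, h, Polynomial.prod_X_sub_C_nextCoeff, neg_neg]

/-- **The slopes are integers.** -/
theorem integral_slopes (P : ℕ → (𝓞 E)[X])
    (hα : ∀ p : ℕ, p.Prime → p ∉ S → (P p).map (RingOfIntegers.mapRingHom j0) =
      ∏ i, (X - Polynomial.C (α p i))) {N : ℕ} (hN : 0 < N) {a : ℕ → Fin n → ℕ}
    (ha : ∀ p : ℕ, p.Prime → p ∉ S → ∀ i, α p i ^ N = (p : ZBar) ^ a p i)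
    {A : ℕ} (hA : ∀ p : ℕ, p.Prime → p ∉ S → ∀ i, a p i ≤ A) (hM : 0 < M)
    {Λ : HeightOneSpectrum (𝓞 E) → Prop} (hΛ : PosUD Λ)
    (hloc : ∀ v, Λ v → Nonempty (Loc j0 α S C M v)) {p0 : ℕ} (hp0 : p0.Prime) (hp0S : p0 ∉ S)
    (i0 : Fin n) : N ∣ a p0 i0 := by
  classical
  by_contra hx
  set x := a p0 i0 with hxdef
  obtain ⟨B, hB⟩ := kummer_zero j0 hN P S α hα ha hx
  have hn : 0 < n := i0.pos
  set T := 16 * n ^ 2 * (A.factorial * M) + A * M + 1 with hT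
  set D := p0 ^ T + C + n with hD
  obtain ⟨v, hv, hvD⟩ := (hΛ.diff (Pool.Agent.H500.Kum.dens_fin _
    (Pool.Agent.H500.Kum.fin_mem (x := ((D.factorial : ℕ) : 𝓞 E))
      (Nat.cast_ne_zero.2 (Nat.factorial_ne_zero D))))).nonempty
  obtain ⟨L, c, hl, hc, hcA, hcons⟩ := exists_data ha hA hp0 hp0S hM (T := T) (D := D) (by omega)
    (by omega) (by omega) hvD (hloc v hv)
  obtain ⟨n', R, hRo, hRss, hR⟩ := L.slope_rep (a := a) (by omega) c x
  have hp0l : p0 ≠ L.l := by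
    have h1 : p0 ^ 1 ≤ p0 ^ T := Nat.pow_le_pow_right hp0.pos (by omega)
    rw [pow_one] at h1
    omega
  have hdim : n' = (Finset.univ.filter fun i => a p0 i = x).card := by
    obtain ⟨Q, σ, hQ, hpQ, hσ⟩ := Pool.Agent.Y800.exists_geom hp0
    have h1 := congrArg natDegree ((hR p0 hp0 hp0S hp0l hcons).2 Q hQ hpQ σ hσ)
    rw [natDegree_prod_of_monic _ _ (fun i _ => monic_X_sub_C _)] at h1
    simpa using h1
  have hn'0 : 0 < n' := by
    rw [hdim, Finset.card_pos]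
    exact ⟨i0, by simp [hxdef]⟩
  have hn'n : n' ≤ n := by
    rw [hdim]
    exact (Finset.card_filter_le _ _).trans (by simp)
  set ε : ℝ := 1 / (16 * n ^ 2) with hε
  have hn2 : (0 : ℝ) < (n : ℝ) ^ 2 := by positivity
  have hε0 : 0 < ε := by positivity
  have h1 := L.bad_dens ha hA hp0 hp0S hM (T := T) (by omega)
    (lt_of_le_of_lt (by omega) hl) hc (fun j => (hcA j).imp fun i hi => hi.2) hε0
  have hratio : ((A.factorial * M : ℕ) : ℝ) / (T : ℝ) ≤ 1 / (16 * n ^ 2) := by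
    have hT0 : (0 : ℝ) < T := by
      have : 0 < T := by omega
      exact_mod_cast this
    rw [div_le_div_iff₀ hT0 (by positivity), one_mul]
    have h2 : 16 * n ^ 2 * (A.factorial * M) ≤ T := by omega
    have h3 : ((16 * n ^ 2 * (A.factorial * M) : ℕ) : ℝ) ≤ T := by exact_mod_cast h2
    push_cast at h3 ⊢
    linarith
  have h2 : ∀ᶠ X : ℕ in atTop, (cnt {p : ℕ | ¬ (p ∉ S ∧ p ≠ L.l ∧ L.Cons a c p)} X : ℝ) ≤
      (2 * ε) * (Nat.primeCounting X : ℝ) := by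
    filter_upwards [h1] with X hX
    refine hX.trans (mul_le_mul_of_nonneg_right ?_ (Nat.cast_nonneg _))
    rw [hε]
    linarith
  have h3 := Pool.Agent.Y800.cnt_add_finite (c := 2 * ε) (c' := 4 * ε) (by linarith) h2
    (Finset.range (B + 1))
  refine trace_zero_false hn'0 R hRo hRss ?_ _ (4 * ε) ?_ h3 ?_
  · intro m hm1 hm2 hm0
    have h4 := (CharP.cast_eq_zero_iff L.k L.l m).1 hm0
    have h5 := Nat.le_of_dvd (by omega) h4
    omega
  · have h4 : (n' : ℝ) ^ 2 ≤ (n : ℝ) ^ 2 := by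
      have : (n' : ℝ) ≤ n := by exact_mod_cast hn'n
      exact pow_le_pow_left₀ (Nat.cast_nonneg _) this 2
    calc 4 * ε * (n' : ℝ) ^ 2 ≤ 4 * ε * (n : ℝ) ^ 2 :=
          mul_le_mul_of_nonneg_left h4 (by positivity)
      _ = 1 / 4 := by
        rw [hε]
        field_simp
        norm_num
  · intro p hp hpZ Q hQ hpQ σ hσ
    rw [Set.mem_union, not_or] at hpZ
    obtain ⟨h4, h5⟩ := hpZ
    have h6 : p ∉ S ∧ p ≠ L.l ∧ L.Cons a c p := not_not.1 h4
    have h7 : B < p := by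
      by_contra hlt
      push Not at hlt
      apply h5
      rw [Finset.coe_range, Set.mem_Iio]
      omega
    rw [trace_of_roots hn'0 _ _ _ ((hR p hp h6.1 h6.2.1 h6.2.2).2 Q hQ hpQ σ hσ), ← map_sum,
      hB p hp h6.1 h7, map_zero]

end

end Pool.Agent.H500.MW
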