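import Pool.Agent.H500.MWJ

set_option autoImplicit false
set_option linter.unusedSectionVars false

/-!
# Lifting the parts of the given slopes
-/

namespace Pool.Agent.H500.MW

open NumberField IsDedekindDomain Filter Topology Polynomial
open Pool.Agent.H500.Tr (om om_open om_frob om_inert)
open Pool.Agent.Y800 (GQ ZBar QBar Unramified IsGeomFrob cnt IsSemisimpleRep)
open Pool.Agent.W401.Cheb (dens)
open Pool.Agent.Q92.FP (twist coe_twist stable_twist roots_smul)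

section

variable {E : Type} [Field E] [NumberField E] {j0 : E →+* QBar} {n : ℕ} {α : ℕ → Fin n → ZBar}
  {S : Finset ℕ} {C M : ℕ}

/-- **A fixed prime is consistent for many places.** -/
theorem cons_many (hM : 0 < M) (hα0 : ∀ p : ℕ, p.Prime → p ∉ S → ∀ i, α p i ≠ 0) {N : ℕ}
    {a : ℕ → Fin n → ℕ}
    (ha : ∀ p : ℕ, p.Prime → p ∉ S → ∀ i, α p i ^ N = (p : ZBar) ^ a p i) {p0 : ℕ}
    (hp0 : p0.Prime) (hp0S : p0 ∉ S) {Λ : HeightOneSpectrum (𝓞 E) → Prop} (hΛ : PosUD Λ)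
    (L : ∀ v, Λ v → Loc j0 α S C M v) (c : ∀ v (hv : Λ v), (L v hv).J → ℕ)
    (hl : ∀ v hv, p0 < (L v hv).l)
    (hcA : ∀ v hv, ∀ j, ∃ i, (L v hv).ψ (α p0 i) ^ M = (p0 : (L v hv).k) ^ (L v hv).e j ∧
      a p0 i = c v hv j)
    (hcons : ∀ v hv, (L v hv).Cons a (c v hv) p0) {p : ℕ} (hp : p.Prime) (hpS : p ∉ S) :
    PosUD (fun v => ∃ hv : Λ v, p ≠ (L v hv).l ∧ (L v hv).Cons a (c v hv) p) := by
  classical
  by_cases hpp : p = p0
  · subst hpp
    exact hΛ.mono fun v hv => ⟨hv, (hl v hv).ne, hcons v hv⟩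
  set Z : Fin n × Fin n → HeightOneSpectrum (𝓞 E) → Prop := fun x v => a p0 x.1 ≠ a p x.2 ∧
    ∃ (k : Type) (_ : Field k) (ψ : ZBar →+* k),
      RingHom.ker (ψ.comp (RingOfIntegers.mapRingHom j0)) = v.asIdeal ∧
      ∃ e : ℕ, ψ (α p0 x.1) ^ M = (p0 : k) ^ e ∧ ψ (α p x.2) ^ M = (p : k) ^ e with hZ
  have hZ0 : ∀ x, Tendsto (dens (Z x)) atTop (𝓝 0) := by
    intro x
    by_cases hx : a p0 x.1 = a p x.2
    · refine Pool.Agent.H500.Kum.dens_fin _ ?_
      have : {v : HeightOneSpectrum (𝓞 E) | Z x v} = ∅ := by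
        ext v
        simp only [hZ, Set.mem_ofPred_eq, Set.mem_empty_iff_false, iff_false]
        rintro ⟨h, _⟩
        exact h hx
      rw [this]
      exact Set.finite_empty
    · have h1 := descZ j0 hp0 hp (Ne.symm hpp) (hα0 p0 hp0 hp0S x.1) (hα0 p hp hpS x.2) hM (by
        rintro N' t hN' ⟨h2, h3⟩
        have h4 : a p0 x.1 * N' = t * N := by
          apply pow_inj' hp0.one_lt
          rw [pow_mul, ← ha p0 hp0 hp0S x.1, ← pow_mul, mul_comm N N', pow_mul, h2, ← pow_mul]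
        have h5 : a p x.2 * N' = t * N := by
          apply pow_inj' hp.one_lt
          rw [pow_mul, ← ha p hp hpS x.2, ← pow_mul, mul_comm N N', pow_mul, h3, ← pow_mul]
        exact hx (Nat.eq_of_mul_eq_mul_right hN' (h4.trans h5.symm)))
      refine squeeze_zero (fun N => Pool.Agent.W528.Ord.dens_nonneg _ N) (fun N => ?_) h1
      exact Pool.Agent.W528.Ord.dens_mono (fun v hv => hv.2) N
  refine ((hΛ.diff (dens_exists Z hZ0)).diff
    (Pool.Agent.H500.Kum.dens_fin _ (Pool.Agent.H500.Kum.fin_mem (x := (p : 𝓞 E))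
      (Nat.cast_ne_zero.2 hp.ne_zero)))).mono ?_
  rintro v ⟨⟨hv, hvZ⟩, hpv⟩
  refine ⟨hv, (L v hv).ne_l hpv, fun i j hij => ?_⟩
  obtain ⟨i', h1, h2⟩ := hcA v hv j
  by_contra hne
  apply hvZ
  refine ⟨(i', i), ?_, (L v hv).k, inferInstance, (L v hv).ψ, (L v hv).hker, (L v hv).e j, h1, hij⟩
  show a p0 i' ≠ a p i
  rw [h2]
  exact Ne.symm hne

/-- the characteristic polynomial of a multiple of a matrix -/
theorem charpoly_smul' {k : Type} [Field k] [IsAlgClosed k] {m : ℕ} {c : k} (hc : c ≠ 0)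
    (R : Matrix (Fin m) (Fin m) k) {ι : Type} (s : Finset ι) (x : ι → k)
    (h : R.charpoly = ∏ i ∈ s, (X - Polynomial.C (x i))) :
    (c • R).charpoly = ∏ i ∈ s, (X - Polynomial.C (c * x i)) := by
  have h1 := (IsAlgClosed.splits (c • R).charpoly).eq_prod_roots_of_monic (c • R).charpoly_monic
  have h2 : R.charpoly.roots = s.val.map x := by
    have e1 : ∏ i ∈ s, (X - Polynomial.C (x i)) =
        ((s.val.map x).map fun a => X - Polynomial.C a).prod := by
      rw [Multiset.map_map]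
      rfl
    rw [h, e1, roots_multiset_prod_X_sub_C]
  rw [h1, roots_smul c hc, h2, Multiset.map_map, Multiset.map_map]
  rfl

/-- the twisted part of a given slope -/
theorem Loc.twisted {v : HeightOneSpectrum (𝓞 E)} (L : Loc j0 α S C M v) {n' : ℕ}
    (R : GQ →* GL (Fin n') L.k) (hRo : IsOpen (R.ker : Set GQ)) (hRss : IsSemisimpleRep R) (w : ℕ) :
    ∃ R' : GQ →* GL (Fin n') L.k, IsOpen (R'.ker : Set GQ) ∧ IsSemisimpleRep R' ∧
      ∀ p : ℕ, p.Prime → p ≠ L.l → Unramified R p → Unramified R' p ∧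
        ∀ Q : Ideal ZBar, Q.IsMaximal → (p : ZBar) ∈ Q → ∀ σ : GQ, IsGeomFrob p Q σ →
          ∀ (s : Finset (Fin n)) (x : Fin n → L.k),
            (R σ : Matrix (Fin n') (Fin n') L.k).charpoly =
              ∏ i ∈ s, (X - Polynomial.C (x i * (p : L.k) ^ w)) →
            (R' σ : Matrix (Fin n') (Fin n') L.k).charpoly = ∏ i ∈ s, (X - Polynomial.C (x i)) := by
  classical
  set X0 : GQ →* L.kˣ := ((Units.map (ZMod.castHom (dvd_refl L.l) L.k : ZMod L.l →* L.k)).comp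
    (om L.l)) ^ w with hX0
  have hX0a : ∀ g, X0 g = (Units.map (ZMod.castHom (dvd_refl L.l) L.k : ZMod L.l →* L.k)
    (om L.l g)) ^ w := fun g => rfl
  refine ⟨twist R X0, ?_, ?_, ?_⟩
  · refine Subgroup.isOpen_mono (H₁ := R.ker ⊓ (om L.l).ker) ?_ (hRo.inter (om_open L.l))
    rintro g ⟨h1, h2⟩
    rw [MonoidHom.mem_ker]
    apply Units.ext
    rw [coe_twist, hX0a, show om L.l g = 1 from h2, map_one, one_pow, Units.val_one, one_smul,
      show R g = 1 from h1]
  · intro W hW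
    obtain ⟨W', h1, h2⟩ := hRss W (stable_twist.1 hW)
    exact ⟨W', stable_twist.2 h1, h2⟩
  · intro p hp hpl hur
    refine ⟨fun Q hQ hpQ τ hτ => ?_, fun Q hQ hpQ σ hσ s x h => ?_⟩
    · have hlQ : (L.l : Pool.Agent.W569.FM.OO ℚ) ∉ Q := fun h =>
        Pool.Agent.H500.Tr.not_both hQ.ne_top ((Nat.coprime_primes L.hl.out hp).2 hpl.symm) h hpQ
      apply Units.ext
      rw [coe_twist, hX0a, om_inert hlQ hτ, map_one, one_pow, Units.val_one, one_smul,
        hur Q hQ hpQ τ hτ]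
    · have h1 := om_geom L.l L.k hp hpl hQ hpQ hσ
      have hp0 : (p : L.k) ≠ 0 := by
        rw [Ne, CharP.cast_eq_zero_iff L.k L.l]
        intro h
        exact hpl ((Nat.prime_dvd_prime_iff_eq L.hl.out hp).1 h).symm
      have h2 : ((X0 σ : L.kˣ) : L.k) = ((p : L.k) ^ w)⁻¹ := by
        rw [map_inv, Units.val_inv_eq_inv_val] at h1
        rw [hX0a, Units.val_pow_eq_pow_val, ← inv_inv ((Units.map _ (om L.l σ) : L.kˣ) : L.k), h1,
          inv_pow]
      have hc : ((p : L.k) ^ w)⁻¹ ≠ 0 := inv_ne_zero (pow_ne_zero _ hp0)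
      rw [coe_twist, h2, charpoly_smul' hc _ s _ h]
      refine Finset.prod_congr rfl fun i _ => ?_
      rw [mul_comm (x i), inv_mul_cancel_left₀ (pow_ne_zero _ hp0)]

end

end Pool.Agent.H500.MW
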