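import Pool.Agent.H500.MWK

set_option autoImplicit false
set_option linter.unusedSectionVars false

/-!
# The representation of a given slope
-/

namespace Pool.Agent.H500.MW

open NumberField IsDedekindDomain Filter Topology Polynomial
open Pool.Agent.H500.Tr (om om_open om_frob om_inert)
open Pool.Agent.Y800 (GQ ZBar QBar Unramified IsGeomFrob cnt IsSemisimpleRep)
open Pool.Agent.W401.Cheb (dens)

section

variable {E : Type} [Field E] [NumberField E] {j0 : E →+* QBar} {n : ℕ} {α : ℕ → Fin n → ZBar}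
  {S : Finset ℕ} {C M : ℕ}

/-- **The representation of a given slope.** -/
theorem slope_lift (hM : 0 < M) (hα0 : ∀ p : ℕ, p.Prime → p ∉ S → ∀ i, α p i ≠ 0) {N : ℕ}
    (hN : 0 < N) {a : ℕ → Fin n → ℕ}
    (ha : ∀ p : ℕ, p.Prime → p ∉ S → ∀ i, α p i ^ N = (p : ZBar) ^ a p i)
    {A : ℕ} (hA : ∀ p : ℕ, p.Prime → p ∉ S → ∀ i, a p i ≤ A) {p0 : ℕ}
    (hp0 : p0.Prime) (hp0S : p0 ∉ S)
    (hperm : ∀ p : ℕ, p.Prime → p ∉ S → ∃ π : Fin n ≃ Fin n, ∀ i, a p i = a p0 (π i))
    {Λ : HeightOneSpectrum (𝓞 E) → Prop} (hΛ : PosUD Λ)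
    (hloc : ∀ v, Λ v → Nonempty (Loc j0 α S C M v)) (w : ℕ) :
    ∃ (n' : ℕ) (R : GQ →* GL (Fin n') QBar), IsOpen (R.ker : Set GQ) ∧
      ∀ p : ℕ, p.Prime → p ∉ S → Unramified R p ∧
        ∀ Q : Ideal ZBar, Q.IsMaximal → (p : ZBar) ∈ Q → ∀ σ : GQ, IsGeomFrob p Q σ →
          (R σ : Matrix (Fin n') (Fin n') QBar).charpoly =
            ∏ i with a p i = N * w, (X - Polynomial.C ((α p i : QBar) / (p : QBar) ^ w)) := by
  classical
  have hcard : ∀ p : ℕ, p.Prime → p ∉ S → (Finset.univ.filter fun i => a p i = N * w).card =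
      (Finset.univ.filter fun i => a p0 i = N * w).card := by
    intro p hp hpS
    obtain ⟨π, hπ⟩ := hperm p hp hpS
    refine Finset.card_equiv π fun i => ?_
    simp only [Finset.mem_filter, Finset.mem_univ, true_and, hπ i]
  set n' : ℕ := (Finset.univ.filter fun i => a p0 i = N * w).card with hn'
  rcases Nat.eq_zero_or_pos n' with hn0 | hn'0
  · refine ⟨0, 1, ?_, fun p hp hpS => ⟨fun Q hQ hpQ τ hτ => rfl, fun Q hQ hpQ σ hσ => ?_⟩⟩
    · rw [MonoidHom.ker_one, Subgroup.coe_top]
      exact isOpen_univ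
    · have h1 : (Finset.univ.filter fun i => a p i = N * w) = ∅ := by
        rw [← Finset.card_eq_zero, hcard p hp hpS, hn0]
      rw [h1, Finset.prod_empty]
      unfold Matrix.charpoly
      exact Matrix.det_isEmpty
  obtain ⟨i0, -⟩ := Finset.card_pos.1 hn'0
  have hn : 0 < n := i0.pos
  have hn'n : n' ≤ n := (Finset.card_filter_le _ _).trans (by simp)
  -- the cyclotomic extension
  let _ : Algebra E QBar := j0.toAlgebra
  have hne : NeZero N := ⟨hN.ne'⟩
  have hne' : NeZero (N : QBar) := ⟨Nat.cast_ne_zero.2 hN.ne'⟩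
  obtain ⟨z, hz⟩ := HasEnoughRootsOfUnity.exists_primitiveRoot QBar N
  have hzint0 : IsIntegral ℤ z := hz.isIntegral hN
  have hzint : IsIntegral E z := hzint0.tower_top
  set F : IntermediateField E QBar := IntermediateField.adjoin E ({z} : Set QBar) with hF
  have hfd : FiniteDimensional E F := IntermediateField.adjoin.finiteDimensional hzint
  have hnf : NumberField F := NumberField.of_module_finite E F
  have hzF : z ∈ F := IntermediateField.mem_adjoin_simple_self _ _
  have hzF0 : IsIntegral ℤ (⟨z, hzF⟩ : F) := by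
    refine (isIntegral_algHom_iff (F.val.restrictScalars ℤ) F.val.injective).1 ?_
    exact hzint0
  set zF : 𝓞 F := ⟨⟨z, hzF⟩, hzF0⟩ with hzFdef
  set i1 : 𝓞 F →+* ZBar := RingOfIntegers.mapRingHom (F.val : F →+* QBar) with hi1
  set zB : ZBar := i1 zF with hzB
  have hzBz : (zB : QBar) = z := rfl
  -- the roots of unity
  have ht : ∀ (p : ℕ) (i : Fin n), ∃ t : ℕ, p.Prime → p ∉ S → a p i = N * w →
      α p i = zB ^ t * (p : ZBar) ^ w := by
    intro p i
    by_cases h : p.Prime ∧ p ∉ S ∧ a p i = N * w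
    · obtain ⟨hp, hpS, hi⟩ := h
      have hpne : (p : QBar) ≠ 0 := Nat.cast_ne_zero.2 hp.ne_zero
      have haQ : (α p i : QBar) ^ N = (p : QBar) ^ a p i := by
        have h1 := congrArg (algebraMap ZBar QBar) (ha p hp hpS i)
        rw [map_pow, map_pow, map_natCast] at h1
        exact h1
      have h1 : ((α p i : QBar) / (p : QBar) ^ w) ^ N = 1 := by
        rw [div_pow, haQ, hi, ← pow_mul, mul_comm N w, div_self (pow_ne_zero _ hpne)]
      obtain ⟨t, -, ht⟩ := hz.eq_pow_of_pow_eq_one h1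
      refine ⟨t, fun _ _ _ => ?_⟩
      apply RingOfIntegers.ext
      have h2 : ((zB ^ t * (p : ZBar) ^ w : ZBar) : QBar) = z ^ t * (p : QBar) ^ w := by
        have h3 : ((zB ^ t * (p : ZBar) ^ w : ZBar) : QBar) =
            algebraMap ZBar QBar (zB ^ t * (p : ZBar) ^ w) := rfl
        rw [h3, map_mul, map_pow, map_pow, map_natCast]
        rfl
      rw [h2, ht, div_mul_cancel₀ _ (pow_ne_zero _ hpne)]
    · exact ⟨0, fun h1 h2 h3 => absurd ⟨h1, h2, h3⟩ h⟩
  choose t ht using ht
  set P' : ℕ → (𝓞 F)[X] := fun p => ∏ i with a p i = N * w, (X - Polynomial.C (zF ^ t p i)) with hP'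
  -- the constants
  set T := 16 * n ^ 2 * (A.factorial * M) + A * M + 1 with hT
  set D := p0 ^ T + C + n with hD
  have hΛ2 := hΛ.diff (Pool.Agent.H500.Kum.dens_fin _
    (Pool.Agent.H500.Kum.fin_mem (E := E) (x := ((D.factorial : ℕ) : 𝓞 E))
      (Nat.cast_ne_zero.2 (Nat.factorial_ne_zero D))))
  set Λ2 : HeightOneSpectrum (𝓞 E) → Prop := fun v => Λ v ∧ ¬ ((D.factorial : ℕ) : 𝓞 E) ∈ v.asIdeal
    with hΛ2def
  have hdata := fun v (hv : Λ2 v) => exists_data (v := v) ha hA hp0 hp0S hM (T := T) (D := D) (by omega)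
    (by omega) (by omega) hv.2 (hloc v hv.1)
  choose L c hl hc hcA hcons using hdata
  have hp0l : ∀ v hv, p0 < (L v hv).l := by
    intro v hv
    have h1 : p0 ^ 1 ≤ p0 ^ T := Nat.pow_le_pow_right hp0.pos (by omega)
    rw [pow_one] at h1
    have h2 := hl v hv
    omega
  -- the places of `F`
  have hker0 : ∀ v hv, RingHom.ker ((L v hv).ψ.comp i1) ≠ ⊥ := by
    intro v hv h
    have h1 : (((L v hv).l : ℕ) : 𝓞 F) ∈ RingHom.ker ((L v hv).ψ.comp i1) := by
      rw [RingHom.mem_ker, map_natCast]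
      exact CharP.cast_eq_zero _ _
    rw [h, Ideal.mem_bot] at h1
    exact (L v hv).hl.out.ne_zero (by exact_mod_cast h1)
  set vp : {v // Λ2 v} → HeightOneSpectrum (𝓞 F) := fun x =>
    ⟨RingHom.ker ((L x.1 x.2).ψ.comp i1), RingHom.ker_isPrime _, hker0 x.1 x.2⟩ with hvp
  set i2 : 𝓞 E →+* 𝓞 F := RingOfIntegers.mapRingHom (algebraMap E F) with hi2
  have hcomp : i1.comp i2 = RingOfIntegers.mapRingHom j0 := by
    ext x
    rfl
  have hvpinj : Function.Injective vp := by
    intro x y hxy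
    have h1 : ∀ x : {v // Λ2 v}, (vp x).asIdeal.comap i2 = x.1.asIdeal := by
      intro x
      rw [← (L x.1 x.2).hker, ← hcomp, ← RingHom.comp_assoc]
      rfl
    apply Subtype.ext
    apply HeightOneSpectrum.ext
    rw [← h1 x, ← h1 y, hxy]
  set Λ' : Set (HeightOneSpectrum (𝓞 F)) := Set.range vp with hΛ'
  set M' : HeightOneSpectrum (𝓞 F) → Set ℕ := fun v' => {p | ∃ x : {v // Λ2 v}, vp x = v' ∧
    p.Prime ∧ p ∉ S ∧ p ≠ (L x.1 x.2).l ∧ (L x.1 x.2).Cons a (c x.1 x.2) p} with hM'
  have hinf : ∀ p : ℕ, p.Prime → p ∉ S → {v' ∈ Λ' | p ∈ M' v'}.Infinite := by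
    intro p hp hpS
    have h1 := (cons_many hM hα0 ha hp0 hp0S hΛ2 L c hp0l hcA hcons hp hpS).infinite
    have h2 : ((Subtype.val : {v // Λ2 v} → _) ⁻¹'
        {v | ∃ hv : Λ2 v, p ≠ (L v hv).l ∧ (L v hv).Cons a (c v hv) p}).Infinite := by
      refine h1.preimage ?_
      rintro v ⟨hv, -⟩
      exact ⟨⟨v, hv⟩, rfl⟩
    refine (h2.image hvpinj.injOn).mono ?_
    rintro _ ⟨x, ⟨hv, h3, h4⟩, rfl⟩
    exact ⟨⟨x, rfl⟩, x, rfl, hp, hpS, h3, h4⟩
  have hinf' : Λ'.Infinite := (hinf p0 hp0 hp0S).mono fun v hv => hv.1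
  set ε : ℝ := 1 / (16 * n ^ 2) with hε
  have hn2 : (0 : ℝ) < (n : ℝ) ^ 2 := by positivity
  have hε0 : 0 < ε := by positivity
  have hn'n2 : (n' : ℝ) ^ 2 ≤ (n : ℝ) ^ 2 := by
    have : (n' : ℝ) ≤ n := by exact_mod_cast hn'n
    exact pow_le_pow_left₀ (Nat.cast_nonneg _) this 2
  obtain ⟨R, hRo, hR⟩ := Pool.Agent.Y800.resid_core hn'0 (F.val : F →+* QBar) P' (n' : ℝ) (2 * ε)
    (by
      calc 2 * ε * (4 * (n' : ℝ) ^ 2) ≤ 2 * ε * (4 * (n : ℝ) ^ 2) :=
            mul_le_mul_of_nonneg_left (by linarith) (by positivity)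
        _ = 1 / 2 := by
          rw [hε]
          field_simp
          norm_num
        _ < 1 := by norm_num) Λ' hinf' M'
    (by
      rintro _ ⟨x, rfl⟩
      obtain ⟨m', R, hRo, hRss, hR⟩ := (L x.1 x.2).slope_rep (a := a) (by have := hl x.1 x.2; omega)
        (c x.1 x.2) (N * w)
      have hroots : ∀ p : ℕ, p.Prime → p ∉ S →
          ∏ i with a p i = N * w, (X - Polynomial.C ((L x.1 x.2).ψ (α p i))) =
          ∏ i with a p i = N * w, (X - Polynomial.C ((((L x.1 x.2).ψ.comp i1) (zF ^ t p i)) *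
            (p : (L x.1 x.2).k) ^ w)) := by
        intro p hp hpS
        refine Finset.prod_congr rfl fun i hi => ?_
        rw [ht p i hp hpS (Finset.mem_filter.1 hi).2, map_mul, map_pow, map_pow, map_natCast,
          RingHom.comp_apply, map_pow, map_pow]
      have hdim : m' = n' := by
        obtain ⟨Q, σ, hQ, hpQ, hσ⟩ := Pool.Agent.Y800.exists_geom hp0
        have h1 := congrArg natDegree ((hR p0 hp0 hp0S (hp0l x.1 x.2).ne
          (hcons x.1 x.2)).2 Q hQ hpQ σ hσ)
        rw [natDegree_prod_of_monic _ _ (fun i _ => monic_X_sub_C _)] at h1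
        simpa using h1
      subst hdim
      obtain ⟨R', hR'o, hR'ss, hR'⟩ := (L x.1 x.2).twisted R hRo hRss w
      refine ⟨(L x.1 x.2).k, inferInstance, (L x.1 x.2).ψ.comp i1, R', rfl, hR'o, hR'ss, ?_⟩
      rintro p ⟨y, hy, hp, hpS, hpl, hcp⟩
      have hyx := hvpinj hy
      subst hyx
      obtain ⟨h1, h2⟩ := hR p hp hpS hpl hcp
      obtain ⟨h3, h4⟩ := hR' p hp hpl h1
      refine ⟨h3, fun Q hQ hpQ σ hσ => ?_⟩
      have h5 := h4 Q hQ hpQ σ hσ (Finset.univ.filter fun i => a p i = N * w)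
        (fun i => ((L y.1 y.2).ψ.comp i1) (zF ^ t p i)) (by
          rw [h2 Q hQ hpQ σ hσ]
          exact hroots p hp hpS)
      rw [h5, hP', Polynomial.map_prod]
      refine Finset.prod_congr rfl fun i _ => ?_
      rw [Polynomial.map_sub, Polynomial.map_X, Polynomial.map_C])
    (by
      rintro _ ⟨x, rfl⟩
      have h1 := (L x.1 x.2).bad_dens ha hA hp0 hp0S hM (T := T) (by omega)
        (lt_of_le_of_lt (by omega) (hl x.1 x.2)) (hc x.1 x.2)
        (fun j => (hcA x.1 x.2 j).imp fun i hi => hi.2) hε0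
      have hratio : ((A.factorial * M : ℕ) : ℝ) / (T : ℝ) ≤ 1 / (16 * n ^ 2) := by
        have hT0 : (0 : ℝ) < T := by
          have : 0 < T := by omega
          exact_mod_cast this
        rw [div_le_div_iff₀ hT0 (by positivity), one_mul]
        have h2 : 16 * n ^ 2 * (A.factorial * M) ≤ T := by omega
        have h3 : ((16 * n ^ 2 * (A.factorial * M) : ℕ) : ℝ) ≤ T := by exact_mod_cast h2
        push_cast at h3 ⊢
        linarith
      filter_upwards [h1] with x0 hX
      have h2 : (cnt (Pool.Agent.Y800.BadSet P' n' (n' : ℝ) (M' (vp x))) x0 : ℝ) ≤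
          cnt {p : ℕ | ¬ (p ∉ S ∧ p ≠ (L x.1 x.2).l ∧ (L x.1 x.2).Cons a (c x.1 x.2) p)} x0 := by
        have h3 : cnt (Pool.Agent.Y800.BadSet P' n' (n' : ℝ) (M' (vp x))) x0 ≤
            cnt {p : ℕ | ¬ (p ∉ S ∧ p ≠ (L x.1 x.2).l ∧ (L x.1 x.2).Cons a (c x.1 x.2) p)} x0 := by
          refine Set.ncard_le_ncard ?_ (Pool.Agent.Y800.fin_cnt _ x0)
          rintro p ⟨hp, hpX, hpb⟩
          refine ⟨hp, hpX, fun hgood => ?_⟩
          rcases hpb with h4 | ⟨σ, h4⟩
          · exact h4 ⟨x, rfl, hp, hgood.1, hgood.2.1, hgood.2.2⟩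
          · -- the coefficient is small
            have h5 : (P' p).natDegree = n' := by
              rw [hP']
              show (∏ i with a p i = N * w, (X - Polynomial.C (zF ^ t p i))).natDegree = n'
              rw [natDegree_prod_of_monic _ _ (fun i _ => monic_X_sub_C _)]
              simp only [natDegree_X_sub_C, Finset.sum_const, smul_eq_mul, mul_one]
              exact hcard p hp hgood.1
            have h6 : (P' p).coeff (n' - 1) = - ∑ i with a p i = N * w, zF ^ t p i := by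
              have h7 : (P' p).nextCoeff = - ∑ i with a p i = N * w, zF ^ t p i :=
                Polynomial.prod_X_sub_C_nextCoeff _
              rw [← h7, Polynomial.nextCoeff_of_natDegree_pos (by omega), h5]
            have h7 : ‖σ (((P' p).coeff (n' - 1) : 𝓞 F) : F)‖ ≤ n' := by
              have h8 : σ (((P' p).coeff (n' - 1) : 𝓞 F) : F) =
                  - ∑ i with a p i = N * w, (σ (zF : F)) ^ t p i := by
                rw [h6]
                have h9 : ((- ∑ i with a p i = N * w, zF ^ t p i : 𝓞 F) : F) =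
                    - ∑ i with a p i = N * w, (zF : F) ^ t p i := by
                  have h10 : ((- ∑ i with a p i = N * w, zF ^ t p i : 𝓞 F) : F) =
                    algebraMap (𝓞 F) F (- ∑ i with a p i = N * w, zF ^ t p i) := rfl
                  rw [h10, map_neg, map_sum]
                  simp only [map_pow]
                rw [h9, map_neg, map_sum]
                simp only [map_pow]
              have h9 : ‖σ (zF : F)‖ = 1 := by
                have h10 : (σ (zF : F)) ^ N = 1 := by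
                  rw [← map_pow]
                  have h11 : (zF : F) ^ N = 1 := by
                    apply Subtype.ext
                    exact hz.pow_eq_one
                  rw [h11, map_one]
                exact Complex.norm_eq_one_of_pow_eq_one h10 hN.ne'
              rw [h8, norm_neg]
              refine (norm_sum_le _ _).trans ?_
              simp only [norm_pow, h9, one_pow, Finset.sum_const, nsmul_eq_mul, mul_one]
              rw [hcard p hp hgood.1]
            linarith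
        exact_mod_cast h3
      refine h2.trans (hX.trans (mul_le_mul_of_nonneg_right ?_ (Nat.cast_nonneg _)))
      rw [hε]
      linarith)
  refine ⟨n', R, hRo, fun p hp hpS => ?_⟩
  obtain ⟨h1, h2⟩ := hR p (hinf p hp hpS)
  refine ⟨h1, fun Q hQ hpQ σ hσ => ?_⟩
  rw [h2 Q hQ hpQ σ hσ, hP', Polynomial.map_prod]
  refine Finset.prod_congr rfl fun i hi => ?_
  rw [Polynomial.map_sub, Polynomial.map_X, Polynomial.map_C]
  have hpne : (p : QBar) ≠ 0 := Nat.cast_ne_zero.2 hp.ne_zero
  have h3 : ((algebraMap ZBar QBar).comp (RingOfIntegers.mapRingHom (F.val : F →+* QBar)))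
      (zF ^ t p i) = (α p i : QBar) / (p : QBar) ^ w := by
    rw [eq_div_iff (pow_ne_zero _ hpne), RingHom.comp_apply, map_pow, map_pow]
    have h4 := congrArg (algebraMap ZBar QBar) (ht p i hp hpS (Finset.mem_filter.1 hi).2)
    rw [map_mul, map_pow, map_pow, map_natCast] at h4
    exact h4.symm
  rw [h3]

end

end Pool.Agent.H500.MW
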