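import Pool.Agent.H500.MWL
import Pool.Graph.R_seed8.Y800.Two

set_option autoImplicit false
set_option linter.unusedSectionVars false

/-!
# Assembling the parts of the given slopes
-/

namespace Pool.Agent.H500.MW

open NumberField IsDedekindDomain Filter Topology Polynomial
open Pool.Agent.H500.Tr (om om_open om_frob om_inert)
open Pool.Agent.Y800 (GQ ZBar QBar Unramified IsGeomFrob cnt IsSemisimpleRep Corresponds)
open Pool.Agent.Q92.FP (twist coe_twist stable_twist cyc cycPow cycPow_apply continuous_cycPow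
  cyc_frobAt cyc_inertia continuous_twist)

/-- conjugation to the diagonal matrix of the roots of the characteristic polynomial -/
theorem Diag.conj {k : Type} [Field k] {m : ℕ} {M : Matrix (Fin m) (Fin m) k} (h : Diag M)
    (β : Fin m → k) (hβ : M.charpoly = ∏ i, (X - Polynomial.C (β i))) :
    ∃ h : GL (Fin m) k, M = (h : Matrix (Fin m) (Fin m) k) * Matrix.diagonal β *
      ((h⁻¹ : GL (Fin m) k) : Matrix (Fin m) (Fin m) k) := by
  classical
  obtain ⟨g, d, hM⟩ := h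
  have h1 : ∏ i, (X - Polynomial.C (d i)) = ∏ i, (X - Polynomial.C (β i)) := by
    rw [← hβ, hM, Pool.Agent.Y800.charpoly_conj, Matrix.charpoly_diagonal]
  have h2 := congrArg Polynomial.roots h1
  have h3 : ∀ d : Fin m → k, (∏ i, (X - Polynomial.C (d i))).roots = Finset.univ.val.map d := by
    intro d
    have : ∏ i, (X - Polynomial.C (d i)) =
        ((Finset.univ.val.map d).map fun a => X - Polynomial.C a).prod := by
      rw [Multiset.map_map]; rfl
    rw [this, Polynomial.roots_multiset_prod_X_sub_C]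
  rw [h3, h3] at h2
  obtain ⟨σ, hσ⟩ := exists_equiv β d h2.symm
  set A : Matrix (Fin m) (Fin m) k := Matrix.of fun i j => if i = σ j then 1 else 0 with hA
  set B : Matrix (Fin m) (Fin m) k := Matrix.of fun i j => if σ i = j then 1 else 0 with hB
  have hAB : A * B = 1 := by
    ext i j
    rw [Matrix.mul_apply, Matrix.one_apply]
    simp only [hA, hB, Matrix.of_apply, mul_ite, mul_one, mul_zero]
    by_cases hij : i = j
    · subst hij
      rw [if_pos rfl, Finset.sum_eq_single (σ.symm i)]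
      · simp
      · intro b _ hb
        rw [if_neg]
        rintro rfl
        exact hb (σ.symm_apply_apply b).symm
      · simp
    · rw [if_neg hij]
      refine Finset.sum_eq_zero fun b _ => ?_
      by_cases h4 : σ b = j
      · rw [if_pos h4, if_neg]
        rintro rfl
        exact hij h4
      · rw [if_neg h4]
  have hBA : B * A = 1 := by
    ext i j
    rw [Matrix.mul_apply, Matrix.one_apply]
    simp only [hA, hB, Matrix.of_apply, mul_ite, mul_one, mul_zero]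
    by_cases hij : i = j
    · subst hij
      rw [if_pos rfl, Finset.sum_eq_single (σ i)]
      · simp
      · intro b _ hb
        rw [if_neg hb]
      · simp
    · rw [if_neg hij]
      refine Finset.sum_eq_zero fun b _ => ?_
      by_cases h4 : b = σ j
      · rw [if_pos h4, if_neg]
        rintro h5
        exact hij (σ.injective (h5.trans h4))
      · rw [if_neg h4]
  have hd : Matrix.diagonal d * A = A * Matrix.diagonal β := by
    ext i j
    rw [Matrix.diagonal_mul, Matrix.mul_diagonal]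
    simp only [hA, Matrix.of_apply]
    by_cases h4 : i = σ j
    · rw [if_pos h4, mul_one, one_mul, h4, hσ]
    · rw [if_neg h4, mul_zero, zero_mul]
  set u : GL (Fin m) k := ⟨A, B, hAB, hBA⟩ with hu
  refine ⟨g * u, ?_⟩
  have hui : ((u⁻¹ : GL (Fin m) k) : Matrix (Fin m) (Fin m) k) = B := rfl
  have huc : (u : Matrix (Fin m) (Fin m) k) = A := rfl
  rw [mul_inv_rev, Units.val_mul, Units.val_mul, hui, huc, hM]
  have h5 : (g : Matrix (Fin m) (Fin m) k) * A * Matrix.diagonal β *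
      (B * ((g⁻¹ : GL (Fin m) k) : Matrix (Fin m) (Fin m) k)) =
      (g : Matrix (Fin m) (Fin m) k) * (A * Matrix.diagonal β) * B *
        ((g⁻¹ : GL (Fin m) k) : Matrix (Fin m) (Fin m) k) := by
    simp only [Matrix.mul_assoc]
  rw [h5, ← hd, ← Matrix.mul_assoc, Matrix.mul_assoc _ A B, hAB, Matrix.mul_one]

/-- multiples of diagonalizable matrices -/
theorem Diag.smul {k : Type} [Field k] {m : ℕ} {M : Matrix (Fin m) (Fin m) k} (h : Diag M) (c : k) :
    Diag (c • M) := by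
  obtain ⟨g, d, hM⟩ := h
  refine ⟨g, c • d, ?_⟩
  rw [Matrix.diagonal_smul, hM, Matrix.mul_smul, Matrix.smul_mul]

section

variable {ℓ : ℕ} [hℓ : Fact ℓ.Prime]

/-- representations with given Frobenius polynomials -/
def Good (S : Finset ℕ) {m : ℕ} (ρ : GQ →* GL (Fin m) (PadicAlgCl ℓ))
    (F : ℕ → (PadicAlgCl ℓ)[X]) : Prop :=
  Continuous ρ ∧ IsSemisimpleRep ρ ∧ ∀ p : ℕ, p.Prime → p ∉ S → p ≠ ℓ → Unramified ρ p ∧
    ∀ Q : Ideal ZBar, Q.IsMaximal → (p : ZBar) ∈ Q → ∀ σ : GQ, IsGeomFrob p Q σ →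
      Diag (ρ σ : Matrix (Fin m) (Fin m) (PadicAlgCl ℓ)) ∧
        (ρ σ : Matrix (Fin m) (Fin m) (PadicAlgCl ℓ)).charpoly = F p

theorem Good.dsum {S : Finset ℕ} {a b : ℕ} {ρ : GQ →* GL (Fin a) (PadicAlgCl ℓ)}
    {ρ' : GQ →* GL (Fin b) (PadicAlgCl ℓ)} {F F' : ℕ → (PadicAlgCl ℓ)[X]} (h : Good S ρ F)
    (h' : Good S ρ' F') : Good S (dsum ρ ρ') fun p => F p * F' p := by
  refine ⟨dsum_continuous _ _ h.1 h'.1, dsum_ss _ _ h.2.1 h'.2.1, fun p hp hpS hpl =>
    ⟨fun Q hQ hpQ τ hτ => ?_, fun Q hQ hpQ σ hσ => ⟨?_, ?_⟩⟩⟩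
  · exact dsum_one _ _ ((h.2.2 p hp hpS hpl).1 Q hQ hpQ τ hτ) ((h'.2.2 p hp hpS hpl).1 Q hQ hpQ τ hτ)
  · exact dsum_diag _ _ ((h.2.2 p hp hpS hpl).2 Q hQ hpQ σ hσ).1
      ((h'.2.2 p hp hpS hpl).2 Q hQ hpQ σ hσ).1
  · rw [dsum_charpoly, ((h.2.2 p hp hpS hpl).2 Q hQ hpQ σ hσ).2,
      ((h'.2.2 p hp hpS hpl).2 Q hQ hpQ σ hσ).2]

theorem Good.zero (S : Finset ℕ) : Good (ℓ := ℓ) S (m := 0) 1 fun _ => 1 := by
  refine ⟨continuous_const, ?_, fun p hp hpS hpl =>
    ⟨fun Q hQ hpQ τ hτ => rfl, fun Q hQ hpQ σ hσ => ⟨?_, ?_⟩⟩⟩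
  · intro W hW
    refine ⟨⊤, fun g w hw => trivial, ?_⟩
    have h1 : W = ⊥ := by
      rw [eq_bot_iff]
      intro w _
      rw [Submodule.mem_bot]
      exact Subsingleton.elim _ _
    rw [h1]
    exact isCompl_bot_top
  · refine ⟨1, fun i => i.elim0, ?_⟩
    ext i
    exact i.elim0
  · unfold Matrix.charpoly
    exact Matrix.det_isEmpty

/-- the part of slope `w` -/
theorem good_slope (S : Finset ℕ) {m n : ℕ} (R : GQ →* GL (Fin m) QBar)
    (hRo : IsOpen (R.ker : Set GQ)) (w : ℕ) (e : QBar →+* PadicAlgCl ℓ) (s : ℕ → Finset (Fin n))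
    (x : ℕ → Fin n → QBar)
    (hR : ∀ p : ℕ, p.Prime → p ∉ S → Unramified R p ∧
        ∀ Q : Ideal ZBar, Q.IsMaximal → (p : ZBar) ∈ Q → ∀ σ : GQ, IsGeomFrob p Q σ →
          (R σ : Matrix (Fin m) (Fin m) QBar).charpoly =
            ∏ i ∈ s p, (X - Polynomial.C (x p i / (p : QBar) ^ w))) :
    Good (ℓ := ℓ) S (twist ((Matrix.GeneralLinearGroup.map e).comp R) (cycPow ℓ (-(w : ℤ))))
      fun p => ∏ i ∈ s p, (X - Polynomial.C (e (x p i))) := by
  classical
  set R' : GQ →* GL (Fin m) (PadicAlgCl ℓ) := (Matrix.GeneralLinearGroup.map e).comp R with hR'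
  have hR'o : IsOpen (R'.ker : Set GQ) := by
    rw [hR', Pool.Agent.Y800.ker_map]
    exact hRo
  have hfin := Pool.Agent.Y800.finite_quot R' hR'o
  obtain ⟨N, hN, hpow⟩ := Pool.Agent.Y800.exists_pow_mat R' hfin
  have hss := Pool.Agent.Y800.semisimple_of_finite R' hfin
  refine ⟨continuous_twist R' (Pool.Agent.Y800.continuous_of_ker _ hR'o) _ (continuous_cycPow _), ?_,
    fun p hp hpS hpl => ⟨fun Q hQ hpQ τ hτ => ?_, fun Q hQ hpQ σ hσ => ?_⟩⟩
  · intro W hW
    obtain ⟨W', h1, h2⟩ := hss W (stable_twist.1 hW)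
    exact ⟨W', stable_twist.2 h1, h2⟩
  · apply Units.ext
    have h1 : R' τ = 1 := by
      rw [hR', MonoidHom.comp_apply, (hR p hp hpS).1 Q hQ hpQ τ hτ, map_one]
    rw [coe_twist, cycPow_apply, cyc_inertia hp hpl hQ.isPrime hpQ hτ, one_zpow, Units.val_one,
      one_smul, h1]
  · have h1 : ((cycPow ℓ (-(w : ℤ)) σ : (PadicAlgCl ℓ)ˣ) : PadicAlgCl ℓ) = (p : PadicAlgCl ℓ) ^ w := by
      have h2 := cyc_frobAt (ℓ := ℓ) hp hpl hQ.isPrime hpQ (Pool.Agent.Y800.arith_of_geom hσ)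
      rw [map_inv] at h2
      rw [cycPow_apply, zpow_neg, ← inv_zpow, zpow_natCast, Units.val_pow_eq_pow_val, h2]
    have hp0 : (p : PadicAlgCl ℓ) ≠ 0 := Nat.cast_ne_zero.2 hp.ne_zero
    refine ⟨?_, ?_⟩
    · rw [coe_twist]
      refine Diag.smul ?_ _
      obtain ⟨b, d, hbd⟩ := Pool.Agent.Y800.diag_of_pow_eq_one _ N hN (hpow σ)
      obtain ⟨h, hh⟩ := Pool.Agent.Y800.conj_of_basis _ b d hbd
      exact ⟨h, d, hh⟩
    · have h2 : (R' σ : Matrix (Fin m) (Fin m) (PadicAlgCl ℓ)).charpoly =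
          ∏ i ∈ s p, (X - Polynomial.C (e (x p i / (p : QBar) ^ w))) := by
        have h3 : (R' σ : Matrix (Fin m) (Fin m) (PadicAlgCl ℓ)) =
          (R σ : Matrix (Fin m) (Fin m) QBar).map e := rfl
        rw [h3, Matrix.charpoly_map, (hR p hp hpS).2 Q hQ hpQ σ hσ, Polynomial.map_prod]
        refine Finset.prod_congr rfl fun i _ => ?_
        rw [Polynomial.map_sub, Polynomial.map_X, Polynomial.map_C]
      rw [coe_twist, h1, charpoly_smul' (pow_ne_zero w hp0) _ (s p) _ h2]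
      refine Finset.prod_congr rfl fun i _ => ?_
      rw [map_div₀, map_pow, map_natCast, mul_div_cancel₀ _ (pow_ne_zero w hp0)]

/-- on an open subgroup the representation is a sum of powers of the cyclotomic character -/
def Pot {m : ℕ} (ρ : GQ →* GL (Fin m) (PadicAlgCl ℓ)) (w : Fin m → ℕ) : Prop :=
  ∃ U : Subgroup GQ, IsOpen (U : Set GQ) ∧ ∀ u ∈ U,
    (ρ u : Matrix (Fin m) (Fin m) (PadicAlgCl ℓ)) =
      Matrix.diagonal fun i => ((cyc ℓ u : (PadicAlgCl ℓ)ˣ) : PadicAlgCl ℓ) ^ (-(w i : ℤ))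

theorem Pot.dsum {a b : ℕ} {ρ : GQ →* GL (Fin a) (PadicAlgCl ℓ)}
    {ρ' : GQ →* GL (Fin b) (PadicAlgCl ℓ)} {w : Fin a → ℕ} {w' : Fin b → ℕ} (h : Pot ρ w)
    (h' : Pot ρ' w') : Pot (dsum ρ ρ') (Fin.append w w') := by
  obtain ⟨U, hU, hw⟩ := h
  obtain ⟨U', hU', hw'⟩ := h'
  refine ⟨U ⊓ U', hU.inter hU', fun u hu => ?_⟩
  rw [dsum_coe, hw u hu.1, hw' u hu.2, B2_diag]
  congr 1
  ext i
  refine Fin.addCases (fun i => ?_) (fun i => ?_) i <;> simp

theorem pot_slope {m : ℕ} (R : GQ →* GL (Fin m) QBar)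
    (hRo : IsOpen (R.ker : Set GQ)) (w : ℕ) (e : QBar →+* PadicAlgCl ℓ) :
    Pot (twist ((Matrix.GeneralLinearGroup.map e).comp R) (cycPow ℓ (-(w : ℤ)))) fun _ => w := by
  refine ⟨R.ker, hRo, fun u hu => ?_⟩
  have h1 : ((Matrix.GeneralLinearGroup.map e).comp R) u = 1 := by
    rw [MonoidHom.comp_apply, show R u = 1 from hu, map_one]
  rw [coe_twist, cycPow_apply, h1, Units.val_one, Units.val_zpow_eq_zpow_val,
    Matrix.smul_one_eq_diagonal]

/-- the sum of the parts -/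
theorem good_sum (S : Finset ℕ) {n : ℕ} (b : ℕ → Fin n → ℕ) (e : QBar →+* PadicAlgCl ℓ)
    (x : ℕ → Fin n → QBar) {p0 : ℕ} (hp0 : p0.Prime) (hp0S : p0 ∉ S)
    (h : ∀ w : ℕ, ∃ (m : ℕ) (R : GQ →* GL (Fin m) QBar), IsOpen (R.ker : Set GQ) ∧
      ∀ p : ℕ, p.Prime → p ∉ S → Unramified R p ∧
        ∀ Q : Ideal ZBar, Q.IsMaximal → (p : ZBar) ∈ Q → ∀ σ : GQ, IsGeomFrob p Q σ →
          (R σ : Matrix (Fin m) (Fin m) QBar).charpoly =
            ∏ i with b p i = w, (X - Polynomial.C (x p i / (p : QBar) ^ w))) (W : ℕ) :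
    ∃ (m : ℕ) (ρ : GQ →* GL (Fin m) (PadicAlgCl ℓ)) (w : Fin m → ℕ), Good S ρ (fun p =>
      ∏ i with b p i < W, (X - Polynomial.C (e (x p i)))) ∧ Pot ρ w ∧
      ∀ f : ℕ → ℕ, ∑ i, f (w i) = ∑ i with b p0 i < W, f (b p0 i) := by
  classical
  induction W with
  | zero =>
    refine ⟨0, 1, fun i => i.elim0, ?_, ⟨⊤, ?_, fun u _ => ?_⟩, fun f => ?_⟩
    · have h1 := Good.zero (ℓ := ℓ) S
      simpa using h1
    · rw [Subgroup.coe_top]
      exact isOpen_univ
    · ext i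
      exact i.elim0
    · simp
  | succ W ih =>
    obtain ⟨m, ρ, w, hρ, hw, hf⟩ := ih
    obtain ⟨m', R, hRo, hR⟩ := h W
    have h1 := good_slope (ℓ := ℓ) S R hRo W e (fun p => Finset.univ.filter fun i => b p i = W) x hR
    have h2 := hρ.dsum h1
    have h3 := hw.dsum (pot_slope (ℓ := ℓ) R hRo W e)
    have hm' : m' = (Finset.univ.filter fun i => b p0 i = W).card := by
      obtain ⟨Q, σ, hQ, hpQ, hσ⟩ := Pool.Agent.Y800.exists_geom hp0
      have h4 := congrArg natDegree ((hR p0 hp0 hp0S).2 Q hQ hpQ σ hσ)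
      rw [natDegree_prod_of_monic _ _ (fun i _ => monic_X_sub_C _)] at h4
      simpa using h4
    have hsplit : ∀ p : ℕ, (Finset.univ.filter fun i => b p i < W + 1) =
        (Finset.univ.filter fun i => b p i < W) ∪ (Finset.univ.filter fun i => b p i = W) := by
      intro p
      ext i
      simp only [Finset.mem_filter, Finset.mem_univ, true_and, Finset.mem_union]
      omega
    have hdisj : ∀ p : ℕ, Disjoint (Finset.univ.filter fun i => b p i < W)
        (Finset.univ.filter fun i => b p i = W) := by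
      intro p
      rw [Finset.disjoint_filter]
      intro i _ h3
      omega
    refine ⟨m + m', dsum ρ (twist ((Matrix.GeneralLinearGroup.map e).comp R)
      (cycPow ℓ (-(W : ℤ)))), Fin.append w fun _ => W, ?_, h3, fun f => ?_⟩
    · convert h2 using 2 with p
      rw [hsplit, Finset.prod_union (hdisj p)]
    · rw [Fin.sum_univ_add, hsplit, Finset.sum_union (hdisj p0), ← hf f]
      simp only [Fin.append_left, Fin.append_right, Finset.sum_const, Finset.card_univ,
        Fintype.card_fin, smul_eq_mul]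
      congr 1
      rw [Finset.sum_congr rfl (g := fun _ => f W) fun i hi => by
        rw [(Finset.mem_filter.1 hi).2]]
      rw [Finset.sum_const, smul_eq_mul, hm']

end

end Pool.Agent.H500.MW
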