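import Pool.Agent.H500.MWM

set_option autoImplicit false
set_option linter.unusedSectionVars false

/-!
# Residual representations with small projective images: the main theorem
-/

namespace Pool.Agent.H500.MW

open NumberField IsDedekindDomain Filter Topology Polynomial
open Pool.Agent.H500.Tr (om om_open om_frob om_inert)
open Pool.Agent.Y800 (GQ ZBar QBar Unramified IsGeomFrob cnt IsSemisimpleRep Corresponds)
open Pool.Agent.W401.Cheb (dens)
open Pool.Agent.Q92.FP (cyc)

section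

variable {E : Type} [Field E] [NumberField E]

/-- an invertible matrix has no eigenvalue zero -/
theorem not_root_zero {k : Type} [Field k] {m : ℕ} (g : GL (Fin m) k) :
    ¬ (g : Matrix (Fin m) (Fin m) k).charpoly.IsRoot 0 := by
  intro hx
  obtain ⟨w, hw, hw1⟩ := exists_eigen _ hx
  rw [zero_smul] at hw1
  apply hw
  have h5 : ((g⁻¹ : GL (Fin m) k) : Matrix (Fin m) (Fin m) k).mulVec
      ((g : Matrix (Fin m) (Fin m) k).mulVec w) = w := by
    rw [Matrix.mulVec_mulVec, ← Units.val_mul, inv_mul_cancel, Units.val_one, Matrix.one_mulVec]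
  rw [← h5, hw1, Matrix.mulVec_zero]

/-- **The main theorem over the algebraic numbers.** -/
theorem core (j0 : E →+* QBar) {n : ℕ} (P : ℕ → (𝓞 E)[X]) (S : Finset ℕ) (α : ℕ → Fin n → ZBar)
    (hα : ∀ p : ℕ, p.Prime → p ∉ S → (P p).map (RingOfIntegers.mapRingHom j0) =
      ∏ i, (X - Polynomial.C (α p i))) (C : ℕ) {Λ : HeightOneSpectrum (𝓞 E) → Prop}
    (hΛ : PosUD Λ) (hres : ∀ v, Λ v → SmallProj P S C v) :
    ∃ (N : ℕ) (b : ℕ → Fin n → ℕ) (W : ℕ), 0 < N ∧
      (∀ p : ℕ, p.Prime → p ∉ S → ∀ i, α p i ^ N = (p : ZBar) ^ (N * b p i)) ∧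
      (∀ p q : ℕ, p.Prime → p ∉ S → q.Prime → q ∉ S → ∃ π : Fin n ≃ Fin n, ∀ i, b p i = b q (π i)) ∧
      (∀ p : ℕ, p.Prime → p ∉ S → ∀ i, b p i < W) ∧
      ∀ w : ℕ, ∃ (m : ℕ) (R : GQ →* GL (Fin m) QBar), IsOpen (R.ker : Set GQ) ∧
        ∀ p : ℕ, p.Prime → p ∉ S → Unramified R p ∧
          ∀ Q : Ideal ZBar, Q.IsMaximal → (p : ZBar) ∈ Q → ∀ σ : GQ, IsGeomFrob p Q σ →
            (R σ : Matrix (Fin m) (Fin m) QBar).charpoly =
              ∏ i with b p i = w, (X - Polynomial.C ((α p i : QBar) / (p : QBar) ^ w)) := by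
  classical
  have hinj : Function.Injective (RingOfIntegers.mapRingHom j0 : 𝓞 E →+* ZBar) := by
    intro x y hxy
    apply RingOfIntegers.ext
    apply j0.injective
    exact congrArg (algebraMap ZBar QBar) hxy
  have hPm : ∀ p : ℕ, p.Prime → p ∉ S → (P p).Monic := by
    intro p hp hpS
    refine Polynomial.monic_of_injective hinj ?_
    rw [hα p hp hpS]
    exact monic_prod_of_monic _ _ fun i _ => monic_X_sub_C _
  have hPn : ∀ p : ℕ, p.Prime → p ∉ S → (P p).natDegree = n := by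
    intro p hp hpS
    have h1 := congrArg natDegree (hα p hp hpS)
    rw [(hPm p hp hpS).natDegree_map, natDegree_prod_of_monic _ _ (fun i _ => monic_X_sub_C _)] at h1
    simpa using h1
  have hα0 : ∀ p : ℕ, p.Prime → p ∉ S → ∀ i, α p i ≠ 0 := by
    intro p hp hpS i hi
    obtain ⟨v, hv, hpv⟩ := (hΛ.diff (Pool.Agent.H500.Kum.dens_fin _
      (Pool.Agent.H500.Kum.fin_mem (E := E) (x := (p : 𝓞 E))
        (Nat.cast_ne_zero.2 hp.ne_zero)))).nonempty
    obtain ⟨k, _, φ, J, _, m, ρ, hker, hm, hopen, hU, hfr⟩ := hres v hv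
    obtain ⟨Q, σ, hQ, hpQ, hσ⟩ := Pool.Agent.Y800.exists_geom hp
    have h1 := (hfr p hp hpS hpv).2 Q hQ hpQ σ hσ
    have h2 : (P p).coeff 0 = 0 := by
      apply hinj
      rw [← Polynomial.coeff_map, hα p hp hpS, map_zero, Polynomial.coeff_zero_eq_eval_zero,
        eval_prod]
      refine Finset.prod_eq_zero (Finset.mem_univ i) ?_
      rw [hi]
      simp
    have h3 : ((P p).map φ).IsRoot 0 := by
      rw [IsRoot, ← Polynomial.coeff_zero_eq_eval_zero, Polynomial.coeff_map, h2, map_zero]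
    rw [← h1, IsRoot, eval_prod, Finset.prod_eq_zero_iff] at h3
    obtain ⟨j, -, hj⟩ := h3
    exact not_root_zero (ρ j σ) hj
  set r0 := S.sup id with hr0
  have hr0' : ∀ s ∈ S, s ≤ r0 := fun s hs => Finset.le_sup (f := id) hs
  obtain ⟨κ, hκ⟩ := hΛ.diff_family ((Finset.range (r0 + 1)).filter Nat.Prime)
    (fun r κ v => r ^ κ ∣ Ideal.absNorm v.asIdeal ^ n.factorial - 1)
    (fun r _ a b hab v h => (pow_dvd_pow r hab).trans h)
    (fun r hr ε hε => small_pow (Nat.factorial_pos n) (Finset.mem_filter.1 hr).2 hε)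
  set M := C.factorial * n.factorial * r0.factorial ^ κ with hM
  have hM0 : 0 < M := Nat.mul_pos (Nat.mul_pos (Nat.factorial_pos _) (Nat.factorial_pos _))
    (Nat.pow_pos (Nat.factorial_pos _))
  set Λ1 : HeightOneSpectrum (𝓞 E) → Prop := fun v => Λ v ∧
    ∀ r ∈ (Finset.range (r0 + 1)).filter Nat.Prime,
      ¬ r ^ κ ∣ Ideal.absNorm v.asIdeal ^ n.factorial - 1 with hΛ1
  have hloc : ∀ v, Λ1 v → Nonempty (Loc j0 α S C M v) := by
    intro v hv
    refine exists_loc j0 P S hPm α hα (κ := κ) hr0' ?_ (hres v hv.1)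
    intro r hr hrr h
    refine hv.2 r ?_ ((pow_dvd_pow r (Nat.le_succ κ)).trans h)
    rw [Finset.mem_filter, Finset.mem_range]
    exact ⟨by omega, hr⟩
  obtain ⟨N, a, hN, ha, hperm⟩ := uniform j0 P S hPm hPn α hα fun p q hp hpS hq hqS hpq =>
    slopes_eq hM0 hα0 hκ hloc hp hpS hq hqS hpq
  obtain ⟨p0, hp0, hp0S⟩ := exists_good_prime S
  set A := Finset.univ.sup (a p0) with hA
  have hA' : ∀ p : ℕ, p.Prime → p ∉ S → ∀ i, a p i ≤ A := by
    intro p hp hpS i
    obtain ⟨π, hπ⟩ := hperm p p0 hp hpS hp0 hp0S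
    rw [hπ i]
    exact Finset.le_sup (Finset.mem_univ _)
  have hint : ∀ p : ℕ, p.Prime → p ∉ S → ∀ i, N ∣ a p i := fun p hp hpS i =>
    integral_slopes P hα hN ha hA' hM0 hκ hloc hp hpS i
  have hdiv : ∀ p : ℕ, p.Prime → p ∉ S → ∀ i, a p i = N * (a p i / N) := fun p hp hpS i =>
    (Nat.mul_div_cancel' (hint p hp hpS i)).symm
  refine ⟨N, fun p i => a p i / N, A + 1, hN, fun p hp hpS i => ?_, fun p q hp hpS hq hqS => ?_,
    fun p hp hpS i => ?_, fun w => ?_⟩
  · rw [← hdiv p hp hpS i]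
    exact ha p hp hpS i
  · obtain ⟨π, hπ⟩ := hperm p q hp hpS hq hqS
    exact ⟨π, fun i => congrArg (· / N) (hπ i)⟩
  · have h1 := hA' p hp hpS i
    have h2 := Nat.div_le_self (a p i) N
    show a p i / N < A + 1
    omega
  · obtain ⟨m, R, hRo, hR⟩ := slope_lift hM0 hα0 hN ha hA' hp0 hp0S
      (fun p hp hpS => hperm p p0 hp hpS hp0 hp0S) hκ hloc w
    refine ⟨m, R, hRo, fun p hp hpS => ⟨(hR p hp hpS).1, fun Q hQ hpQ σ hσ => ?_⟩⟩
    rw [(hR p hp hpS).2 Q hQ hpQ σ hσ]
    refine Finset.prod_congr ?_ fun _ _ => rfl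
    ext i
    simp only [Finset.mem_filter, Finset.mem_univ, true_and]
    rw [hdiv p hp hpS i]
    constructor
    · intro h
      exact Nat.eq_of_mul_eq_mul_left hN (by rw [Nat.mul_div_cancel_left _ hN]; exact h)
    · intro h
      rw [Nat.mul_div_cancel_left _ hN] at h
      rw [h]

/-- **The main theorem.** -/
theorem main {n : ℕ} (τ : E →+* ℂ) (S : Finset ℕ) (P : ℕ → (𝓞 E)[X]) (α : ℕ → Fin n → ℂ)
    (hP : ∀ p : ℕ, p.Prime → p ∉ S → (P p).map (τ.comp (algebraMap (𝓞 E) E)) =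
      ∏ i, (X - Polynomial.C (α p i))) (C : ℕ) {Λ : HeightOneSpectrum (𝓞 E) → Prop}
    (hΛ : PosUD Λ) (hres : ∀ v, Λ v → SmallProj P S C v) :
    ∃ w : Fin n → ℕ,
      (∃ D : ℕ, 0 < D ∧ ∀ p : ℕ, p.Prime → p ∉ S → ∃ π : Fin n ≃ Fin n, ∀ i,
        (α p i / (p : ℂ) ^ w (π i)) ^ D = 1) ∧
      ∀ (ℓ : ℕ) [Fact ℓ.Prime] (ι : PadicAlgCl ℓ ≃+* ℂ), ∃ ρ : GQ →* GL (Fin n) (PadicAlgCl ℓ),
        Continuous ρ ∧ IsSemisimpleRep ρ ∧
        (∀ p : ℕ, p.Prime → p ∉ S → p ≠ ℓ → Corresponds ρ p fun i => ι.symm (α p i)) ∧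
        ∃ (U : Subgroup GQ) (π : Fin n ≃ Fin n), IsOpen (U : Set GQ) ∧ ∀ u ∈ U,
          (ρ u : Matrix (Fin n) (Fin n) (PadicAlgCl ℓ)) =
            Matrix.diagonal fun i => ((cyc ℓ u : (PadicAlgCl ℓ)ˣ) : PadicAlgCl ℓ) ^ (-(w (π i) : ℤ)) := by
  classical
  -- an embedding of `E` into the algebraic numbers, and of the algebraic numbers into `ℂ`
  obtain ⟨j, e, hje⟩ : ∃ (j : E →+* QBar) (e : QBar →+* ℂ), e.comp j = τ := by
    let j : E →ₐ[ℚ] QBar := IsAlgClosed.lift
    let _ : Algebra E QBar := (j : E →+* QBar).toAlgebra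
    let _ : Algebra E ℂ := τ.toAlgebra
    have _ : IsScalarTower ℚ E QBar := IsScalarTower.of_algebraMap_eq fun x => by
      exact (j.commutes x).symm
    have _ : Algebra.IsAlgebraic E QBar := by
      constructor
      intro x
      exact (Pool.Agent.Y800.isAlgebraic_gen ℚ x).tower_top E
    let e : QBar →ₐ[E] ℂ := IsAlgClosed.lift
    refine ⟨j, e, ?_⟩
    ext x
    exact e.commutes x
  -- the roots over the algebraic integers
  have hroots : ∀ p : ℕ, ∃ β : Fin n → ZBar, p.Prime → p ∉ S →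
      (P p).map (RingOfIntegers.mapRingHom j) = ∏ i, (X - Polynomial.C (β i)) ∧
      ∀ i, e (β i : QBar) = α p i := by
    intro p
    by_cases h : p.Prime ∧ p ∉ S
    · obtain ⟨hp, hpS⟩ := h
      have hinjτ : Function.Injective (τ.comp (algebraMap (𝓞 E) E)) :=
        τ.injective.comp RingOfIntegers.coe_injective
      have hPm : (P p).Monic := by
        refine Polynomial.monic_of_injective hinjτ ?_
        rw [hP p hp hpS]
        exact monic_prod_of_monic _ _ fun i _ => monic_X_sub_C _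
      have h0 : (((P p).map (j.comp (algebraMap (𝓞 E) E))).map e) =
          ∏ i, (X - Polynomial.C (α p i)) := by
        rw [Polynomial.map_map, ← hP p hp hpS, ← hje]
        rfl
      have h1 : ((P p).map (j.comp (algebraMap (𝓞 E) E))).roots.map e =
          Finset.univ.val.map (α p) := by
        have h2 := (IsAlgClosed.splits ((P p).map (j.comp (algebraMap (𝓞 E) E)))).roots_map e
        rw [h0] at h2
        rw [← h2]
        have : ∏ i, (X - Polynomial.C (α p i)) =
            ((Finset.univ.val.map (α p)).map fun a => X - Polynomial.C a).prod := by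
          rw [Multiset.map_map]; rfl
        rw [this, Polynomial.roots_multiset_prod_X_sub_C]
      have h2 : ∀ i, ∃ y : QBar, e y = α p i ∧ ((P p).map (j.comp (algebraMap (𝓞 E) E))).IsRoot y := by
        intro i
        have h3 : α p i ∈ ((P p).map (j.comp (algebraMap (𝓞 E) E))).roots.map e := by
          rw [h1]
          exact Multiset.mem_map_of_mem _ (Finset.mem_univ_val i)
        obtain ⟨y, hy, hye⟩ := Multiset.mem_map.1 h3
        exact ⟨y, hye, (Polynomial.mem_roots'.1 hy).2⟩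
      choose y hy hyr using h2
      have hprod : (P p).map (j.comp (algebraMap (𝓞 E) E)) = ∏ i, (X - Polynomial.C (y i)) := by
        apply Polynomial.map_injective e e.injective
        rw [h0, Polynomial.map_prod]
        refine Finset.prod_congr rfl fun i _ => ?_
        rw [Polynomial.map_sub, Polynomial.map_X, Polynomial.map_C, hy]
      have hint : ∀ i, IsIntegral ℤ (y i) := by
        intro i
        let _ : Algebra (𝓞 E) QBar := (j.comp (algebraMap (𝓞 E) E)).toAlgebra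
        have h3 : IsIntegral (𝓞 E) (y i) := by
          refine ⟨P p, hPm, ?_⟩
          have h4 := hyr i
          rw [IsRoot, eval_map] at h4
          exact h4
        have _ : IsScalarTower ℤ (𝓞 E) QBar := IsScalarTower.of_algebraMap_eq fun z => by
          simp
        exact isIntegral_trans (R := ℤ) (A := 𝓞 E) (y i) h3
      have hz : ∀ i, ∃ z : ZBar, (z : QBar) = y i := fun i => ⟨⟨y i, hint i⟩, rfl⟩
      choose z hz using hz
      refine ⟨z, fun _ _ => ⟨?_, fun i => by rw [hz i]; exact hy i⟩⟩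
      apply Polynomial.map_injective (algebraMap ZBar QBar) RingOfIntegers.coe_injective
      rw [Polynomial.map_map, Polynomial.map_prod]
      refine Eq.trans ?_ (hprod.trans ?_)
      · rfl
      · refine Finset.prod_congr rfl fun i _ => ?_
        rw [Polynomial.map_sub, Polynomial.map_X, Polynomial.map_C, ← hz i]
    · exact ⟨0, fun h1 h2 => absurd ⟨h1, h2⟩ h⟩
  choose β hβ using hroots
  obtain ⟨N, b, W, hN, hpow, hperm, hW, hslope⟩ := core j P S β
    (fun p hp hpS => (hβ p hp hpS).1) C hΛ hres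
  obtain ⟨p0, hp0, hp0S⟩ := exists_good_prime S
  refine ⟨b p0, ?_, ?_⟩
  · refine ⟨N, hN, fun p hp hpS => ?_⟩
    obtain ⟨π, hπ⟩ := hperm p p0 hp hpS hp0 hp0S
    refine ⟨π, fun i => ?_⟩
    have h1 := congrArg (fun x : ZBar => e (algebraMap ZBar QBar x)) (hpow p hp hpS i)
    simp only [map_pow, map_natCast] at h1
    have h2 : e (algebraMap ZBar QBar (β p i)) = α p i := (hβ p hp hpS).2 i
    rw [h2] at h1
    have hp0' : (p : ℂ) ≠ 0 := Nat.cast_ne_zero.2 hp.ne_zero
    rw [div_pow, h1, ← hπ i, ← pow_mul, mul_comm N, div_self (pow_ne_zero _ hp0')]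
  · intro ℓ _ ι
    obtain ⟨m, ρ, w', ⟨hc, hss, hρ⟩, ⟨U, hU, hUw⟩, hf⟩ := good_sum (ℓ := ℓ) S b
      ((ι.symm : ℂ →+* PadicAlgCl ℓ).comp e) (fun p i => (β p i : QBar)) hp0 hp0S hslope W
    have hall : ∀ p : ℕ, p.Prime → p ∉ S →
        ∏ i with b p i < W, (X - Polynomial.C (((ι.symm : ℂ →+* PadicAlgCl ℓ).comp e) (β p i : QBar))) =
        ∏ i, (X - Polynomial.C (((ι.symm : ℂ →+* PadicAlgCl ℓ).comp e) (β p i : QBar))) := by
      intro p hp hpS
      rw [Finset.filter_true_of_mem fun i _ => hW p hp hpS i]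
    have hmn : m = n := by
      obtain ⟨p, hp, hpS⟩ := exists_good_prime (insert ℓ S)
      rw [Finset.mem_insert, not_or] at hpS
      obtain ⟨Q, σ, hQ, hpQ, hσ⟩ := Pool.Agent.Y800.exists_geom hp
      have h1 := congrArg natDegree ((((hρ p hp hpS.2 hpS.1).2 Q hQ hpQ σ hσ).2).trans
        (hall p hp hpS.2))
      rw [natDegree_prod_of_monic _ _ (fun i _ => monic_X_sub_C _)] at h1
      simpa using h1
    subst hmn
    have hcard : ∀ x, Fintype.card {i // w' i = x} = Fintype.card {i // b p0 i = x} := by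
      intro x
      have h1 := hf fun y => if y = x then 1 else 0
      rw [Finset.filter_true_of_mem fun i _ => hW p0 hp0 hp0S i] at h1
      rw [Fintype.card_subtype, Fintype.card_subtype, Finset.card_filter, Finset.card_filter]
      exact h1
    obtain ⟨π, hπ⟩ : ∃ π : Fin m ≃ Fin m, ∀ i, b p0 (π i) = w' i := by
      refine ⟨Equiv.ofFiberEquiv fun x => Fintype.equivOfCardEq (hcard x), fun i => ?_⟩
      exact Equiv.ofFiberEquiv_map _ i
    refine ⟨ρ, hc, hss, fun p hp hpS hpl => ⟨(hρ p hp hpS hpl).1, fun Q hQ hpQ σ hσ => ?_⟩,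
      U, π, hU, fun u hu => ?_⟩
    swap
    · rw [hUw u hu]
      simp only [hπ]
    obtain ⟨h1, h2⟩ := (hρ p hp hpS hpl).2 Q hQ hpQ σ hσ
    refine h1.conj _ ?_
    refine (h2.trans (hall p hp hpS)).trans ?_
    refine Finset.prod_congr rfl fun i _ => ?_
    have h3 : e (β p i : QBar) = α p i := (hβ p hp hpS).2 i
    show X - Polynomial.C (ι.symm (e (β p i : QBar))) = X - Polynomial.C (ι.symm (α p i))
    rw [h3]

end

end Pool.Agent.H500.MW
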