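import Pool.Graph.R_seed8.Y115.Tr3
import Pool.Agent.H500.KumGood

set_option autoImplicit false
set_option linter.unusedSectionVars false

/-!
# Almost all primes are unramified; the transfer of a character at inertia and Frobenius elements
-/

namespace Pool.Agent.H500.Tr

open NumberField IsDedekindDomain Pool.Agent.W569.FM Pool.Agent.W571.FM Pool.Agent.Y115.T

section

variable {K : Type} [Field K] [NumberField K]

/-- coprime integers are not in the same proper ideal -/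
theorem not_both {P : Ideal (OO K)} (hP : P ≠ ⊤) {a b : ℕ} (hab : Nat.Coprime a b)
    (ha : (a : OO K) ∈ P) (hb : (b : OO K) ∈ P) : False := by
  apply hP
  rw [Ideal.eq_top_iff_one]
  have h3 := Nat.gcd_eq_gcd_ab a b
  rw [hab.gcd_eq_one] at h3
  have h4 : (1 : OO K) = (a : OO K) * (a.gcdA b : OO K) + (b : OO K) * (a.gcdB b : OO K) := by
    exact_mod_cast congrArg (Int.cast : ℤ → OO K) h3
  rw [h4]
  exact P.add_mem (P.mul_mem_right _ ha) (P.mul_mem_right _ hb)

theorem exists_dvd {x : OO K} (hx : x ≠ 0) : ∃ D : ℕ, 0 < D ∧ x ∣ (D : OO K) := by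
  have : Algebra.IsAlgebraic ℤ (OO K) := inferInstance
  obtain ⟨c, hc0, hc⟩ := (Algebra.IsAlgebraic.isAlgebraic (R := ℤ) x).exists_nonzero_dvd
    (mem_nonZeroDivisors_of_ne_zero hx)
  refine ⟨c.natAbs, Int.natAbs_pos.2 hc0, ?_⟩
  have h1 : ((c.natAbs : ℕ) : OO K) = ((c.natAbs : ℤ) : OO K) :=
    (Int.cast_natCast _).symm
  rw [h1]
  rcases Int.natAbs_eq c with h | h
  · rw [← h]
    simpa using hc
  · have h2 : ((c.natAbs : ℤ)) = -c := by omega
    rw [h2]
    simpa using hc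

theorem fix_almost (x : OO K) : ∃ D : ℕ, 0 < D ∧ ∀ l : ℕ, l.Prime → ¬ l ∣ D →
    ∀ P : Ideal (OO K), P ≠ ⊤ → (l : OO K) ∈ P → ∀ τ : GF K, InInertia P τ → τ • x = x := by
  classical
  have hst : IsOpen ((MulAction.stabilizer (GF K) x : Subgroup (GF K)) : Set (GF K)) := by
    have h1 := stabilizer_isOpen_of_isIntegral (K := K) (x : AlgebraicClosure K)
    convert h1 using 2
    ext g
    rw [MulAction.mem_stabilizer_iff, MulAction.mem_stabilizer_iff]
    constructor
    · intro h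
      exact congrArg (fun z : OO K => (z : AlgebraicClosure K)) h
    · intro h
      exact RingOfIntegers.ext h
  have hfin : Finite (GF K ⧸ MulAction.stabilizer (GF K) x) :=
    Subgroup.quotient_finite_of_isOpen _ hst
  have horb : (MulAction.orbit (GF K) x).Finite := by
    have : Finite (MulAction.orbit (GF K) x) :=
      Finite.of_equiv _ (MulAction.orbitEquivQuotientStabilizer (GF K) x).symm
    exact Set.toFinite _
  set O : Finset (OO K) := horb.toFinset.erase x with hO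
  have hN : ∏ y ∈ O, (y - x) ≠ 0 := by
    rw [Finset.prod_ne_zero_iff]
    intro y hy
    exact sub_ne_zero.2 (Finset.mem_erase.1 hy).1
  obtain ⟨D, hD, hdvd⟩ := exists_dvd hN
  refine ⟨D, hD, fun l hl hlD P hP hlP τ hτ => ?_⟩
  by_contra hne
  have hmem : τ • x ∈ O := by
    rw [hO, Finset.mem_erase, Set.Finite.mem_toFinset]
    exact ⟨hne, τ, rfl⟩
  have h1 : τ • x - x ∣ ∏ y ∈ O, (y - x) := Finset.dvd_prod_of_mem (fun y => y - x) hmem
  have h2 : (D : OO K) ∈ P := P.mem_of_dvd (h1.trans hdvd) (hτ x)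
  exact not_both hP ((hl.coprime_iff_not_dvd).2 hlD) hlP h2

/-- **Almost all primes are unramified.** -/
theorem unram_almost (U : Subgroup (GF K)) (hU : IsOpen (U : Set (GF K))) :
    ∃ D : ℕ, 0 < D ∧ ∀ l : ℕ, l.Prime → ¬ l ∣ D →
    ∀ P : Ideal (OO K), P ≠ ⊤ → (l : OO K) ∈ P → ∀ τ : GF K, InInertia P τ → τ ∈ U := by
  classical
  have h0 : (U : Set (GF K)) ∈ nhds (1 : GF K) := hU.mem_nhds U.one_mem
  rw [krullTopology_mem_nhds_one_iff] at h0
  obtain ⟨L, hL, hLs⟩ := h0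
  let b := Module.finBasis K L
  have hint : ∀ i, ∃ (c : ℤ) (x : OO K), c ≠ 0 ∧
      (x : AlgebraicClosure K) = (c : AlgebraicClosure K) * (b i : AlgebraicClosure K) := by
    intro i
    have halg : IsAlgebraic ℤ (b i : AlgebraicClosure K) := by
      have h1 : Algebra.IsAlgebraic ℚ (AlgebraicClosure K) := by
        have : Algebra.IsAlgebraic ℚ K := inferInstance
        exact Algebra.IsAlgebraic.trans ℚ K (AlgebraicClosure K)
      exact (IsFractionRing.isAlgebraic_iff ℤ ℚ (AlgebraicClosure K)).2 (h1.isAlgebraic _)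
    obtain ⟨c, hc, hci⟩ := halg.exists_integral_multiple
    refine ⟨c, ⟨_, hci⟩, hc, ?_⟩
    show c • (b i : AlgebraicClosure K) = _
    rw [zsmul_eq_mul]
  choose c x hc hx using hint
  choose D hD hDx using fun i => fix_almost (x i)
  refine ⟨∏ i, D i, Finset.prod_pos fun i _ => hD i, fun l hl hlD P hP hlP τ hτ => ?_⟩
  apply hLs
  show τ ∈ L.fixingSubgroup
  rw [IntermediateField.mem_fixingSubgroup_iff]
  have hfix : ∀ i, τ (b i : AlgebraicClosure K) = b i := by
    intro i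
    have hli : ¬ l ∣ D i := fun h => hlD (h.trans (Finset.dvd_prod_of_mem _ (Finset.mem_univ i)))
    have h1 := hDx i l hl hli P hP hlP τ hτ
    have h2 : τ (x i : AlgebraicClosure K) = x i :=
      congrArg (fun z : OO K => (z : AlgebraicClosure K)) h1
    rw [hx, map_mul, map_intCast] at h2
    have hchar : CharZero (AlgebraicClosure K) := charZero_of_injective_algebraMap
      (algebraMap K (AlgebraicClosure K)).injective
    exact mul_left_cancel₀ (Int.cast_ne_zero.2 (hc i)) h2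
  intro y hy
  have h3 := b.sum_repr ⟨y, hy⟩
  have h4 := congrArg (fun w : L => (w : AlgebraicClosure K)) h3
  simp only at h4
  rw [← h4]
  rw [IntermediateField.coe_sum, map_sum]
  refine Finset.sum_congr rfl fun i _ => ?_
  have h5 : ((b.repr ⟨y, hy⟩ i • b i : L) : AlgebraicClosure K) =
      (b.repr ⟨y, hy⟩ i) • (b i : AlgebraicClosure K) := rfl
  rw [h5, Algebra.smul_def, map_mul, hfix]
  congr 1
  exact τ.commutes _

end

section

variable {F : Type} [Field F] [NumberField F]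

/-- the transfer of a character at inertia elements in the normal core -/
theorem transfer_inertia {A : Type} [CommGroup A] (ψ : GF F →* A) {P : Ideal (OO ℚ)}
    (hP : P.IsPrime) {τ : GF ℚ} (hτ : InInertia P τ) (hcore : τ ∈ (HH F).normalCore)
    (hψ : ∀ (Q : Ideal (OO F)), Q.IsPrime → (∀ l : ℕ, (l : OO ℚ) ∈ P → (l : OO F) ∈ Q) →
      ∀ τ, InInertia Q τ → ψ τ = 1) :
    MonoidHom.transfer (ψ.comp (cc F)) τ = 1 := by
  classical
  let _ : Fintype (GF ℚ ⧸ HH F) := Fintype.ofFinite _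
  rw [transfer_core (ψ.comp (cc F)) hcore]
  refine Finset.prod_eq_one fun q _ => ?_
  set a : HH F := ⟨q.out⁻¹ * τ * q.out, core_conj hcore q.out⟩ with ha
  refine hψ (pg P q.out) (pg_prime hP _) ?_ (cc F a) ?_
  · intro l hl
    rw [mem_pg, map_natCast]
    have h1 : (q.out : GF ℚ) • ((l : ℕ) : OO ℚ) = l :=
      map_natCast (MulSemiringAction.toRingEquiv (GF ℚ) (OO ℚ) q.out) l
    rw [h1]
    exact hl
  · intro y
    rw [mem_pg, map_sub, eO_cc, smul_sub, smul_smul]
    have h1 : (q.out : GF ℚ) * (a : GF ℚ) = τ * q.out := by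
      rw [ha]
      group
    rw [h1, mul_smul]
    exact hτ _

/-- **The transfer of a character at Frobenius elements**, with a uniform exponent. -/
theorem transfer_frob' {p : ℕ} (hp : p.Prime) (hur : Unram F p)
    (S : Finset (HeightOneSpectrum (𝓞 F))) (hS : ∀ v, v ∈ S ↔ (p : 𝓞 F) ∈ v.asIdeal) :
    ∃ M : ℕ, 0 < M ∧ ∀ {A : Type} [CommGroup A] (ψ : GF F →* A)
    {P : Ideal (OO ℚ)} (_ : P.IsMaximal) (_ : (p : OO ℚ) ∈ P) {σ : GF ℚ}
    (_ : FrobAt p P σ) (d : HeightOneSpectrum (𝓞 F) → A)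
    (_ : ∀ v : HeightOneSpectrum (𝓞 F), (p : 𝓞 F) ∈ v.asIdeal → ∀ Q : Ideal (OO F), Q.IsPrime →
      cm Q = v.asIdeal → (∀ τ, InInertia Q τ → ψ τ = 1) ∧
        ∀ φ, FrobAt (Ideal.absNorm v.asIdeal) Q φ → ψ φ = d v),
      MonoidHom.transfer (ψ.comp (cc F)) σ ^ M = (∏ v ∈ S, d v) ^ M := by
  classical
  let _ : Fintype (GF ℚ ⧸ HH F) := Fintype.ofFinite _
  set f : HeightOneSpectrum (𝓞 F) → ℕ := fun v => Nat.log p (Ideal.absNorm v.asIdeal) with hf'
  obtain ⟨P0, σ0, hP0, hpP0, hσ0⟩ : ∃ (P : Ideal (OO ℚ)) (σ : GF ℚ), P.IsMaximal ∧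
      (p : OO ℚ) ∈ P ∧ FrobAt p P σ := by
    obtain ⟨⟨P, hP, hpP, σ, hσ⟩, -⟩ := Pool.Agent.W571.FM.main p hp
    exact ⟨P, σ, hP, hpP, hσ⟩
  have hfib : ∀ (P : Ideal (OO ℚ)) (σ : GF ℚ), P.IsMaximal → (p : OO ℚ) ∈ P → FrobAt p P σ →
      (∀ v ∈ S, Ideal.absNorm v.asIdeal = p ^ f v) ∧ ∃ V : GF ℚ ⧸ HH F → HeightOneSpectrum (𝓞 F),
        (∀ q, V q ∈ S) ∧ (∀ g : GF ℚ, (V (g : GF ℚ ⧸ HH F)).asIdeal = cm (pg P g)) ∧
        ∀ v ∈ S, Nat.card {q : GF ℚ ⧸ HH F // V q = v} = f v := by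
    intro P σ hP hpP hσ
    obtain ⟨S', f', V, hS', hf1, hVS, hVg, hfib, -⟩ := fibers hp hP hpP hσ hur
    have hSS : S' = S := by
      ext v
      rw [hS', hS]
    subst hSS
    have hff : ∀ v ∈ S', f' v = f v := by
      intro v hv
      show f' v = Nat.log p (Ideal.absNorm v.asIdeal)
      rw [hf1 v hv]
      exact (Nat.log_pow hp.one_lt _).symm
    refine ⟨fun v hv => by rw [hf1 v hv, hff v hv], V, hVS, hVg, fun v hv => ?_⟩
    rw [hfib v hv, hff v hv]
  obtain ⟨hfS, -⟩ := hfib P0 σ0 hP0 hpP0 hσ0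
  have hf0 : ∀ v ∈ S, 0 < f v := by
    intro v hv
    rcases Nat.eq_zero_or_pos (f v) with h | h
    · exfalso
      have h1 := hfS v hv
      rw [h, pow_zero, Ideal.absNorm_eq_one_iff] at h1
      exact v.isPrime.ne_top h1
    · exact h
  have hfin : ((HH F).normalCore).FiniteIndex := inferInstance
  set m₀ := ((HH F).normalCore).index with hm₀
  have hm0 : 0 < m₀ := Nat.pos_of_ne_zero hfin.index_ne_zero
  set M := m₀ * ∏ v ∈ S, f v with hM
  have hM0 : 0 < M := Nat.mul_pos hm0 (Finset.prod_pos hf0)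
  have hdvd : ∀ v ∈ S, ∃ k, M = f v * k := fun v hv =>
    dvd_mul_of_dvd_right (Finset.dvd_prod_of_mem f hv) m₀
  choose! k hk using hdvd
  refine ⟨M, hM0, ?_⟩
  intro A _ ψ P hP hpP σ hσ d hd
  obtain ⟨hf, V, hVS, hVg, hfib⟩ := hfib P σ hP hpP hσ
  have hcore : σ ^ m₀ ∈ (HH F).normalCore := Subgroup.pow_index_mem _ σ
  have hMcore : σ ^ M ∈ (HH F).normalCore := by
    rw [hM, pow_mul]
    exact Subgroup.pow_mem _ hcore _
  rw [← map_pow, transfer_core (ψ.comp (cc F)) hMcore]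
  have hval : ∀ q : GF ℚ ⧸ HH F, (ψ.comp (cc F)) ⟨q.out⁻¹ * σ ^ M * q.out,
      core_conj hMcore q.out⟩ = d (V q) ^ k (V q) := by
    intro q
    set a : HH F := ⟨q.out⁻¹ * σ ^ M * q.out, core_conj hMcore q.out⟩ with ha
    set Q : Ideal (OO F) := pg P q.out with hQ
    have hQp : Q.IsPrime := pg_prime hP.isPrime _
    have hQv : cm Q = (V q).asIdeal := by
      rw [hQ, ← hVg, QuotientGroup.out_eq']
    have hvp : (p : 𝓞 F) ∈ (V q).asIdeal := (hS _).1 (hVS q)
    have haF : FrobAt (p ^ M) Q (cc F a) := by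
      intro y
      rw [hQ, mem_pg, map_sub, eO_cc, smul_sub, map_pow, smul_pow', smul_smul]
      have h1 : (q.out : GF ℚ) * (a : GF ℚ) = σ ^ M * q.out := by
        rw [ha]
        group
      rw [h1, mul_smul]
      exact frob_pow hσ M _
    obtain ⟨φ, hφ⟩ := exists_frobAt (V q) hQp hQv
    obtain ⟨hin, hfr⟩ := hd (V q) hvp Q hQp hQv
    have hφk : FrobAt (p ^ M) Q (φ ^ k (V q)) := by
      have h1 := frob_pow hφ (k (V q))
      rw [hf (V q) (hVS q), ← pow_mul, ← hk (V q) (hVS q)] at h1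
      exact h1
    have h2 := hin _ (frob_inertia (pow_ne_zero M hp.ne_zero) hQp hφk haF)
    rw [map_mul, map_inv, map_pow, hfr φ hφ, inv_mul_eq_one] at h2
    exact h2.symm
  rw [Finset.prod_congr rfl fun q _ => hval q, ← Finset.prod_pow]
  rw [← Finset.prod_fiberwise_of_maps_to (s := Finset.univ) (t := S) (g := V)
    (fun q _ => hVS q)]
  refine Finset.prod_congr rfl fun v hv => ?_
  have h3 : ∀ q ∈ Finset.univ.filter (fun q => V q = v), d (V q) ^ k (V q) = d v ^ k v := by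
    intro q hq
    rw [(Finset.mem_filter.1 hq).2]
  rw [Finset.prod_congr rfl h3, Finset.prod_const, ← pow_mul]
  congr 1
  have h4 : (Finset.univ.filter (fun q => V q = v)).card = f v := by
    rw [← hfib v hv, Nat.card_eq_fintype_card, Fintype.card_subtype]
  rw [h4, hk v hv, mul_comm]

end

end Pool.Agent.H500.Tr
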