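import Mathlib

set_option autoImplicit false

/-!
# Finite groups of permutations whose nontrivial elements have exactly two fixed points
-/

namespace Pool.Agent.H500.Two

open MulAction

theorem num_sorted {a b c N : ℕ} (ha : 2 ≤ a) (hab : a ≤ b) (hbc : b ≤ c) (hN : 0 < N)
    (h : (1 / a + 1 / b + 1 / c : ℚ) = 1 + 2 / N) : c ≤ 5 ∨ 2 * c = N := by
  have hb : 2 ≤ b := ha.trans hab
  have hc : 2 ≤ c := hb.trans hbc
  have ha' : (2 : ℚ) ≤ a := by exact_mod_cast ha
  have hb' : (2 : ℚ) ≤ b := by exact_mod_cast hb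
  have hc' : (2 : ℚ) ≤ c := by exact_mod_cast hc
  have hN' : (0 : ℚ) < N := by exact_mod_cast hN
  have h2N : (0 : ℚ) < 2 / N := by positivity
  have inv_le : ∀ {m n : ℕ}, 0 < m → m ≤ n → (1 / n : ℚ) ≤ 1 / m := by
    intro m n hm hmn
    have h1 : (0 : ℚ) < m := by exact_mod_cast hm
    have h2 : (m : ℚ) ≤ n := by exact_mod_cast hmn
    exact one_div_le_one_div_of_le h1 h2
  have ha2 : a = 2 := by
    by_contra hne
    have h3 : 3 ≤ a := by omega
    have e1 := inv_le (by norm_num : 0 < 3) h3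
    have e2 := inv_le (by norm_num : 0 < 3) (h3.trans hab)
    have e3 := inv_le (by norm_num : 0 < 3) ((h3.trans hab).trans hbc)
    norm_num at e1 e2 e3
    rw [one_div, one_div, one_div] at h
    linarith
  subst ha2
  have hb4 : b < 4 := by
    by_contra hge
    push Not at hge
    have e2 := inv_le (by norm_num : 0 < 4) hge
    have e3 := inv_le (by norm_num : 0 < 4) (hge.trans hbc)
    norm_num at e2 e3 h
    linarith
  interval_cases b
  · right
    have hc0 : (c : ℚ) ≠ 0 := by linarith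
    have h1 : (1 / c : ℚ) = 2 / N := by
      norm_num at h ⊢
      linarith
    rw [div_eq_div_iff hc0 hN'.ne', one_mul] at h1
    have h2 : N = 2 * c := by exact_mod_cast h1
    exact h2.symm
  · left
    by_contra hge
    push Not at hge
    have e3 := inv_le (by norm_num : 0 < 6) (show 6 ≤ c by omega)
    norm_num at e3 h
    linarith

theorem num {a b c N : ℕ} (ha : 2 ≤ a) (hb : 2 ≤ b) (hc : 2 ≤ c) (hN : 0 < N)
    (h : (1 / a + 1 / b + 1 / c : ℚ) = 1 + 2 / N) :
    (a ≤ 5 ∧ b ≤ 5 ∧ c ≤ 5) ∨ 2 * a = N ∨ 2 * b = N ∨ 2 * c = N := by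
  rcases le_total a b with h1 | h1 <;> rcases le_total b c with h2 | h2 <;>
    rcases le_total a c with h3 | h3
  · rcases num_sorted ha h1 h2 hN h with h4 | h4
    · left; omega
    · right; right; right; exact h4
  · rcases num_sorted ha h1 h2 hN h with h4 | h4
    · left; omega
    · right; right; right; exact h4
  · rcases num_sorted ha h3 h2 hN (by rw [← h]; ring) with h4 | h4
    · left; omega
    · right; right; left; exact h4
  · rcases num_sorted hc h3 h1 hN (by rw [← h]; ring) with h4 | h4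
    · left; omega
    · right; right; left; exact h4
  · rcases num_sorted hb h1 h3 hN (by rw [← h]; ring) with h4 | h4
    · left; omega
    · right; right; right; exact h4
  · rcases num_sorted hb h2 h3 hN (by rw [← h]; ring) with h4 | h4
    · left; omega
    · right; left; exact h4
  · rcases num_sorted hc h2 h1 hN (by rw [← h]; ring) with h4 | h4
    · left; omega
    · right; left; exact h4
  · rcases num_sorted hc h2 h1 hN (by rw [← h]; ring) with h4 | h4
    · left; omega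
    · right; left; exact h4

section

variable {Γ Y : Type*} [Group Γ] [Fintype Γ] [MulAction Γ Y] [Fintype Y]

/-- the counting argument -/
theorem count (hfix : ∀ g : Γ, g ≠ 1 → Nat.card (fixedBy Y g) = 2)
    (hY : ∀ y : Y, ∃ g : Γ, g ≠ 1 ∧ g • y = y) :
    Nat.card Γ = 1 ∨ (∃ y : Y, Nat.card (stabilizer Γ y) = Nat.card Γ) ∨
      (∃ y : Y, 2 * Nat.card (stabilizer Γ y) = Nat.card Γ) ∨
      ∀ y : Y, Nat.card (stabilizer Γ y) ≤ 5 := by
  classical
  set Ω := Quotient (orbitRel Γ Y) with hΩ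
  set N := Fintype.card Γ with hN
  have hN0 : 0 < N := Fintype.card_pos
  have hNQ : (0 : ℚ) < N := by exact_mod_cast hN0
  set e : Ω → ℕ := fun ω => Nat.card (stabilizer Γ ω.out) with he
  have h1 := sum_card_fixedBy_eq_card_orbits_mul_card_group Γ Y
  have h2 := card_eq_sum_card_group_div_card_stabilizer Γ Y
  have hcardY : Fintype.card (fixedBy Y (1 : Γ)) = Fintype.card Y := by
    have : fixedBy Y (1 : Γ) = Set.univ := by
      ext y
      simp
    rw [← Nat.card_eq_fintype_card, ← Nat.card_eq_fintype_card]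
    exact Nat.card_congr ((Equiv.setCongr this).trans (Equiv.Set.univ Y))
  have h3 : Fintype.card Y + 2 * (N - 1) = Fintype.card Ω * N := by
    rw [← h1, ← Finset.add_sum_erase _ _ (Finset.mem_univ (1 : Γ)), hcardY]
    congr 1
    rw [Finset.sum_congr rfl (g := fun _ => 2) (fun g hg => by
      rw [← Nat.card_eq_fintype_card]
      exact hfix g (Finset.ne_of_mem_erase hg)), Finset.sum_const, Finset.card_erase_of_mem
      (Finset.mem_univ _), Finset.card_univ, smul_eq_mul, mul_comm]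
  have hdvd : ∀ ω, e ω ∣ N := by
    intro ω
    rw [hN, ← Nat.card_eq_fintype_card]
    exact Subgroup.card_subgroup_dvd_card _
  have he2 : ∀ ω, 2 ≤ e ω := by
    intro ω
    obtain ⟨g, hg, hgy⟩ := hY ω.out
    have hnt : Nontrivial (stabilizer Γ ω.out) :=
      ⟨⟨⟨g, hgy⟩, 1, fun h => hg (congrArg Subtype.val h)⟩⟩
    have : 1 < Nat.card (stabilizer Γ ω.out) := Finite.one_lt_card
    exact this
  have hst : ∀ y : Y, Nat.card (stabilizer Γ y) = e (Quotient.mk (orbitRel Γ Y) y) := by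
    intro y
    have hrel : (orbitRel Γ Y) (Quotient.out (Quotient.mk (orbitRel Γ Y) y)) y :=
      @Quotient.mk_out _ (orbitRel Γ Y) y
    exact Nat.card_congr (stabilizerEquivStabilizerOfOrbitRel
      ((orbitRel Γ Y).symm hrel)).toEquiv
  have h4 : (Fintype.card Y : ℚ) = ∑ ω, (N : ℚ) / e ω := by
    rw [h2]
    push_cast
    refine Finset.sum_congr rfl fun ω _ => ?_
    have e1 : Fintype.card (stabilizer Γ ω.out) = e ω := Nat.card_eq_fintype_card.symm
    rw [e1, Nat.cast_div (hdvd ω) (by have := he2 ω; positivity)]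
  have h5 : ∑ ω : Ω, (1 - 1 / (e ω : ℚ)) = 2 - 2 / N := by
    have e1 : (Fintype.card Y : ℚ) + 2 * (N - 1) = Fintype.card Ω * N := by
      have := congrArg (fun n : ℕ => (n : ℚ)) h3
      push_cast at this
      rw [Nat.cast_sub hN0, Nat.cast_one] at this
      exact this
    rw [Finset.sum_sub_distrib, Finset.sum_const, Finset.card_univ, nsmul_eq_mul, mul_one]
    have e2 : ∑ ω : Ω, (1 / (e ω : ℚ)) = Fintype.card Y / N := by
      rw [h4, Finset.sum_div]
      refine Finset.sum_congr rfl fun ω _ => ?_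
      field_simp
    rw [e2]
    field_simp
    linarith
  have hf : ∀ ω : Ω, (1 / 2 : ℚ) ≤ 1 - 1 / (e ω : ℚ) := by
    intro ω
    have e1 : (2 : ℚ) ≤ e ω := by exact_mod_cast he2 ω
    have e2 : (1 / (e ω : ℚ)) ≤ 1 / 2 := one_div_le_one_div_of_le (by norm_num) e1
    linarith
  have hf1 : ∀ ω : Ω, 1 - 1 / (e ω : ℚ) < 1 := by
    intro ω
    have e1 : (2 : ℚ) ≤ e ω := by exact_mod_cast he2 ω
    have e2 : (0 : ℚ) < 1 / (e ω : ℚ) := by positivity
    linarith
  have h2N : (0 : ℚ) < 2 / N := by positivity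
  rw [Nat.card_eq_fintype_card]
  set r := Fintype.card Ω with hr
  have hr4 : r < 4 := by
    by_contra hge
    push Not at hge
    have e1 : (r : ℚ) * (1 / 2) ≤ ∑ ω : Ω, (1 - 1 / (e ω : ℚ)) := by
      calc (r : ℚ) * (1 / 2) = ∑ _ω : Ω, (1 / 2 : ℚ) := by
            rw [Finset.sum_const, Finset.card_univ, nsmul_eq_mul]
        _ ≤ _ := Finset.sum_le_sum fun ω _ => hf ω
    have e2 : (4 : ℚ) ≤ r := by exact_mod_cast hge
    rw [h5] at e1
    linarith
  have hsum : ∀ m : ℕ, r = m → ∃ f : Fin m ≃ Ω, ∑ i, (1 - 1 / (e (f i) : ℚ)) = 2 - 2 / N := by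
    intro m hm
    refine ⟨(Fintype.equivFinOfCardEq hm).symm, ?_⟩
    rw [← h5]
    exact Equiv.sum_comp (Fintype.equivFinOfCardEq hm).symm (fun ω => (1 - 1 / (e ω : ℚ)))
  have hcases : r = 0 ∨ r = 1 ∨ r = 2 ∨ r = 3 := by omega
  rcases hcases with h0 | h0 | h0 | h0
  · left
    obtain ⟨f, hf0⟩ := hsum 0 h0
    rw [Fin.sum_univ_zero] at hf0
    have e1 : (N : ℚ) = 1 := by
      field_simp at hf0
      linarith
    exact_mod_cast e1
  · left
    obtain ⟨f, hf0⟩ := hsum 1 h0
    rw [Fin.sum_univ_one] at hf0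
    have e0 := hf1 (f 0)
    rw [hf0] at e0
    have e1 : (N : ℚ) < 2 := by
      have e2 : (1 : ℚ) < 2 / N := by linarith
      rwa [lt_div_iff₀ hNQ, one_mul] at e2
    have e2 : N < 2 := by exact_mod_cast e1
    omega
  · right; left
    obtain ⟨f, hf0⟩ := hsum 2 h0
    rw [Fin.sum_univ_two] at hf0
    have hle : ∀ ω, (1 / N : ℚ) ≤ 1 / e ω := by
      intro ω
      have e1 : (e ω : ℚ) ≤ N := by exact_mod_cast Nat.le_of_dvd hN0 (hdvd ω)
      have e2 : (0 : ℚ) < e ω := by
        have := he2 ω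
        positivity
      exact one_div_le_one_div_of_le e2 e1
    have e1 := hle (f 0)
    have e2 := hle (f 1)
    have e3 : (1 / e (f 0) : ℚ) = 1 / N := by
      have e4 : (2 / N : ℚ) = 1 / N + 1 / N := by ring
      rw [e4] at hf0
      linarith
    refine ⟨(f 0).out, ?_⟩
    have e5 : (e (f 0) : ℚ) = N := by
      rw [one_div, one_div, inv_inj] at e3
      exact e3
    exact_mod_cast e5
  · right; right
    obtain ⟨f, hf0⟩ := hsum 3 h0
    rw [Fin.sum_univ_three] at hf0
    have e1 : (1 / e (f 0) + 1 / e (f 1) + 1 / e (f 2) : ℚ) = 1 + 2 / N := by linarith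
    rcases num (he2 _) (he2 _) (he2 _) hN0 e1 with ⟨h6, h7, h8⟩ | h6 | h6 | h6
    · right
      intro y
      rw [hst y]
      have h9 : f (f.symm (Quotient.mk (orbitRel Γ Y) y)) = Quotient.mk (orbitRel Γ Y) y :=
        f.apply_symm_apply _
      rw [← h9]
      generalize f.symm (Quotient.mk (orbitRel Γ Y) y) = i
      fin_cases i
      · exact h6
      · exact h7
      · exact h8
    · left
      exact ⟨(f 0).out, h6⟩
    · left
      exact ⟨(f 1).out, h6⟩
    · left
      exact ⟨(f 2).out, h6⟩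

end

/-- **Finite groups of permutations whose nontrivial elements have two fixed points.** -/
theorem two_fixed {X : Type*} {Γ : Type*} [Group Γ] [Finite Γ] [MulAction Γ X]
    (h : ∀ g : Γ, g ≠ 1 → ∃ x y : X, x ≠ y ∧ ∀ z, g • z = z ↔ z = x ∨ z = y) :
    (∃ x : X, ∀ g : Γ, g • x = x) ∨
    (∃ x y : X, x ≠ y ∧ ∀ g : Γ, (g • x = x ∧ g • y = y) ∨ (g • x = y ∧ g • y = x)) ∨
    ∀ g : Γ, ∃ j, 0 < j ∧ j ≤ 5 ∧ g ^ j = 1 := by
  classical
  have _ : Fintype Γ := Fintype.ofFinite Γ
  set Y : Set X := {x | ∃ g : Γ, g ≠ 1 ∧ g • x = x} with hYdef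
  have hYfin : Y.Finite := by
    have h1 : Y ⊆ ⋃ g : {g : Γ // g ≠ 1}, {x : X | g.1 • x = x} := by
      rintro x ⟨g, hg, hgx⟩
      exact Set.mem_iUnion.2 ⟨⟨g, hg⟩, hgx⟩
    refine Set.Finite.subset (Set.finite_iUnion fun g => ?_) h1
    obtain ⟨x, y, -, hxy⟩ := h g.1 g.2
    refine (Set.toFinite {x, y}).subset fun z hz => ?_
    exact (hxy z).1 hz
  have hsm : ∀ (g : Γ) (x : X), x ∈ Y → g • x ∈ Y := by
    rintro g x ⟨k, hk, hkx⟩
    refine ⟨g * k * g⁻¹, ?_, ?_⟩
    · intro h1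
      apply hk
      have h2 : k = g⁻¹ * (g * k * g⁻¹) * g := by group
      rw [h2, h1, mul_one, inv_mul_cancel]
    · rw [mul_smul, mul_smul, inv_smul_smul, hkx]
  let _ : MulAction Γ Y :=
    { smul := fun g y => ⟨g • (y : X), hsm g y y.2⟩
      one_smul := fun y => Subtype.ext (one_smul Γ (y : X))
      mul_smul := fun g k y => Subtype.ext (mul_smul g k (y : X)) }
  have hcoe : ∀ (g : Γ) (y : Y), ((g • y : Y) : X) = g • (y : X) := fun _ _ => rfl
  have hYf : Finite Y := hYfin.to_subtype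
  have _ : Fintype Y := Fintype.ofFinite Y
  have hst : ∀ (g : Γ) (y : Y), g • y = y ↔ g • (y : X) = y := by
    intro g y
    rw [Subtype.ext_iff, hcoe]
  rcases count (Γ := Γ) (Y := Y) (by
    intro g hg
    obtain ⟨x, y, hxy, hz⟩ := h g hg
    have hx : x ∈ Y := ⟨g, hg, (hz x).2 (Or.inl rfl)⟩
    have hy : y ∈ Y := ⟨g, hg, (hz y).2 (Or.inr rfl)⟩
    have h1 : fixedBy Y g = {⟨x, hx⟩, ⟨y, hy⟩} := by
      ext z
      rw [mem_fixedBy, hst, hz, Set.mem_insert_iff, Set.mem_singleton_iff, Subtype.ext_iff,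
        Subtype.ext_iff]
    rw [h1, Nat.card_coe_set_eq, Set.ncard_pair]
    intro h2
    exact hxy (congrArg Subtype.val h2)) (by
    rintro ⟨y, g, hg, hgy⟩
    exact ⟨g, hg, (hst g _).2 hgy⟩) with h1 | ⟨y, h1⟩ | ⟨y, h1⟩ | h1
  · right; right
    intro g
    have h2 : Subsingleton Γ := (Nat.card_eq_one_iff_unique.1 h1).1
    exact ⟨1, one_pos, by norm_num, Subsingleton.elim _ _⟩
  · left
    have h2 : stabilizer Γ y = ⊤ := Subgroup.eq_top_of_card_eq _ h1
    refine ⟨y, fun g => ?_⟩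
    have h3 : g ∈ stabilizer Γ y := by rw [h2]; trivial
    exact (hst g y).1 h3
  · right; left
    -- the orbit of `y` has two elements
    have h2 : Nat.card (orbit Γ y) = 2 := by
      have h3 : Nat.card (orbit Γ y) * Nat.card (stabilizer Γ y) = Nat.card Γ := by
        rw [← Nat.card_prod]
        exact Nat.card_congr (orbitProdStabilizerEquivGroup Γ y)
      rw [← h1] at h3
      exact Nat.eq_of_mul_eq_mul_right Nat.card_pos h3
    rw [Nat.card_coe_set_eq, Set.ncard_eq_two] at h2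
    obtain ⟨a, b, hab, h2⟩ := h2
    have hinv : ∀ g : Γ, ∀ z : Y, z = a ∨ z = b → g • z = a ∨ g • z = b := by
      intro g z hz
      have h3 : z ∈ orbit Γ y := by rw [h2]; exact hz
      have h4 : g • z ∈ orbit Γ y := mem_orbit_of_mem_orbit g h3
      rw [h2] at h4
      exact h4
    refine ⟨a, b, fun h => hab (Subtype.ext h), fun g => ?_⟩
    have hne : g • a ≠ g • b := fun h => hab (smul_left_cancel g h)
    have e1 : ∀ u v : Y, g • u = v → g • (u : X) = v := fun u v h => by rw [← hcoe, h]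
    rcases hinv g a (Or.inl rfl) with h3 | h3 <;> rcases hinv g b (Or.inr rfl) with h4 | h4
    · exact absurd (h3.trans h4.symm) hne
    · exact Or.inl ⟨e1 _ _ h3, e1 _ _ h4⟩
    · exact Or.inr ⟨e1 _ _ h3, e1 _ _ h4⟩
    · exact absurd (h3.trans h4.symm) hne
  · right; right
    intro g
    by_cases hg : g = 1
    · exact ⟨1, one_pos, by norm_num, by rw [hg, one_pow]⟩
    · obtain ⟨x, y, -, hxy⟩ := h g hg
      have hx : x ∈ Y := ⟨g, hg, (hxy x).2 (Or.inl rfl)⟩
      have h2 := h1 ⟨x, hx⟩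
      have hgs : g ∈ stabilizer Γ (⟨x, hx⟩ : Y) := (hst g _).2 ((hxy x).2 (Or.inl rfl))
      refine ⟨Nat.card (stabilizer Γ (⟨x, hx⟩ : Y)), Nat.card_pos, h2, ?_⟩
      have h3 := pow_card_eq_one' (x := (⟨g, hgs⟩ : stabilizer Γ (⟨x, hx⟩ : Y)))
      exact congrArg Subtype.val h3

end Pool.Agent.H500.Two
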